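import Pool.Agent.Lib.MP_d610d0_nt.CH.D.Defs
import Pool.Agent.Lib.MP_d610d0_nt.CH.P.Stm
import Pool.Agent.Lib.MP_89da58_nt.LargeArith
import Pool.Agent.Lib.MP_0da313_nt.BV.SepL

set_option autoImplicit false

/-!
Section D (distribution): statements of the pieces. `R_x` is the conclusion, `S_x` the statement to be
proved (with the results it uses as hypotheses).

`J` is large, `L = log J`, windows `J < j ≤ 2 J`, `wJ J j n = tri (2 J log (n / xj j))`,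
`wL lam j n = tri (lam log (n / xj j))`. Careful: `wJ J j 0 = 1` (as `log 0 = 0` in Lean).
`(m * n : ℕ)` stands for the product cast to `ℝ` or `ZMod`; `log (m n) = log m + log n` for `m, n ≥ 1`.
-/

namespace Pool.Agent.CH.D

open Finset Filter
open ArithmeticFunction (vonMangoldt)
open Pool.Agent.MP89da58 (tri primChars)
open Pool.Agent.BVall (boxL)
open Pool.Agent.CH.V (pz ex)
open Pool.Agent.CH.P (R_PW R_PNT)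

/-! ### The large sieve for primitive characters -/

/-- Gauss sums of primitive characters. -/
def R_gs : Prop := ∀ (r : ℕ) [NeZero r] (χ : DirichletCharacter ℂ r), χ.IsPrimitive →
  ‖gaussSum χ (ZMod.stdAddChar (N := r))‖ ^ 2 = r

/-- [D gs] Proof: `e = stdAddChar`, `g = gaussSum χ e`. By `gaussSum_mulShift_of_isPrimitive` (Mathlib,
NumberTheory/DirichletCharacter/GaussSum) `gaussSum χ (e.mulShift a) = χ⁻¹ a * g`, so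
`∑_a ‖gaussSum χ (e.mulShift a)‖^2 = φ(r) ‖g‖^2`. On the other hand it equals
`∑_{b,c} χ(b) conj χ(c) ∑_a e(a (b - c)) = r ∑_b |χ(b)|^2 = r φ(r)` (`AddChar.sum_mulShift` or
`AddChar.sum_eq_zero_of_ne_one`, `ZMod.isPrimitive_stdAddChar`). -/
def S_gs : Prop := R_gs

open Classical in
/-- One modulus. -/
def R_pr : Prop := ∀ (r : ℕ) [NeZero r] (S : Finset ℕ) (x : ℕ → ℂ),
  ∑ χ ∈ (Finset.univ : Finset (DirichletCharacter ℂ r)).filter (fun χ => χ.IsPrimitive),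
    ‖∑ n ∈ S, x n * χ (n : ZMod r)‖ ^ 2
    ≤ ∑ a ∈ (range r).filter (fun a => a.Coprime r), ‖∑ n ∈ S, x n * ex ((a : ℝ) * n / r)‖ ^ 2

/-- [D pr] (uses D gs) Proof: compare `sum_char_prime_le` in `Lib/MP_bca3e5_nt/LS2.lean` (the case of a prime
modulus). For `χ` primitive, `χ(n) gaussSum χ⁻¹ e = ∑_a χ⁻¹(a) e(a n)` for all `n`
(`gaussSum_mulShift_of_isPrimitive` for `χ⁻¹`, which is primitive). With `T(a) = ∑_{n ∈ S} x_n e(a n)`: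
`r ‖∑ x_n χ(n)‖^2 = ‖∑_a χ⁻¹(a) T(a)‖^2` by D gs. The sum over ALL `χ` mod `r` of the right side is
`φ(r) ∑_{a unit} ‖T(a)‖^2` (orthogonality, `DirichletCharacter.sum_char_inv_mul_char_eq`), and
`φ(r) ≤ r`. Finally `e(a n) = ex (a n / r)` for `a = (a : ZMod r)` (`ZMod.stdAddChar_coe`, ...), and the
units correspond to the `a < r` coprime to `r`. -/
def S_pr : Prop := R_gs → R_pr

/-- The large sieve. -/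
def R_ls : Prop := ∃ C : ℝ, 1 ≤ C ∧ ∀ (R K N : ℕ) (x : ℕ → ℂ),
  ∑ p ∈ primChars R, ‖∑ n ∈ Ioc K (K + N), x n * p.2 (n : ZMod p.1)‖ ^ 2
    ≤ C * ((N : ℝ) + (R : ℝ) ^ 2) * ∑ n ∈ Ioc K (K + N), ‖x n‖ ^ 2

/-- [D ls] (uses D pr) Proof: compare `large_sieve_prime` in `Lib/MP_bca3e5_nt/LS2.lean`. Apply R_pr to each
`2 ≤ r ≤ R` with `S = Ioc K (K+N)`; `n = K + m`, `1 ≤ m ≤ N`, and
`‖∑ x_n e(a n/r)‖ = ‖∑_m x_(K+m) e(a m/r)‖ = ‖SS N x' (a/r)‖`. `large_sieve_points` (`LS1.lean`) with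
`δ = 1/R^2`: for different reduced fractions `|a/r - b/s| ≥ 1/(r s) ≥ δ`, and
`δ/2 ≤ 1/R ≤ a/r ≤ 1 - 1/R ≤ 1 - δ/2`. `C = 13`. -/
def S_ls : Prop := R_pr → R_ls

/-! ### Fejer's kernel -/

/-- The triangle as a Fourier integral. -/
def R_kf : Prop := ∀ lam : ℝ, 0 < lam → MeasureTheory.Integrable (kap lam) ∧
  ∀ u : ℝ, ∫ θ : ℝ, (kap lam θ : ℂ) * Complex.exp (Complex.I * ((θ * u : ℝ) : ℂ))
    = (tri (lam * u) : ℂ)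

/-- [D kf] Proof: `f(u) = tri(u)` is continuous with compact support, its Fourier transform is
`𝓕 f(w) = 2 ∫_0^1 (1-u) cos(2π u w) du = (1 - cos 2πw)/(2 π^2 w^2) = sinc(π w)^2` (integration by parts), which
is continuous and at most `min(1, 1/(π w)^2)`, hence integrable. Fourier inversion
(`Continuous.fourierInv_fourier_eq` or similar): `f(u) = ∫ sinc(π w)^2 e^{2π i u w} dw`. Substitute
`θ = 2π lam w` in the integral for `f(lam u)`: `π w = θ/(2 lam)`. -/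
def S_kf : Prop := R_kf

/-- Bounds for the kernel. -/
def R_kb : Prop := ∀ lam : ℝ, 0 < lam → (∀ θ, 0 ≤ kap lam θ) ∧
  (∀ θ, kap lam θ ≤ 1 / (2 * Real.pi * lam)) ∧
  (∀ θ, θ ≠ 0 → kap lam θ ≤ 2 * lam / (Real.pi * θ ^ 2)) ∧
  (∀ θ, |θ| ≤ lam → 1 / (8 * lam) ≤ kap lam θ) ∧
  (∀ lam' θ, lam ≤ lam' → |lam' * kap lam' θ - lam * kap lam θ| ≤ θ ^ 2 / lam ^ 2) ∧
  (∀ lam' θ, 0 < lam' → |lam' * kap lam' θ - lam * kap lam θ| ≤ 1 / (2 * Real.pi)) ∧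
  Continuous (kap lam)

/-- [D kb] Proof: `|sinc x| ≤ 1`, `|sinc x| ≤ 1/|x|`, `sinc x ≥ 1 - x^2/6` (so `sinc(x)^2 ≥ 1 - x^2/3` for all
`x`, and `≥ 0.91` for `|x| ≤ 1/2`), with `x = θ/(2 lam)`; `0.91/(2π) ≥ 1/8`. `lam * kap lam θ = sinc(x)^2/(2π)`
lies in `[(1 - θ^2/(12 lam^2))/(2π), 1/(2π)]` and in `[0, 1/(2π)]`. -/
def S_kb : Prop := R_kb

/-- Bessel's inequality. -/
def R_bes : Prop := ∀ lam : ℝ, 0 < lam → ∀ (S : Finset ℕ) (y : ℕ → ℝ),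
  (∀ i ∈ S, ∀ k ∈ S, i ≠ k → 1 / lam ≤ |y i - y k|) →
  ∀ g : ℝ → ℂ, Measurable g → (∃ B : ℝ, ∀ θ, ‖g θ‖ ≤ B) →
  ∑ i ∈ S, ‖∫ θ : ℝ, (kap lam θ : ℂ) * g θ * Complex.exp (-(Complex.I * ((θ * y i : ℝ) : ℂ)))‖ ^ 2
    ≤ ∫ θ : ℝ, kap lam θ * ‖g θ‖ ^ 2

/-- [D bes] (uses D kf, D kb) Proof: let `e_i(θ) = exp(iθ y_i)`, `c_i` the integral. Then
`0 ≤ ∫ kap |g - ∑ c_i e_i|^2 = ∫ kap |g|^2 - 2 ∑ |c_i|^2 + ∑_{i,k} c_i conj(c_k) ∫ kap e^{iθ(y_i - y_k)}`, and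
the last integral is `tri(lam (y_i - y_k))`, i.e. `1` for `i = k` and `0` for `i ≠ k` (R_kf). -/
def S_bes : Prop := R_kf → R_kb → R_bes

/-- The windows. -/
def R_spc : Prop := ∀ J : ℕ, 1 ≤ J →
  (∀ i ∈ Ioc J (2 * J), ∀ k ∈ Ioc J (2 * J), i ≠ k →
    1 / (2 * (J : ℝ)) ≤ |Real.log (xj i) - Real.log (xj k)|) ∧
  (∀ j ∈ Ioc J (2 * J), ∀ n : ℕ, 1 ≤ n → wJ J j n ≠ 0 → j ^ 3 < n ∧ n < (j + 1) ^ 3) ∧
  (∀ j ∈ Ioc J (2 * J), ∀ (n : ℕ) (lam : ℝ), 1 ≤ n → 10 ≤ lam → wL lam j n ≠ 0 →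
    J ^ 3 < 2 * n ∧ n < 27 * J ^ 3)

/-- [D spc] Proof: `log xj(j+1) - log xj(j) = 3 log(1 + 1/(j+1/2)) ≥ 3/(j+3/2) ≥ 1/(2J)` for `j + 1 ≤ 2J`
(`log(1+x) ≥ x/(1+x)`), and `log xj` is monotone. `wJ ≠ 0` means `|log(n/xj)| < 1/(2J)`;
`log((j+1)^3/xj) = 3 log(1+1/(2j+1)) ≥ 3/(2j+2) ≥ 1/(2J)` and `log(xj/j^3) = 3 log(1+1/(2j)) ≥ 3/(2j+1) ≥ 1/(2J)`.
`wL ≠ 0`: `|log(n/xj)| < 1/10`, `(J+1)^3 ≤ xj ≤ (2.5 J)^3`, `e^(0.1) ≤ 1.11`. -/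
def S_spc : Prop := R_spc

/-- Mean values of Dirichlet polynomials with Fejer's kernel. -/
def R_sch : Prop := ∀ (lam : ℝ) (N : ℕ) (b : ℕ → ℂ), 1 ≤ lam →
  ∫ θ : ℝ, kap lam θ * ‖dp b N θ‖ ^ 2 ≤ (1 + 3 * N / lam) * ∑ n ∈ Icc 1 N, ‖b n‖ ^ 2

/-- [D sch] (uses D kf, D kb) Proof: expand the square (finite sums), integrate with R_kf:
`= ∑_{m,n} b_m conj(b_n) tri(lam (log m - log n)) ≤ ∑_n |b_n|^2 #{m ∈ [1,N] : |log m - log n| < 1/lam}` (by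
`|b_m b_n| ≤ (|b_m|^2 + |b_n|^2)/2`). These `m` lie in an open interval of length at most
`n (e^(1/lam) - e^(-1/lam)) ≤ 2.36 N/lam`, so there are at most `1 + 3 N/lam`. -/
def S_sch : Prop := R_kf → R_kb → R_sch

/-! ### Bilinear forms: small conductors -/

/-- Mean squares over the windows. -/
def R_ms : Prop := ∀ (J M N : ℕ) (a b : ℕ → ℂ) (S : ℝ), 2 ≤ J → 0 ≤ S →
  (∀ θ : ℝ, |θ| ≤ (J : ℝ) ^ 3 → ‖dp a M θ‖ ≤ S) →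
  ∑ j ∈ Ioc J (2 * J), ‖∑ m ∈ Icc 1 M, ∑ n ∈ Icc 1 N, a m * b n * (wJ J j (m * n) : ℂ)‖ ^ 2
    ≤ S ^ 2 * (1 + 3 * N / (2 * J)) * ∑ n ∈ Icc 1 N, ‖b n‖ ^ 2
      + 3 / (J : ℝ) ^ 2 * ((∑ m ∈ Icc 1 M, ‖a m‖) * ∑ n ∈ Icc 1 N, ‖b n‖) ^ 2

/-- [D ms] (uses D kf, D kb, D bes, D spc, D sch) Proof: `lam = 2J`, `g = dp a M * dp b N`. By R_kf the inner
double sum is `∫ kap(θ) g(θ) exp(-iθ log xj)`. R_bes with `y_j = log xj` (R_spc): the sum is at most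
`∫ kap |g|^2`. For `|θ| ≤ J^3`: `|g| ≤ S |dp b N|` and R_sch. For `|θ| > J^3`: `|g| ≤ ∑|a| ∑|b|`, and
`∫_{|θ| > J^3} kap ≤ 2 ∫_{J^3}^∞ 4J/(π θ^2) dθ = 8/(π J^2) ≤ 3/J^2`. -/
def S_ms : Prop := R_kf → R_kb → R_bes → R_spc → R_sch → R_ms

/-- Comparison of short and long windows. -/
def R_cm : Prop := ∀ (J M N : ℕ) (a b : ℕ → ℂ) (S T lam : ℝ), 2 ≤ J → 0 ≤ S → 1 ≤ T → T ≤ 2 * J →
  1 ≤ lam → lam ≤ 2 * J →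
  (∀ θ : ℝ, T ≤ |θ| → |θ| ≤ (J : ℝ) ^ 3 → ‖dp a M θ‖ ≤ S) →
  ∑ j ∈ Ioc J (2 * J), ‖∑ m ∈ Icc 1 M, ∑ n ∈ Icc 1 N, a m * b n *
      ((2 * J * wJ J j (m * n) - lam * wL lam j (m * n) : ℝ) : ℂ)‖ ^ 2
    ≤ 50 * (J : ℝ) ^ 2 * S ^ 2 * (1 + 3 * N / (2 * J)) * ∑ n ∈ Icc 1 N, ‖b n‖ ^ 2
      + (4 * J * T ^ 6 / lam ^ 4 + 50 + 4 * lam ^ 4 / J)
        * ((∑ m ∈ Icc 1 M, ‖a m‖) * ∑ n ∈ Icc 1 N, ‖b n‖) ^ 2

/-- [D cm] (uses D kf, D kb, D bes, D spc, D sch) Proof: put `Ab = dp a M`, `Bb = dp b N`,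
`W = ∑|a| ∑|b| ≥ |Ab Bb|`, `K(θ) = 2J kap(2J,θ) - lam kap(lam,θ)`, `y = log xj`. By R_kf the inner double sum is
`∫ K Ab Bb e^{-iθy} = I1 + I2 + I3 - I4`:
I1 = `∫_{|θ| ≤ T}`: `|K| ≤ θ^2/lam^2`, so `|I1| ≤ T^3 W/lam^2`; sum over `j` of the squares `≤ J T^6 W^2/lam^4`.
I2 = `∫_{T < |θ| ≤ 2J}`: R_bes (for `kap(2J)`) with `g = 1_{T<|θ|≤2J} (K/kap(2J)) Ab Bb`; `|K| ≤ 1/(2π)`,
`kap(2J) ≥ 1/(16J)` there, so `|g| ≤ (16J/(2π)) |Ab Bb|`, sum of squares `≤ 7 J^2 S^2 ∫ kap(2J) |Bb|^2` and R_sch.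
I3 = `2J ∫_{|θ|>2J} kap(2J) Ab Bb e^{-iθy}`: R_bes with `g = 2J 1_{|θ|>2J} Ab Bb`; split the integral at `J^3 ≥ 2J`:
`≤ 4J^2 (S^2 (1+3N/(2J)) ∑|b|^2 + (3/J^2) W^2)`.
I4 = `lam ∫_{|θ|>2J} kap(lam) Ab Bb e^{-iθy}`: `|I4| ≤ lam * 2 ∫_{2J}^∞ 2 lam/(πθ^2) dθ * W = (2 lam^2/(π J)) W`.
Then `‖∑‖^2 ≤ 4 (|I1|^2 + ... + |I4|^2)`. -/
def S_cm : Prop := R_kf → R_kb → R_bes → R_spc → R_sch → R_cm

/-! ### Bilinear forms: large conductors -/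

/-- The first variable. -/
def R_bA : Prop := ∃ C : ℝ, 1 ≤ C ∧ ∀ (J M R : ℕ) (a : ℕ → ℂ), 1 ≤ J → 1 ≤ R →
  ∫ s : ℝ, ∑ p ∈ primChars R, ‖∑ m ∈ Icc 1 M, a m * p.2 (m : ZMod p.1) *
      (boxL (2 * J) (Real.log m) s : ℂ)‖ ^ 2
    ≤ C * ((R : ℝ) ^ 2 + M / J) / J * ∑ m ∈ Icc 1 M, ‖a m‖ ^ 2

/-- [D bA] (uses D ls) Proof: `lam = 2J ≥ 2`. Fix `s`. The `m ∈ [1,M]` with `boxL lam (log m) s = 1` are those with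
`e^s ≤ m ≤ e^(s+1/lam)`, i.e. an interval of integers `Ioc K (K+N')` with `N' ≤ 1 + 1.3 M/lam ≤ 1 + M/J`
(if it is not empty then `e^s ≤ M`). R_ls: `∑_p ≤ C (1 + M/J + R^2) ∑_m |a_m|^2 boxL lam (log m) s`. Integrate
over `s`: `∫ boxL = 1/lam = 1/(2J)`. -/
def S_bA : Prop := R_ls → R_bA

/-- The second variable. -/
def R_bB : Prop := ∃ C : ℝ, 1 ≤ C ∧ ∀ (J N R : ℕ) (b g : ℕ → ℂ), 1 ≤ J → 1 ≤ R →
  ∫ s : ℝ, ∑ p ∈ primChars R, ‖∑ n ∈ Icc 1 N, b n * p.2 (n : ZMod p.1) *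
      ∑ j ∈ Ioc J (2 * J), g j * (boxL (2 * J) (Real.log (xj j) - Real.log n) s : ℂ)‖ ^ 2
    ≤ C * ((R : ℝ) ^ 2 + N) / J * (∑ n ∈ Icc 1 N, ‖b n‖ ^ 2) * ∑ j ∈ Ioc J (2 * J), ‖g j‖ ^ 2

/-- [D bB] (uses D ls, D spc) Proof: for fixed `s` R_ls (`K = 0`) with `x_n = b_n G_n(s)`,
`G_n(s) = ∑_j g_j boxL(log xj - log n)(s)`: at most `C (N + R^2) ∑_n |b_n|^2 |G_n(s)|^2`. `∫ |G_n|^2 =
∑_{j,k} g_j conj(g_k) ∫ boxL boxL = ∑_j |g_j|^2/(2J)` by `integral_boxL_mul` (`tri (lam (y_j - y_k)) = 0` for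
`j ≠ k` by R_spc). -/
def S_bB : Prop := R_ls → R_spc → R_bB

/-- The bilinear large sieve in short windows. -/
def R_bil : Prop := ∃ C : ℝ, 1 ≤ C ∧ ∀ (J M N R : ℕ) (a b : ℕ → ℂ)
  (th : (Σ q, DirichletCharacter ℂ q) → ℂ), 1 ≤ J → 1 ≤ R → (∀ p, ‖th p‖ ≤ 1) →
  ∑ j ∈ Ioc J (2 * J), ‖∑ p ∈ primChars R, th p * ∑ m ∈ Icc 1 M, ∑ n ∈ Icc 1 N,
      a m * b n * p.2 ((m * n : ℕ) : ZMod p.1) * (wJ J j (m * n) : ℂ)‖ ^ 2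
    ≤ C * ((R : ℝ) ^ 2 + M / J) * ((R : ℝ) ^ 2 + N) *
      ((∑ m ∈ Icc 1 M, ‖a m‖ ^ 2) * ∑ n ∈ Icc 1 N, ‖b n‖ ^ 2)

/-- [D bil] (uses D bA, D bB) Proof: `c_j` = the inner sum, `g_j = conj c_j`, `lam = 2J`. By `integral_boxL_mul`
`wJ J j (m n) = tri(lam (log m - (log xj - log n))) = lam ∫ boxL (log m) s * boxL (log xj - log n) s ds`, so
`∑_j |c_j|^2 = ∑_j g_j c_j = lam ∫ ∑_p th_p A_p(s) B_p(s) ds`, `A_p`, `B_p` the inner sums of R_bA, R_bB. Cauchy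
in `(s, p)`: `(∑|c_j|^2)^2 ≤ lam^2 (∫ ∑|A_p|^2)(∫ ∑|B_p|^2) ≤ 4 J^2 * C^2 (...)(...)/J^2 * ∑|a|^2 ∑|b|^2 ∑|g_j|^2`;
divide by `∑|c_j|^2`. (All integrands are finite combinations of `boxL`, bounded with compact support.) -/
def S_bil : Prop := R_bA → R_bB → R_bil

/-! ### Bilinear forms with parameters -/

/-- Large conductors, one block. -/
def R_blk : Prop := ∀ (A : ℕ) (δ : ℝ), 0 < δ → ∃ B : ℕ, ∀ᶠ J : ℕ in atTop, ∀ (R M N : ℕ)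
  (a b : ℕ → ℂ) (th : (Σ q, DirichletCharacter ℂ q) → ℂ), (Real.log J) ^ B ≤ (R : ℝ) →
  (R : ℝ) ≤ (J : ℝ) ^ (999 / 1000 : ℝ) → (∀ p, ‖th p‖ ≤ 1) → (J : ℝ) ^ δ ≤ M → (J : ℝ) ^ δ ≤ N →
  M * N ≤ 27 * J ^ 3 →
  ∑ m ∈ Icc 1 (2 * M), ‖a m‖ ^ 2 ≤ M * (Real.log J) ^ 6 →
  ∑ n ∈ Icc 1 (2 * N), ‖b n‖ ^ 2 ≤ N * (Real.log J) ^ 6 →
  ∑ j ∈ Ioc J (2 * J), ‖∑ p ∈ primChars R, th p * ∑ m ∈ Icc 1 (2 * M), ∑ n ∈ Icc 1 (2 * N),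
      a m * b n * p.2 ((m * n : ℕ) : ZMod p.1) * (wJ J j (m * n) : ℂ)‖ ^ 2
    ≤ (R : ℝ) ^ 2 * (J : ℝ) ^ 5 / (Real.log J) ^ A

/-- [D blk] (uses D bil) Proof: if `M < N` exchange the roles of `(M, a)` and `(N, b)` (`m n = n m`); so let
`N ≤ M`, `N ≤ 6 J^(3/2)`, `M ≤ 27 J^(3-δ)`. R_bil gives at most
`C (R^2 + 2M/J)(R^2 + 2N) M N L^12 ≤ 27 C J^3 L^12 (R^4 + 2R^2 N + 2R^2 M/J + 4MN/J)`, and each of the four terms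
is at most `R^2 J^5/(4 L^A)`: `R^2 ≤ J^(1998/1000)`; `J^3 N ≤ 6 J^(4.5)`; `J^2 M ≤ 27 J^(5-δ)`;
`J^2 M N ≤ 27 J^5 ≤ R^2 J^5 L^(-2B) 27`, `B = A + 13`. -/
def S_blk : Prop := R_bil → R_blk

/-- Small conductors, one block. -/
def R_sml : Prop := ∀ A : ℕ, ∀ᶠ J : ℕ in atTop, ∀ (M N : ℕ) (a b : ℕ → ℂ), J ≤ 4 * N →
  M * N ≤ 27 * J ^ 3 →
  ∑ m ∈ Icc 1 (2 * M), ‖a m‖ ≤ M * (Real.log J) ^ 6 →
  ∑ n ∈ Icc 1 (2 * N), ‖b n‖ ^ 2 ≤ N * (Real.log J) ^ 6 →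
  (∀ θ : ℝ, |θ| ≤ (J : ℝ) ^ 3 → ‖dp a (2 * M) θ‖ ≤ M / (Real.log J) ^ (A + 4)) →
  ∑ j ∈ Ioc J (2 * J), ‖∑ m ∈ Icc 1 (2 * M), ∑ n ∈ Icc 1 (2 * N),
      a m * b n * (wJ J j (m * n) : ℂ)‖ ^ 2 ≤ (J : ℝ) ^ 5 / (Real.log J) ^ A

/-- [D sml] (uses D ms) Proof: `S = M/L^(A+4)`; `1 + 3N/J ≤ 7N/J`; the first term of R_ms is at most
`7 (MN)^2 L^(6-2A-8)/J ≤ 7 * 729 J^5 L^(-2A-2)`. `∑|b| ≤ √2 N L^3` (Cauchy), the second term is at most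
`(3/J^2) * 2 (MN)^2 L^18 ≤ 4374 J^4 L^18`. -/
def S_sml : Prop := R_ms → R_sml

/-- Comparison, one block. -/
def R_cpm : Prop := ∀ A D : ℕ, ∃ E0 : ℕ, ∀ E : ℕ, E0 ≤ E → ∀ᶠ J : ℕ in atTop, ∀ (M N : ℕ)
  (a b : ℕ → ℂ), J ≤ 4 * N → M * N ≤ 27 * J ^ 3 →
  ∑ m ∈ Icc 1 (2 * M), ‖a m‖ ≤ M * (Real.log J) ^ 6 →
  ∑ n ∈ Icc 1 (2 * N), ‖b n‖ ^ 2 ≤ N * (Real.log J) ^ 6 →
  (∀ θ : ℝ, (Real.log J) ^ D ≤ |θ| → |θ| ≤ (J : ℝ) ^ 3 →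
    ‖dp a (2 * M) θ‖ ≤ M / (Real.log J) ^ (A + 4)) →
  ∑ j ∈ Ioc J (2 * J), ‖∑ m ∈ Icc 1 (2 * M), ∑ n ∈ Icc 1 (2 * N), a m * b n *
      ((2 * J * wJ J j (m * n) - (Real.log J) ^ E * wL ((Real.log J) ^ E) j (m * n) : ℝ) : ℂ)‖ ^ 2
    ≤ (J : ℝ) ^ 7 / (Real.log J) ^ A

/-- [D cpm] (uses D cm) Proof: `E0 = 6D + A + 19`. R_cm with `S = M/L^(A+4)`, `T = L^D`, `lam = L^E`. First term:
`50 J^2 * 7 (MN)^2 L^(-2A-2)/J ≤ 350 * 729 J^7 L^(-2A-2)`. As in D sml `W^2 ≤ 2 (27 J^3)^2 L^18`, so the second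
term is at most `1458 J^6 L^18 (4 J L^(6D-4E) + 50 + 4 L^(4E)/J)`. -/
def S_cpm : Prop := R_cm → R_cpm

/-- Dyadic decomposition. -/
def R_dya : Prop := ∀ᶠ J : ℕ in atTop, ∀ (U V : ℕ) (f : ℕ → ℕ → ℕ → ℂ) (K : ℝ), 1 ≤ U → 1 ≤ V →
  0 ≤ K →
  (∀ j ∈ Ioc J (2 * J), ∀ m n : ℕ, 1 ≤ m → 1 ≤ n → f j m n ≠ 0 →
    U < m ∧ V < n ∧ J ^ 3 < 2 * (m * n) ∧ m * n < 27 * J ^ 3) →
  (∀ M N : ℕ, U ≤ M → V ≤ N → J ^ 3 < 8 * (M * N) → M * N ≤ 27 * J ^ 3 →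
    ∑ j ∈ Ioc J (2 * J), ‖∑ m ∈ Ioc M (2 * M), ∑ n ∈ Ioc N (2 * N), f j m n‖ ^ 2 ≤ K) →
  ∑ j ∈ Ioc J (2 * J), ‖∑ m ∈ Icc 1 (27 * J ^ 3), ∑ n ∈ Icc 1 (27 * J ^ 3), f j m n‖ ^ 2
    ≤ (Real.log J) ^ 5 * K

/-- [D dya] Proof: `M_i = 2^i U`, `N_k = 2^k V`, `0 ≤ i, k < I`, `I = ⌊5 L⌋` (`2^I ≥ 27 J^3`). The blocks
`Ioc M_i (2 M_i) × Ioc N_k (2 N_k)` cover all `(m, n)` with `f j m n ≠ 0`, `m, n ≥ 1`. A block on which `f` is not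
identically `0` satisfies `J^3 < 2mn ≤ 8 M_i N_k` and `M_i N_k < mn < 27 J^3`. Cauchy:
`‖∑_{i,k}‖^2 ≤ I^2 ∑_{i,k} ‖..‖^2`, so the sum is at most `I^4 K ≤ 625 L^4 K ≤ L^5 K`. -/
def S_dya : Prop := R_dya

/-! ### The von Mangoldt function -/

/-- Vaughan's identity with two parameters. -/
def R_vau : Prop := ∀ U V X : ℕ, ∃ c d e : ℕ → ℝ,
  (∀ n, |c n| ≤ 1) ∧ (∀ n, V < n → c n = 0) ∧
  (∀ n, 1 ≤ n → |d n| ≤ Real.log n) ∧ (∀ n, U * V < n → d n = 0) ∧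
  (∀ n, |e n| ≤ n.divisors.card) ∧ (∀ n, n ≤ V → e n = 0) ∧
  ∀ w : ℕ → ℂ, (∀ n, n ≤ U → w n = 0) → (∀ n, X < n → w n = 0) →
  ∑ n ∈ Icc 1 X, (vonMangoldt n : ℂ) * w n
    = ∑ m ∈ Icc 1 X, ∑ n ∈ Icc 1 X, (c m : ℂ) * (Real.log n : ℂ) * w (m * n)
      - ∑ m ∈ Icc 1 X, ∑ n ∈ Icc 1 X, (d m : ℂ) * w (m * n)
      + ∑ m ∈ Icc 1 X, ∑ n ∈ Icc 1 X, ((if U < m then vonMangoldt m else 0 : ℝ) : ℂ) * (e n : ℂ) *
          w (m * n)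

/-- [D vau] Proof: as `vaughan` in `Lib/MP_89da58_nt/LargeArith.lean` and its use in `Large.lean`
(`sum_psiChi_le`, `sum_conv`), but with the two parameters `U`, `V`:
`Λ = trunc U Λ + trunc V μ * log - (trunc V μ * trunc U Λ) * ζ + (Λ - trunc U Λ) * ((μ - trunc V μ) * ζ)`.
`c = trunc V μ`, `d = trunc V μ * trunc U Λ`, `e = (μ - trunc V μ) * ζ`. -/
def S_vau : Prop := R_vau

/-- Type I sums with a nontrivial character. -/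
def R_tI : Prop := ∀ (J j d N r : ℕ) (χ : DirichletCharacter ℂ r), 1 ≤ J → j ∈ Ioc J (2 * J) →
  1 ≤ d → 2 ≤ r → χ ≠ 1 →
  ‖∑ n ∈ Icc 1 N, χ (n : ZMod r) * (wJ J j (d * n) : ℂ)‖ ≤ 3 * r ∧
  ‖∑ n ∈ Icc 1 N, χ (n : ZMod r) * (Real.log n : ℂ) * (wJ J j (d * n) : ℂ)‖
    ≤ 4 * r * Real.log (N + 1)

/-- [D tI] Proof: Abel summation with the partial sums of `χ` (at most `r`: `norm_sum_Icc_char_le` in
`Lib/MP_89da58_nt/LargeSieve.lean`): `|∑ χ(n) g(n)| ≤ r (|g(N)| + ∑_{n<N} |g(n) - g(n+1)|)`.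
`g(n) = tri(2J log(d n/xj))` is nondecreasing for `d n ≤ xj` and nonincreasing afterwards, with values in
`[0,1]`, so its variation is at most `2`; the variation of `g(n) log n` is at most
`2 log N + log N`. -/
def S_tI : Prop := R_tI

/-- Type I sums without character. -/
def R_tO : Prop := ∃ C : ℝ, ∀ (J j d N : ℕ) (lam : ℝ), 2 ≤ J → j ∈ Ioc J (2 * J) → 1 ≤ d →
  d ≤ J ^ 2 → 10 ≤ lam → lam ≤ 2 * J → 27 * J ^ 3 ≤ d * N →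
  |∑ n ∈ Icc 1 N, (2 * J * wJ J j (d * n) - lam * wL lam j (d * n))|
    ≤ C * ((J : ℝ) ^ 3 / (d * lam ^ 2) + J) ∧
  |∑ n ∈ Icc 1 N, Real.log n * (2 * J * wJ J j (d * n) - lam * wL lam j (d * n))|
    ≤ C * Real.log J * ((J : ℝ) ^ 3 / (d * lam ^ 2) + J)

/-- [D tO] Proof: let `y = xj/d ≥ J`, `μ ≥ 2` (`μ = lam` or `μ = 2J`; if `2J < 10` all is bounded, take `C` large,
or note `lam ≤ 2J` and `10 ≤ lam`), `g(t) = tri(μ log(t/y))`. `|∑_{n ≤ N} g(n) - ∫_0^∞ g(t) dt| ≤ 2`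
(total variation; the support is contained in `(0, N]`), and
`∫ g = y ∫ tri(μ u) e^u du = y * 2 μ (cosh(1/μ) - 1)`, so `μ ∫ g = y (1 + O(μ^(-2)))` (`2 x^(-2) (cosh x - 1) ∈
[1, 1 + x^2/11]` for `x ≤ 1/10`). The difference for `μ = 2J` and `μ = lam` is at most
`y/lam^2 + 2 (2J + lam)`, `y ≤ 16 J^3/d`. With `log n`: the variation of `g(t) log t` is at most `3 log(2y)`, and
`∫ g(t) log t dt = y ∫ (log y + u) tri(μu) e^u du`, where `|∫ u tri(μu) e^u du| = |∫ u tri(μu)(e^u - 1) du| ≤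
2 ∫ u^2 tri(μu) du ≤ μ^(-3)`; so `μ ∫ g log = y log y (1 + O(μ^(-2))) + O(y μ^(-2))`. -/
def S_tO : Prop := R_tO

/-- Large conductors for `Λ`. -/
def R_LL : Prop := LCb FL

/-- [D LL] (uses D blk, D dya, D vau, D tI, D spc) Proof: `U = V = ⌊J^(1/5000)⌋`, `X = 27 J^3`, R_vau with
`w n = χ(n) wJ J j n` (`n ≤ U`: then `n < J^3`, R_spc). For `p ∈ primChars R`: `‖T1‖ ≤ V * 4R log(X+1)`,
`‖T2‖ ≤ UV * 3R * log X` by R_tI (`p.2 ≠ 1`); there are at most `R^2` characters (`card_primChars`), so these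
contribute to the sum over `j` at most `J (R^2 * 40 J^(1/2500) R L)^2 ≤ R^2 J^5/(4 L^A)` as `R^4 ≤ J^(3.996)`.
T3: R_dya with `f j m n = ∑_p th_p a_m e_n χ_p(mn) wJ J j (mn)`, `a_m = Λ(m) 1_{m>U}`, and for each block R_blk with
`δ = 1/6000`, `A + 6` and the restrictions of `a`, `e` to `(M, 2M]`, `(N, 2N]`: `∑ Λ^2 ≤ 2M (log 54J^3)^2 ≤ M L^6`,
`∑ τ^2 ≤ 2N (1 + log 2N)^3 ≤ N L^6` (`sum_tau_sq`). -/
def S_LL : Prop := R_blk → R_dya → R_vau → R_tI → R_spc → R_LL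

/-- Small conductors for `Λ`. -/
def R_SL : Prop := SCb FL

/-- [D SL] (uses D sml, D dya, D vau, D tI, D spc, P PW) Proof: `U = ⌊J^(1/10)⌋`, `V = ⌊J^(11/10)⌋`, R_vau with
`w n = χ(n) wJ J j n`. R_tI: `‖T1‖ + ‖T2‖ ≤ UV * 4r (L*4)^2 ≤ J^(6/5) L^(B+3)`; squares times `J` are
`≤ J^(3.5)`. T3: R_dya, for each block R_sml (with `A + 6`) for `a'_m = Λ(m) χ(m) 1_{M<m≤2M}`, `b'_n = e_n χ(n) 1_{N<n≤2N}`:
`dp a' (2M) θ = ∑_{M<m≤2M} Λ(m) χ(m) pz (-θ) m` is at most `2M/(log 2M)^(A')` by R_PW (`κ = 30`,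
`B + 1`, the real number `2M ≥ J^(1/10)`, `A' = A + 11`), `log 2M ≥ L/10`; `J ≤ V + 1 ≤ 4N`. -/
def S_SL : Prop := R_sml → R_dya → R_vau → R_tI → R_spc → R_PW → R_SL

/-- Comparison for `Λ`. -/
def R_CL : Prop := CMb FL

/-- [D CL] (uses D cpm, D dya, D vau, D tO, D spc, P PW) Proof: `U = ⌊J^(1/10)⌋`, `V = ⌊J^(11/10)⌋`, `lam = L^E`, R_vau with
the real `w n = 2J wJ J j n - lam wL lam j n` for `n ≥ 1`, `w 0 = 0` (zero for `n ≤ U` and `n ≥ 27J^3` by R_spc). R_tO: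
`|T1| ≤ ∑_{m≤V} C L (J^3/(m lam^2) + J) ≤ C' (J^3 L^2/lam^2 + J^(2.1) L)`, and
`|T2| ≤ ∑_{m ≤ UV} log m * C (J^3/(m lam^2) + J) ≤ C' (J^3 L^2/lam^2 + J^(2.2) L)`; squares times `J` are
`≤ J^7/(8 L^A)` if `4E ≥ A + 5`. T3: R_dya, R_cpm (`A + 6`, `D = C0 + 1`, `C0` from R_PW for `A' = A + 11`, `B = 1`,
`κ = 30`, `r = 1`, `χ = 1`): `dp a' (2M) θ = ∑_{M<m≤2M} Λ(m) pz (-θ) m` for `|θ| ≥ L^D ≥ (log 2M)^C0`. -/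
def S_CL : Prop := R_cpm → R_dya → R_vau → R_tO → R_spc → R_PW → R_CL

/-- Prime powers. -/
def R_pp : Prop := ∀ᶠ J : ℕ in atTop,
  (∀ j ∈ Ioc J (2 * J), ∑ n ∈ Icc 1 (27 * J ^ 3), (vonMangoldt n - thP n) * wJ J j n
    ≤ (J : ℝ) ^ (3 / 5 : ℝ)) ∧
  ∑ n ∈ Icc 1 (27 * J ^ 3), (vonMangoldt n - thP n) ≤ (J : ℝ) ^ (8 / 5 : ℝ)

/-- [D pp] (uses D spc) Proof: `Λ - thP` is supported on the proper prime powers, `≤ 3L + 4`. In the window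
`(j^3, (j+1)^3)` there are at most `(j+1)^(3/2) - j^(3/2) + 1 ≤ 3 √J + 1` squares, and for each
`3 ≤ a ≤ 5L + 5` at most two `a`-th powers. Total `≤ (3L+4)(3√J + 1 + 2(5L+5)) ≤ J^(3/5)`. Second part: Mathlib,
Chebyshev's functions (`Chebyshev.abs_psi_sub_theta_le_sqrt_mul_log` or similar; `thP` is the summand
of `θ`), or count the prime powers. -/
def S_pp : Prop := R_spc → R_pp

/-- [D TT] (uses D pp, D LL, D SL, D CL) From `Λ` to the primes. Proof: let `Δ n = Λ n - thP n ≥ 0`. The sums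
`Sf` differ by at most `∑ Δ wJ ≤ J^(3/5)`. Large conductors: `∑_j |..|^2 ≤ 2 (bound for FL with A+2) +
2 J (R^2 J^(3/5))^2` and `R^2 ≤ J^(1.998)`. Small conductors: `2 J^(11/5)`. Comparison:
`(2J J^(3/5))^2 J` and `(L^E J^(8/5))^2 J` (`0 ≤ wL ≤ 1`). -/
def S_TT : Prop := R_pp → LCb FL → SCb FL → CMb FL → LCb FT ∧ SCb FT ∧ CMb FT

/-! ### The almost primes -/

/-- Twisted sums over primes without weights. -/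
def R_pwp : Prop := ∀ (A B : ℕ) (κ : ℝ), 1 ≤ κ → ∃ C0 : ℕ, ∀ᶠ M : ℝ in atTop, ∀ (r : ℕ)
  (χ : DirichletCharacter ℂ r), 1 ≤ r → (r : ℝ) ≤ (Real.log M) ^ B → χ.IsPrimitive → ∀ τ : ℝ,
  |τ| ≤ M ^ κ → (2 ≤ r ∨ (Real.log M) ^ C0 ≤ |τ|) → ∀ M1 M2 : ℕ, (M2 : ℝ) ≤ M →
  ‖∑ n ∈ (Ioc M1 M2).filter Nat.Prime, χ (n : ZMod r) * pz (-τ) n‖ ≤ M / (Real.log M) ^ A

/-- [D pwp] (uses P PW) Proof: the primes `≤ √M` contribute at most `√M`. For `√M < p`: Abel summation with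
`1/log n` and `T(x) = ∑_{n ≤ x, n prime} log n χ(n) pz(-τ) n`, which differs from the sum with `Λ` by at most
`4 √M log M` (prime powers), so `|T(x) - T(x')| ≤ 2M/(log M)^(A+1)` for `√M ≤ x' ≤ x ≤ M2` (R_PW with `A + 1`); total
`≤ √M + (2/log M)(4M/(log M)^(A+1)) ≤ M/(log M)^A`. -/
def S_pwp : Prop := R_PW → R_pwp

/-- The almost primes as a convolution. -/
def R_dec : Prop := ∀ J : ℕ, 1 ≤ J → ∃ β : ℕ → ℝ, (∀ n, |β n| ≤ 1000000) ∧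
  ∀ n : ℕ, 1 ≤ n → n ≤ 27 * J ^ 3 → RR (zJ J) n = ∑ d ∈ n.divisors, sA J d * β (n / d)

/-- [D dec] Proof: let `S` be the set of the primes `≥ z = zJ J` with `p^2 ≤ 27 J^3` and `b` the set of the
primes `≥ z` with `p^2 > 27 J^3`; two elements of `b` have a product `> 27 J^3`. In the ring of
arithmetic functions let `s`, `b` be the indicator functions. By induction on `k`, `k! Rk z k n = (s + b)^k (n)`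
for `n ≥ 1` (split off the first coordinate). By the binomial theorem and `b^i (n) = 0` for `i ≥ 2`,
`n ≤ 27 J^3`: `(s+b)^k (n) = (s * (s^(k-1) + k s^(k-2) b)) (n)`. So `β = ∑_{k=4}^7 (1/k!)(s^(k-1) + k s^(k-2) b)` on
`m ≤ 27 J^3` and `β m = 0` for `m > 27 J^3`. Bound: `z^8 = 27 J^3 ≥ m`, so `m` has at most `8` prime factors `≥ z`,
there are at most `8^(k-1)` tuples of them; `∑_k (8^6/k! + k 8^6/k!) ≤ 10^6`. -/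
def S_dec : Prop := R_dec

/-- The support of the almost primes. -/
def R_rro : Prop := ∀ (z : ℝ) (n : ℕ), 1 ≤ n → RR z n ≠ 0 → Rough z n

/-- [D rro] Proof: some `Rk z k n ≠ 0`, so `n` is a product of primes `≥ z`. -/
def S_rro : Prop := R_rro

/-- [D LR] (uses D blk, D dya, D dec, D spc) Large conductors for `RR`. Proof: for `wJ J j n ≠ 0`, `n ≥ 1`, R_dec:
`Sf (RR) J j χ = ∑_{m,n ≤ 27J^3} sA(m) β(n) χ(mn) wJ J j (mn)`. R_dya with `U = ⌊J^(3/8)⌋`, `V = J`: if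
`sA m ≠ 0`, `J^3 < 2mn` then `m ≥ zJ J = (3J)^(3/8) > U` and `n > J^3/(2m) ≥ J^3/(2 √27 J^(3/2)) > J`. For each block
R_blk with `δ = 1/3`, `A + 6`; `∑ β^2 ≤ 2N 10^12 ≤ N L^6`. -/
def S_LR : Prop := R_blk → R_dya → R_dec → R_spc → LCb FR

/-- [D SR] (uses D sml, D dya, D dec, D spc, D pwp) Small conductors for `RR`. Proof: as D LR with R_sml; the polynomial
`dp a' (2M) θ = ∑ χ(p) p^(iθ)` over the primes `p ∈ (M, 2M]`, `p ≥ zJ J`, `p^2 ≤ 27J^3`, i.e. over the primes of an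
interval `Ioc M1 M2`, `M2 ≤ 2M`: R_pwp (`κ = 9`, `2M ≥ J^(1/3)`). -/
def S_SR : Prop := R_sml → R_dya → R_dec → R_spc → R_pwp → SCb FR

/-- [D CR] (uses D cpm, D dya, D dec, D spc, D pwp) Comparison for `RR`. Proof: as D SR with R_cpm, `r = 1`, `χ = 1`,
`D = C0 + 1` (`C0` from R_pwp). -/
def S_CR : Prop := R_cpm → R_dya → R_dec → R_spc → R_pwp → CMb FR

/-! ### From residue classes to characters -/

open Classical in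
/-- One modulus. -/
def R_chr : Prop := ∀ (J j q : ℕ) (f : ℕ → ℝ) (a : ℤ), 1 ≤ q → IsCoprime a (q : ℤ) →
  (∀ n, 1 ≤ n → f n ≠ 0 → wJ J j n ≠ 0 → n.Coprime q) →
  (Nat.totient q : ℂ) * (EE J f a j q : ℂ) =
    ∑ χ ∈ (Finset.univ : Finset (DirichletCharacter ℂ q)).erase 1,
      χ⁻¹ (a : ZMod q) * Sf f J j χ

/-- [D chr] Proof: orthogonality (`DirichletCharacter.sum_char_inv_mul_char_eq`, compare `totient_mul_psiAP` in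
`Lib/MP_89da58_nt/Bv.lean`); the principal character gives `∑ f wJ` over the `n` coprime to `q`, which
are all `n` with `f n wJ J j n ≠ 0`. -/
def S_chr : Prop := R_chr

/-- All moduli. -/
def R_grp : Prop := ∀ (J j Q : ℕ) (f c : ℕ → ℝ) (a : ℤ),
  (∀ q ∈ Icc 1 Q, c q ≠ 0 → IsCoprime a (q : ℤ) ∧
    ∀ n, 1 ≤ n → f n ≠ 0 → wJ J j n ≠ 0 → n.Coprime q) →
  ((∑ q ∈ Icc 1 Q, c q * EE J f a j q : ℝ) : ℂ) =
    ∑ p ∈ primChars Q, p.2⁻¹ (a : ZMod p.1) *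
      ((∑ q ∈ (Icc 1 Q).filter (fun q => p.1 ∣ q), c q / Nat.totient q : ℝ) : ℂ) * Sf f J j p.2

/-- [D grp] (uses D chr) Proof: for `c q ≠ 0` write `EE` by R_chr. The map `χ ↦ (conductor, primitive character)` is a
bijection from the `χ ≠ 1` mod `q` to the pairs `(r, χ')`, `r ∣ q`, `r ≥ 2`, `χ'` primitive mod `r` (inverse:
`changeLevel`); compare `sum_prim_le` in `Lib/MP_89da58_nt/Bv.lean`. For `n` coprime to `q`, `χ(n) = χ'(n)`, so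
`Sf f J j χ = Sf f J j χ'` and `χ⁻¹(a) = χ'⁻¹(a)`. Exchange the sums over `q` and `(r, χ')`. -/
def S_grp : Prop := R_chr → R_grp

/-- The coefficients. -/
def R_cfs : Prop := ∀ (z Q : ℝ) (c : ℕ → ℝ) (J r : ℕ), Wt z Q c → 2 ≤ J → 1 ≤ r →
  |∑ q ∈ (Icc 1 J).filter (fun q => r ∣ q), c q / Nat.totient q|
    ≤ 100 * (Real.log J + 1) ^ 3 / r ∧
  (Q < r → ∑ q ∈ (Icc 1 J).filter (fun q => r ∣ q), c q / Nat.totient q = 0)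

/-- [D cfs] Proof: `|c q| ≤ 3`, `q = r m`, `φ(r m) ≥ φ(r) φ(m)` (`Nat.totient_super_multiplicative`), so at most
`(3/φ(r)) ∑_{m ≤ J} 1/φ(m)`, and `inv_totient_le`, `sum_inv_totient_le` in `Lib/MP_89da58_nt/Bv.lean` (`r ≤ J`, else
the sum is empty). If `Q < r` then `c q = 0` for all `q ≥ r`. -/
def S_cfs : Prop := R_cfs

/-- The final bound for the sequence `F`, residue class `a`. -/
def Fin2 (F : ℕ → ℕ → ℝ) (a : ℤ) : Prop := ∀ A : ℕ, ∀ᶠ J : ℕ in atTop, ∀ c : ℕ → ℝ,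
  Wt (zJ J) ((J : ℝ) ^ (999 / 1000 : ℝ)) c →
  ∑ j ∈ Ioc J (2 * J), (∑ q ∈ Icc 1 J, c q * EE J (F J) a j q) ^ 2
    ≤ (J : ℝ) ^ 5 / (Real.log J) ^ A

/-- [D red] (uses D grp, D cfs) Proof: `c q ≠ 0` implies `q` odd, with all prime factors `< zJ J`, so `q` is coprime to
`a = ±2` and to all `n` with `F J n wJ J j n ≠ 0` (rough). R_grp with `Q = J`; put
`C_p = p.2⁻¹(a) ∑_{q} c q/φ(q)`, `‖C_p‖ ≤ 100 (L+1)^3/r`, `C_p = 0` if `r = p.1 > J^(999/1000)`. Let `B` be from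
LCb for `A + 20`, `R0 = ⌈L^B⌉`, `Y = ⌊J^(999/1000)⌋`. Small `r ≤ R0`: Cauchy,
`∑_j ‖∑_{r ≤ R0} C_p Sf‖^2 ≤ R0^2 ∑_p ‖C_p‖^2 ∑_j ‖Sf‖^2 ≤ R0^4 (100 (L+1)^3)^2 J^5/L^(A'')` with SCb for
`A'' = A + 4B + 30`, `B + 1`. Large: blocks `R_(i-1) < r ≤ R_i`, `R_i = min(2^i R0, Y)`, `1 ≤ i ≤ 2L`; in a block
`th p = C_p R_i/(200 (L+1)^3)` has norm `≤ 1` (`r > 2^(i-1) R0 ≥ R_i/2`; `th p = 0` outside the block), LCb: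
`∑_j ‖∑_block C_p Sf‖^2 ≤ (200 (L+1)^3)^2 J^5/L^(A+20)`; Cauchy over the `≤ 2L` blocks. -/
def S_red : Prop := R_grp → R_cfs → ∀ F : ℕ → ℕ → ℝ, LCb F → SCb F →
  (∀ᶠ J : ℕ in atTop, ∀ j ∈ Ioc J (2 * J), ∀ n, 1 ≤ n → F J n ≠ 0 → wJ J j n ≠ 0 →
    Rough (zJ J) n) → ∀ a : ℤ, a = 2 ∨ a = -2 → Fin2 F a

/-- [D evc] All `J ≥ 2`. Proof: `Fin2` holds for `J ≥ J0` with constant `1`. For `2 ≤ J < J0`:
`|EE J (F J) a j q| ≤ 2 ∑_{n ≤ 27J^3} |F J n| =: G J`, so the left side is at most `J (3 J G J)^2`; take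
`C = 1 + ∑_{J < J0} J (3J G J)^2 (log J)^A/J^5`. -/
def S_evc : Prop := ∀ (F : ℕ → ℕ → ℝ) (a : ℤ), Fin2 F a → ∀ A : ℕ, ∃ C : ℝ, ∀ J : ℕ, 2 ≤ J →
  ∀ c : ℕ → ℝ, Wt (zJ J) ((J : ℝ) ^ (999 / 1000 : ℝ)) c →
  ∑ j ∈ Ioc J (2 * J), (∑ q ∈ Icc 1 J, c q * EE J (F J) a j q) ^ 2
    ≤ C * (J : ℝ) ^ 5 / Real.log J ^ A

/-- [D cmi] All `J ≥ 2`, comparison. Proof: `E = E0 + 1` in `CMb FR` for `A`; the finitely many small `J` are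
absorbed by the constant. -/
def S_cmi : Prop := CMb FR → ∀ A : ℕ, ∃ (E : ℕ) (C : ℝ), 1 ≤ E ∧ ∀ J : ℕ, 2 ≤ J →
  ∑ j ∈ Ioc J (2 * J), (2 * (J : ℝ) * ∑ n ∈ Icc 1 (27 * J ^ 3), RR (zJ J) n * wJ J j n
    - Real.log J ^ E * ∑ n ∈ Icc 1 (27 * J ^ 3), RR (zJ J) n * wL (Real.log J ^ E) j n) ^ 2
    ≤ C * (J : ℝ) ^ 7 / Real.log J ^ A

/-! ### The mass of the primes -/

/-- Long windows. -/
def R_m1a : Prop := ∀ E : ℕ, 1 ≤ E → ∀ᶠ J : ℕ in atTop, ∀ j ∈ Ioc J (2 * J),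
  |(Real.log J) ^ E * ∑ n ∈ Icc 1 (27 * J ^ 3), vonMangoldt n * wL ((Real.log J) ^ E) j n - xj j|
    ≤ xj j / Real.log J

/-- [D m1a] (uses P PNT) Proof: `lam = L^E`, `x = xj j`, `g(t) = tri(lam log(t/x))`, `Λ = 1 + (Λ - 1)`.
`|∑_n g(n) - ∫ g| ≤ 2` (total variation `≤ 2`, the support is contained in `(J^3/2, 27J^3)`) and
`∫ g = x ∫ tri(lam u) e^u du = x * 2 lam (cosh(1/lam) - 1) = (x/lam)(1 + O(lam^(-2)))`.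
`∑ (Λ(n) - 1) g(n)`: Abel summation with `E(M) = ψ(M) - M`, `|E(M)| ≤ C 27J^3/L^(E+2)` for
`J^3/2 - 1 ≤ M ≤ 27J^3` (R_PNT with `A = E + 2`, `log M ≥ L`), times the variation `2`. Multiply by `lam`. -/
def S_m1a : Prop := R_PNT → R_m1a

/-- [D m1] (uses D pp, D m1a) Proof: let `E` be `E0 + 1` in `CMb FT` for `A + 1`. If `j` is bad (`∑ thP wJ < 0.999 xj/(2J)`), then
`2J ∑ thP wJ < 0.999 xj`, while `L^E ∑ thP wL ≥ L^E ∑ Λ wL - L^E J^(8/5) ≥ 0.9995 xj` (R_m1a, R_pp), so the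
difference is at least `0.0005 xj ≥ 0.0005 J^3` and the number of bad `j` is at most
`(4 * 10^6) J/L^(A+1) ≤ J/L^A` for large `J`. For small `J`: the number is at most `J`, take `C` large. -/
def S_m1 : Prop := R_pp → R_m1a → CMb FT → I_M1

end Pool.Agent.CH.D
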