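import Pool.Agent.Lib.MP_d610d0_nt.CH.D.Stm

set_option autoImplicit false

/-!
Piece ms.
-/

namespace Pool.Agent.CH.D

open Finset Filter
open ArithmeticFunction (vonMangoldt)
open Pool.Agent.MP89da58 (tri primChars)
open Pool.Agent.BVall (boxL)
open Pool.Agent.CH.V (pz ex)
open Pool.Agent.CH.P (R_PW R_PNT)

lemma ms_pz (θ : ℝ) (x : ℝ) :
    pz (-θ) x = Complex.exp (Complex.I * ((θ * Real.log x : ℝ) : ℂ)) := by
  unfold pz
  congr 1
  push_cast
  ring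

lemma ms_pz_norm (θ x : ℝ) : ‖pz θ x‖ = 1 := by
  unfold pz
  rw [Complex.norm_exp]
  simp

lemma ms_dp_cont (a : ℕ → ℂ) (M : ℕ) : Continuous (dp a M) := by
  unfold dp
  simp only [ms_pz]
  fun_prop

lemma ms_dp_le (a : ℕ → ℂ) (M : ℕ) (θ : ℝ) : ‖dp a M θ‖ ≤ ∑ m ∈ Icc 1 M, ‖a m‖ := by
  unfold dp
  refine (norm_sum_le _ _).trans (Finset.sum_le_sum fun m _ => ?_)
  rw [norm_mul, ms_pz_norm, mul_one]

lemma ms_g_le (a b : ℕ → ℂ) (M N : ℕ) (θ : ℝ) : ‖dp a M θ * dp b N θ‖ ≤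
    (∑ m ∈ Icc 1 M, ‖a m‖) * ∑ n ∈ Icc 1 N, ‖b n‖ := by
  rw [norm_mul]
  exact mul_le_mul (ms_dp_le a M θ) (ms_dp_le b N θ) (norm_nonneg _)
    (Finset.sum_nonneg fun _ _ => norm_nonneg _)

lemma ms_int {k : ℝ → ℝ} (hk : MeasureTheory.Integrable k) (u : ℝ) :
    MeasureTheory.Integrable
      (fun θ : ℝ => (k θ : ℂ) * Complex.exp (Complex.I * ((θ * u : ℝ) : ℂ))) := by
  have h1 : MeasureTheory.Integrable (fun θ : ℝ => (k θ : ℂ)) := hk.ofReal
  have h2 : Continuous (fun θ : ℝ => Complex.exp (Complex.I * ((θ * u : ℝ) : ℂ))) := by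
    fun_prop
  refine h1.mul_bdd (c := 1) h2.aestronglyMeasurable (MeasureTheory.ae_of_all _ fun θ => ?_)
  rw [Complex.norm_exp]
  simp

lemma ms_fourier (hkf : R_kf) {lam : ℝ} (hl : 0 < lam) (a b : ℕ → ℂ) (M N : ℕ) (y : ℝ) :
    ∑ m ∈ Icc 1 M, ∑ n ∈ Icc 1 N, a m * b n *
      ((tri (lam * (Real.log m + Real.log n - y)) : ℝ) : ℂ) =
    ∫ θ : ℝ, (kap lam θ : ℂ) * (dp a M θ * dp b N θ) *
      Complex.exp (-(Complex.I * ((θ * y : ℝ) : ℂ))) := by
  obtain ⟨hint, htri⟩ := hkf lam hl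
  have hexp : ∀ θ : ℝ, (kap lam θ : ℂ) * (dp a M θ * dp b N θ) *
      Complex.exp (-(Complex.I * ((θ * y : ℝ) : ℂ))) =
      ∑ m ∈ Icc 1 M, ∑ n ∈ Icc 1 N, (a m * b n) * ((kap lam θ : ℂ) *
        Complex.exp (Complex.I * ((θ * (Real.log m + Real.log n - y) : ℝ) : ℂ))) := by
    intro θ
    unfold dp
    rw [Finset.sum_mul_sum, Finset.mul_sum, Finset.sum_mul]
    refine Finset.sum_congr rfl fun m _ => ?_
    rw [Finset.mul_sum, Finset.sum_mul]
    refine Finset.sum_congr rfl fun n _ => ?_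
    have e : Complex.exp (Complex.I * ((θ * (Real.log m + Real.log n - y) : ℝ) : ℂ)) =
        pz (-θ) m * pz (-θ) n * Complex.exp (-(Complex.I * ((θ * y : ℝ) : ℂ))) := by
      rw [ms_pz, ms_pz, ← Complex.exp_add, ← Complex.exp_add]
      congr 1
      push_cast
      ring
    rw [e]
    ring
  simp_rw [hexp]
  rw [MeasureTheory.integral_finsetSum _ fun m _ =>
    MeasureTheory.integrable_finsetSum _ fun n _ => (ms_int hint _).const_mul _]
  refine Finset.sum_congr rfl fun m _ => ?_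
  rw [MeasureTheory.integral_finsetSum _ fun n _ => (ms_int hint _).const_mul _]
  refine Finset.sum_congr rfl fun n _ => ?_
  rw [MeasureTheory.integral_const_mul, htri]

lemma ms_wL (lam : ℝ) (j : ℕ) {m n : ℕ} (hm : 1 ≤ m) (hn : 1 ≤ n) :
    wL lam j (m * n) = tri (lam * (Real.log m + Real.log n - Real.log (xj j))) := by
  have hm0 : (m : ℝ) ≠ 0 := by positivity
  have hn0 : (n : ℝ) ≠ 0 := by positivity
  have hx : xj j ≠ 0 := by
    unfold xj
    positivity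
  unfold wL
  have e : ((j : ℝ) + 1 / 2) ^ 3 = xj j := rfl
  rw [e, Nat.cast_mul, Real.log_div (mul_ne_zero hm0 hn0) hx, Real.log_mul hm0 hn0]

lemma ms_wJ (J j : ℕ) {m n : ℕ} (hm : 1 ≤ m) (hn : 1 ≤ n) :
    wJ J j (m * n) = tri (2 * J * (Real.log m + Real.log n - Real.log (xj j))) := by
  rw [← ms_wL (2 * J) j hm hn]
  rfl

lemma ms_set (T : ℝ) : MeasurableSet {θ : ℝ | T < |θ|} :=
  measurableSet_lt measurable_const continuous_abs.measurable

lemma ms_tail {T : ℝ} (hT : 0 < T) :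
    MeasureTheory.IntegrableOn (fun θ : ℝ => 1 / θ ^ 2) {θ : ℝ | T < |θ|} ∧
      ∫ θ in {θ : ℝ | T < |θ|}, 1 / θ ^ 2 = 2 / T := by
  have hset : {θ : ℝ | T < |θ|} = Set.Iio (-T) ∪ Set.Ioi T := by
    ext θ
    simp only [Set.mem_ofPred_eq, Set.mem_union, Set.mem_Iio, Set.mem_Ioi, lt_abs]
    constructor
    · rintro (h | h)
      · exact Or.inr h
      · exact Or.inl (by linarith)
    · rintro (h | h)
      · exact Or.inr (by linarith)
      · exact Or.inl h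
  have e : ∀ θ : ℝ, 0 < θ → θ ^ (-2 : ℝ) = 1 / θ ^ 2 := by
    intro θ hθ
    rw [Real.rpow_neg hθ.le, one_div]
    norm_cast
  have h1 : MeasureTheory.IntegrableOn (fun θ : ℝ => 1 / θ ^ 2) (Set.Ioi T) := by
    refine (integrableOn_Ioi_rpow_of_lt (show (-2 : ℝ) < -1 by norm_num) hT).congr_fun ?_
      measurableSet_Ioi
    intro θ hθ
    exact e θ (hT.trans hθ)
  have v1 : ∫ θ in Set.Ioi T, 1 / θ ^ 2 = 1 / T := by
    have h := integral_Ioi_rpow_of_lt (show (-2 : ℝ) < -1 by norm_num) hT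
    rw [MeasureTheory.setIntegral_congr_fun measurableSet_Ioi
      (fun θ hθ => (e θ (hT.trans hθ)).symm), h]
    norm_num
    rw [Real.rpow_neg_one]
  have h2 : MeasureTheory.IntegrableOn (fun θ : ℝ => 1 / θ ^ 2) (Set.Iio (-T)) := by
    have h := (show MeasureTheory.IntegrableOn (fun θ : ℝ => 1 / θ ^ 2) (Set.Ioi (-(-T))) by
      rwa [neg_neg]).comp_neg_Iio
    simpa using h
  have v2 : ∫ θ in Set.Iio (-T), 1 / θ ^ 2 = 1 / T := by
    have h := integral_comp_neg_Iic (-T) (fun θ : ℝ => 1 / θ ^ 2)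
    rw [neg_neg, v1, MeasureTheory.integral_Iic_eq_integral_Iio] at h
    rw [← h]
    refine MeasureTheory.setIntegral_congr_fun measurableSet_Iio fun θ _ => ?_
    show 1 / θ ^ 2 = 1 / (-θ) ^ 2
    rw [neg_sq]
  rw [hset]
  refine ⟨h2.union h1, ?_⟩
  have hd : Disjoint (Set.Iio (-T)) (Set.Ioi T) := by
    rw [Set.disjoint_left]
    intro θ hθ hθ'
    rw [Set.mem_Iio] at hθ
    rw [Set.mem_Ioi] at hθ'
    linarith
  rw [MeasureTheory.setIntegral_union hd measurableSet_Ioi h2 h1, v1, v2]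
  ring

lemma ms_kap_tail (hkf : R_kf) (hkb : R_kb) {lam T : ℝ} (hl : 0 < lam) (hT : 0 < T) :
    ∫ θ in {θ : ℝ | T < |θ|}, kap lam θ ≤ 4 * lam / (Real.pi * T) := by
  obtain ⟨hint, _⟩ := hkf lam hl
  obtain ⟨_, _, hb, _⟩ := hkb lam hl
  obtain ⟨t1, t2⟩ := ms_tail hT
  have h1 : ∫ θ in {θ : ℝ | T < |θ|}, kap lam θ ≤
      ∫ θ in {θ : ℝ | T < |θ|}, (2 * lam / Real.pi) * (1 / θ ^ 2) := by
    refine MeasureTheory.setIntegral_mono_on hint.integrableOn (t1.const_mul _) (ms_set T) ?_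
    intro θ hθ
    have hθ0 : θ ≠ 0 := by
      rintro rfl
      rw [Set.mem_ofPred_eq, abs_zero] at hθ
      linarith
    have := hb θ hθ0
    calc kap lam θ ≤ 2 * lam / (Real.pi * θ ^ 2) := this
      _ = _ := by rw [div_mul_div_comm, mul_one]
  rw [MeasureTheory.integral_const_mul, t2] at h1
  refine h1.trans (le_of_eq ?_)
  rw [div_mul_div_comm]
  congr 1
  ring

/-- the integral of `kap |A B|^2`, with `|A| ≤ S` on `|θ| ≤ T` -/
lemma ms_main (hkf : R_kf) (hkb : R_kb) (hsch : R_sch) {lam T S : ℝ} (hl : 1 ≤ lam) (hT : 0 < T)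
    (hS0 : 0 ≤ S) (a b : ℕ → ℂ) (M N : ℕ) (E : Set ℝ) (hE : MeasurableSet E)
    (hS : ∀ θ ∈ E, |θ| ≤ T → ‖dp a M θ‖ ≤ S) :
    MeasureTheory.Integrable
      (fun θ : ℝ => kap lam θ * ‖E.indicator (fun θ => dp a M θ * dp b N θ) θ‖ ^ 2) ∧
    ∫ θ : ℝ, kap lam θ * ‖E.indicator (fun θ => dp a M θ * dp b N θ) θ‖ ^ 2 ≤
      S ^ 2 * ((1 + 3 * N / lam) * ∑ n ∈ Icc 1 N, ‖b n‖ ^ 2) +
      4 * lam / (Real.pi * T) * ((∑ m ∈ Icc 1 M, ‖a m‖) * ∑ n ∈ Icc 1 N, ‖b n‖) ^ 2 := by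
  have hl0 : 0 < lam := by linarith
  obtain ⟨hint, _⟩ := hkf lam hl0
  obtain ⟨hk0, _⟩ := hkb lam hl0
  set W : ℝ := (∑ m ∈ Icc 1 M, ‖a m‖) * ∑ n ∈ Icc 1 N, ‖b n‖ with hW
  have hgm : Measurable (fun θ : ℝ => dp a M θ * dp b N θ) :=
    ((ms_dp_cont a M).mul (ms_dp_cont b N)).measurable
  have hW0 : 0 ≤ W := (norm_nonneg _).trans (ms_g_le a b M N 0)
  have hindle : ∀ θ : ℝ, ‖E.indicator (fun θ => dp a M θ * dp b N θ) θ‖ ≤ W := by
    intro θ
    by_cases h : θ ∈ E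
    · rw [Set.indicator_of_mem h]
      exact ms_g_le a b M N θ
    · rw [Set.indicator_of_notMem h, norm_zero]
      exact hW0
  have hi1 : MeasureTheory.Integrable
      (fun θ : ℝ => kap lam θ * ‖E.indicator (fun θ => dp a M θ * dp b N θ) θ‖ ^ 2) := by
    refine hint.mul_bdd (c := W ^ 2) ?_ (MeasureTheory.ae_of_all _ fun θ => ?_)
    · exact ((hgm.indicator hE).norm.pow_const 2).aestronglyMeasurable
    · rw [Real.norm_of_nonneg (by positivity)]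
      exact pow_le_pow_left₀ (norm_nonneg _) (hindle θ) 2
  have hi2 : MeasureTheory.Integrable (fun θ : ℝ => kap lam θ * ‖dp b N θ‖ ^ 2) := by
    refine hint.mul_bdd (c := (∑ n ∈ Icc 1 N, ‖b n‖) ^ 2) ?_
      (MeasureTheory.ae_of_all _ fun θ => ?_)
    · exact ((ms_dp_cont b N).norm.pow 2).aestronglyMeasurable
    · rw [Real.norm_of_nonneg (by positivity)]
      exact pow_le_pow_left₀ (norm_nonneg _) (ms_dp_le b N θ) 2
  have hi3 : MeasureTheory.Integrable ({θ : ℝ | T < |θ|}.indicator (kap lam)) :=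
    hint.indicator (ms_set T)
  refine ⟨hi1, ?_⟩
  calc ∫ θ : ℝ, kap lam θ * ‖E.indicator (fun θ => dp a M θ * dp b N θ) θ‖ ^ 2
      ≤ ∫ θ : ℝ, (S ^ 2 * (kap lam θ * ‖dp b N θ‖ ^ 2) +
          W ^ 2 * {θ : ℝ | T < |θ|}.indicator (kap lam) θ) := by
        refine MeasureTheory.integral_mono hi1 ((hi2.const_mul _).add (hi3.const_mul _)) ?_
        intro θ
        show kap lam θ * ‖E.indicator (fun θ => dp a M θ * dp b N θ) θ‖ ^ 2 ≤
          S ^ 2 * (kap lam θ * ‖dp b N θ‖ ^ 2) + W ^ 2 * {θ : ℝ | T < |θ|}.indicator (kap lam) θ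
        by_cases hT' : T < |θ|
        · rw [Set.indicator_of_mem (show θ ∈ {θ : ℝ | T < |θ|} from hT')]
          have h1 : ‖E.indicator (fun θ => dp a M θ * dp b N θ) θ‖ ^ 2 ≤ W ^ 2 :=
            pow_le_pow_left₀ (norm_nonneg _) (hindle θ) 2
          have h2 : 0 ≤ S ^ 2 * (kap lam θ * ‖dp b N θ‖ ^ 2) := by
            have := hk0 θ
            positivity
          have h3 := mul_le_mul_of_nonneg_left h1 (hk0 θ)
          linarith
        · rw [Set.indicator_of_notMem (show θ ∉ {θ : ℝ | T < |θ|} from hT'), mul_zero, add_zero]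
          by_cases h : θ ∈ E
          · rw [Set.indicator_of_mem h, norm_mul, mul_pow]
            have h1 := pow_le_pow_left₀ (norm_nonneg _) (hS θ h (not_lt.1 hT')) 2
            have h2 : 0 ≤ kap lam θ * ‖dp b N θ‖ ^ 2 := mul_nonneg (hk0 θ) (by positivity)
            calc kap lam θ * (‖dp a M θ‖ ^ 2 * ‖dp b N θ‖ ^ 2)
                = ‖dp a M θ‖ ^ 2 * (kap lam θ * ‖dp b N θ‖ ^ 2) := by ring
              _ ≤ _ := mul_le_mul_of_nonneg_right h1 h2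
          · rw [Set.indicator_of_notMem h, norm_zero]
            have := hk0 θ
            have h5 : 0 ≤ S ^ 2 * (kap lam θ * ‖dp b N θ‖ ^ 2) := by positivity
            simpa using h5
    _ = S ^ 2 * (∫ θ : ℝ, kap lam θ * ‖dp b N θ‖ ^ 2) +
          W ^ 2 * ∫ θ in {θ : ℝ | T < |θ|}, kap lam θ := by
        rw [MeasureTheory.integral_add (hi2.const_mul _) (hi3.const_mul _),
          MeasureTheory.integral_const_mul, MeasureTheory.integral_const_mul,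
          MeasureTheory.integral_indicator (ms_set T)]
    _ ≤ S ^ 2 * ((1 + 3 * N / lam) * ∑ n ∈ Icc 1 N, ‖b n‖ ^ 2) +
          W ^ 2 * (4 * lam / (Real.pi * T)) := by
        apply add_le_add
        · exact mul_le_mul_of_nonneg_left (hsch lam N b hl) (by positivity)
        · exact mul_le_mul_of_nonneg_left (ms_kap_tail hkf hkb hl0 hT) (by positivity)
    _ = _ := by ring

theorem p_ms : S_ms := by
  intro hkf hkb hbes hspc hsch J M N a b S hJ hS0 hS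
  have hJ2 : (2 : ℝ) ≤ J := by exact_mod_cast hJ
  have hJ0 : (0 : ℝ) < J := by linarith
  have hl1 : (1 : ℝ) ≤ 2 * J := by linarith
  have hl0 : (0 : ℝ) < 2 * J := by linarith
  have hsp := (hspc J (by omega)).1
  have e1 : ∀ j : ℕ, ∑ m ∈ Icc 1 M, ∑ n ∈ Icc 1 N, a m * b n * (wJ J j (m * n) : ℂ) =
      ∫ θ : ℝ, (kap (2 * J) θ : ℂ) * (dp a M θ * dp b N θ) *
        Complex.exp (-(Complex.I * ((θ * Real.log (xj j) : ℝ) : ℂ))) := by
    intro j
    rw [← ms_fourier hkf hl0 a b M N (Real.log (xj j))]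
    refine Finset.sum_congr rfl fun m hm => Finset.sum_congr rfl fun n hn => ?_
    rw [ms_wJ J j (Finset.mem_Icc.1 hm).1 (Finset.mem_Icc.1 hn).1]
  have h2 := hbes (2 * J) hl0 (Ioc J (2 * J)) (fun j => Real.log (xj j)) hsp
    (fun θ => dp a M θ * dp b N θ) ((ms_dp_cont a M).mul (ms_dp_cont b N)).measurable
    ⟨_, ms_g_le a b M N⟩
  have h3 := (ms_main hkf hkb hsch hl1 (show (0 : ℝ) < (J : ℝ) ^ 3 by positivity) hS0 a b M N
    Set.univ MeasurableSet.univ (fun θ _ hθ => hS θ hθ)).2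
  simp only [Set.indicator_univ] at h3
  have e2 : ∑ j ∈ Ioc J (2 * J), ‖∑ m ∈ Icc 1 M, ∑ n ∈ Icc 1 N,
      a m * b n * (wJ J j (m * n) : ℂ)‖ ^ 2 ≤ ∫ θ : ℝ, kap (2 * J) θ * ‖dp a M θ * dp b N θ‖ ^ 2 := by
    simp_rw [e1]
    exact h2
  refine (e2.trans h3).trans ?_
  have hpi : 4 * (2 * (J : ℝ)) / (Real.pi * (J : ℝ) ^ 3) ≤ 3 / (J : ℝ) ^ 2 := by
    have hp := Real.pi_gt_three
    rw [div_le_div_iff₀ (by positivity) (by positivity)]
    have : (0 : ℝ) < (J : ℝ) ^ 3 := by positivity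
    have e3 : 4 * (2 * (J : ℝ)) * (J : ℝ) ^ 2 = 8 * (J : ℝ) ^ 3 := by ring
    rw [e3]
    nlinarith
  have h4 := mul_le_mul_of_nonneg_right hpi (show 0 ≤ ((∑ m ∈ Icc 1 M, ‖a m‖) *
    ∑ n ∈ Icc 1 N, ‖b n‖) ^ 2 by positivity)
  have h5 : S ^ 2 * ((1 + 3 * N / (2 * J)) * ∑ n ∈ Icc 1 N, ‖b n‖ ^ 2) =
      S ^ 2 * (1 + 3 * N / (2 * J)) * ∑ n ∈ Icc 1 N, ‖b n‖ ^ 2 := by ring
  rw [h5]
  linarith

end Pool.Agent.CH.D
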