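import Pool.Agent.Lib.MP_d610d0_nt.CH.D.Stm

set_option autoImplicit false

/-!
Piece bA.
-/

namespace Pool.Agent.CH.D

open Finset Filter
open ArithmeticFunction (vonMangoldt)
open Pool.Agent.MP89da58 (tri primChars)
open Pool.Agent.BVall (boxL)
open Pool.Agent.CH.V (pz ex)
open Pool.Agent.CH.P (R_PW R_PNT)

lemma bA_int (lam x : ℝ) (hlam : 0 < lam) : MeasureTheory.Integrable (boxL lam x) ∧
    ∫ s : ℝ, boxL lam x s = 1 / lam := by
  have e : boxL lam x = (Set.Icc (x - 1 / lam) x).indicator (fun _ => (1 : ℝ)) := rfl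
  constructor
  · rw [e, MeasureTheory.integrable_indicator_iff measurableSet_Icc]
    exact MeasureTheory.integrableOn_const (by simp) (by simp)
  · rw [e, MeasureTheory.integral_indicator measurableSet_Icc, MeasureTheory.setIntegral_const,
      smul_eq_mul, mul_one, Real.volume_real_Icc]
    have : 0 < 1 / lam := by positivity
    rw [max_eq_left (by linarith)]
    ring

lemma bA_sq (lam x s : ℝ) : boxL lam x s = 0 ∨ boxL lam x s = 1 := by
  by_cases h : x - 1 / lam ≤ s ∧ s ≤ x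
  · exact Or.inr (Pool.Agent.BVall.boxL_of_mem h.1 h.2)
  · exact Or.inl (Pool.Agent.BVall.boxL_of_not h)

lemma bA_point (C : ℝ) (hC : 1 ≤ C)
    (hls : ∀ (R K N : ℕ) (x : ℕ → ℂ),
      ∑ p ∈ primChars R, ‖∑ n ∈ Ioc K (K + N), x n * p.2 (n : ZMod p.1)‖ ^ 2
        ≤ C * ((N : ℝ) + (R : ℝ) ^ 2) * ∑ n ∈ Ioc K (K + N), ‖x n‖ ^ 2)
    (J M R : ℕ) (a : ℕ → ℂ) (hJ : 1 ≤ J) (s : ℝ) :
    ∑ p ∈ primChars R, ‖∑ m ∈ Icc 1 M, a m * p.2 (m : ZMod p.1) *
      (boxL (2 * J) (Real.log m) s : ℂ)‖ ^ 2 ≤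
    C * (1 + M / J + (R : ℝ) ^ 2) * ∑ m ∈ Icc 1 M, ‖a m‖ ^ 2 * boxL (2 * J) (Real.log m) s := by
  have hJ0 : (0 : ℝ) < J := by exact_mod_cast hJ
  have hJ1 : (1 : ℝ) ≤ J := by exact_mod_cast hJ
  have hRHS : 0 ≤ C * (1 + M / J + (R : ℝ) ^ 2) *
      ∑ m ∈ Icc 1 M, ‖a m‖ ^ 2 * boxL (2 * J) (Real.log m) s := by
    apply mul_nonneg (mul_nonneg (by linarith) (by positivity))
    exact sum_nonneg fun m _ => mul_nonneg (by positivity) (Pool.Agent.BVall.boxL_nonneg _ _)
  by_cases hs : Real.exp s ≤ M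
  · -- the interval of integers
    obtain ⟨K, hK⟩ : ∃ K, K = ⌈Real.exp s⌉₊ - 1 := ⟨_, rfl⟩
    obtain ⟨N, hN⟩ : ∃ N, N = ⌊Real.exp (s + 1 / (2 * J))⌋₊ - K := ⟨_, rfl⟩
    have hpos : 0 < ⌈Real.exp s⌉₊ := Nat.ceil_pos.2 (Real.exp_pos s)
    have hK1 : Real.exp s ≤ K + 1 := by
      have h1 : K + 1 = ⌈Real.exp s⌉₊ := by omega
      have h2 := Nat.le_ceil (Real.exp s)
      rw [← h1] at h2
      exact_mod_cast h2
    have hmem : ∀ m ∈ Icc 1 M, boxL (2 * J) (Real.log m) s ≠ 0 → m ∈ Ioc K (K + N) := by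
      intro m hm hb
      rw [mem_Icc] at hm
      have hm0 : (0 : ℝ) < m := by exact_mod_cast hm.1
      have h1 : Real.log m - 1 / (2 * J) ≤ s ∧ s ≤ Real.log m := by
        by_contra h
        exact hb (Pool.Agent.BVall.boxL_of_not h)
      have h2 : Real.exp s ≤ m := by
        rw [← Real.exp_log hm0]
        exact Real.exp_le_exp.2 h1.2
      have h3 : (m : ℝ) ≤ Real.exp (s + 1 / (2 * J)) := by
        rw [← Real.exp_log hm0]
        exact Real.exp_le_exp.2 (by linarith [h1.1])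
      have h4 : ⌈Real.exp s⌉₊ ≤ m := Nat.ceil_le.2 h2
      have h5 : m ≤ ⌊Real.exp (s + 1 / (2 * J))⌋₊ := Nat.le_floor h3
      rw [mem_Ioc]
      omega
    have hNle : (N : ℝ) ≤ 1 + M / J := by
      by_cases h : K ≤ ⌊Real.exp (s + 1 / (2 * J))⌋₊
      · have h1 : (N : ℝ) = (⌊Real.exp (s + 1 / (2 * J))⌋₊ : ℝ) - K := by
          rw [hN, Nat.cast_sub h]
        have h2 : (⌊Real.exp (s + 1 / (2 * J))⌋₊ : ℝ) ≤ Real.exp (s + 1 / (2 * J)) :=
          Nat.floor_le (Real.exp_pos _).le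
        have h3 : Real.exp (1 / (2 * (J : ℝ))) - 1 ≤ 1 / J := by
          have h4 : |(1 / (2 * (J : ℝ)))| ≤ 1 := by
            rw [abs_of_pos (by positivity), div_le_one (by positivity)]
            linarith
          have h5 := Real.abs_exp_sub_one_le h4
          rw [abs_of_pos (a := (1 / (2 * (J : ℝ)))) (by positivity)] at h5
          have h6 : 2 * (1 / (2 * (J : ℝ))) = 1 / J := by field_simp
          rw [h6] at h5
          exact (le_abs_self _).trans h5
        have h7 : Real.exp (s + 1 / (2 * J)) = Real.exp s * Real.exp (1 / (2 * (J : ℝ))) :=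
          Real.exp_add _ _
        have h8 : Real.exp s * (Real.exp (1 / (2 * (J : ℝ))) - 1) ≤ M * (1 / J) := by
          have h9 : 0 ≤ Real.exp (1 / (2 * (J : ℝ))) - 1 := by
            have := Real.one_le_exp (x := 1 / (2 * (J : ℝ))) (by positivity)
            linarith
          calc Real.exp s * (Real.exp (1 / (2 * (J : ℝ))) - 1)
              ≤ M * (Real.exp (1 / (2 * (J : ℝ))) - 1) := mul_le_mul_of_nonneg_right hs h9
            _ ≤ M * (1 / J) := mul_le_mul_of_nonneg_left h3 (Nat.cast_nonneg _)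
        rw [h1]
        have h2' := h2.trans (le_of_eq h7)
        have h10 : (M : ℝ) * (1 / J) = M / J := by ring
        rw [h10] at h8
        have h11 : Real.exp s * (Real.exp (1 / (2 * (J : ℝ))) - 1) =
          Real.exp s * Real.exp (1 / (2 * (J : ℝ))) - Real.exp s := by ring
        rw [h11] at h8
        linarith [h2', h8, hK1]
      · have h1 : N = 0 := by omega
        rw [h1]
        push_cast
        positivity
    -- the sequence
    let x : ℕ → ℂ := fun m => if m ∈ Icc 1 M then a m * (boxL (2 * J) (Real.log m) s : ℂ) else 0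
    have hx0 : ∀ m, m ∉ Ioc K (K + N) → x m = 0 := by
      intro m hm
      show (if m ∈ Icc 1 M then a m * (boxL (2 * J) (Real.log m) s : ℂ) else 0) = 0
      split_ifs with h
      · have : boxL (2 * J) (Real.log m) s = 0 := by
          by_contra hb
          exact hm (hmem m h hb)
        rw [this]; simp
      · rfl
    have hsum : ∀ f : ℕ → ℂ → ℂ, (∀ m, f m 0 = 0) →
        ∑ n ∈ Ioc K (K + N), f n (x n) = ∑ m ∈ Icc 1 M, f m (x m) := by
      intro f hf
      have h1 : ∑ n ∈ Ioc K (K + N), f n (x n) = ∑ n ∈ Ioc K (K + N) ∪ Icc 1 M, f n (x n) := by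
        apply sum_subset subset_union_left
        intro n _ hn
        rw [hx0 n hn, hf]
      have h2 : ∑ n ∈ Icc 1 M, f n (x n) = ∑ n ∈ Ioc K (K + N) ∪ Icc 1 M, f n (x n) := by
        apply sum_subset subset_union_right
        intro n _ hn
        have : x n = 0 := if_neg hn
        rw [this, hf]
      rw [h1, h2]
    have hsumR : ∑ n ∈ Ioc K (K + N), ‖x n‖ ^ 2 = ∑ m ∈ Icc 1 M, ‖x m‖ ^ 2 := by
      have h := hsum (fun _ z => ((‖z‖ ^ 2 : ℝ) : ℂ)) (fun m => by simp)
      have h' : ((∑ n ∈ Ioc K (K + N), ‖x n‖ ^ 2 : ℝ) : ℂ) =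
          ((∑ m ∈ Icc 1 M, ‖x m‖ ^ 2 : ℝ) : ℂ) := by
        rw [Complex.ofReal_sum, Complex.ofReal_sum]
        exact h
      exact Complex.ofReal_injective h'
    have hmain := hls R K N x
    have e1 : ∀ p : (Σ q, DirichletCharacter ℂ q), ∑ m ∈ Icc 1 M, a m * p.2 (m : ZMod p.1) *
        (boxL (2 * J) (Real.log m) s : ℂ) = ∑ n ∈ Ioc K (K + N), x n * p.2 (n : ZMod p.1) := by
      intro p
      rw [hsum (fun n z => z * p.2 (n : ZMod p.1)) (fun m => zero_mul _)]
      apply sum_congr rfl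
      intro m hm
      have : x m = a m * (boxL (2 * J) (Real.log m) s : ℂ) := if_pos hm
      rw [this]
      ring
    rw [sum_congr rfl (fun p _ => by rw [e1 p])]
    refine hmain.trans ?_
    rw [hsumR]
    have e2 : ∑ m ∈ Icc 1 M, ‖x m‖ ^ 2 =
        ∑ m ∈ Icc 1 M, ‖a m‖ ^ 2 * boxL (2 * J) (Real.log m) s := by
      apply sum_congr rfl
      intro m hm
      have : x m = a m * (boxL (2 * J) (Real.log m) s : ℂ) := if_pos hm
      rw [this, norm_mul, mul_pow]
      rcases bA_sq (2 * J) (Real.log m) s with h | h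
      · rw [h]; simp
      · rw [h]; simp
    rw [e2]
    apply mul_le_mul_of_nonneg_right
    · apply mul_le_mul_of_nonneg_left
      · linarith
      · linarith
    · exact sum_nonneg fun m _ => mul_nonneg (by positivity) (Pool.Agent.BVall.boxL_nonneg _ _)
  · -- everything vanishes
    have h0 : ∀ m ∈ Icc 1 M, boxL (2 * J) (Real.log m) s = 0 := by
      intro m hm
      rw [mem_Icc] at hm
      apply Pool.Agent.BVall.boxL_of_not
      rintro ⟨_, h2⟩
      apply hs
      have hm0 : (0 : ℝ) < m := by exact_mod_cast hm.1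
      have h3 : Real.exp s ≤ m := by
        rw [← Real.exp_log hm0]
        exact Real.exp_le_exp.2 h2
      have h4 : (m : ℝ) ≤ M := by exact_mod_cast hm.2
      linarith
    have h1 : ∀ p : (Σ q, DirichletCharacter ℂ q), ∑ m ∈ Icc 1 M, a m * p.2 (m : ZMod p.1) *
        (boxL (2 * J) (Real.log m) s : ℂ) = 0 := by
      intro p
      apply sum_eq_zero
      intro m hm
      rw [h0 m hm]; simp
    rw [sum_congr rfl (fun p _ => by rw [h1 p])]
    simpa using hRHS

theorem p_bA : S_bA := by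
  rintro ⟨C, hC, hls⟩
  refine ⟨C, hC, fun J M R a hJ hR => ?_⟩
  have hJ0 : (0 : ℝ) < J := by exact_mod_cast hJ
  have hR1 : (1 : ℝ) ≤ R := by exact_mod_cast hR
  have hint : MeasureTheory.Integrable (fun s : ℝ => C * (1 + M / J + (R : ℝ) ^ 2) *
      ∑ m ∈ Icc 1 M, ‖a m‖ ^ 2 * boxL (2 * J) (Real.log m) s) := by
    apply MeasureTheory.Integrable.const_mul
    exact MeasureTheory.integrable_finsetSum _ fun m _ =>
      (bA_int (2 * J) (Real.log m) (by positivity)).1.const_mul _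
  have h1 : ∫ s : ℝ, ∑ p ∈ primChars R, ‖∑ m ∈ Icc 1 M, a m * p.2 (m : ZMod p.1) *
      (boxL (2 * J) (Real.log m) s : ℂ)‖ ^ 2 ≤ ∫ s : ℝ, C * (1 + M / J + (R : ℝ) ^ 2) *
      ∑ m ∈ Icc 1 M, ‖a m‖ ^ 2 * boxL (2 * J) (Real.log m) s := by
    apply MeasureTheory.integral_mono_of_nonneg
    · exact Filter.Eventually.of_forall fun s => sum_nonneg fun p _ => by positivity
    · exact hint
    · exact Filter.Eventually.of_forall fun s => bA_point C hC hls J M R a hJ s
  refine h1.trans ?_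
  have hi : ∀ m ∈ Icc 1 M, MeasureTheory.Integrable (fun s : ℝ =>
      ‖a m‖ ^ 2 * boxL (2 * J) (Real.log m) s) := fun m _ =>
    (bA_int (2 * J) (Real.log m) (by positivity)).1.const_mul _
  rw [MeasureTheory.integral_const_mul, MeasureTheory.integral_finsetSum _ hi]
  have h2 : ∑ m ∈ Icc 1 M, ∫ s : ℝ, ‖a m‖ ^ 2 * boxL (2 * J) (Real.log m) s =
      (1 / (2 * (J : ℝ))) * ∑ m ∈ Icc 1 M, ‖a m‖ ^ 2 := by
    rw [mul_sum]
    apply sum_congr rfl
    intro m _
    rw [MeasureTheory.integral_const_mul, (bA_int (2 * J) (Real.log m) (by positivity)).2]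
    ring
  rw [h2, ← mul_assoc]
  apply mul_le_mul_of_nonneg_right _ (sum_nonneg fun m _ => by positivity)
  have h3 : 1 + (M : ℝ) / J + (R : ℝ) ^ 2 ≤ 2 * ((R : ℝ) ^ 2 + M / J) := by
    have h4 : (1 : ℝ) ≤ (R : ℝ) ^ 2 := by nlinarith
    have h5 : (0 : ℝ) ≤ M / J := by positivity
    linarith
  calc C * (1 + M / J + (R : ℝ) ^ 2) * (1 / (2 * J))
      ≤ C * (2 * ((R : ℝ) ^ 2 + M / J)) * (1 / (2 * J)) := by
        apply mul_le_mul_of_nonneg_right _ (by positivity)
        exact mul_le_mul_of_nonneg_left h3 (by linarith)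
    _ = C * ((R : ℝ) ^ 2 + M / J) / J := by
        field_simp

end Pool.Agent.CH.D
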