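import Pool.Agent.Lib.MP_d610d0_nt.CH.D.Stm

set_option autoImplicit false

/-!
Piece sch.
-/

namespace Pool.Agent.CH.D

open Finset Filter
open ArithmeticFunction (vonMangoldt)
open Pool.Agent.MP89da58 (tri primChars)
open Pool.Agent.BVall (boxL)
open Pool.Agent.CH.V (pz ex)
open Pool.Agent.CH.P (R_PW R_PNT)

lemma sch_pz (θ : ℝ) (x : ℝ) :
    pz (-θ) x = Complex.exp (Complex.I * ((θ * Real.log x : ℝ) : ℂ)) := by
  unfold pz
  congr 1
  push_cast
  ring

lemma sch_mul (θ x y : ℝ) :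
    Complex.exp (Complex.I * ((θ * x : ℝ) : ℂ)) *
      (starRingEnd ℂ) (Complex.exp (Complex.I * ((θ * y : ℝ) : ℂ))) =
      Complex.exp (Complex.I * ((θ * (x - y) : ℝ) : ℂ)) := by
  rw [← Complex.exp_conj, ← Complex.exp_add, map_mul, Complex.conj_I, Complex.conj_ofReal]
  congr 1
  push_cast
  ring

lemma sch_int {k : ℝ → ℝ} (hk : MeasureTheory.Integrable k) (u : ℝ) :
    MeasureTheory.Integrable
      (fun θ : ℝ => (k θ : ℂ) * Complex.exp (Complex.I * ((θ * u : ℝ) : ℂ))) := by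
  have h1 : MeasureTheory.Integrable (fun θ : ℝ => (k θ : ℂ)) := hk.ofReal
  have h2 : Continuous (fun θ : ℝ => Complex.exp (Complex.I * ((θ * u : ℝ) : ℂ))) := by
    fun_prop
  refine h1.mul_bdd (c := 1) h2.aestronglyMeasurable (MeasureTheory.ae_of_all _ fun θ => ?_)
  rw [Complex.norm_exp]
  simp

lemma sch_tri_abs (u : ℝ) : tri u ≤ if |u| < 1 then 1 else 0 := by
  unfold tri
  split_ifs with h
  · exact max_le zero_le_one (by linarith [abs_nonneg u])
  · exact max_le le_rfl (by linarith)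

lemma sch_neg (u : ℝ) : tri (-u) = tri u := by
  unfold tri
  rw [abs_neg]

lemma sch_count {lam : ℝ} (hlam : 1 ≤ lam) {N n : ℕ} (hn : n ∈ Icc 1 N) :
    ∑ m ∈ Icc 1 N, tri (lam * (Real.log m - Real.log n)) ≤ 1 + 3 * N / lam := by
  have hl0 : 0 < lam := by linarith
  rw [Finset.mem_Icc] at hn
  have hn1 : (1 : ℝ) ≤ n := by exact_mod_cast hn.1
  have hnN : (n : ℝ) ≤ N := by exact_mod_cast hn.2
  have hn0 : (0 : ℝ) < n := by linarith
  set S : Finset ℕ := (Icc 1 N).filter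
    (fun m : ℕ => |lam * (Real.log m - Real.log n)| < 1) with hS
  have h1 : ∑ m ∈ Icc 1 N, tri (lam * (Real.log m - Real.log n)) ≤ (S.card : ℝ) := by
    calc _ ≤ ∑ m ∈ Icc 1 N, (if |lam * (Real.log m - Real.log n)| < 1 then (1 : ℝ) else 0) :=
          Finset.sum_le_sum fun m _ => sch_tri_abs _
      _ = (S.card : ℝ) := by
          rw [← Finset.sum_filter, Finset.sum_const, nsmul_eq_mul, mul_one]
  refine h1.trans ?_
  have hbd : ∀ m ∈ S, (n : ℝ) * Real.exp (-(1 / lam)) ≤ m ∧ (m : ℝ) ≤ n * Real.exp (1 / lam) := by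
    intro m hm
    rw [hS, Finset.mem_filter, Finset.mem_Icc] at hm
    have hm0 : (0 : ℝ) < m := by exact_mod_cast hm.1.1
    have h2 := abs_lt.1 hm.2
    have h3 : Real.log m - Real.log n ≤ 1 / lam := by
      rw [le_div_iff₀ hl0]
      linarith
    have h4 : -(1 / lam) ≤ Real.log m - Real.log n := by
      rw [neg_le, le_div_iff₀ hl0]
      linarith
    constructor
    · calc (n : ℝ) * Real.exp (-(1 / lam)) = Real.exp (Real.log n + -(1 / lam)) := by
            rw [Real.exp_add, Real.exp_log hn0]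
        _ ≤ Real.exp (Real.log m) := Real.exp_le_exp.2 (by linarith)
        _ = m := Real.exp_log hm0
    · calc (m : ℝ) = Real.exp (Real.log m) := (Real.exp_log hm0).symm
        _ ≤ Real.exp (Real.log n + 1 / lam) := Real.exp_le_exp.2 (by linarith)
        _ = n * Real.exp (1 / lam) := by rw [Real.exp_add, Real.exp_log hn0]
  have hinv0 : 0 < 1 / lam := by positivity
  have hinv1 : 1 / lam ≤ 1 := by rw [div_le_one hl0]; exact hlam
  rcases S.eq_empty_or_nonempty with he | hne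
  · rw [he]
    simp only [Finset.card_empty, Nat.cast_zero]
    positivity
  · have hmin := hbd _ (S.min'_mem hne)
    have hmax := hbd _ (S.max'_mem hne)
    have hsub : S ⊆ Icc (S.min' hne) (S.max' hne) := by
      intro m hm
      rw [Finset.mem_Icc]
      exact ⟨S.min'_le m hm, S.le_max' m hm⟩
    have hcard := Finset.card_le_card hsub
    rw [Nat.card_Icc] at hcard
    have hmm : S.min' hne ≤ S.max' hne := S.min'_le_max' hne
    have h5 : (S.card : ℝ) ≤ (S.max' hne : ℝ) + 1 - (S.min' hne : ℝ) := by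
      have : S.card + S.min' hne ≤ S.max' hne + 1 := by omega
      have h6 : ((S.card + S.min' hne : ℕ) : ℝ) ≤ ((S.max' hne + 1 : ℕ) : ℝ) := by
        exact_mod_cast this
      push_cast at h6
      linarith
    have e1 : Real.exp (1 / lam) ≤ 1 + 1 / lam + (1 / lam) ^ 2 := by
      have := Real.abs_exp_sub_one_sub_id_le (x := 1 / lam)
        (by rw [abs_of_pos hinv0]; exact hinv1)
      have := (abs_le.1 this).2
      linarith
    have e2 : 1 - 1 / lam ≤ Real.exp (-(1 / lam)) := by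
      have := Real.add_one_le_exp (-(1 / lam))
      linarith
    have e3 : Real.exp (1 / lam) - Real.exp (-(1 / lam)) ≤ 3 * (1 / lam) := by nlinarith
    have e4 : (n : ℝ) * Real.exp (1 / lam) - n * Real.exp (-(1 / lam)) ≤ N * (3 * (1 / lam)) := by
      calc (n : ℝ) * Real.exp (1 / lam) - n * Real.exp (-(1 / lam)) =
            n * (Real.exp (1 / lam) - Real.exp (-(1 / lam))) := by ring
        _ ≤ n * (3 * (1 / lam)) := mul_le_mul_of_nonneg_left e3 hn0.le
        _ ≤ N * (3 * (1 / lam)) := mul_le_mul_of_nonneg_right hnN (by positivity)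
    have e5 : 3 * (N : ℝ) / lam = N * (3 * (1 / lam)) := by ring
    rw [e5]
    linarith [hmin.1, hmax.2]

theorem p_sch : S_sch := by
  intro hkf hkb lam N b hlam
  have hl0 : 0 < lam := by linarith
  obtain ⟨hint, htri⟩ := hkf lam hl0
  have hexp : ∀ θ : ℝ, ((kap lam θ * ‖dp b N θ‖ ^ 2 : ℝ) : ℂ) =
      ∑ m ∈ Icc 1 N, ∑ n ∈ Icc 1 N, (b m * (starRingEnd ℂ) (b n)) *
        ((kap lam θ : ℂ) * Complex.exp (Complex.I * ((θ * (Real.log m - Real.log n) : ℝ) : ℂ))) := by
    intro θ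
    push_cast
    rw [← Complex.mul_conj']
    unfold dp
    rw [map_sum, Finset.sum_mul_sum, Finset.mul_sum]
    refine Finset.sum_congr rfl fun m _ => ?_
    rw [Finset.mul_sum]
    refine Finset.sum_congr rfl fun n _ => ?_
    have := sch_mul θ (Real.log m) (Real.log n)
    rw [sch_pz, sch_pz, map_mul]
    push_cast at this ⊢
    rw [← this]
    ring
  have hval : ((∫ θ : ℝ, kap lam θ * ‖dp b N θ‖ ^ 2 : ℝ) : ℂ) =
      ∑ m ∈ Icc 1 N, ∑ n ∈ Icc 1 N, (b m * (starRingEnd ℂ) (b n)) *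
        ((tri (lam * (Real.log m - Real.log n)) : ℝ) : ℂ) := by
    rw [← integral_complex_ofReal]
    simp_rw [hexp]
    rw [MeasureTheory.integral_finsetSum _ fun m _ =>
      MeasureTheory.integrable_finsetSum _ fun n _ => (sch_int hint _).const_mul _]
    refine Finset.sum_congr rfl fun m _ => ?_
    rw [MeasureTheory.integral_finsetSum _ fun n _ => (sch_int hint _).const_mul _]
    refine Finset.sum_congr rfl fun n _ => ?_
    rw [MeasureTheory.integral_const_mul, htri]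
  have hle : ∫ θ : ℝ, kap lam θ * ‖dp b N θ‖ ^ 2 ≤
      ∑ m ∈ Icc 1 N, ∑ n ∈ Icc 1 N, ‖b m‖ * ‖b n‖ * tri (lam * (Real.log m - Real.log n)) := by
    have h1 : ‖((∫ θ : ℝ, kap lam θ * ‖dp b N θ‖ ^ 2 : ℝ) : ℂ)‖ ≤
        ∑ m ∈ Icc 1 N, ∑ n ∈ Icc 1 N, ‖b m‖ * ‖b n‖ * tri (lam * (Real.log m - Real.log n)) := by
      rw [hval]
      refine (norm_sum_le _ _).trans (Finset.sum_le_sum fun m _ => ?_)
      refine (norm_sum_le _ _).trans (Finset.sum_le_sum fun n _ => ?_)
      rw [norm_mul, norm_mul, RCLike.norm_conj, Complex.norm_real,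
        Real.norm_of_nonneg (show 0 ≤ tri (lam * (Real.log m - Real.log n)) from le_max_left _ _)]
    rw [Complex.norm_real] at h1
    exact (le_abs_self _).trans h1
  refine hle.trans ?_
  have hsym : ∑ m ∈ Icc 1 N, ∑ n ∈ Icc 1 N, ‖b m‖ ^ 2 * tri (lam * (Real.log m - Real.log n)) =
      ∑ m ∈ Icc 1 N, ∑ n ∈ Icc 1 N, ‖b n‖ ^ 2 * tri (lam * (Real.log m - Real.log n)) := by
    rw [Finset.sum_comm]
    refine Finset.sum_congr rfl fun m _ => Finset.sum_congr rfl fun n _ => ?_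
    rw [← sch_neg]
    congr 2
    ring
  calc ∑ m ∈ Icc 1 N, ∑ n ∈ Icc 1 N, ‖b m‖ * ‖b n‖ * tri (lam * (Real.log m - Real.log n))
      ≤ ∑ m ∈ Icc 1 N, ∑ n ∈ Icc 1 N, (1 / 2 * (‖b m‖ ^ 2 *
          tri (lam * (Real.log m - Real.log n))) + 1 / 2 * (‖b n‖ ^ 2 *
          tri (lam * (Real.log m - Real.log n)))) := by
        refine Finset.sum_le_sum fun m _ => Finset.sum_le_sum fun n _ => ?_
        have h2 : 0 ≤ tri (lam * (Real.log m - Real.log n)) := le_max_left _ _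
        have h3 : ‖b m‖ * ‖b n‖ ≤ 1 / 2 * ‖b m‖ ^ 2 + 1 / 2 * ‖b n‖ ^ 2 := by
          nlinarith [sq_nonneg (‖b m‖ - ‖b n‖)]
        calc _ ≤ (1 / 2 * ‖b m‖ ^ 2 + 1 / 2 * ‖b n‖ ^ 2) *
              tri (lam * (Real.log m - Real.log n)) := mul_le_mul_of_nonneg_right h3 h2
          _ = _ := by ring
    _ = ∑ m ∈ Icc 1 N, ∑ n ∈ Icc 1 N, ‖b n‖ ^ 2 * tri (lam * (Real.log m - Real.log n)) := by
        have e1 : ∑ m ∈ Icc 1 N, ∑ n ∈ Icc 1 N, 1 / 2 * (‖b m‖ ^ 2 *
            tri (lam * (Real.log m - Real.log n))) = 1 / 2 * ∑ m ∈ Icc 1 N, ∑ n ∈ Icc 1 N,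
            ‖b n‖ ^ 2 * tri (lam * (Real.log m - Real.log n)) := by
          rw [← hsym]
          simp only [Finset.mul_sum]
        have e2 : ∑ m ∈ Icc 1 N, ∑ n ∈ Icc 1 N, 1 / 2 * (‖b n‖ ^ 2 *
            tri (lam * (Real.log m - Real.log n))) = 1 / 2 * ∑ m ∈ Icc 1 N, ∑ n ∈ Icc 1 N,
            ‖b n‖ ^ 2 * tri (lam * (Real.log m - Real.log n)) := by
          simp only [Finset.mul_sum]
        simp only [Finset.sum_add_distrib]
        rw [e1, e2]
        ring
    _ = ∑ n ∈ Icc 1 N, ‖b n‖ ^ 2 * ∑ m ∈ Icc 1 N, tri (lam * (Real.log m - Real.log n)) := by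
        rw [Finset.sum_comm]
        refine Finset.sum_congr rfl fun n _ => ?_
        rw [Finset.mul_sum]
    _ ≤ ∑ n ∈ Icc 1 N, ‖b n‖ ^ 2 * (1 + 3 * N / lam) :=
        Finset.sum_le_sum fun n hn => mul_le_mul_of_nonneg_left (sch_count hlam hn) (by positivity)
    _ = _ := by rw [← Finset.sum_mul]; ring

end Pool.Agent.CH.D
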