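import Pool.Agent.Lib.MP_d610d0_nt.CH.D.Stm

set_option autoImplicit false

/-!
Piece gs.
-/

namespace Pool.Agent.CH.D

open Finset Filter
open ArithmeticFunction (vonMangoldt)
open Pool.Agent.MP89da58 (tri primChars)
open Pool.Agent.BVall (boxL)
open Pool.Agent.CH.V (pz ex)
open Pool.Agent.CH.P (R_PW R_PNT)

private theorem gs_aux {q : ℕ} [NeZero q] {χ : DirichletCharacter ℂ q} (hχ : χ.IsPrimitive) :
    ‖gaussSum χ (ZMod.stdAddChar (N := q))‖ ^ 2 = q := by
  have hq : (q : ℂ) ≠ 0 := by exact_mod_cast (NeZero.ne q)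
  set G := gaussSum χ (ZMod.stdAddChar (N := q)) with hG
  set G' := gaussSum χ⁻¹ (ZMod.stdAddChar (N := q)) with hG'
  -- `G' * χ (-1) = conj G`
  have h1 : star G = χ (-1) * G' := by
    rw [hG, star_gaussSum_eq]
    have h2 : (ZMod.stdAddChar (N := q))⁻¹ = (ZMod.stdAddChar (N := q)).mulShift (-1) := by
      rw [AddChar.inv_mulShift]
    rw [h2]
    have h3 := gaussSum_mulShift_eq χ⁻¹ (ZMod.stdAddChar (N := q)) (-1)
    rw [inv_inv] at h3
    rw [hG']
    simpa using h3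
  -- `G * G' = q * χ (-1)`
  have h2 : G * G' = q * χ (-1) := by
    have h3 := congrFun (ZMod.dft_dft (N := q) (χ : ZMod q → ℂ)) 1
    have h4 : ZMod.dft (χ : ZMod q → ℂ) = fun k => χ⁻¹ (-k) * G := by
      ext k
      rw [hχ.fourierTransform_eq_inv_mul_gaussSum]
    rw [h4] at h3
    simp only [smul_eq_mul] at h3
    rw [← h3, ZMod.dft_apply]
    have h5 : ∀ j : ZMod q, (ZMod.stdAddChar (-(j * 1)) : ℂ) • (χ⁻¹ (-j) * G) =
        G * (χ⁻¹ (-j) * ZMod.stdAddChar (-j)) := by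
      intro j
      rw [mul_one, smul_eq_mul]
      ring
    rw [Finset.sum_congr rfl fun j _ => h5 j, ← Finset.mul_sum, hG']
    congr 1
    unfold gaussSum
    exact (Equiv.sum_comp (Equiv.neg (ZMod q))
      (fun j => χ⁻¹ j * (ZMod.stdAddChar j : ℂ))).symm
  have h3 : χ (-1) * χ (-1) = 1 := by
    rw [← map_mul]
    simp
  have h4 : G * star G = q := by
    rw [h1, ← mul_assoc, mul_comm G, mul_assoc, h2, mul_comm, mul_assoc, h3, mul_one]
  have h5 : ((‖G‖ ^ 2 : ℝ) : ℂ) = ((q : ℝ) : ℂ) := by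
    push_cast
    rw [← Complex.mul_conj']
    exact h4
  exact_mod_cast h5

theorem p_gs : S_gs := by
  intro r _ χ hχ
  exact gs_aux hχ

end Pool.Agent.CH.D
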