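import Pool.Agent.Lib.MP_d610d0_nt.CH.D.Stm

set_option autoImplicit false

/-!
Piece kb.
-/

namespace Pool.Agent.CH.D

open Finset Filter
open ArithmeticFunction (vonMangoldt)
open Pool.Agent.MP89da58 (tri primChars)
open Pool.Agent.BVall (boxL)
open Pool.Agent.CH.V (pz ex)
open Pool.Agent.CH.P (R_PW R_PNT)

theorem kb_sinc_ge (x : ℝ) : 1 - x ^ 2 / 6 ≤ Real.sinc x := by
  rcases eq_or_ne x 0 with rfl | hx
  · simp
  · have h1 : ∀ y : ℝ, 0 < y → 1 - y ^ 2 / 6 ≤ Real.sinc y := by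
      intro y hy
      rw [Real.sinc_of_ne_zero hy.ne', le_div_iff₀ hy]
      have := Real.sin_ge_sub_cube hy.le
      linarith [this, (by ring : (1 - y ^ 2 / 6) * y = y - y ^ 3 / 6)]
    rcases lt_or_gt_of_ne hx with h | h
    · have := h1 (-x) (by linarith)
      rw [Real.sinc_neg] at this
      linarith [(by ring : (-x) ^ 2 = x ^ 2)]
    · exact h1 x h

theorem kb_sq_le (x : ℝ) : Real.sinc x ^ 2 ≤ 1 := by
  rw [← sq_abs]
  have := Real.abs_sinc_le_one x
  have := abs_nonneg (Real.sinc x)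
  nlinarith

theorem kb_sq_ge (x : ℝ) : 1 - x ^ 2 / 3 ≤ Real.sinc x ^ 2 := by
  by_cases h : x ^ 2 ≤ 3
  · have h1 := kb_sinc_ge x
    have h2 : 0 ≤ 1 - x ^ 2 / 6 := by linarith
    have h3 : (1 - x ^ 2 / 6) ^ 2 ≤ Real.sinc x ^ 2 := pow_le_pow_left₀ h2 h1 2
    nlinarith [sq_nonneg (x ^ 2)]
  · push Not at h
    have := sq_nonneg (Real.sinc x)
    linarith

theorem kb_mul (lam θ : ℝ) (h : 0 < lam) :
    lam * kap lam θ = Real.sinc (θ / (2 * lam)) ^ 2 / (2 * Real.pi) := by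
  unfold kap
  have := Real.pi_pos
  field_simp

theorem p_kb : S_kb := by
  intro lam hlam
  have hpi := Real.pi_pos
  have hpi3 : 3 < Real.pi := Real.pi_gt_three
  have hpi4 : Real.pi < 3.15 := Real.pi_lt_d2
  refine ⟨?_, ?_, ?_, ?_, ?_, ?_, ?_⟩
  · intro θ
    unfold kap
    positivity
  · intro θ
    unfold kap
    have := kb_sq_le (θ / (2 * lam))
    rw [one_div]
    exact mul_le_of_le_one_right (by positivity) this
  · intro θ hθ
    unfold kap
    have hx : θ / (2 * lam) ≠ 0 := by positivity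
    rw [Real.sinc_of_ne_zero hx, div_pow]
    have h1 : Real.sin (θ / (2 * lam)) ^ 2 ≤ 1 := Real.sin_sq_le_one _
    have h2 : Real.sin (θ / (2 * lam)) ^ 2 / (θ / (2 * lam)) ^ 2 ≤ 1 / (θ / (2 * lam)) ^ 2 :=
      div_le_div_of_nonneg_right h1 (by positivity)
    refine (mul_le_mul_of_nonneg_left h2 (by positivity)).trans (le_of_eq ?_)
    field_simp
  · intro θ hθ
    have h1 := kb_sq_ge (θ / (2 * lam))
    have h2 : (θ / (2 * lam)) ^ 2 ≤ 1 / 4 := by
      rw [div_pow, div_le_iff₀ (by positivity)]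
      have h3 : θ ^ 2 ≤ lam ^ 2 := by
        rw [← sq_abs θ]
        exact pow_le_pow_left₀ (abs_nonneg _) hθ 2
      nlinarith
    have h4 : 11 / 12 ≤ Real.sinc (θ / (2 * lam)) ^ 2 := by linarith
    unfold kap
    rw [one_div, mul_inv, mul_inv]
    have h5 : (2 * Real.pi)⁻¹ * (11 / 12) ≤ (2 * Real.pi)⁻¹ * Real.sinc (θ / (2 * lam)) ^ 2 :=
      mul_le_mul_of_nonneg_left h4 (by positivity)
    have h6 : (8 : ℝ)⁻¹ ≤ (2 * Real.pi)⁻¹ * (11 / 12) := by
      rw [inv_mul_eq_div, le_div_iff₀ (by positivity)]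
      linarith
    have h7 : 0 < lam⁻¹ := by positivity
    calc (8 : ℝ)⁻¹ * lam⁻¹ ≤ ((2 * Real.pi)⁻¹ * Real.sinc (θ / (2 * lam)) ^ 2) * lam⁻¹ :=
          mul_le_mul_of_nonneg_right (h6.trans h5) h7.le
      _ = _ := by rw [mul_inv]; ring
  · intro lam' θ hll
    have hlam' : 0 < lam' := lt_of_lt_of_le hlam hll
    rw [kb_mul _ _ hlam', kb_mul _ _ hlam, ← sub_div, abs_div, abs_of_pos (show 0 < 2 * Real.pi by positivity),
      div_le_iff₀ (by positivity)]
    have a1 := kb_sq_ge (θ / (2 * lam))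
    have a2 := kb_sq_ge (θ / (2 * lam'))
    have b1 := kb_sq_le (θ / (2 * lam))
    have b2 := kb_sq_le (θ / (2 * lam'))
    have e1 : (θ / (2 * lam)) ^ 2 = θ ^ 2 / lam ^ 2 / 4 := by
      field_simp
      ring
    have e2 : (θ / (2 * lam')) ^ 2 ≤ θ ^ 2 / lam ^ 2 / 4 := by
      rw [← e1, div_pow, div_pow]
      apply div_le_div_of_nonneg_left (sq_nonneg _) (by positivity)
      exact pow_le_pow_left₀ (by positivity) (by linarith) 2
    rw [e1] at a1
    have hq : 0 ≤ θ ^ 2 / lam ^ 2 := by positivity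
    generalize θ ^ 2 / lam ^ 2 = q at *
    have h9 : q ≤ q * (2 * Real.pi) := by nlinarith
    rw [abs_le]
    constructor <;> linarith
  · intro lam' θ hlam'
    rw [kb_mul _ _ hlam', kb_mul _ _ hlam, ← sub_div, abs_div, abs_of_pos (show 0 < 2 * Real.pi by positivity)]
    apply div_le_div_of_nonneg_right _ (by positivity)
    have b1 := kb_sq_le (θ / (2 * lam))
    have b2 := kb_sq_le (θ / (2 * lam'))
    have c1 := sq_nonneg (Real.sinc (θ / (2 * lam)))
    have c2 := sq_nonneg (Real.sinc (θ / (2 * lam')))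
    rw [abs_le]
    constructor <;> linarith
  · unfold kap
    exact continuous_const.mul ((Real.continuous_sinc.comp (continuous_id.div_const _)).pow 2)

end Pool.Agent.CH.D
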