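import Pool.Agent.Lib.MP_d610d0_nt.CH.D.Stm

set_option autoImplicit false

/-!
Piece kf: the triangle as a Fourier integral.
-/

namespace Pool.Agent.CH.D

open Finset Filter
open ArithmeticFunction (vonMangoldt)
open Pool.Agent.MP89da58 (tri primChars)
open Pool.Agent.BVall (boxL)
open Pool.Agent.CH.V (pz ex)
open Pool.Agent.CH.P (R_PW R_PNT)

open scoped FourierTransform in
/-- The triangle, complex valued. -/
noncomputable def kf_f : ℝ → ℂ := fun u => ((tri u : ℝ) : ℂ)

lemma kf_cont : Continuous kf_f := by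
  unfold kf_f tri
  fun_prop

lemma kf_zero (u : ℝ) (hu : 1 ≤ |u|) : kf_f u = 0 := by
  unfold kf_f tri
  rw [max_eq_left (by linarith)]
  simp

lemma kf_supp : HasCompactSupport kf_f := by
  apply HasCompactSupport.intro (isCompact_Icc (a := (-1 : ℝ)) (b := 1))
  intro x hx
  apply kf_zero
  by_contra h
  push Not at h
  rw [abs_lt] at h
  exact hx ⟨h.1.le, h.2.le⟩

lemma kf_int : MeasureTheory.Integrable kf_f :=
  kf_cont.integrable_of_hasCompactSupport kf_supp

/-- `∫ tri u e^{c u} du` for `c ≠ 0`. -/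
lemma kf_calc (c : ℂ) (hc : c ≠ 0) :
    ∫ u : ℝ, Complex.exp (c * u) * kf_f u = (Complex.exp c + Complex.exp (-c) - 2) / c ^ 2 := by
  have h1 : ∫ u : ℝ, Complex.exp (c * u) * kf_f u
      = ∫ u in (-1 : ℝ)..1, Complex.exp (c * u) * kf_f u := by
    rw [intervalIntegral.integral_of_le (by norm_num)]
    symm
    apply MeasureTheory.setIntegral_eq_integral_of_forall_compl_eq_zero
    intro x hx
    rw [kf_zero, mul_zero]
    by_contra h
    push Not at h
    rw [abs_lt] at h
    exact hx ⟨h.1, h.2.le⟩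
  have hcont : Continuous (fun u : ℝ => Complex.exp (c * u) * kf_f u) := by
    have := kf_cont
    fun_prop
  have h2 : ∫ u in (-1 : ℝ)..1, Complex.exp (c * u) * kf_f u
      = (∫ u in (-1 : ℝ)..0, Complex.exp (c * u) * kf_f u)
        + ∫ u in (0 : ℝ)..1, Complex.exp (c * u) * kf_f u := by
    rw [intervalIntegral.integral_add_adjacent_intervals] <;>
      exact hcont.intervalIntegrable _ _
  have h3 : ∫ u in (0 : ℝ)..1, Complex.exp (c * u) * kf_f u
      = ∫ u in (0 : ℝ)..1, (1 - (u : ℂ)) * Complex.exp (c * u) := by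
    apply intervalIntegral.integral_congr
    intro u hu
    rw [Set.uIcc_of_le (by norm_num)] at hu
    have : kf_f u = 1 - (u : ℂ) := by
      unfold kf_f tri
      rw [abs_of_nonneg hu.1, max_eq_right (by linarith [hu.2])]
      push_cast
      ring
    simp only [this]
    ring
  have h4 : ∫ u in (-1 : ℝ)..0, Complex.exp (c * u) * kf_f u
      = ∫ u in (-1 : ℝ)..0, (1 + (u : ℂ)) * Complex.exp (c * u) := by
    apply intervalIntegral.integral_congr
    intro u hu
    rw [Set.uIcc_of_le (by norm_num)] at hu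
    have : kf_f u = 1 + (u : ℂ) := by
      unfold kf_f tri
      rw [abs_of_nonpos hu.2, max_eq_right (by linarith [hu.1])]
      push_cast
      ring
    simp only [this]
    ring
  have h5 : ∫ u in (0 : ℝ)..1, (1 - (u : ℂ)) * Complex.exp (c * u)
      = ((1 - ((1 : ℝ) : ℂ)) / c + 1 / c ^ 2) * Complex.exp (c * ((1 : ℝ) : ℂ))
        - ((1 - ((0 : ℝ) : ℂ)) / c + 1 / c ^ 2) * Complex.exp (c * ((0 : ℝ) : ℂ)) := by
    apply intervalIntegral.integral_eq_sub_of_hasDerivAt
      (f := fun u : ℝ => ((1 - (u : ℂ)) / c + 1 / c ^ 2) * Complex.exp (c * u))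
    · intro x _
      have e1 : HasDerivAt (fun u : ℝ => (1 - (u : ℂ)) / c + 1 / c ^ 2) ((-1) / c) x := by
        have : HasDerivAt (fun u : ℝ => (u : ℂ)) 1 x := Complex.ofRealCLM.hasDerivAt
        simpa using ((this.const_sub 1).div_const c).add_const (1 / c ^ 2)
      have e2 : HasDerivAt (fun u : ℝ => Complex.exp (c * u)) (Complex.exp (c * x) * (c * 1)) x := by
        have : HasDerivAt (fun u : ℝ => (u : ℂ)) 1 x := Complex.ofRealCLM.hasDerivAt
        exact (this.const_mul c).cexp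
      have e3 := e1.mul e2
      refine e3.congr_deriv ?_
      field_simp
      ring
    · apply Continuous.intervalIntegrable
      fun_prop
  have h6 : ∫ u in (-1 : ℝ)..0, (1 + (u : ℂ)) * Complex.exp (c * u)
      = ((1 + ((0 : ℝ) : ℂ)) / c - 1 / c ^ 2) * Complex.exp (c * ((0 : ℝ) : ℂ))
        - ((1 + ((-1 : ℝ) : ℂ)) / c - 1 / c ^ 2) * Complex.exp (c * ((-1 : ℝ) : ℂ)) := by
    apply intervalIntegral.integral_eq_sub_of_hasDerivAt
      (f := fun u : ℝ => ((1 + (u : ℂ)) / c - 1 / c ^ 2) * Complex.exp (c * u))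
    · intro x _
      have e1 : HasDerivAt (fun u : ℝ => (1 + (u : ℂ)) / c - 1 / c ^ 2) (1 / c) x := by
        have : HasDerivAt (fun u : ℝ => (u : ℂ)) 1 x := Complex.ofRealCLM.hasDerivAt
        simpa using ((this.const_add 1).div_const c).sub_const (1 / c ^ 2)
      have e2 : HasDerivAt (fun u : ℝ => Complex.exp (c * u)) (Complex.exp (c * x) * (c * 1)) x := by
        have : HasDerivAt (fun u : ℝ => (u : ℂ)) 1 x := Complex.ofRealCLM.hasDerivAt
        exact (this.const_mul c).cexp
      have e3 := e1.mul e2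
      refine e3.congr_deriv ?_
      field_simp
      ring
    · apply Continuous.intervalIntegrable
      fun_prop
  rw [h1, h2, h3, h4, h5, h6]
  simp only [Complex.ofReal_one, Complex.ofReal_zero, Complex.ofReal_neg, mul_zero,
    Complex.exp_zero, mul_one, mul_neg]
  field_simp
  ring

open scoped FourierTransform in
lemma kf_four (w : ℝ) (hw : w ≠ 0) :
    𝓕 kf_f w = (((Real.sinc (Real.pi * w)) ^ 2 : ℝ) : ℂ) := by
  rw [Real.fourier_real_eq_integral_exp_smul]
  have hpw : Real.pi * w ≠ 0 := mul_ne_zero Real.pi_ne_zero hw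
  set c : ℂ := -(2 * ((Real.pi * w : ℝ) : ℂ) * Complex.I) with hc
  have hpw' : ((Real.pi * w : ℝ) : ℂ) ≠ 0 := by exact_mod_cast hpw
  have hc0 : c ≠ 0 := by
    rw [hc]
    simp only [ne_eq, neg_eq_zero, mul_eq_zero, Complex.I_ne_zero, or_false, OfNat.ofNat_ne_zero,
      false_or]
    exact hpw'
  have h1 : ∫ v : ℝ, Complex.exp (((-2 * Real.pi * v * w : ℝ) : ℂ) * Complex.I) • kf_f v
      = ∫ v : ℝ, Complex.exp (c * v) * kf_f v := by
    congr 1
    ext v
    rw [smul_eq_mul, hc]
    congr 2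
    push_cast
    ring
  rw [h1, kf_calc c hc0, Real.sinc_of_ne_zero hpw]
  have h2 : Complex.exp c + Complex.exp (-c) = 2 * Complex.cos (2 * ((Real.pi * w : ℝ) : ℂ)) := by
    rw [Complex.cos, hc]
    ring_nf
  have h3 : Complex.cos (2 * ((Real.pi * w : ℝ) : ℂ))
      = 1 - 2 * (Complex.sin ((Real.pi * w : ℝ) : ℂ)) ^ 2 := by
    rw [Complex.cos_two_mul, Complex.cos_sq']
    ring
  have h4 : c ^ 2 = -(4 * ((Real.pi * w : ℝ) : ℂ) ^ 2) := by
    rw [hc]
    have := Complex.I_sq
    ring_nf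
    rw [Complex.I_sq]
    ring
  rw [h2, h3, h4]
  push_cast at hpw' ⊢
  field_simp
  ring

lemma kf_sinc_int : MeasureTheory.Integrable (fun x : ℝ => (Real.sinc x) ^ 2) := by
  apply MeasureTheory.Integrable.mono' (g := fun x : ℝ => 2 * (1 + x ^ 2)⁻¹)
    (integrable_inv_one_add_sq.const_mul 2)
  · exact (Real.continuous_sinc.pow 2).aestronglyMeasurable
  · filter_upwards with x
    rw [Real.norm_eq_abs, abs_of_nonneg (sq_nonneg _)]
    have h0 : 0 < 1 + x ^ 2 := by positivity
    have h1 : (Real.sinc x) ^ 2 ≤ 1 := by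
      have := Real.abs_sinc_le_one x
      rw [← sq_abs]
      have h := abs_nonneg (Real.sinc x)
      nlinarith
    have h2 : (Real.sinc x) ^ 2 * x ^ 2 ≤ 1 := by
      by_cases hx : x = 0
      · subst hx; simp
      · rw [Real.sinc_of_ne_zero hx, div_pow, div_mul_cancel₀ _ (pow_ne_zero 2 hx)]
        exact Real.sin_sq_le_one x
    rw [← div_eq_mul_inv, le_div_iff₀ h0]
    nlinarith

open scoped FourierTransform in
lemma kf_inv (u : ℝ) :
    ∫ w : ℝ, Complex.exp (((2 * Real.pi * (w * u) : ℝ) : ℂ) * Complex.I)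
      * (((Real.sinc (Real.pi * w)) ^ 2 : ℝ) : ℂ) = kf_f u := by
  have hae : ∀ᵐ w : ℝ, 𝓕 kf_f w = (((Real.sinc (Real.pi * w)) ^ 2 : ℝ) : ℂ) := by
    have : ∀ᵐ w : ℝ, w ≠ 0 := by
      simp [MeasureTheory.ae_iff]
    filter_upwards [this] with w hw
    exact kf_four w hw
  have hi : MeasureTheory.Integrable (𝓕 kf_f) := by
    have h : MeasureTheory.Integrable (fun w : ℝ => (((Real.sinc (Real.pi * w)) ^ 2 : ℝ) : ℂ)) :=
      (kf_sinc_int.comp_mul_left' Real.pi_ne_zero).ofReal
    exact h.congr (by filter_upwards [hae] with w hw using hw.symm)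
  have h := congrFun (kf_cont.fourierInv_fourier_eq kf_int hi) u
  rw [← h, Real.fourierInv_eq']
  apply MeasureTheory.integral_congr_ae
  filter_upwards [hae] with w hw
  rw [hw, smul_eq_mul]
  congr 3
  simp [mul_comm]

theorem p_kf : S_kf := by
  intro lam hlam
  have h2 : (2 * lam) ≠ 0 := by positivity
  constructor
  · unfold kap
    have h1 := (kf_sinc_int.comp_mul_left' (R := (2 * lam)⁻¹) (inv_ne_zero h2)).const_mul
      (2 * Real.pi * lam)⁻¹
    apply h1.congr
    filter_upwards with x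
    rw [div_eq_inv_mul]
  · intro u
    have hk := kf_inv (lam * u)
    have hpos : 0 < 2 * Real.pi * lam := by positivity
    set g : ℝ → ℂ := fun θ => (kap lam θ : ℂ) * Complex.exp (Complex.I * ((θ * u : ℝ) : ℂ)) with hg
    have h3 := MeasureTheory.Measure.integral_comp_mul_left g (2 * Real.pi * lam)
    have h4 : ∀ w : ℝ, Complex.exp (((2 * Real.pi * (w * (lam * u)) : ℝ) : ℂ) * Complex.I)
        * (((Real.sinc (Real.pi * w)) ^ 2 : ℝ) : ℂ)
        = ((2 * Real.pi * lam : ℝ) : ℂ) * g (2 * Real.pi * lam * w) := by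
      intro w
      have e1 : kap lam (2 * Real.pi * lam * w)
          = (2 * Real.pi * lam)⁻¹ * (Real.sinc (Real.pi * w)) ^ 2 := by
        unfold kap
        congr 3
        field_simp
      simp only [hg, e1]
      have e2 : ((2 * Real.pi * lam : ℝ) : ℂ) ≠ 0 := by exact_mod_cast hpos.ne'
      have e3 : Complex.I * ((2 * Real.pi * lam * w * u : ℝ) : ℂ)
          = ((2 * Real.pi * (w * (lam * u)) : ℝ) : ℂ) * Complex.I := by
        push_cast; ring
      rw [e3]
      rw [Complex.ofReal_mul ((2 * Real.pi * lam)⁻¹), Complex.ofReal_inv]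
      field_simp
    simp_rw [h4] at hk
    rw [MeasureTheory.integral_const_mul, h3, abs_of_pos (inv_pos.mpr hpos)] at hk
    rw [Complex.real_smul, Complex.ofReal_inv, ← mul_assoc, mul_inv_cancel₀, one_mul] at hk
    · rw [hk]; rfl
    · exact_mod_cast hpos.ne'

end Pool.Agent.CH.D
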