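import Pool.Agent.Lib.MP_d610d0_nt.CH.D.Stm
import Pool.Agent.Lib.MP_bca3e5_nt.LS1

set_option autoImplicit false

/-!
Piece ls.
-/

namespace Pool.Agent.CH.D

open Finset Filter
open ArithmeticFunction (vonMangoldt)
open Pool.Agent.MP89da58 (tri primChars)
open Pool.Agent.BVall (boxL)
open Pool.Agent.CH.V (pz ex)
open Pool.Agent.CH.P (R_PW R_PNT)

theorem ls_ex_norm (t : ℝ) : ‖ex t‖ = 1 := by
  unfold ex
  rw [show (2 * Real.pi * Complex.I * (t : ℂ) : ℂ) = ((2 * Real.pi * t : ℝ) : ℂ) * Complex.I by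
    push_cast; ring]
  exact Complex.norm_exp_ofReal_mul_I _

theorem ls_shift (K N : ℕ) (f : ℕ → ℂ) :
    ∑ n ∈ Ioc K (K + N), f n = ∑ m ∈ Icc 1 N, f (K + m) := by
  symm
  refine Finset.sum_nbij (fun m => K + m) ?_ ?_ ?_ ?_
  · intro m hm
    rw [mem_Icc] at hm
    rw [mem_Ioc]
    omega
  · intro a _ b _ h
    simp only at h
    omega
  · intro n hn
    simp only [coe_Ioc, Set.mem_Ioc] at hn
    refine ⟨n - K, ?_, ?_⟩
    · simp only [coe_Icc, Set.mem_Icc]; omega
    · simp only; omega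
  · intro a _
    rfl

theorem ls_norm (K N : ℕ) (x : ℕ → ℂ) (a r : ℕ) :
    ‖∑ n ∈ Ioc K (K + N), x n * ex ((a : ℝ) * n / r)‖ =
      ‖MPbca.SS N (fun m => x (K + m)) ((a : ℝ) / r)‖ := by
  have h : ∑ n ∈ Ioc K (K + N), x n * ex ((a : ℝ) * n / r) =
      ex ((a : ℝ) * K / r) * MPbca.SS N (fun m => x (K + m)) ((a : ℝ) / r) := by
    rw [ls_shift, MPbca.SS, mul_sum]
    apply sum_congr rfl
    intro m _
    have e : ex ((a : ℝ) * (K + m : ℕ) / r) = ex ((a : ℝ) * K / r) * MPbca.ee m ((a : ℝ) / r) := by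
      unfold ex MPbca.ee
      rw [← Complex.exp_add]
      congr 1
      push_cast
      ring
    rw [e]
    ring
  rw [h, norm_mul, ls_ex_norm, one_mul]

theorem ls_cross {r s a b : ℕ} (ha : a < r) (hb : b < s) (har : a.Coprime r)
    (hbs : b.Coprime s) (h : a * s = b * r) : r = s ∧ a = b := by
  have h1 : r ∣ s := by
    have : r ∣ a * s := by rw [h]; exact dvd_mul_left _ _
    exact har.symm.dvd_of_dvd_mul_left this
  have h2 : s ∣ r := by
    have : s ∣ b * r := by rw [← h]; exact dvd_mul_left _ _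
    exact hbs.symm.dvd_of_dvd_mul_left this
  have h3 : r = s := Nat.dvd_antisymm h1 h2
  subst h3
  exact ⟨rfl, Nat.eq_of_mul_eq_mul_right (by omega) h⟩

theorem p_ls : S_ls := by
  classical
  intro hpr
  refine ⟨13, by norm_num, fun R K N x => ?_⟩
  rcases Nat.eq_zero_or_pos R with hR | hR
  · subst hR
    have : primChars 0 = ∅ := by
      unfold primChars
      simp
    rw [this, sum_empty]
    positivity
  have hR' : (1 : ℝ) ≤ R := by exact_mod_cast hR
  set I : Finset (Σ _ : ℕ, ℕ) :=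
    (Icc 2 R).sigma (fun r => (range r).filter (fun a => a.Coprime r)) with hI
  have h1 : ∑ p ∈ primChars R, ‖∑ n ∈ Ioc K (K + N), x n * p.2 (n : ZMod p.1)‖ ^ 2 ≤
      ∑ i ∈ I, ‖MPbca.SS N (fun m => x (K + m)) ((i.2 : ℝ) / i.1)‖ ^ 2 := by
    rw [hI, primChars, sum_sigma, sum_sigma]
    apply sum_le_sum
    intro r hr
    rw [mem_Icc] at hr
    haveI : NeZero r := ⟨by omega⟩
    have h := hpr r (Ioc K (K + N)) x
    simp_rw [ls_norm] at h
    refine (le_of_eq ?_).trans h
    apply Finset.sum_congr _ (fun _ _ => rfl)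
    ext χ
    simp only [mem_filter, Finset.mem_univ, true_and]
  refine h1.trans ?_
  have h2 := MPbca.large_sieve_points I
    (fun i => (i.2 : ℝ) / i.1) (δ := 1 / (R : ℝ) ^ 2) (by positivity) (by
      rintro ⟨p, a⟩ hi ⟨q, b⟩ hj hne
      simp only [hI, mem_sigma, mem_filter, mem_Icc, mem_range] at hi hj ⊢
      obtain ⟨⟨hp2, hpQ⟩, ha1, ha2⟩ := hi
      obtain ⟨⟨hq2, hqQ⟩, hb1, hb2⟩ := hj
      have hp0 : (0 : ℝ) < p := by
        have : 0 < p := by omega
        exact_mod_cast this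
      have hq0 : (0 : ℝ) < q := by
        have : 0 < q := by omega
        exact_mod_cast this
      have hcross : (a : ℤ) * q - b * p ≠ 0 := by
        intro h0
        have h1 : a * q = b * p := by
          have : (a : ℤ) * q = b * p := by linarith
          exact_mod_cast this
        obtain ⟨e1, e2⟩ := ls_cross ha1 hb1 ha2 hb2 h1
        subst e1 e2
        exact hne rfl
      have h6 : (a : ℝ) / p - b / q = ((a : ℝ) * q - b * p) / (p * q) := by
        field_simp
      rw [h6, abs_div, abs_of_pos (mul_pos hp0 hq0)]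
      have h7 : (1 : ℝ) ≤ |(a : ℝ) * q - b * p| := by
        have : (1 : ℤ) ≤ |(a : ℤ) * q - b * p| := Int.one_le_abs hcross
        exact_mod_cast this
      apply div_le_div₀ (by positivity) h7 (mul_pos hp0 hq0)
      rw [pow_two]
      have e1 : (p : ℝ) ≤ R := by exact_mod_cast hpQ
      have e2 : (q : ℝ) ≤ R := by exact_mod_cast hqQ
      exact mul_le_mul e1 e2 hq0.le (by positivity)) (by
      rintro ⟨p, a⟩ hi
      simp only [hI, mem_sigma, mem_filter, mem_Icc, mem_range] at hi ⊢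
      obtain ⟨⟨hp2, hpQ⟩, ha1, ha2⟩ := hi
      have hp0 : (0 : ℝ) < p := by
        have : 0 < p := by omega
        exact_mod_cast this
      have e1 : (p : ℝ) ≤ R := by exact_mod_cast hpQ
      have ha0 : 1 ≤ a := by
        rcases Nat.eq_zero_or_pos a with h | h
        · subst h
          rw [Nat.coprime_zero_left] at ha2
          omega
        · exact h
      have e2 : (1 : ℝ) ≤ a := by exact_mod_cast ha0
      have e3 : (a : ℝ) + 1 ≤ p := by
        have : a + 1 ≤ p := by omega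
        exact_mod_cast this
      have h8 : 1 / (R : ℝ) ^ 2 / 2 ≤ 1 / p := by
        have h9 : 1 / (R : ℝ) ^ 2 / 2 ≤ 1 / (R : ℝ) ^ 2 := by
          have : 0 ≤ 1 / (R : ℝ) ^ 2 := by positivity
          linarith
        refine h9.trans ?_
        apply one_div_le_one_div_of_le hp0
        nlinarith
      constructor
      · refine h8.trans ?_
        exact div_le_div_of_nonneg_right e2 hp0.le
      · have h10 : (a : ℝ) / p ≤ 1 - 1 / p := by
          rw [div_le_iff₀ hp0]
          field_simp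
          linarith
        linarith) N (fun m => x (K + m))
  refine h2.trans ?_
  have h5 : ∑ n ∈ Ioc K (K + N), ‖x n‖ ^ 2 = ∑ m ∈ Icc 1 N, ‖x (K + m)‖ ^ 2 := by
    have := ls_shift K N (fun n => ((‖x n‖ ^ 2 : ℝ) : ℂ))
    exact_mod_cast this
  rw [h5]
  apply mul_le_mul_of_nonneg_right _ (sum_nonneg fun _ _ => by positivity)
  rw [one_div, inv_inv]
  have h3 : Real.pi ≤ 3.2 := by linarith [Real.pi_lt_d2]
  have h4 : (0 : ℝ) ≤ N := Nat.cast_nonneg N
  nlinarith [sq_nonneg (R : ℝ)]

end Pool.Agent.CH.D
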