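import Pool.Agent.Lib.MP_d610d0_nt.CH.D.Stm

set_option autoImplicit false

/-!
Piece pr.
-/

namespace Pool.Agent.CH.D

open Finset Filter
open ArithmeticFunction (vonMangoldt)
open Pool.Agent.MP89da58 (tri primChars)
open Pool.Agent.BVall (boxL)
open Pool.Agent.CH.V (pz ex)
open Pool.Agent.CH.P (R_PW R_PNT)

/-- the exponential sum at `a / r` -/
noncomputable def pr_T {r : ℕ} [NeZero r] (S : Finset ℕ) (x : ℕ → ℂ) (a : ZMod r) : ℂ :=
  ∑ n ∈ S, x n * ZMod.stdAddChar (a * (n : ZMod r))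

lemma pr_T_eq {r : ℕ} [NeZero r] (S : Finset ℕ) (x : ℕ → ℂ) (a : ℕ) :
    pr_T S x (a : ZMod r) = ∑ n ∈ S, x n * ex ((a : ℝ) * n / r) := by
  unfold pr_T
  refine Finset.sum_congr rfl fun n _ => ?_
  congr 1
  have h1 : ((a : ZMod r) * (n : ZMod r)) = (((a * n : ℕ) : ℤ) : ZMod r) := by push_cast; ring
  rw [h1, ZMod.stdAddChar_coe]
  unfold ex
  congr 1
  push_cast
  ring

lemma pr_inv_prim {r : ℕ} {χ : DirichletCharacter ℂ r} (h : χ.IsPrimitive) : χ⁻¹.IsPrimitive := by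
  unfold DirichletCharacter.IsPrimitive at h ⊢
  rw [DirichletCharacter.conductor_inv]
  exact h

lemma pr_char {r : ℕ} [NeZero r] (χ : DirichletCharacter ℂ r) (h : χ.IsPrimitive) (n : ZMod r) :
    χ n * gaussSum χ⁻¹ (ZMod.stdAddChar (N := r)) =
      ∑ a : ZMod r, χ⁻¹ a * ZMod.stdAddChar (a * n) := by
  have h1 := gaussSum_mulShift_of_isPrimitive (ZMod.stdAddChar (N := r)) (pr_inv_prim h) n
  rw [inv_inv] at h1
  rw [← h1]
  unfold gaussSum
  refine Finset.sum_congr rfl fun a _ => ?_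
  rw [AddChar.mulShift_apply, mul_comm n]

lemma pr_sum {r : ℕ} [NeZero r] (χ : DirichletCharacter ℂ r) (h : χ.IsPrimitive) (S : Finset ℕ)
    (x : ℕ → ℂ) :
    (∑ n ∈ S, x n * χ (n : ZMod r)) * gaussSum χ⁻¹ (ZMod.stdAddChar (N := r)) =
      ∑ a : ZMod r, χ⁻¹ a * pr_T S x a := by
  unfold pr_T
  simp_rw [Finset.mul_sum]
  rw [Finset.sum_comm, Finset.sum_mul]
  refine Finset.sum_congr rfl fun n _ => ?_
  rw [mul_assoc, pr_char χ h, Finset.mul_sum]
  refine Finset.sum_congr rfl fun a _ => ?_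
  ring

lemma pr_inv_apply {r : ℕ} (χ : DirichletCharacter ℂ r) {a : ZMod r} (ha : IsUnit a) :
    χ⁻¹ a = χ a⁻¹ := by
  obtain ⟨u, rfl⟩ := ha
  rw [ZMod.inv_coe_unit, MulChar.inv_apply, Ring.inverse_unit]

/-- orthogonality -/
lemma pr_sq {r : ℕ} [NeZero r] (T : ZMod r → ℂ) :
    ∑ χ : DirichletCharacter ℂ r, ‖∑ a : ZMod r, χ⁻¹ a * T a‖ ^ 2 =
      (r.totient : ℝ) * ∑ a ∈ (Finset.univ : Finset (ZMod r)).filter (fun a => IsUnit a),
        ‖T a‖ ^ 2 := by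
  classical
  have h1 : ∀ χ : DirichletCharacter ℂ r, ((‖∑ a : ZMod r, χ⁻¹ a * T a‖ ^ 2 : ℝ) : ℂ) =
      ∑ a : ZMod r, ∑ b : ZMod r, (T a * (starRingEnd ℂ) (T b)) * (χ⁻¹ a * χ b) := by
    intro χ
    push_cast
    rw [← Complex.mul_conj', map_sum, Finset.sum_mul_sum]
    refine Finset.sum_congr rfl fun a _ => Finset.sum_congr rfl fun b _ => ?_
    rw [map_mul]
    have h2 : (starRingEnd ℂ) (χ⁻¹ b) = χ b := by
      have := MulChar.star_apply' χ⁻¹ b
      rw [inv_inv] at this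
      exact this
    rw [h2]
    ring
  have h3 : ((∑ χ : DirichletCharacter ℂ r, ‖∑ a : ZMod r, χ⁻¹ a * T a‖ ^ 2 : ℝ) : ℂ) =
      (((r.totient : ℝ) * ∑ a ∈ (Finset.univ : Finset (ZMod r)).filter (fun a => IsUnit a),
        ‖T a‖ ^ 2 : ℝ) : ℂ) := by
    rw [Complex.ofReal_sum]
    simp_rw [h1]
    rw [Finset.sum_comm]
    have h4 : ∀ a : ZMod r, ∑ χ : DirichletCharacter ℂ r, ∑ b : ZMod r,
        (T a * (starRingEnd ℂ) (T b)) * (χ⁻¹ a * χ b) =
        if IsUnit a then (((r.totient : ℝ)) : ℂ) * ((‖T a‖ ^ 2 : ℝ) : ℂ) else 0 := by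
      intro a
      rw [Finset.sum_comm]
      simp_rw [← Finset.mul_sum]
      split_ifs with ha
      · have h5 : ∀ b : ZMod r, ∑ χ : DirichletCharacter ℂ r, χ⁻¹ a * χ b =
            if a = b then ((r.totient : ℂ)) else 0 := by
          intro b
          rw [← DirichletCharacter.sum_char_inv_mul_char_eq ℂ ha b]
          refine Finset.sum_congr rfl fun χ _ => ?_
          rw [pr_inv_apply χ ha]
        simp_rw [h5]
        simp only [mul_ite, mul_zero]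
        rw [Finset.sum_ite_eq, if_pos (Finset.mem_univ _), Complex.mul_conj']
        push_cast
        ring
      · have h6 : ∀ χ : DirichletCharacter ℂ r, χ⁻¹ a = 0 := fun χ => MulChar.map_nonunit _ ha
        simp [h6]
    rw [Finset.sum_congr rfl fun a _ => h4 a, ← Finset.sum_filter, ← Finset.mul_sum]
    push_cast
    rfl
  exact_mod_cast h3

lemma pr_units {r : ℕ} [NeZero r] (f : ZMod r → ℝ) :
    ∑ a ∈ (Finset.univ : Finset (ZMod r)).filter (fun a => IsUnit a), f a =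
      ∑ a ∈ (range r).filter (fun a => a.Coprime r), f (a : ZMod r) := by
  classical
  symm
  refine Finset.sum_nbij (fun a : ℕ => (a : ZMod r)) ?_ ?_ ?_ ?_
  · intro a ha
    rw [Finset.mem_filter] at ha ⊢
    exact ⟨Finset.mem_univ _, (ZMod.isUnit_iff_coprime a r).2 ha.2⟩
  · intro a ha b hb hab
    rw [Finset.mem_coe, Finset.mem_filter, Finset.mem_range] at ha hb
    have := (ZMod.natCast_eq_natCast_iff a b r).mp hab
    rw [Nat.ModEq, Nat.mod_eq_of_lt ha.1, Nat.mod_eq_of_lt hb.1] at this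
    exact this
  · intro a ha
    rw [Finset.mem_coe, Finset.mem_filter] at ha
    refine ⟨a.val, ?_, ZMod.natCast_zmod_val a⟩
    rw [Finset.mem_coe, Finset.mem_filter, Finset.mem_range]
    refine ⟨ZMod.val_lt a, ?_⟩
    rw [← ZMod.isUnit_iff_coprime, ZMod.natCast_zmod_val]
    exact ha.2
  · intro a _
    rfl

theorem p_pr : S_pr := by
  intro hgs r _ S x
  classical
  have hr0 : (0 : ℝ) < r := by exact_mod_cast Nat.pos_of_ne_zero (NeZero.ne r)
  have h1 : ∀ χ ∈ (Finset.univ : Finset (DirichletCharacter ℂ r)).filter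
      (fun χ => χ.IsPrimitive), ‖∑ n ∈ S, x n * χ (n : ZMod r)‖ ^ 2 =
      (r : ℝ)⁻¹ * ‖∑ a : ZMod r, χ⁻¹ a * pr_T S x a‖ ^ 2 := by
    intro χ hχ
    have hp := (Finset.mem_filter.1 hχ).2
    rw [← pr_sum χ hp S x, norm_mul, mul_pow, hgs r χ⁻¹ (pr_inv_prim hp)]
    field_simp
  have h2 : ∑ χ ∈ (Finset.univ : Finset (DirichletCharacter ℂ r)).filter
      (fun χ => χ.IsPrimitive), ‖∑ a : ZMod r, χ⁻¹ a * pr_T S x a‖ ^ 2 ≤
      ∑ χ : DirichletCharacter ℂ r, ‖∑ a : ZMod r, χ⁻¹ a * pr_T S x a‖ ^ 2 :=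
    Finset.sum_le_sum_of_subset_of_nonneg (Finset.filter_subset _ _) fun _ _ _ => by positivity
  rw [pr_sq, pr_units] at h2
  simp_rw [pr_T_eq] at h2
  have h3 : (r.totient : ℝ) ≤ r := by exact_mod_cast Nat.totient_le r
  have h4 : 0 ≤ ∑ a ∈ (range r).filter (fun a => a.Coprime r),
      ‖∑ n ∈ S, x n * ex ((a : ℝ) * n / r)‖ ^ 2 := Finset.sum_nonneg fun _ _ => by positivity
  have h5 : ∑ χ ∈ (Finset.univ : Finset (DirichletCharacter ℂ r)).filter
      (fun χ => χ.IsPrimitive), ‖∑ n ∈ S, x n * χ (n : ZMod r)‖ ^ 2 ≤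
      ∑ a ∈ (range r).filter (fun a => a.Coprime r),
        ‖∑ n ∈ S, x n * ex ((a : ℝ) * n / r)‖ ^ 2 := by
    rw [Finset.sum_congr rfl h1, ← Finset.mul_sum, inv_mul_le_iff₀ hr0]
    exact h2.trans (mul_le_mul_of_nonneg_right h3 h4)
  convert h5 using 2

end Pool.Agent.CH.D
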