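import Pool.Agent.Lib.MP_d610d0_nt.CH.D.Stm

set_option autoImplicit false

/-!
Piece spc.
-/

namespace Pool.Agent.CH.D

open Finset Filter
open ArithmeticFunction (vonMangoldt)
open Pool.Agent.MP89da58 (tri primChars)
open Pool.Agent.BVall (boxL)
open Pool.Agent.CH.V (pz ex)
open Pool.Agent.CH.P (R_PW R_PNT)

private theorem spc_tri {u : ℝ} (h : tri u ≠ 0) : |u| < 1 := by
  by_contra h1
  push Not at h1
  apply h
  unfold tri
  exact max_eq_left (by linarith)

/-- `log (1 + x) ≥ x / (1 + x)` in the form used here -/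
private theorem spc_log {a b : ℝ} (ha : 0 < a) (hab : a < b) :
    (b - a) / b ≤ Real.log b - Real.log a := by
  have hb : 0 < b := ha.trans hab
  have h1 := Real.one_sub_inv_le_log_of_pos (div_pos hb ha)
  rw [Real.log_div hb.ne' ha.ne', inv_div] at h1
  have h2 : (b - a) / b = 1 - a / b := by
    field_simp
  rw [h2]
  exact h1

private theorem spc_xpos (j : ℕ) : 0 < (j : ℝ) + 1 / 2 := by positivity

private theorem spc_logx (j : ℕ) : Real.log (xj j) = 3 * Real.log ((j : ℝ) + 1 / 2) := by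
  unfold xj
  rw [Real.log_pow]
  norm_num

private theorem spc_lt {J i k : ℕ} (hJ : 1 ≤ J) (hik : i < k) (hk : k ≤ 2 * J) :
    1 / (2 * (J : ℝ)) ≤ Real.log (xj k) - Real.log (xj i) := by
  rw [spc_logx, spc_logx]
  have h1 := spc_log (spc_xpos i) (b := (k : ℝ) + 1 / 2) (by
    have : (i : ℝ) < k := by exact_mod_cast hik
    linarith)
  have hJ' : (1 : ℝ) ≤ J := by exact_mod_cast hJ
  have hk' : (k : ℝ) ≤ 2 * J := by exact_mod_cast hk
  have hik' : (i : ℝ) + 1 ≤ k := by exact_mod_cast hik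
  have h2 : 1 / (6 * (J : ℝ)) ≤ ((k : ℝ) + 1 / 2 - (i + 1 / 2)) / (k + 1 / 2) := by
    rw [div_le_div_iff₀ (by positivity) (by positivity)]
    nlinarith
  have h3 : 1 / (2 * (J : ℝ)) = 3 * (1 / (6 * (J : ℝ))) := by
    field_simp
    norm_num
  rw [h3]
  linarith

theorem p_spc : S_spc := by
  intro J hJ
  have hJ' : (1 : ℝ) ≤ J := by exact_mod_cast hJ
  refine ⟨?_, ?_, ?_⟩
  · intro i hi k hk hik
    rw [mem_Ioc] at hi hk
    rcases lt_or_gt_of_ne hik with h | h
    · have h1 := spc_lt hJ h hk.2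
      rw [abs_sub_comm]
      exact h1.trans (le_abs_self _)
    · exact (spc_lt hJ h hi.2).trans (le_abs_self _)
  · intro j hj n hn hw
    rw [mem_Ioc] at hj
    have hn' : (0 : ℝ) < n := by exact_mod_cast hn
    have hx := spc_xpos j
    have h1 : |2 * (J : ℝ) * Real.log (n / ((j : ℝ) + 1 / 2) ^ 3)| < 1 := spc_tri hw
    rw [Real.log_div hn'.ne' (by positivity), Real.log_pow, abs_lt] at h1
    have hjJ : (j : ℝ) ≤ 2 * J := by exact_mod_cast hj.2
    have hj0 : (0 : ℝ) < j := by
      have : (0 : ℕ) < j := by omega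
      exact_mod_cast this
    push_cast at h1
    obtain ⟨h1, h2⟩ := h1
    constructor
    · by_contra hle
      push Not at hle
      have h3 : Real.log n ≤ 3 * Real.log j := by
        have h4 : (n : ℝ) ≤ (j : ℝ) ^ 3 := by exact_mod_cast hle
        have h5 := Real.log_le_log hn' h4
        rw [Real.log_pow] at h5
        push_cast at h5
        exact h5
      have h6 := spc_log hj0 (b := (j : ℝ) + 1 / 2) (by linarith)
      have h7 : 1 / (6 * (J : ℝ)) ≤ ((j : ℝ) + 1 / 2 - j) / (j + 1 / 2) := by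
        rw [div_le_div_iff₀ (by positivity) (by positivity)]
        nlinarith
      have h8 : Real.log n - 3 * Real.log ((j : ℝ) + 1 / 2) ≤ - (3 * (1 / (6 * (J : ℝ)))) := by
        linarith
      have h9 : 2 * (J : ℝ) * (Real.log n - 3 * Real.log ((j : ℝ) + 1 / 2)) ≤
          2 * (J : ℝ) * (- (3 * (1 / (6 * (J : ℝ))))) :=
        mul_le_mul_of_nonneg_left h8 (by positivity)
      have h10 : 2 * (J : ℝ) * (- (3 * (1 / (6 * (J : ℝ))))) = -1 := by
        field_simp
        norm_num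
      linarith
    · by_contra hle
      push Not at hle
      have h3 : 3 * Real.log ((j : ℝ) + 1) ≤ Real.log n := by
        have h4 : ((j : ℝ) + 1) ^ 3 ≤ (n : ℝ) := by exact_mod_cast hle
        have h5 := Real.log_le_log (by positivity) h4
        rw [Real.log_pow] at h5
        push_cast at h5
        exact h5
      have h6 := spc_log hx (b := (j : ℝ) + 1) (by linarith)
      have h7 : 1 / (6 * (J : ℝ)) ≤ ((j : ℝ) + 1 - (j + 1 / 2)) / (j + 1) := by
        rw [div_le_div_iff₀ (by positivity) (by positivity)]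
        nlinarith
      have h8 : 3 * (1 / (6 * (J : ℝ))) ≤ Real.log n - 3 * Real.log ((j : ℝ) + 1 / 2) := by
        linarith
      have h9 : 2 * (J : ℝ) * (3 * (1 / (6 * (J : ℝ)))) ≤
          2 * (J : ℝ) * (Real.log n - 3 * Real.log ((j : ℝ) + 1 / 2)) :=
        mul_le_mul_of_nonneg_left h8 (by positivity)
      have h10 : 2 * (J : ℝ) * (3 * (1 / (6 * (J : ℝ)))) = 1 := by
        field_simp
        norm_num
      linarith
  · intro j hj n lam hn hlam hw
    rw [mem_Ioc] at hj
    have hn' : (0 : ℝ) < n := by exact_mod_cast hn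
    have hx := spc_xpos j
    have h1 : |lam * Real.log (n / ((j : ℝ) + 1 / 2) ^ 3)| < 1 := spc_tri hw
    have hlam0 : 0 < lam := by linarith
    rw [abs_mul, abs_of_pos hlam0] at h1
    have h2 : |Real.log (n / ((j : ℝ) + 1 / 2) ^ 3)| < 1 / 10 := by
      have h3 : 10 * |Real.log (n / ((j : ℝ) + 1 / 2) ^ 3)| ≤
          lam * |Real.log (n / ((j : ℝ) + 1 / 2) ^ 3)| :=
        mul_le_mul_of_nonneg_right hlam (abs_nonneg _)
      linarith
    rw [abs_lt] at h2
    have hpos : 0 < (n : ℝ) / ((j : ℝ) + 1 / 2) ^ 3 := by positivity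
    -- `e^(0.1) < 1.2`
    have he : Real.exp (1 / 10) < 6 / 5 := by
      have h4 := Real.exp_one_lt_d9
      have h5 : Real.exp (1 / 10) ^ 10 = Real.exp 1 := by
        rw [← Real.exp_nat_mul]
        norm_num
      by_contra h6
      push Not at h6
      have h7 : (6 / 5 : ℝ) ^ 10 ≤ Real.exp (1 / 10) ^ 10 :=
        pow_le_pow_left₀ (by norm_num) h6 10
      rw [h5] at h7
      norm_num at h7
      linarith
    have h8 : (n : ℝ) / ((j : ℝ) + 1 / 2) ^ 3 < 6 / 5 := by
      have h9 : (n : ℝ) / ((j : ℝ) + 1 / 2) ^ 3 = Real.exp (Real.log (n / ((j : ℝ) + 1 / 2) ^ 3)) :=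
        (Real.exp_log hpos).symm
      rw [h9]
      exact (Real.exp_lt_exp.2 h2.2).trans he
    have h9 : 5 / 6 < (n : ℝ) / ((j : ℝ) + 1 / 2) ^ 3 := by
      have h10 : (n : ℝ) / ((j : ℝ) + 1 / 2) ^ 3 = Real.exp (Real.log (n / ((j : ℝ) + 1 / 2) ^ 3)) :=
        (Real.exp_log hpos).symm
      rw [h10]
      refine lt_of_lt_of_le ?_ (Real.exp_le_exp.2 h2.1.le)
      rw [Real.exp_neg, lt_inv_comm₀ (by norm_num) (Real.exp_pos _)]
      norm_num
      linarith
    rw [div_lt_iff₀ (by positivity)] at h8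
    rw [lt_div_iff₀ (by positivity)] at h9
    have hjJ : (j : ℝ) ≤ 2 * J := by exact_mod_cast hj.2
    have hjJ' : (J : ℝ) + 1 ≤ j := by exact_mod_cast hj.1
    constructor
    · have h10 : (J : ℝ) ^ 3 < 2 * n := by
        have h11 : (J : ℝ) ^ 3 ≤ ((j : ℝ) + 1 / 2) ^ 3 :=
          pow_le_pow_left₀ (by positivity) (by linarith) 3
        have h12 : (0 : ℝ) < (J : ℝ) ^ 3 := by positivity
        linarith
      exact_mod_cast h10
    · have h10 : (n : ℝ) < 27 * (J : ℝ) ^ 3 := by
        have h11 : ((j : ℝ) + 1 / 2) ^ 3 ≤ (5 / 2 * (J : ℝ)) ^ 3 :=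
          pow_le_pow_left₀ (by positivity) (by linarith) 3
        have h12 : (0 : ℝ) < (J : ℝ) ^ 3 := by positivity
        nlinarith
      exact_mod_cast h10

end Pool.Agent.CH.D
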