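import Pool.Agent.Lib.MP_d610d0_nt.CH.D.Stm
import Pool.Agent.Lib.MP_d610d0_nt.CH.D.p_ms

set_option autoImplicit false

/-!
Piece cm.
-/

namespace Pool.Agent.CH.D

open Finset Filter
open ArithmeticFunction (vonMangoldt)
open Pool.Agent.MP89da58 (tri primChars)
open Pool.Agent.BVall (boxL)
open Pool.Agent.CH.V (pz ex)
open Pool.Agent.CH.P (R_PW R_PNT)

/-- the exponential factor -/
noncomputable def cm_e (y θ : ℝ) : ℂ := Complex.exp (-(Complex.I * ((θ * y : ℝ) : ℂ)))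

lemma cm_e_norm (y θ : ℝ) : ‖cm_e y θ‖ = 1 := by
  unfold cm_e
  rw [Complex.norm_exp]
  simp

lemma cm_e_cont (y : ℝ) : Continuous (cm_e y) := by
  unfold cm_e
  fun_prop

lemma cm_integrable {k : ℝ → ℝ} (hk : MeasureTheory.Integrable k) {h : ℝ → ℂ} (hm : Measurable h)
    {C : ℝ} (hC : ∀ θ, ‖h θ‖ ≤ C) (y : ℝ) :
    MeasureTheory.Integrable (fun θ : ℝ => (k θ : ℂ) * h θ * cm_e y θ) := by
  have h1 : MeasureTheory.Integrable (fun θ : ℝ => (k θ : ℂ) * h θ) :=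
    hk.ofReal.mul_bdd (c := C) hm.aestronglyMeasurable (MeasureTheory.ae_of_all _ hC)
  exact h1.mul_bdd (c := 1) (cm_e_cont y).aestronglyMeasurable
    (MeasureTheory.ae_of_all _ fun θ => (cm_e_norm y θ).le)

lemma cm_sq {T : ℝ} (hT : 0 ≤ T) :
    MeasureTheory.IntegrableOn (fun θ : ℝ => θ ^ 2) {θ : ℝ | T < |θ|}ᶜ ∧
    ∫ θ in {θ : ℝ | T < |θ|}ᶜ, θ ^ 2 ≤ T ^ 3 := by
  have hset : {θ : ℝ | T < |θ|}ᶜ = Set.Icc (-T) T := by
    ext θ
    rw [Set.mem_compl_iff, Set.mem_ofPred_eq, not_lt, Set.mem_Icc, abs_le]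
  rw [hset]
  refine ⟨(continuous_pow 2).continuousOn.integrableOn_Icc, ?_⟩
  rw [MeasureTheory.integral_Icc_eq_integral_Ioc,
    ← intervalIntegral.integral_of_le (show -T ≤ T by linarith), integral_pow]
  norm_num
  have : 0 ≤ T ^ 3 := by positivity
  have e : (-T) ^ 3 = - T ^ 3 := by ring
  rw [e]
  linarith

lemma cm_four (a b c d : ℂ) : ‖a + b + c - d‖ ^ 2 ≤
    4 * (‖a‖ ^ 2 + ‖b‖ ^ 2 + ‖c‖ ^ 2 + ‖d‖ ^ 2) := by
  have h1 : ‖a + b + c - d‖ ≤ ‖a‖ + ‖b‖ + ‖c‖ + ‖d‖ := by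
    refine (norm_sub_le _ _).trans (add_le_add ?_ le_rfl)
    exact (norm_add_le _ _).trans (add_le_add (norm_add_le _ _) le_rfl)
  have h2 := pow_le_pow_left₀ (norm_nonneg _) h1 2
  nlinarith [sq_nonneg (‖a‖ - ‖b‖), sq_nonneg (‖a‖ - ‖c‖), sq_nonneg (‖a‖ - ‖d‖),
    sq_nonneg (‖b‖ - ‖c‖), sq_nonneg (‖b‖ - ‖d‖), sq_nonneg (‖c‖ - ‖d‖)]

lemma cm_int4 {f1 f2 f3 f4 : ℝ → ℂ} (h1 : MeasureTheory.Integrable f1)
    (h2 : MeasureTheory.Integrable f2) (h3 : MeasureTheory.Integrable f3)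
    (h4 : MeasureTheory.Integrable f4) :
    (∫ θ : ℝ, f1 θ) + (∫ θ : ℝ, f2 θ) + (∫ θ : ℝ, f3 θ) - (∫ θ : ℝ, f4 θ) =
      ∫ θ : ℝ, (f1 θ + f2 θ + f3 θ - f4 θ) := by
  have e1 : ∫ θ : ℝ, (f1 θ + f2 θ + f3 θ - f4 θ) = (∫ θ : ℝ, (f1 θ + f2 θ + f3 θ)) -
      ∫ θ : ℝ, f4 θ := MeasureTheory.integral_sub ((h1.add h2).add h3) h4
  have e2 : ∫ θ : ℝ, (f1 θ + f2 θ + f3 θ) = (∫ θ : ℝ, (f1 θ + f2 θ)) + ∫ θ : ℝ, f3 θ :=
    MeasureTheory.integral_add (h1.add h2) h3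
  have e3 : ∫ θ : ℝ, (f1 θ + f2 θ) = (∫ θ : ℝ, f1 θ) + ∫ θ : ℝ, f2 θ :=
    MeasureTheory.integral_add h1 h2
  rw [e1, e2, e3]

lemma cm_int2 {f1 f2 : ℝ → ℂ} (h1 : MeasureTheory.Integrable f1)
    (h2 : MeasureTheory.Integrable f2) (c1 c2 : ℂ) :
    c1 * (∫ θ : ℝ, f1 θ) - c2 * (∫ θ : ℝ, f2 θ) = ∫ θ : ℝ, (c1 * f1 θ - c2 * f2 θ) := by
  have e1 : ∫ θ : ℝ, (c1 * f1 θ - c2 * f2 θ) = (∫ θ : ℝ, c1 * f1 θ) - ∫ θ : ℝ, c2 * f2 θ :=
    MeasureTheory.integral_sub (h1.const_mul c1) (h2.const_mul c2)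
  rw [e1, MeasureTheory.integral_const_mul, MeasureTheory.integral_const_mul]

theorem p_cm : S_cm := by
  intro hkf hkb hbes hspc hsch J M N a b S T lam hJ hS0 hT1 hT2 hl1 hl2 hS
  have hJ2 : (2 : ℝ) ≤ J := by exact_mod_cast hJ
  have hJ0 : (0 : ℝ) < J := by linarith
  have hm1 : (1 : ℝ) ≤ 2 * J := by linarith
  have hm0 : (0 : ℝ) < 2 * J := by linarith
  have hl0 : 0 < lam := by linarith
  have hT0 : 0 < T := by linarith
  have hJ3 : 2 * (J : ℝ) ≤ (J : ℝ) ^ 3 := by nlinarith [sq_nonneg ((J : ℝ) - 2)]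
  have hsp := (hspc J (by omega)).1
  set W : ℝ := (∑ m ∈ Icc 1 M, ‖a m‖) * ∑ n ∈ Icc 1 N, ‖b n‖ with hW
  set g : ℝ → ℂ := fun θ => dp a M θ * dp b N θ with hg
  have hgm : Measurable g := ((ms_dp_cont a M).mul (ms_dp_cont b N)).measurable
  have hgW : ∀ θ, ‖g θ‖ ≤ W := fun θ => ms_g_le a b M N θ
  have hW0 : 0 ≤ W := (norm_nonneg _).trans (hgW 0)
  set k2 : ℝ → ℝ := kap (2 * J) with hk2
  set kl : ℝ → ℝ := kap lam with hkl
  have hi2 : MeasureTheory.Integrable k2 := (hkf (2 * J) hm0).1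
  have hil : MeasureTheory.Integrable kl := (hkf lam hl0).1
  obtain ⟨k20, -, -, k2lo, -, -, k2c⟩ := hkb (2 * J) hm0
  obtain ⟨kl0, -, -, -, klsq, klpi, klc⟩ := hkb lam hl0
  set K : ℝ → ℝ := fun θ => 2 * J * k2 θ - lam * kl θ with hK
  have hK1 : ∀ θ, |K θ| ≤ θ ^ 2 / lam ^ 2 := fun θ => klsq (2 * J) θ hl2
  have hK2 : ∀ θ, |K θ| ≤ 1 / (2 * Real.pi) := fun θ => klpi (2 * J) θ hm0
  have hKc : Continuous K := (continuous_const.mul k2c).sub (continuous_const.mul klc)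
  set y : ℕ → ℝ := fun j => Real.log (xj j) with hy
  set E1 : Set ℝ := {θ : ℝ | T < |θ|}ᶜ with hE1
  set E3 : Set ℝ := {θ : ℝ | 2 * (J : ℝ) < |θ|} with hE3
  set E2 : Set ℝ := {θ : ℝ | T < |θ|} \ E3 with hE2
  have mE1 : MeasurableSet E1 := (ms_set T).compl
  have mE3 : MeasurableSet E3 := ms_set _
  have mE2 : MeasurableSet E2 := (ms_set T).diff mE3
  set g2 : ℝ → ℂ := E2.indicator (fun θ => ((K θ / k2 θ : ℝ) : ℂ) * g θ) with hg2
  set g3 : ℝ → ℂ := E3.indicator (fun θ => (2 * J : ℂ) * g θ) with hg3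
  have hg2m : Measurable g2 := by
    refine Measurable.indicator ?_ mE2
    exact (Complex.measurable_ofReal.comp (hKc.measurable.div k2c.measurable)).mul hgm
  have hg3m : Measurable g3 := Measurable.indicator (measurable_const.mul hgm) mE3
  have hE2mem : ∀ θ ∈ E2, T < |θ| ∧ |θ| ≤ 2 * J := by
    intro θ hθ
    exact ⟨hθ.1, not_lt.1 hθ.2⟩
  have hk2pos : ∀ θ ∈ E2, 1 / (8 * (2 * (J : ℝ))) ≤ k2 θ := fun θ hθ => k2lo θ (hE2mem θ hθ).2
  have hratio : ∀ θ ∈ E2, |K θ / k2 θ| ≤ 8 * J / Real.pi := by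
    intro θ hθ
    have h1 := hk2pos θ hθ
    have h0 : 0 < 1 / (8 * (2 * (J : ℝ))) := by positivity
    have h2 : 0 < k2 θ := lt_of_lt_of_le h0 h1
    rw [abs_div, abs_of_pos h2, div_le_iff₀ h2]
    calc |K θ| ≤ 1 / (2 * Real.pi) := hK2 θ
      _ = 8 * J / Real.pi * (1 / (8 * (2 * (J : ℝ)))) := by
          field_simp
      _ ≤ 8 * J / Real.pi * k2 θ := mul_le_mul_of_nonneg_left h1 (by positivity)
  have hg2le : ∀ θ, ‖g2 θ‖ ≤ 8 * J / Real.pi * ‖E2.indicator g θ‖ := by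
    intro θ
    simp only [hg2]
    by_cases h : θ ∈ E2
    · rw [Set.indicator_of_mem h, Set.indicator_of_mem h, norm_mul, Complex.norm_real,
        Real.norm_eq_abs]
      exact mul_le_mul_of_nonneg_right (hratio θ h) (norm_nonneg _)
    · rw [Set.indicator_of_notMem h, Set.indicator_of_notMem h]
      simp
  have hindW : ∀ (E : Set ℝ) (θ : ℝ), ‖E.indicator g θ‖ ≤ W := by
    intro E θ
    by_cases h : θ ∈ E
    · rw [Set.indicator_of_mem h]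
      exact hgW θ
    · rw [Set.indicator_of_notMem h, norm_zero]
      exact hW0
  have hg2bd : ∀ θ, ‖g2 θ‖ ≤ 8 * J / Real.pi * W := fun θ =>
    (hg2le θ).trans (mul_le_mul_of_nonneg_left (hindW E2 θ) (by positivity))
  have hg3eq : ∀ θ, ‖g3 θ‖ = 2 * J * ‖E3.indicator g θ‖ := by
    intro θ
    simp only [hg3]
    by_cases h : θ ∈ E3
    · rw [Set.indicator_of_mem h, Set.indicator_of_mem h, norm_mul]
      congr 1
      have : (2 * J : ℂ) = ((2 * J : ℝ) : ℂ) := by push_cast; ring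
      rw [this, Complex.norm_real, Real.norm_of_nonneg hm0.le]
    · rw [Set.indicator_of_notMem h, Set.indicator_of_notMem h]
      simp
  have hg3bd : ∀ θ, ‖g3 θ‖ ≤ 2 * J * W := fun θ => by
    rw [hg3eq]
    exact mul_le_mul_of_nonneg_left (hindW E3 θ) hm0.le
  -- the four parts
  set I1 : ℕ → ℂ := fun j => ∫ θ : ℝ, E1.indicator (fun θ => (K θ : ℂ) * g θ * cm_e (y j) θ) θ
    with hI1
  set I2 : ℕ → ℂ := fun j => ∫ θ : ℝ, (k2 θ : ℂ) * g2 θ * cm_e (y j) θ with hI2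
  set I3 : ℕ → ℂ := fun j => ∫ θ : ℝ, (k2 θ : ℂ) * g3 θ * cm_e (y j) θ with hI3
  set I4 : ℕ → ℂ := fun j => ∫ θ : ℝ, E3.indicator
    (fun θ => (lam : ℂ) * ((kl θ : ℂ) * g θ * cm_e (y j) θ)) θ with hI4
  have ib2 : ∀ j, MeasureTheory.Integrable (fun θ : ℝ => (k2 θ : ℂ) * g θ * cm_e (y j) θ) :=
    fun j => cm_integrable hi2 hgm hgW (y j)
  have ibl : ∀ j, MeasureTheory.Integrable (fun θ : ℝ => (kl θ : ℂ) * g θ * cm_e (y j) θ) :=
    fun j => cm_integrable hil hgm hgW (y j)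
  have ibK : ∀ j, MeasureTheory.Integrable (fun θ : ℝ => (K θ : ℂ) * g θ * cm_e (y j) θ) := by
    intro j
    refine (((ib2 j).const_mul (2 * J : ℂ)).sub ((ibl j).const_mul (lam : ℂ))).congr
      (MeasureTheory.ae_of_all _ fun θ => ?_)
    show (2 * J : ℂ) * ((k2 θ : ℂ) * g θ * cm_e (y j) θ) -
      (lam : ℂ) * ((kl θ : ℂ) * g θ * cm_e (y j) θ) = (K θ : ℂ) * g θ * cm_e (y j) θ
    simp only [hK]
    push_cast
    ring
  have ii1 : ∀ j, MeasureTheory.Integrable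
      (E1.indicator (fun θ => (K θ : ℂ) * g θ * cm_e (y j) θ)) := fun j => (ibK j).indicator mE1
  have ii2 : ∀ j, MeasureTheory.Integrable (fun θ : ℝ => (k2 θ : ℂ) * g2 θ * cm_e (y j) θ) :=
    fun j => cm_integrable hi2 hg2m hg2bd (y j)
  have ii3 : ∀ j, MeasureTheory.Integrable (fun θ : ℝ => (k2 θ : ℂ) * g3 θ * cm_e (y j) θ) :=
    fun j => cm_integrable hi2 hg3m hg3bd (y j)
  have ii4 : ∀ j, MeasureTheory.Integrable (E3.indicator
      (fun θ => (lam : ℂ) * ((kl θ : ℂ) * g θ * cm_e (y j) θ))) :=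
    fun j => ((ibl j).const_mul _).indicator mE3
  have hsplit : ∀ j, ∑ m ∈ Icc 1 M, ∑ n ∈ Icc 1 N, a m * b n *
      ((2 * J * wJ J j (m * n) - lam * wL lam j (m * n) : ℝ) : ℂ) =
      I1 j + I2 j + I3 j - I4 j := by
    intro j
    have f2 := ms_fourier hkf hm0 a b M N (y j)
    have fl := ms_fourier hkf hl0 a b M N (y j)
    have e1 : ∑ m ∈ Icc 1 M, ∑ n ∈ Icc 1 N, a m * b n *
        ((2 * J * wJ J j (m * n) - lam * wL lam j (m * n) : ℝ) : ℂ) =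
        (2 * J : ℂ) * (∑ m ∈ Icc 1 M, ∑ n ∈ Icc 1 N, a m * b n *
          ((tri (2 * J * (Real.log m + Real.log n - y j)) : ℝ) : ℂ)) -
        (lam : ℂ) * (∑ m ∈ Icc 1 M, ∑ n ∈ Icc 1 N, a m * b n *
          ((tri (lam * (Real.log m + Real.log n - y j)) : ℝ) : ℂ)) := by
      rw [Finset.mul_sum, Finset.mul_sum, ← Finset.sum_sub_distrib]
      refine Finset.sum_congr rfl fun m hm => ?_
      rw [Finset.mul_sum, Finset.mul_sum, ← Finset.sum_sub_distrib]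
      refine Finset.sum_congr rfl fun n hn => ?_
      rw [ms_wJ J j (Finset.mem_Icc.1 hm).1 (Finset.mem_Icc.1 hn).1,
        ms_wL lam j (Finset.mem_Icc.1 hm).1 (Finset.mem_Icc.1 hn).1]
      push_cast
      ring
    rw [e1, f2, fl]
    have e2 : (2 * J : ℂ) * (∫ θ : ℝ, (kap (2 * J) θ : ℂ) * (dp a M θ * dp b N θ) *
        Complex.exp (-(Complex.I * ((θ * y j : ℝ) : ℂ)))) -
        (lam : ℂ) * (∫ θ : ℝ, (kap lam θ : ℂ) * (dp a M θ * dp b N θ) *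
        Complex.exp (-(Complex.I * ((θ * y j : ℝ) : ℂ)))) =
        ∫ θ : ℝ, (K θ : ℂ) * g θ * cm_e (y j) θ := by
      refine (cm_int2 (ib2 j) (ibl j) (2 * J : ℂ) (lam : ℂ)).trans ?_
      refine MeasureTheory.integral_congr_ae (MeasureTheory.ae_of_all _ fun θ => ?_)
      show (2 * J : ℂ) * ((k2 θ : ℂ) * g θ * cm_e (y j) θ) -
        (lam : ℂ) * ((kl θ : ℂ) * g θ * cm_e (y j) θ) = (K θ : ℂ) * g θ * cm_e (y j) θ
      simp only [hK]
      push_cast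
      ring
    rw [e2]
    refine Eq.trans ?_ (cm_int4 (ii1 j) (ii2 j) (ii3 j) (ii4 j)).symm
    refine MeasureTheory.integral_congr_ae (MeasureTheory.ae_of_all _ fun θ => ?_)
    show (K θ : ℂ) * g θ * cm_e (y j) θ = E1.indicator (fun θ => (K θ : ℂ) * g θ * cm_e (y j) θ) θ +
      (k2 θ : ℂ) * g2 θ * cm_e (y j) θ + (k2 θ : ℂ) * g3 θ * cm_e (y j) θ -
      E3.indicator (fun θ => (lam : ℂ) * ((kl θ : ℂ) * g θ * cm_e (y j) θ)) θ
    by_cases hθT : T < |θ|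
    · have n1 : θ ∉ E1 := fun h => h hθT
      by_cases hθJ : 2 * (J : ℝ) < |θ|
      · have m3 : θ ∈ E3 := hθJ
        have n2 : θ ∉ E2 := fun h => h.2 m3
        simp only [hg2, hg3]
        rw [Set.indicator_of_notMem n1, Set.indicator_of_notMem n2, Set.indicator_of_mem m3,
          Set.indicator_of_mem m3]
        simp only [hK]
        push_cast
        ring
      · have n3 : θ ∉ E3 := hθJ
        have m2 : θ ∈ E2 := ⟨hθT, n3⟩
        have hne : (k2 θ : ℂ) ≠ 0 := by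
          have h1 := hk2pos θ m2
          have h0 : 0 < 1 / (8 * (2 * (J : ℝ))) := by positivity
          exact_mod_cast (lt_of_lt_of_le h0 h1).ne'
        simp only [hg2, hg3]
        rw [Set.indicator_of_notMem n1, Set.indicator_of_mem m2, Set.indicator_of_notMem n3,
          Set.indicator_of_notMem n3, Complex.ofReal_div]
        field_simp
        ring
    · have m1 : θ ∈ E1 := hθT
      have n2 : θ ∉ E2 := fun h => hθT h.1
      have n3 : θ ∉ E3 := fun h => hθT (lt_of_le_of_lt hT2 h)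
      simp only [hg2, hg3]
      rw [Set.indicator_of_mem m1, Set.indicator_of_notMem n2, Set.indicator_of_notMem n3,
        Set.indicator_of_notMem n3]
      ring
  -- bound for I1
  have b1 : ∀ j, ‖I1 j‖ ≤ T ^ 3 * W / lam ^ 2 := by
    intro j
    obtain ⟨s1, s2⟩ := cm_sq hT0.le
    simp only [hI1]
    rw [MeasureTheory.integral_indicator mE1]
    have h1 : ∀ θ ∈ E1, ‖(K θ : ℂ) * g θ * cm_e (y j) θ‖ ≤ W / lam ^ 2 * θ ^ 2 := by
      intro θ _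
      rw [norm_mul, norm_mul, cm_e_norm, mul_one, Complex.norm_real, Real.norm_eq_abs]
      calc |K θ| * ‖g θ‖ ≤ θ ^ 2 / lam ^ 2 * W :=
            mul_le_mul (hK1 θ) (hgW θ) (norm_nonneg _) (by positivity)
        _ = _ := by ring
    calc ‖∫ θ in E1, (K θ : ℂ) * g θ * cm_e (y j) θ‖
        ≤ ∫ θ in E1, W / lam ^ 2 * θ ^ 2 := by
          refine MeasureTheory.norm_integral_le_of_norm_le (s1.const_mul _) ?_
          exact (MeasureTheory.ae_restrict_iff' mE1).2 (MeasureTheory.ae_of_all _ h1)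
      _ = W / lam ^ 2 * ∫ θ in E1, θ ^ 2 := MeasureTheory.integral_const_mul _ _
      _ ≤ W / lam ^ 2 * T ^ 3 := mul_le_mul_of_nonneg_left s2 (by positivity)
      _ = _ := by ring
  -- bound for I4
  have b4 : ∀ j, ‖I4 j‖ ≤ 2 * lam ^ 2 / (Real.pi * J) * W := by
    intro j
    simp only [hI4]
    rw [MeasureTheory.integral_indicator mE3]
    have h1 : ∀ θ ∈ E3, ‖(lam : ℂ) * ((kl θ : ℂ) * g θ * cm_e (y j) θ)‖ ≤ lam * W * kl θ := by
      intro θ _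
      rw [norm_mul, norm_mul, norm_mul, cm_e_norm, mul_one, Complex.norm_real, Complex.norm_real,
        Real.norm_of_nonneg hl0.le, Real.norm_of_nonneg (kl0 θ)]
      have := mul_le_mul_of_nonneg_left (hgW θ) (mul_nonneg hl0.le (kl0 θ))
      calc lam * (kl θ * ‖g θ‖) = lam * kl θ * ‖g θ‖ := by ring
        _ ≤ lam * kl θ * W := this
        _ = _ := by ring
    calc ‖∫ θ in E3, (lam : ℂ) * ((kl θ : ℂ) * g θ * cm_e (y j) θ)‖
        ≤ ∫ θ in E3, lam * W * kl θ := by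
          refine MeasureTheory.norm_integral_le_of_norm_le ((hil.integrableOn).const_mul _) ?_
          exact (MeasureTheory.ae_restrict_iff' mE3).2 (MeasureTheory.ae_of_all _ h1)
      _ = lam * W * ∫ θ in E3, kl θ := MeasureTheory.integral_const_mul _ _
      _ ≤ lam * W * (4 * lam / (Real.pi * (2 * J))) :=
          mul_le_mul_of_nonneg_left (ms_kap_tail hkf hkb hl0 hm0) (by positivity)
      _ = _ := by
          field_simp
          ring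
  set X : ℝ := (1 + 3 * N / (2 * J)) * ∑ n ∈ Icc 1 N, ‖b n‖ ^ 2 with hX
  have hX0 : 0 ≤ X := by positivity
  have hpi3 := Real.pi_gt_d2
  -- bound for I2
  have b2 : ∑ j ∈ Ioc J (2 * J), ‖I2 j‖ ^ 2 ≤ 7 * (J : ℝ) ^ 2 * S ^ 2 * X := by
    have h1 := hbes (2 * J) hm0 (Ioc J (2 * J)) y hsp g2 hg2m ⟨_, hg2bd⟩
    refine h1.trans ?_
    have h2 : ∫ θ : ℝ, k2 θ * ‖g2 θ‖ ^ 2 ≤ ∫ θ : ℝ, 7 * (J : ℝ) ^ 2 * S ^ 2 *
        (k2 θ * ‖dp b N θ‖ ^ 2) := by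
      have hi4 : MeasureTheory.Integrable (fun θ : ℝ => k2 θ * ‖dp b N θ‖ ^ 2) := by
        refine hi2.mul_bdd (c := (∑ n ∈ Icc 1 N, ‖b n‖) ^ 2) ?_
          (MeasureTheory.ae_of_all _ fun θ => ?_)
        · exact ((ms_dp_cont b N).norm.pow 2).aestronglyMeasurable
        · rw [Real.norm_of_nonneg (by positivity)]
          exact pow_le_pow_left₀ (norm_nonneg _) (ms_dp_le b N θ) 2
      have hi5 : MeasureTheory.Integrable (fun θ : ℝ => k2 θ * ‖g2 θ‖ ^ 2) := by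
        refine hi2.mul_bdd (c := (8 * J / Real.pi * W) ^ 2) ?_
          (MeasureTheory.ae_of_all _ fun θ => ?_)
        · exact (hg2m.norm.pow_const 2).aestronglyMeasurable
        · rw [Real.norm_of_nonneg (by positivity)]
          exact pow_le_pow_left₀ (norm_nonneg _) (hg2bd θ) 2
      refine MeasureTheory.integral_mono hi5 (hi4.const_mul _) fun θ => ?_
      show k2 θ * ‖g2 θ‖ ^ 2 ≤ 7 * (J : ℝ) ^ 2 * S ^ 2 * (k2 θ * ‖dp b N θ‖ ^ 2)
      by_cases h : θ ∈ E2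
      · have h3 : ‖g2 θ‖ ≤ 8 * J / Real.pi * (S * ‖dp b N θ‖) := by
          refine (hg2le θ).trans (mul_le_mul_of_nonneg_left ?_ (by positivity))
          rw [Set.indicator_of_mem h]
          show ‖dp a M θ * dp b N θ‖ ≤ _
          rw [norm_mul]
          have h4 := hE2mem θ h
          exact mul_le_mul_of_nonneg_right (hS θ h4.1.le (h4.2.trans hJ3)) (norm_nonneg _)
        have h5 := pow_le_pow_left₀ (norm_nonneg _) h3 2
        have h6 : (8 * (J : ℝ) / Real.pi) ^ 2 ≤ 7 * (J : ℝ) ^ 2 := by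
          rw [div_pow, div_le_iff₀ (by positivity)]
          have : (9 : ℝ) ≤ Real.pi ^ 2 := by nlinarith
          have h7 : (3.14 : ℝ) ^ 2 ≤ Real.pi ^ 2 := pow_le_pow_left₀ (by norm_num) hpi3.le 2
          have h8 : (0 : ℝ) ≤ (J : ℝ) ^ 2 := by positivity
          nlinarith
        calc k2 θ * ‖g2 θ‖ ^ 2 ≤ k2 θ * (8 * J / Real.pi * (S * ‖dp b N θ‖)) ^ 2 :=
              mul_le_mul_of_nonneg_left h5 (k20 θ)
          _ = (8 * J / Real.pi) ^ 2 * (S ^ 2 * (k2 θ * ‖dp b N θ‖ ^ 2)) := by ring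
          _ ≤ 7 * (J : ℝ) ^ 2 * (S ^ 2 * (k2 θ * ‖dp b N θ‖ ^ 2)) := by
              apply mul_le_mul_of_nonneg_right h6
              have := k20 θ
              positivity
          _ = _ := by ring
      · have h9 : g2 θ = 0 := Set.indicator_of_notMem h _
        rw [h9, norm_zero]
        have := k20 θ
        have : 0 ≤ 7 * (J : ℝ) ^ 2 * S ^ 2 * (k2 θ * ‖dp b N θ‖ ^ 2) := by positivity
        simpa using this
    refine h2.trans ?_
    rw [MeasureTheory.integral_const_mul]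
    exact mul_le_mul_of_nonneg_left (hsch (2 * J) N b hm1) (by positivity)
  -- bound for I3
  have b3 : ∑ j ∈ Ioc J (2 * J), ‖I3 j‖ ^ 2 ≤ 4 * (J : ℝ) ^ 2 * (S ^ 2 * X +
      4 * (2 * J) / (Real.pi * (J : ℝ) ^ 3) * W ^ 2) := by
    have h1 := hbes (2 * J) hm0 (Ioc J (2 * J)) y hsp g3 hg3m ⟨_, hg3bd⟩
    refine h1.trans ?_
    have h2 := (ms_main hkf hkb hsch hm1 (show (0 : ℝ) < (J : ℝ) ^ 3 by positivity) hS0 a b M N
      E3 mE3 (fun θ hθ hθ' => hS θ (hT2.trans (le_of_lt hθ)) hθ')).2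
    have e : ∀ θ : ℝ, kap (2 * J) θ * ‖g3 θ‖ ^ 2 =
        4 * (J : ℝ) ^ 2 * (kap (2 * J) θ * ‖E3.indicator (fun θ => dp a M θ * dp b N θ) θ‖ ^ 2) := by
      intro θ
      rw [hg3eq]
      ring
    simp_rw [e]
    rw [MeasureTheory.integral_const_mul]
    exact mul_le_mul_of_nonneg_left h2 (by positivity)
  -- conclusion
  have hcard : ((Ioc J (2 * J)).card : ℝ) = J := by
    rw [Nat.card_Ioc]
    have : 2 * J - J = J := by omega
    rw [this]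
  have hsq1 : ∑ j ∈ Ioc J (2 * J), ‖I1 j‖ ^ 2 ≤ J * (T ^ 3 * W / lam ^ 2) ^ 2 := by
    calc _ ≤ ∑ _j ∈ Ioc J (2 * J), (T ^ 3 * W / lam ^ 2) ^ 2 :=
          Finset.sum_le_sum fun j _ => pow_le_pow_left₀ (norm_nonneg _) (b1 j) 2
      _ = _ := by rw [Finset.sum_const, nsmul_eq_mul, hcard]
  have hsq4 : ∑ j ∈ Ioc J (2 * J), ‖I4 j‖ ^ 2 ≤ J * (2 * lam ^ 2 / (Real.pi * J) * W) ^ 2 := by
    calc _ ≤ ∑ _j ∈ Ioc J (2 * J), (2 * lam ^ 2 / (Real.pi * J) * W) ^ 2 :=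
          Finset.sum_le_sum fun j _ => pow_le_pow_left₀ (norm_nonneg _) (b4 j) 2
      _ = _ := by rw [Finset.sum_const, nsmul_eq_mul, hcard]
  calc ∑ j ∈ Ioc J (2 * J), ‖∑ m ∈ Icc 1 M, ∑ n ∈ Icc 1 N, a m * b n *
        ((2 * J * wJ J j (m * n) - lam * wL lam j (m * n) : ℝ) : ℂ)‖ ^ 2
      ≤ ∑ j ∈ Ioc J (2 * J), 4 * (‖I1 j‖ ^ 2 + ‖I2 j‖ ^ 2 + ‖I3 j‖ ^ 2 + ‖I4 j‖ ^ 2) := by
        refine Finset.sum_le_sum fun j _ => ?_
        rw [hsplit j]
        exact cm_four _ _ _ _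
    _ = 4 * (∑ j ∈ Ioc J (2 * J), ‖I1 j‖ ^ 2 + ∑ j ∈ Ioc J (2 * J), ‖I2 j‖ ^ 2 +
        ∑ j ∈ Ioc J (2 * J), ‖I3 j‖ ^ 2 + ∑ j ∈ Ioc J (2 * J), ‖I4 j‖ ^ 2) := by
        rw [← Finset.mul_sum, Finset.sum_add_distrib, Finset.sum_add_distrib,
          Finset.sum_add_distrib]
    _ ≤ 4 * (J * (T ^ 3 * W / lam ^ 2) ^ 2 + 7 * (J : ℝ) ^ 2 * S ^ 2 * X +
        4 * (J : ℝ) ^ 2 * (S ^ 2 * X + 4 * (2 * J) / (Real.pi * (J : ℝ) ^ 3) * W ^ 2) +
        J * (2 * lam ^ 2 / (Real.pi * J) * W) ^ 2) := by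
        linarith
    _ = 44 * (J : ℝ) ^ 2 * S ^ 2 * X + (4 * J * T ^ 6 / lam ^ 4 + 128 / Real.pi +
        16 / Real.pi ^ 2 * (lam ^ 4 / J)) * W ^ 2 := by
        field_simp
        ring
    _ ≤ 50 * (J : ℝ) ^ 2 * S ^ 2 * X + (4 * J * T ^ 6 / lam ^ 4 + 50 + 4 * lam ^ 4 / J) * W ^ 2 := by
        have p1 : 128 / Real.pi ≤ 50 := by
          rw [div_le_iff₀ Real.pi_pos]
          linarith
        have p2 : 16 / Real.pi ^ 2 ≤ 4 := by
          rw [div_le_iff₀ (by positivity)]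
          nlinarith
        have p3 : 0 ≤ lam ^ 4 / J := by positivity
        have p4 : 16 / Real.pi ^ 2 * (lam ^ 4 / J) ≤ 4 * (lam ^ 4 / J) :=
          mul_le_mul_of_nonneg_right p2 p3
        have p5 : 4 * lam ^ 4 / J = 4 * (lam ^ 4 / J) := by ring
        rw [p5]
        apply add_le_add
        · have : 0 ≤ (J : ℝ) ^ 2 * S ^ 2 * X := by positivity
          nlinarith
        · apply mul_le_mul_of_nonneg_right _ (by positivity)
          linarith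
    _ = _ := by
        rw [hX]
        ring

end Pool.Agent.CH.D
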