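import Pool.Agent.Lib.MP_d610d0_nt.CH.D.Stm

set_option autoImplicit false

/-!
Piece CL.
-/

namespace Pool.Agent.CH.D

open Finset Filter
open ArithmeticFunction (vonMangoldt)
open Pool.Agent.MP89da58 (tri primChars)
open Pool.Agent.BVall (boxL)
open Pool.Agent.CH.V (pz ex)
open Pool.Agent.CH.P (R_PW R_PNT)

/-- Powers of `log J` against small powers of `J`. -/
theorem CL_log (k : ℕ) : ∀ᶠ J : ℕ in atTop, (Real.log J) ^ k ≤ (J : ℝ) ^ (1 / 10 : ℝ) := by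
  have h := isLittleO_log_rpow_rpow_atTop (s := (1 / 10 : ℝ)) (k : ℝ) (by norm_num)
  have h2 := h.bound (show (0 : ℝ) < 1 by norm_num)
  have h3 := tendsto_natCast_atTop_atTop (R := ℝ) |>.eventually h2
  filter_upwards [h3, eventually_ge_atTop 1] with J hJ h1
  have hl : 0 ≤ Real.log J := Real.log_natCast_nonneg J
  rw [one_mul, Real.rpow_natCast, Real.norm_of_nonneg (pow_nonneg hl _),
    Real.norm_of_nonneg (Real.rpow_nonneg (Nat.cast_nonneg _) _)] at hJ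
  exact hJ

theorem CL_big (c : ℝ) : ∀ᶠ J : ℕ in atTop, c ≤ Real.log J :=
  (Real.tendsto_log_atTop.comp (tendsto_natCast_atTop_atTop (R := ℝ))).eventually_ge_atTop c

theorem CL_big2 (c : ℝ) : ∀ᶠ J : ℕ in atTop, c ≤ (J : ℝ) ^ (1 / 10 : ℝ) :=
  ((tendsto_rpow_atTop (show (0 : ℝ) < 1 / 10 by norm_num)).comp
    (tendsto_natCast_atTop_atTop (R := ℝ))).eventually_ge_atTop c

theorem CL_harm (N : ℕ) : ∑ m ∈ Icc 1 N, (1 : ℝ) / m ≤ 1 + Real.log N := by
  have h := harmonic_le_one_add_log N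
  have h2 : ((harmonic N : ℚ) : ℝ) = ∑ m ∈ Icc 1 N, (1 : ℝ) / m := by
    rw [harmonic_eq_sum_Icc]
    push_cast
    exact Finset.sum_congr rfl fun i _ => by rw [one_div]
  rw [← h2]; exact h

/-- Type I sums. -/
theorem CL_type (X W : ℕ) (κ : ℕ → ℝ) (G : ℕ → ℂ) (K B1 B2 : ℝ) (hK : 0 ≤ K) (hB1 : 0 ≤ B1)
    (_ : 0 ≤ B2) (h1 : ∀ m, 1 ≤ m → m ≤ W → |κ m| ≤ K) (h2 : ∀ m, W < m → κ m = 0)
    (h3 : ∀ m, 1 ≤ m → m ≤ W → ‖G m‖ ≤ B1 / m + B2) :
    ‖∑ m ∈ Icc 1 X, (κ m : ℂ) * G m‖ ≤ K * (B1 * (1 + Real.log W) + B2 * W) := by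
  have hr : ∑ m ∈ Icc 1 X, (κ m : ℂ) * G m
      = ∑ m ∈ (Icc 1 X).filter (fun m => m ≤ W), (κ m : ℂ) * G m := by
    rw [Finset.sum_filter]
    refine Finset.sum_congr rfl fun m _ => ?_
    split_ifs with h
    · rfl
    · rw [h2 m (not_le.1 h)]; simp
  rw [hr]
  refine (norm_sum_le _ _).trans ?_
  have hs : (Icc 1 X).filter (fun m => m ≤ W) ⊆ Icc 1 W := by
    intro m hm
    rw [Finset.mem_filter, Finset.mem_Icc] at hm
    exact Finset.mem_Icc.2 ⟨hm.1.1, hm.2⟩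
  refine (Finset.sum_le_sum_of_subset_of_nonneg hs fun _ _ _ => norm_nonneg _).trans ?_
  calc ∑ m ∈ Icc 1 W, ‖(κ m : ℂ) * G m‖ ≤ ∑ m ∈ Icc 1 W, K * (B1 * (1 / m) + B2) := by
        refine Finset.sum_le_sum fun m hm => ?_
        rw [Finset.mem_Icc] at hm
        rw [norm_mul, Complex.norm_real, Real.norm_eq_abs]
        have := h3 m hm.1 hm.2
        have h4 := h1 m hm.1 hm.2
        rw [mul_one_div]
        exact mul_le_mul h4 this (norm_nonneg _) hK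
    _ = K * (B1 * ∑ m ∈ Icc 1 W, (1 : ℝ) / m + B2 * W) := by
        rw [← Finset.mul_sum, Finset.sum_add_distrib, ← Finset.mul_sum]
        simp [mul_comm]
    _ ≤ K * (B1 * (1 + Real.log W) + B2 * W) := by
        have := CL_harm W
        gcongr

/-- The support of the difference of the windows. -/
theorem CL_supp (hspc : R_spc) (J j n : ℕ) (lam : ℝ) (hJ : 2 ≤ J) (hj : j ∈ Ioc J (2 * J))
    (hl : 10 ≤ lam) (hn : 1 ≤ n) (h : 2 * (J : ℝ) * wJ J j n - lam * wL lam j n ≠ 0) :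
    J ^ 3 < 2 * n ∧ n < 27 * J ^ 3 := by
  obtain ⟨-, h1, h2⟩ := hspc J (by omega)
  by_cases hw : wJ J j n = 0
  · have : wL lam j n ≠ 0 := by
      intro h0
      apply h
      rw [hw, h0]; ring
    exact h2 j hj n lam hn hl this
  · obtain ⟨h3, h4⟩ := h1 j hj n hn hw
    rw [Finset.mem_Ioc] at hj
    have h5 : J ^ 3 ≤ j ^ 3 := Nat.pow_le_pow_left hj.1.le 3
    have h6 : (j + 1) ^ 3 ≤ (3 * J) ^ 3 := Nat.pow_le_pow_left (by omega) 3
    have h7 : (3 * J) ^ 3 = 27 * J ^ 3 := by ring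
    omega

/-- The polynomial of a block. -/
theorem CL_dp (A C0 : ℕ) (M0 : ℝ)
    (hM0 : ∀ M : ℝ, M0 ≤ M → ∀ (r : ℕ)
      (χ : DirichletCharacter ℂ r), 1 ≤ r → (r : ℝ) ≤ (Real.log M) ^ 1 → χ.IsPrimitive → ∀ τ : ℝ,
      |τ| ≤ M ^ (30 : ℝ) → (2 ≤ r ∨ (Real.log M) ^ C0 ≤ |τ|) → ∀ M1 M2 : ℕ, (M2 : ℝ) ≤ M →
      ‖∑ n ∈ Ioc M1 M2, (vonMangoldt n : ℂ) * χ (n : ZMod r) * pz (-τ) n‖
        ≤ M / (Real.log M) ^ (A + 11))
    (J M : ℕ) (hJ : 2 ≤ J) (hM1 : M0 ≤ (J : ℝ) ^ (1 / 10 : ℝ)) (hM2 : (J : ℝ) ^ (1 / 10 : ℝ) ≤ 2 * M)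
    (hM3 : Real.log (2 * M) ≤ 4 * Real.log J) (hL : 10 ≤ Real.log J)
    (hL1 : (4 : ℝ) ^ C0 ≤ Real.log J) (hL2 : 2 * (10 : ℝ) ^ (A + 11) ≤ Real.log J) (θ : ℝ)
    (hθ1 : (Real.log J) ^ (C0 + 1) ≤ |θ|) (hθ2 : |θ| ≤ (J : ℝ) ^ 3) :
    ‖∑ n ∈ Ioc M (2 * M), (vonMangoldt n : ℂ) * pz (-θ) n‖ ≤ M / (Real.log J) ^ (A + 10) := by
  have hJ0 : (0 : ℝ) < J := by positivity
  have hx0 : (0 : ℝ) < (J : ℝ) ^ (1 / 10 : ℝ) := Real.rpow_pos_of_pos hJ0 _
  have hl : Real.log J / 10 ≤ Real.log (2 * M) := by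
    have := Real.log_le_log hx0 hM2
    rw [Real.log_rpow hJ0] at this
    linarith
  have h1 := hM0 (2 * M : ℝ) (hM1.trans hM2) 1 1 le_rfl (by push_cast; rw [pow_one]; linarith)
    DirichletCharacter.isPrimitive_one_level_one θ ?_ (Or.inr ?_) M (2 * M) (by push_cast; exact le_rfl)
  · have h2 : ∀ n ∈ Ioc M (2 * M), (vonMangoldt n : ℂ) * (1 : DirichletCharacter ℂ 1) (n : ZMod 1)
        * pz (-θ) n = (vonMangoldt n : ℂ) * pz (-θ) n := by
      intro n _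
      rw [MulChar.one_apply (isUnit_of_subsingleton _), mul_one]
    rw [Finset.sum_congr rfl h2] at h1
    refine h1.trans ?_
    have hlp : 0 < Real.log (2 * M) := by linarith
    have hLp : 0 < Real.log J := by linarith
    rw [div_le_div_iff₀ (by positivity) (by positivity)]
    have h3 : (Real.log J / 10) ^ (A + 11) ≤ (Real.log (2 * M)) ^ (A + 11) :=
      pow_le_pow_left₀ (by positivity) hl _
    have h4 : 2 * (Real.log J) ^ (A + 10) ≤ (Real.log J / 10) ^ (A + 11) := by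
      rw [div_pow, le_div_iff₀ (by positivity), pow_succ (Real.log J) (A + 10)]
      have : 0 ≤ (Real.log J) ^ (A + 10) := by positivity
      nlinarith
    have h5 : (0 : ℝ) ≤ M := Nat.cast_nonneg _
    calc 2 * (M : ℝ) * Real.log J ^ (A + 10) = M * (2 * Real.log J ^ (A + 10)) := by ring
      _ ≤ M * (Real.log (2 * M)) ^ (A + 11) := mul_le_mul_of_nonneg_left (h4.trans h3) h5
  · refine hθ2.trans ?_
    have h2 : (J : ℝ) ^ 3 = ((J : ℝ) ^ (1 / 10 : ℝ)) ^ (30 : ℝ) := by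
      rw [← Real.rpow_mul hJ0.le, ← Real.rpow_natCast]
      norm_num
    rw [h2]
    exact Real.rpow_le_rpow hx0.le hM2 (by norm_num)
  · refine le_trans ?_ hθ1
    have hlp : 0 ≤ Real.log (2 * M) := by linarith
    calc Real.log (2 * M) ^ C0 ≤ (4 * Real.log J) ^ C0 := pow_le_pow_left₀ hlp hM3 _
      _ = 4 ^ C0 * Real.log J ^ C0 := by rw [mul_pow]
      _ ≤ Real.log J * Real.log J ^ C0 := by
          apply mul_le_mul_of_nonneg_right hL1
          have : 0 ≤ Real.log J := by linarith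
          positivity
      _ = Real.log J ^ (C0 + 1) := by rw [pow_succ]; ring

/-- The difference of the windows, with value `0` at `0`. -/
noncomputable def CL_w (J E j k : ℕ) : ℝ :=
  if k = 0 then 0 else 2 * J * wJ J j k - (Real.log J) ^ E * wL ((Real.log J) ^ E) j k

/-- One block. -/
theorem CL_block (A C0 E J M N U : ℕ) (e : ℕ → ℝ) (he : ∀ n, |e n| ≤ n.divisors.card)
    (hc : ∀ (M N : ℕ) (a b : ℕ → ℂ), J ≤ 4 * N → M * N ≤ 27 * J ^ 3 →
      ∑ m ∈ Icc 1 (2 * M), ‖a m‖ ≤ M * (Real.log J) ^ 6 →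
      ∑ n ∈ Icc 1 (2 * N), ‖b n‖ ^ 2 ≤ N * (Real.log J) ^ 6 →
      (∀ θ : ℝ, (Real.log J) ^ (C0 + 1) ≤ |θ| → |θ| ≤ (J : ℝ) ^ 3 →
        ‖dp a (2 * M) θ‖ ≤ M / (Real.log J) ^ (A + 6 + 4)) →
      ∑ j ∈ Ioc J (2 * J), ‖∑ m ∈ Icc 1 (2 * M), ∑ n ∈ Icc 1 (2 * N), a m * b n *
          ((2 * J * wJ J j (m * n) - (Real.log J) ^ E * wL ((Real.log J) ^ E) j (m * n) : ℝ) : ℂ)‖ ^ 2
        ≤ (J : ℝ) ^ 7 / (Real.log J) ^ (A + 6))
    (hUM : U ≤ M) (hN : J ≤ 4 * N) (hMN : M * N ≤ 27 * J ^ 3) (hL : 10 ≤ Real.log J)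
    (hM3 : Real.log (2 * M) ≤ 4 * Real.log J) (hN3 : Real.log (2 * N) ≤ 4 * Real.log J)
    (hdp : ∀ θ : ℝ, (Real.log J) ^ (C0 + 1) ≤ |θ| → |θ| ≤ (J : ℝ) ^ 3 →
      ‖∑ n ∈ Ioc M (2 * M), (vonMangoldt n : ℂ) * pz (-θ) n‖ ≤ M / (Real.log J) ^ (A + 10)) :
    ∑ j ∈ Ioc J (2 * J), ‖∑ m ∈ Ioc M (2 * M), ∑ n ∈ Ioc N (2 * N),
      ((if U < m then vonMangoldt m else 0 : ℝ) : ℂ) * (e n : ℂ) * (CL_w J E j (m * n) : ℂ)‖ ^ 2
      ≤ (J : ℝ) ^ 7 / (Real.log J) ^ (A + 6) := by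
  set a' : ℕ → ℂ := fun m => if M < m then (vonMangoldt m : ℂ) else 0 with ha'
  set b' : ℕ → ℂ := fun n => if N < n then (e n : ℂ) else 0 with hb'
  have hIM : (Icc 1 (2 * M)).filter (fun m => M < m) = Ioc M (2 * M) := by
    ext m; simp only [Finset.mem_filter, Finset.mem_Icc, Finset.mem_Ioc]; omega
  have hIN : (Icc 1 (2 * N)).filter (fun m => N < m) = Ioc N (2 * N) := by
    ext m; simp only [Finset.mem_filter, Finset.mem_Icc, Finset.mem_Ioc]; omega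
  have hL0 : 0 < Real.log J := by linarith
  have h := hc M N a' b' hN hMN ?_ ?_ ?_
  · refine le_trans (le_of_eq ?_) h
    refine Finset.sum_congr rfl fun j _ => ?_
    congr 2
    rw [← hIM, Finset.sum_filter]
    refine Finset.sum_congr rfl fun m hm => ?_
    rw [Finset.mem_Icc] at hm
    by_cases hMm : M < m
    · rw [if_pos hMm, if_pos (lt_of_le_of_lt hUM hMm), ← hIN, Finset.sum_filter]
      refine Finset.sum_congr rfl fun n hn => ?_
      rw [Finset.mem_Icc] at hn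
      have hne : m * n ≠ 0 := Nat.mul_ne_zero (by omega) (by omega)
      simp only [ha', hb', if_pos hMm, CL_w, if_neg hne]
      by_cases hNn : N < n
      · rw [if_pos hNn, if_pos hNn]
      · rw [if_neg hNn, if_neg hNn]; simp
    · rw [if_neg hMm]
      symm
      refine Finset.sum_eq_zero fun n _ => ?_
      simp only [ha', if_neg hMm]
      simp
  · calc ∑ m ∈ Icc 1 (2 * M), ‖a' m‖ = ∑ m ∈ Ioc M (2 * M), (vonMangoldt m) := by
          rw [← hIM, Finset.sum_filter]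
          refine Finset.sum_congr rfl fun m _ => ?_
          simp only [ha']
          split_ifs
          · rw [Complex.norm_real, Real.norm_of_nonneg ArithmeticFunction.vonMangoldt_nonneg]
          · simp
      _ ≤ ∑ m ∈ Ioc M (2 * M), 4 * Real.log J := by
          refine Finset.sum_le_sum fun m hm => ?_
          rw [Finset.mem_Ioc] at hm
          refine (ArithmeticFunction.vonMangoldt_le_log).trans (le_trans ?_ hM3)
          apply Real.log_le_log (by exact_mod_cast (by omega : 0 < m))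
          exact_mod_cast hm.2
      _ = M * (4 * Real.log J) := by
          rw [Finset.sum_const, Nat.card_Ioc, nsmul_eq_mul]
          congr 2
          omega
      _ ≤ M * (Real.log J) ^ 6 := by
          apply mul_le_mul_of_nonneg_left _ (Nat.cast_nonneg _)
          have : (10 : ℝ) ^ 5 ≤ (Real.log J) ^ 5 := pow_le_pow_left₀ (by norm_num) hL _
          nlinarith
  · calc ∑ n ∈ Icc 1 (2 * N), ‖b' n‖ ^ 2 ≤ ∑ n ∈ Icc 1 (2 * N), ((n.divisors.card : ℝ)) ^ 2 := by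
          refine Finset.sum_le_sum fun n _ => ?_
          simp only [hb']
          split_ifs
          · rw [Complex.norm_real, Real.norm_eq_abs]
            exact pow_le_pow_left₀ (abs_nonneg _) (he n) 2
          · simp only [norm_zero]
            exact le_trans (by norm_num) (sq_nonneg _)
      _ ≤ ((2 * N : ℕ) : ℝ) * (1 + Real.log ((2 * N : ℕ) : ℝ)) ^ 3 := Pool.Agent.MP89da58.sum_tau_sq _
      _ ≤ ((2 * N : ℕ) : ℝ) * (5 * Real.log J) ^ 3 := by
          apply mul_le_mul_of_nonneg_left _ (Nat.cast_nonneg _)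
          have h0 : 0 ≤ Real.log ((2 * N : ℕ) : ℝ) := Real.log_natCast_nonneg _
          apply pow_le_pow_left₀ (by linarith)
          push_cast
          linarith
      _ ≤ N * (Real.log J) ^ 6 := by
          push_cast
          have : (10 : ℝ) ^ 3 ≤ (Real.log J) ^ 3 := pow_le_pow_left₀ (by norm_num) hL _
          have h2 : 250 * (Real.log J) ^ 3 ≤ (Real.log J) ^ 6 := by
            have h3 : 0 ≤ (Real.log J) ^ 3 := by positivity
            nlinarith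
          have h4 : (0 : ℝ) ≤ N := Nat.cast_nonneg _
          calc 2 * (N : ℝ) * (5 * Real.log J) ^ 3 = N * (250 * (Real.log J) ^ 3) := by ring
            _ ≤ N * (Real.log J) ^ 6 := mul_le_mul_of_nonneg_left h2 h4
  · intro θ h1 h2
    have h3 := hdp θ h1 h2
    have h4 : dp a' (2 * M) θ = ∑ n ∈ Ioc M (2 * M), (vonMangoldt n : ℂ) * pz (-θ) n := by
      rw [dp, ← hIM, Finset.sum_filter]
      refine Finset.sum_congr rfl fun n _ => ?_
      simp only [ha']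
      split_ifs
      · rfl
      · simp
    rw [h4]
    exact h3

theorem CL_w_pos (J E j k : ℕ) (hk : k ≠ 0) :
    CL_w J E j k = 2 * J * wJ J j k - (Real.log J) ^ E * wL ((Real.log J) ^ E) j k := by
  rw [CL_w, if_neg hk]

/-- The type I sums are small. -/
theorem CL_small (C x L : ℝ) (A E J U V : ℕ) (c d : ℕ → ℝ)
    (htO : ∀ (J j d N : ℕ) (lam : ℝ), 2 ≤ J → j ∈ Ioc J (2 * J) → 1 ≤ d →
      d ≤ J ^ 2 → 10 ≤ lam → lam ≤ 2 * J → 27 * J ^ 3 ≤ d * N →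
      |∑ n ∈ Icc 1 N, (2 * J * wJ J j (d * n) - lam * wL lam j (d * n))|
        ≤ C * ((J : ℝ) ^ 3 / (d * lam ^ 2) + J) ∧
      |∑ n ∈ Icc 1 N, Real.log n * (2 * J * wJ J j (d * n) - lam * wL lam j (d * n))|
        ≤ C * Real.log J * ((J : ℝ) ^ 3 / (d * lam ^ 2) + J))
    (hLd : L = Real.log J) (X : ℕ) (hX : X = 27 * J ^ 3) (hx2 : 2 ≤ x) (hJx : (J : ℝ) = x ^ 10) (hlx : Real.log x = L / 10)
    (hL : 10 ≤ L) (hE2 : A + 5 ≤ E) (hlE : L ^ E ≤ x) (hlA : L ^ (A + 9) ≤ x)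
    (hC9 : 9 * |C| ≤ L)
    (hU : (U : ℝ) ≤ x) (hV : (V : ℝ) ≤ x ^ 11) (hU1 : 1 ≤ U) (hV1 : 1 ≤ V)
    (hc1 : ∀ n, |c n| ≤ 1) (hc0 : ∀ n, V < n → c n = 0)
    (hd1 : ∀ n, 1 ≤ n → |d n| ≤ Real.log n) (hd0 : ∀ n, U * V < n → d n = 0) (j : ℕ)
    (hj : j ∈ Ioc J (2 * J)) :
    ‖∑ m ∈ Icc 1 X, ∑ n ∈ Icc 1 X, (c m : ℂ) * (Real.log n : ℂ) *
        (CL_w J E j (m * n) : ℂ)
      - ∑ m ∈ Icc 1 X, ∑ n ∈ Icc 1 X, (d m : ℂ) * (CL_w J E j (m * n) : ℂ)‖
      ≤ (J : ℝ) ^ 3 / L ^ (A + 7) := by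
  have hL0 : 0 < L := by linarith
  have hL1 : 1 ≤ L := by linarith
  have hx1 : 1 ≤ x := by linarith
  have hx0 : 0 < x := by linarith
  have hJ2 : 2 ≤ J := by
    have : (2 : ℝ) ≤ J := by
      rw [hJx]
      calc (2 : ℝ) ≤ x := hx2
        _ ≤ x ^ 10 := le_self_pow₀ hx1 (by norm_num)
    exact_mod_cast this
  have hlam : 10 ≤ L ^ E := hL.trans (le_self_pow₀ hL1 (by omega))
  have hlam2 : L ^ E ≤ 2 * J := by
    refine hlE.trans ?_
    rw [hJx]
    have : x ≤ x ^ 10 := le_self_pow₀ hx1 (by norm_num)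
    have : 0 ≤ x ^ 10 := by positivity
    linarith
  have hV' : V ≤ J ^ 2 := by
    have : (V : ℝ) ≤ ((J ^ 2 : ℕ) : ℝ) := by
      push_cast
      rw [hJx, ← pow_mul]
      exact hV.trans (pow_le_pow_right₀ hx1 (by norm_num))
    exact_mod_cast this
  have hUVx : ((U * V : ℕ) : ℝ) ≤ x ^ 12 := by
    push_cast
    calc (U : ℝ) * V ≤ x * x ^ 11 := mul_le_mul hU hV (Nat.cast_nonneg _) hx0.le
      _ = x ^ 12 := by ring
  have hUV' : U * V ≤ J ^ 2 := by
    have : ((U * V : ℕ) : ℝ) ≤ ((J ^ 2 : ℕ) : ℝ) := by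
      refine hUVx.trans ?_
      push_cast
      rw [hJx, ← pow_mul]
      exact pow_le_pow_right₀ hx1 (by norm_num)
    exact_mod_cast this
  have hUV1 : 1 ≤ U * V := Nat.mul_pos hU1 hV1
  have hlV : 1 + Real.log V ≤ 2 * L := by
    have h1 : Real.log V ≤ Real.log (x ^ 11) :=
      Real.log_le_log (by exact_mod_cast hV1) hV
    rw [Real.log_pow, hlx] at h1
    push_cast at h1
    linarith
  have hlUV : Real.log ((U * V : ℕ) : ℝ) ≤ 12 * (L / 10) := by
    have h1 : Real.log ((U * V : ℕ) : ℝ) ≤ Real.log (x ^ 12) :=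
      Real.log_le_log (by exact_mod_cast hUV1) hUVx
    rw [Real.log_pow, hlx] at h1
    push_cast at h1 ⊢
    linarith
  have hb1 : L ^ 2 / (L ^ E) ^ 2 ≤ 1 / L ^ (A + 8) := by
    rw [div_le_div_iff₀ (by positivity) (by positivity), one_mul, ← pow_add, ← pow_mul]
    exact pow_le_pow_right₀ hL1 (by omega)
  have hb2 : L * x ^ 22 ≤ (J : ℝ) ^ 3 / L ^ (A + 8) := by
    rw [le_div_iff₀ (by positivity), hJx]
    calc L * x ^ 22 * L ^ (A + 8) = L ^ (A + 9) * x ^ 22 := by ring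
      _ ≤ x * x ^ 22 := mul_le_mul_of_nonneg_right hlA (by positivity)
      _ = x ^ 23 := by ring
      _ ≤ x ^ 30 := pow_le_pow_right₀ hx1 (by norm_num)
      _ = (x ^ 10) ^ 3 := by ring
  have hC0 : 0 ≤ |C| := abs_nonneg C
  have hJ0 : (0 : ℝ) < J := by rw [hJx]; positivity
  set Q : ℝ := (J : ℝ) ^ 3 / L ^ (A + 8) with hQ
  have hQ0 : 0 ≤ Q := by positivity
  have hb1' : (J : ℝ) ^ 3 / (L ^ E) ^ 2 * L ^ 2 ≤ Q := by
    calc (J : ℝ) ^ 3 / (L ^ E) ^ 2 * L ^ 2 = (J : ℝ) ^ 3 * (L ^ 2 / (L ^ E) ^ 2) := by ring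
      _ ≤ (J : ℝ) ^ 3 * (1 / L ^ (A + 8)) := mul_le_mul_of_nonneg_left hb1 (by positivity)
      _ = Q := by rw [hQ]; ring
  -- first sum
  have hT1 : ‖∑ m ∈ Icc 1 X, ∑ n ∈ Icc 1 X, (c m : ℂ) * (Real.log n : ℂ) *
        (CL_w J E j (m * n) : ℂ)‖ ≤ 3 * |C| * Q := by
    have hr : ∑ m ∈ Icc 1 X, ∑ n ∈ Icc 1 X, (c m : ℂ) * (Real.log n : ℂ) *
        (CL_w J E j (m * n) : ℂ) = ∑ m ∈ Icc 1 X, (c m : ℂ) *
          ∑ n ∈ Icc 1 X, (Real.log n : ℂ) * (CL_w J E j (m * n) : ℂ) := by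
      refine Finset.sum_congr rfl fun m _ => ?_
      rw [Finset.mul_sum]
      exact Finset.sum_congr rfl fun n _ => by ring
    rw [hr]
    refine (CL_type X V c _ 1 (|C| * L * ((J : ℝ) ^ 3 / (L ^ E) ^ 2)) (|C| * L * J)
      zero_le_one (by positivity) (by positivity) (fun m _ _ => hc1 m) hc0 ?_).trans ?_
    · intro m hm1 hmV
      have h1 := (htO J j m X (L ^ E) hJ2 hj hm1 (hmV.trans hV') hlam hlam2
        (hX ▸ Nat.le_mul_of_pos_left _ hm1)).2
      have h2 : ∑ n ∈ Icc 1 X, (Real.log n : ℂ) * (CL_w J E j (m * n) : ℂ)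
          = ((∑ n ∈ Icc 1 X, Real.log n *
            (2 * J * wJ J j (m * n) - L ^ E * wL (L ^ E) j (m * n)) : ℝ) : ℂ) := by
        rw [Complex.ofReal_sum]
        refine Finset.sum_congr rfl fun n hn => ?_
        rw [Finset.mem_Icc] at hn
        rw [CL_w_pos _ _ _ _ (Nat.mul_ne_zero (by omega) (by omega)), hLd]
        push_cast
        ring
      rw [h2, Complex.norm_real, Real.norm_eq_abs]
      refine h1.trans ?_
      rw [← hLd]
      have hm0 : (0 : ℝ) < m := by exact_mod_cast hm1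
      calc C * L * ((J : ℝ) ^ 3 / (m * (L ^ E) ^ 2) + J)
          ≤ |C| * L * ((J : ℝ) ^ 3 / (m * (L ^ E) ^ 2) + J) := by
            apply mul_le_mul_of_nonneg_right _ (by positivity)
            exact mul_le_mul_of_nonneg_right (le_abs_self C) hL0.le
        _ = |C| * L * ((J : ℝ) ^ 3 / (L ^ E) ^ 2) / m + |C| * L * J := by
            field_simp
    · rw [one_mul]
      have e1 : |C| * L * ((J : ℝ) ^ 3 / (L ^ E) ^ 2) * (1 + Real.log V) ≤ 2 * |C| * Q := by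
        calc |C| * L * ((J : ℝ) ^ 3 / (L ^ E) ^ 2) * (1 + Real.log V)
            ≤ |C| * L * ((J : ℝ) ^ 3 / (L ^ E) ^ 2) * (2 * L) :=
              mul_le_mul_of_nonneg_left hlV (by positivity)
          _ = 2 * |C| * ((J : ℝ) ^ 3 / (L ^ E) ^ 2 * L ^ 2) := by ring
          _ ≤ 2 * |C| * Q := mul_le_mul_of_nonneg_left hb1' (by positivity)
      have e2 : |C| * L * J * V ≤ |C| * Q := by
        calc |C| * L * J * V ≤ |C| * L * J * x ^ 11 := mul_le_mul_of_nonneg_left hV (by positivity)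
          _ = |C| * (L * (x ^ 21)) := by rw [hJx]; ring
          _ ≤ |C| * (L * x ^ 22) := by
              apply mul_le_mul_of_nonneg_left _ hC0
              apply mul_le_mul_of_nonneg_left _ hL0.le
              exact pow_le_pow_right₀ hx1 (by norm_num)
          _ ≤ |C| * Q := mul_le_mul_of_nonneg_left hb2 hC0
      linarith
  have hT2 : ‖∑ m ∈ Icc 1 X, ∑ n ∈ Icc 1 X, (d m : ℂ) *
        (CL_w J E j (m * n) : ℂ)‖ ≤ 6 * |C| * Q := by
    have hr : ∑ m ∈ Icc 1 X, ∑ n ∈ Icc 1 X, (d m : ℂ) *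
        (CL_w J E j (m * n) : ℂ) = ∑ m ∈ Icc 1 X, (d m : ℂ) *
          ∑ n ∈ Icc 1 X, (CL_w J E j (m * n) : ℂ) := by
      refine Finset.sum_congr rfl fun m _ => ?_
      rw [Finset.mul_sum]
    rw [hr]
    refine (CL_type X (U * V) d _ (2 * L) (|C| * ((J : ℝ) ^ 3 / (L ^ E) ^ 2)) (|C| * J)
      (by positivity) (by positivity) (by positivity) ?_ hd0 ?_).trans ?_
    · intro m hm1 hmV
      refine (hd1 m hm1).trans ?_
      have h1 : Real.log m ≤ Real.log ((U * V : ℕ) : ℝ) :=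
        Real.log_le_log (by exact_mod_cast hm1) (by exact_mod_cast hmV)
      linarith
    · intro m hm1 hmV
      have h1 := (htO J j m X (L ^ E) hJ2 hj hm1 (hmV.trans hUV') hlam hlam2
        (hX ▸ Nat.le_mul_of_pos_left _ hm1)).1
      have h2 : ∑ n ∈ Icc 1 X, (CL_w J E j (m * n) : ℂ)
          = ((∑ n ∈ Icc 1 X,
            (2 * J * wJ J j (m * n) - L ^ E * wL (L ^ E) j (m * n)) : ℝ) : ℂ) := by
        rw [Complex.ofReal_sum]
        refine Finset.sum_congr rfl fun n hn => ?_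
        rw [Finset.mem_Icc] at hn
        rw [CL_w_pos _ _ _ _ (Nat.mul_ne_zero (by omega) (by omega)), hLd]
      rw [h2, Complex.norm_real, Real.norm_eq_abs]
      refine h1.trans ?_
      have hm0 : (0 : ℝ) < m := by exact_mod_cast hm1
      calc C * ((J : ℝ) ^ 3 / (m * (L ^ E) ^ 2) + J)
          ≤ |C| * ((J : ℝ) ^ 3 / (m * (L ^ E) ^ 2) + J) :=
            mul_le_mul_of_nonneg_right (le_abs_self C) (by positivity)
        _ = |C| * ((J : ℝ) ^ 3 / (L ^ E) ^ 2) / m + |C| * J := by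
            field_simp
    · have e1 : |C| * ((J : ℝ) ^ 3 / (L ^ E) ^ 2) * (1 + Real.log ((U * V : ℕ) : ℝ))
          ≤ |C| * ((J : ℝ) ^ 3 / (L ^ E) ^ 2) * (2 * L) :=
        mul_le_mul_of_nonneg_left (by linarith) (by positivity)
      have e2 : |C| * J * ((U * V : ℕ) : ℝ) ≤ |C| * x ^ 22 := by
        calc |C| * J * ((U * V : ℕ) : ℝ) ≤ |C| * J * x ^ 12 :=
              mul_le_mul_of_nonneg_left hUVx (by positivity)
          _ = |C| * x ^ 22 := by rw [hJx]; ring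
      calc 2 * L * (|C| * ((J : ℝ) ^ 3 / (L ^ E) ^ 2) * (1 + Real.log ((U * V : ℕ) : ℝ))
            + |C| * J * ((U * V : ℕ) : ℝ))
          ≤ 2 * L * (|C| * ((J : ℝ) ^ 3 / (L ^ E) ^ 2) * (2 * L) + |C| * x ^ 22) :=
            mul_le_mul_of_nonneg_left (add_le_add e1 e2) (by positivity)
        _ = 4 * |C| * ((J : ℝ) ^ 3 / (L ^ E) ^ 2 * L ^ 2) + 2 * |C| * (L * x ^ 22) := by ring
        _ ≤ 4 * |C| * Q + 2 * |C| * Q := add_le_add
            (mul_le_mul_of_nonneg_left hb1' (by positivity))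
            (mul_le_mul_of_nonneg_left hb2 (by positivity))
        _ = 6 * |C| * Q := by ring
  refine (norm_sub_le _ _).trans ((add_le_add hT1 hT2).trans ?_)
  have h9 : 3 * |C| * Q + 6 * |C| * Q ≤ L * Q := by
    have := mul_le_mul_of_nonneg_right hC9 hQ0
    linarith
  refine h9.trans (le_of_eq ?_)
  rw [hQ, show A + 8 = (A + 7) + 1 from rfl, pow_succ]
  field_simp
  ring

theorem p_CL : S_CL := by
  intro hcpm hdya hvau htO hspc hPW A
  obtain ⟨C, htO⟩ := htO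
  obtain ⟨C0, hC0⟩ := hPW (A + 11) 1 30 (by norm_num)
  obtain ⟨M0, hM0⟩ := eventually_atTop.1 hC0
  obtain ⟨E0, hE0⟩ := hcpm (A + 6) (C0 + 1)
  refine ⟨max E0 (A + 5), fun E hE => ?_⟩
  have hE1 : E0 ≤ E := (le_max_left _ _).trans hE
  have hE2 : A + 5 ≤ E := (le_max_right _ _).trans hE
  filter_upwards [hE0 E hE1, hdya, CL_big 10, CL_big ((4 : ℝ) ^ C0), CL_big (2 * (10 : ℝ) ^ (A + 11)),
    CL_big (9 * |C|), CL_log E, CL_log (A + 9), CL_big2 M0, CL_big2 2, eventually_ge_atTop 54]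
    with J hc hd hL hL1 hL2 hC9 hlE hlA hM01 hx2 hJ54
  have hJ0 : (0 : ℝ) < J := by
    have : 0 < J := by omega
    exact_mod_cast this
  have hJ54' : (54 : ℝ) ≤ J := by exact_mod_cast hJ54
  set x : ℝ := (J : ℝ) ^ (1 / 10 : ℝ) with hx
  have hJx : (J : ℝ) = x ^ 10 := by
    rw [hx, ← Real.rpow_natCast, ← Real.rpow_mul hJ0.le]
    norm_num
  have hx0 : 0 < x := by linarith
  have hx1 : 1 ≤ x := by linarith
  have hlx : Real.log x = Real.log J / 10 := by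
    rw [hx, Real.log_rpow hJ0]; ring
  set U : ℕ := ⌊x⌋₊ with hU
  set V : ℕ := ⌊x ^ 11⌋₊ with hV
  have hUx : (U : ℝ) ≤ x := Nat.floor_le hx0.le
  have hVx : (V : ℝ) ≤ x ^ 11 := Nat.floor_le (by positivity)
  have hU1 : 1 ≤ U := Nat.le_floor (by push_cast; linarith)
  have hUJ : U ≤ J := by
    have h1 : (U : ℝ) ≤ J := by
      rw [hJx]
      exact hUx.trans (le_self_pow₀ hx1 (by norm_num))
    exact_mod_cast h1
  have hVJ : J ≤ V := by
    apply Nat.le_floor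
    rw [hJx]
    exact pow_le_pow_right₀ hx1 (by norm_num)
  have hV1 : 1 ≤ V := by omega
  have hL0 : 0 < Real.log J := by linarith
  have hlam : 10 ≤ (Real.log J) ^ E := hL.trans (le_self_pow₀ (by linarith) (by omega))
  obtain ⟨c, d, e, hc1, hc0, hd1, hd0, he1, he0, hid⟩ := hvau U V (27 * J ^ 3)
  have hlog4 : ∀ M : ℕ, 1 ≤ M → M ≤ 27 * J ^ 3 → Real.log (2 * M) ≤ 4 * Real.log J := by
    intro M hM1 hM
    have h1 : (2 * M : ℝ) ≤ (J : ℝ) ^ 4 := by
      have h2 : (M : ℝ) ≤ 27 * (J : ℝ) ^ 3 := by exact_mod_cast hM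
      have h3 : (54 : ℝ) * (J : ℝ) ^ 3 ≤ J * (J : ℝ) ^ 3 :=
        mul_le_mul_of_nonneg_right hJ54' (by positivity)
      nlinarith
    have h0 : (0 : ℝ) < 2 * M := by
      have : (0 : ℝ) < M := by exact_mod_cast hM1
      linarith
    have := Real.log_le_log h0 h1
    rw [Real.log_pow] at this
    push_cast at this
    exact this
  -- the third sum
  have hT3 := hd U V (fun j m n => ((if U < m then vonMangoldt m else 0 : ℝ) : ℂ) * (e n : ℂ) *
      (CL_w J E j (m * n) : ℂ)) ((J : ℝ) ^ 7 / (Real.log J) ^ (A + 6)) hU1 hV1 (by positivity) ?_ ?_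
  · have hT12 : ∀ j ∈ Ioc J (2 * J), _ := fun j hj =>
      CL_small C x (Real.log J) A E J U V c d htO rfl (27 * J ^ 3) rfl hx2 hJx hlx hL hE2 hlE hlA hC9
        hUx hVx hU1 hV1 hc1 hc0 hd1 hd0 j hj
    have hsum : ∀ j ∈ Ioc J (2 * J), (2 * (J : ℝ) * ∑ n ∈ Icc 1 (27 * J ^ 3), FL J n * wJ J j n
        - (Real.log J) ^ E * ∑ n ∈ Icc 1 (27 * J ^ 3), FL J n * wL ((Real.log J) ^ E) j n) ^ 2
        ≤ 2 * ((J : ℝ) ^ 3 / (Real.log J) ^ (A + 7)) ^ 2 +
          2 * ‖∑ m ∈ Icc 1 (27 * J ^ 3), ∑ n ∈ Icc 1 (27 * J ^ 3),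
            ((if U < m then vonMangoldt m else 0 : ℝ) : ℂ) * (e n : ℂ) *
              (CL_w J E j (m * n) : ℂ)‖ ^ 2 := by
      intro j hj
      have h1 := hid (fun k => (CL_w J E j k : ℂ)) ?_ ?_
      · have h2 : ((2 * (J : ℝ) * ∑ n ∈ Icc 1 (27 * J ^ 3), FL J n * wJ J j n
            - (Real.log J) ^ E * ∑ n ∈ Icc 1 (27 * J ^ 3), FL J n * wL ((Real.log J) ^ E) j n : ℝ) : ℂ)
            = ∑ n ∈ Icc 1 (27 * J ^ 3), (vonMangoldt n : ℂ) * (CL_w J E j n : ℂ) := by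
          rw [Finset.mul_sum, Finset.mul_sum, ← Finset.sum_sub_distrib, Complex.ofReal_sum]
          refine Finset.sum_congr rfl fun n hn => ?_
          rw [Finset.mem_Icc] at hn
          rw [CL_w_pos _ _ _ _ (by omega), FL]
          push_cast
          ring
        rw [h1] at h2
        set T1 := ∑ m ∈ Icc 1 (27 * J ^ 3), ∑ n ∈ Icc 1 (27 * J ^ 3), (c m : ℂ) *
          (Real.log (n : ℕ) : ℂ) * (CL_w J E j (m * n) : ℂ) with hT1d
        set T2 := ∑ m ∈ Icc 1 (27 * J ^ 3), ∑ n ∈ Icc 1 (27 * J ^ 3), (d m : ℂ) *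
          (CL_w J E j (m * n) : ℂ) with hT2d
        set T3 := ∑ m ∈ Icc 1 (27 * J ^ 3), ∑ n ∈ Icc 1 (27 * J ^ 3),
            ((if U < m then vonMangoldt m else 0 : ℝ) : ℂ) * (e n : ℂ) *
              (CL_w J E j (m * n) : ℂ) with hT3d
        have h3 : ‖T1 - T2‖ ≤ (J : ℝ) ^ 3 / (Real.log J) ^ (A + 7) := hT12 j hj
        have h4 : ‖T1 - T2 + T3‖ ≤ ‖T1 - T2‖ + ‖T3‖ := norm_add_le _ _
        rw [← sq_abs, ← Real.norm_eq_abs, ← Complex.norm_real, h2]
        have h5 : 0 ≤ ‖T1 - T2 + T3‖ := norm_nonneg _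
        have h6 : 0 ≤ ‖T1 - T2‖ := norm_nonneg _
        have h7 : 0 ≤ ‖T3‖ := norm_nonneg _
        calc ‖T1 - T2 + T3‖ ^ 2 ≤ (‖T1 - T2‖ + ‖T3‖) ^ 2 := pow_le_pow_left₀ h5 h4 2
          _ ≤ 2 * ‖T1 - T2‖ ^ 2 + 2 * ‖T3‖ ^ 2 := by nlinarith [sq_nonneg (‖T1 - T2‖ - ‖T3‖)]
          _ ≤ 2 * ((J : ℝ) ^ 3 / (Real.log J) ^ (A + 7)) ^ 2 + 2 * ‖T3‖ ^ 2 := by
              have := pow_le_pow_left₀ h6 h3 2
              linarith
      · intro n hn
        by_contra hne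
        have hne' : CL_w J E j n ≠ 0 := fun h => hne (by simp [h])
        have hn0 : n ≠ 0 := fun h => hne' (by rw [h, CL_w, if_pos rfl])
        rw [CL_w_pos _ _ _ _ hn0] at hne'
        have := (CL_supp hspc J j n _ (by omega) hj hlam (by omega) hne').1
        have h3 : J * 54 ≤ J ^ 3 := by
          calc J * 54 ≤ J * (J * J) := Nat.mul_le_mul_left _ (by nlinarith)
            _ = J ^ 3 := by ring
        omega
      · intro n hn
        by_contra hne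
        have hne' : CL_w J E j n ≠ 0 := fun h => hne (by simp [h])
        have hn0 : n ≠ 0 := fun h => hne' (by rw [h, CL_w, if_pos rfl])
        rw [CL_w_pos _ _ _ _ hn0] at hne'
        have := (CL_supp hspc J j n _ (by omega) hj hlam (by omega) hne').2
        omega
    refine (Finset.sum_le_sum hsum).trans ?_
    rw [Finset.sum_add_distrib, Finset.sum_const, Nat.card_Ioc, nsmul_eq_mul, ← Finset.mul_sum]
    have hcard : ((2 * J - J : ℕ) : ℝ) = J := by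
      have : 2 * J - J = J := by omega
      rw [this]
    rw [hcard]
    have hT3' := mul_le_mul_of_nonneg_left hT3 (show (0 : ℝ) ≤ 2 by norm_num)
    refine (add_le_add le_rfl hT3').trans ?_
    set L := Real.log J with hLdef
    have hLA : 0 < L ^ A := by positivity
    have e1 : (J : ℝ) * (2 * ((J : ℝ) ^ 3 / L ^ (A + 7)) ^ 2) ≤ (J : ℝ) ^ 7 / L ^ A * (1 / 2) := by
      have h1 : (J : ℝ) * (2 * ((J : ℝ) ^ 3 / L ^ (A + 7)) ^ 2)
          = (J : ℝ) ^ 7 / L ^ A * (2 / L ^ (A + 14)) := by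
        have h2 : (L ^ (A + 7)) ^ 2 = L ^ A * L ^ (A + 14) := by
          rw [← pow_mul, ← pow_add]
          congr 1
          ring
        rw [div_pow, h2]
        field_simp
      rw [h1]
      apply mul_le_mul_of_nonneg_left _ (by positivity)
      rw [div_le_div_iff₀ (by positivity) (by norm_num)]
      have : L ≤ L ^ (A + 14) := le_self_pow₀ (by linarith) (by omega)
      linarith
    have e2 : 2 * (L ^ 5 * ((J : ℝ) ^ 7 / L ^ (A + 6))) ≤ (J : ℝ) ^ 7 / L ^ A * (1 / 2) := by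
      have h1 : 2 * (L ^ 5 * ((J : ℝ) ^ 7 / L ^ (A + 6))) = (J : ℝ) ^ 7 / L ^ A * (2 / L) := by
        have h2 : L ^ (A + 6) = L ^ A * L ^ 5 * L := by ring
        rw [h2]
        field_simp
      rw [h1]
      apply mul_le_mul_of_nonneg_left _ (by positivity)
      rw [div_le_div_iff₀ (by positivity) (by norm_num)]
      linarith
    linarith
  · intro j hj m n hm1 hn1 hne
    have hmn : m * n ≠ 0 := Nat.mul_ne_zero (by omega) (by omega)
    have h1 : U < m := by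
      by_contra h
      apply hne
      simp only [if_neg h]
      simp
    have h2 : V < n := by
      by_contra h
      apply hne
      simp only [he0 n (not_lt.1 h)]
      simp
    have h3 : CL_w J E j (m * n) ≠ 0 := by
      intro h
      apply hne
      simp only [h]
      simp
    rw [CL_w_pos _ _ _ _ hmn] at h3
    have h4 := CL_supp hspc J j (m * n) _ (by omega) hj hlam (by omega) h3
    exact ⟨h1, h2, h4.1, h4.2⟩
  · intro M N hUM hVN _ hMN
    have hM1 : 1 ≤ M := hU1.trans hUM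
    have hN1 : 1 ≤ N := hV1.trans hVN
    have hM27 : M ≤ 27 * J ^ 3 := (Nat.le_mul_of_pos_right M hN1).trans hMN
    have hN27 : N ≤ 27 * J ^ 3 := (Nat.le_mul_of_pos_left N hM1).trans hMN
    refine CL_block A C0 E J M N U e he1 hc hUM (by omega) hMN hL (hlog4 M hM1 hM27)
      (hlog4 N hN1 hN27) ?_
    intro θ hθ1 hθ2
    refine CL_dp A C0 M0 hM0 J M (by omega) hM01 ?_ (hlog4 M hM1 hM27) hL hL1 hL2 θ hθ1 hθ2
    have h1 : x < (U : ℝ) + 1 := Nat.lt_floor_add_one x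
    have h2 : (U : ℝ) ≤ M := by exact_mod_cast hUM
    linarith

end Pool.Agent.CH.D
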