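import Pool.Agent.Lib.MP_d610d0_nt.CH.D.Stm

set_option autoImplicit false

/-!
Piece CR.
-/

namespace Pool.Agent.CH.D

open Finset Filter
open ArithmeticFunction (vonMangoldt)
open Pool.Agent.MP89da58 (tri primChars)
open Pool.Agent.BVall (boxL)
open Pool.Agent.CH.V (pz ex)
open Pool.Agent.CH.P (R_PW R_PNT)

/-- A convolution as a double sum. -/
theorem CR_conv (X : ℕ) (R s β W : ℕ → ℝ)
    (hR : ∀ n, 1 ≤ n → n ≤ X → R n = ∑ d ∈ n.divisors, s d * β (n / d))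
    (hW : ∀ n, X < n → W n = 0) :
    ∑ n ∈ Icc 1 X, R n * W n = ∑ m ∈ Icc 1 X, ∑ n ∈ Icc 1 X, s m * β n * W (m * n) := by
  have h1 : ∀ n ∈ Icc 1 X, R n * W n
      = ∑ x ∈ n.divisorsAntidiagonal, s x.1 * β x.2 * W (x.1 * x.2) := by
    intro n hn
    rw [mem_Icc] at hn
    rw [hR n hn.1 hn.2, ← Nat.sum_divisorsAntidiagonal (fun a b => s a * β b), sum_mul]
    apply sum_congr rfl
    intro x hx
    rw [Nat.mem_divisorsAntidiagonal] at hx
    rw [hx.1]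
  rw [sum_congr rfl h1, Pool.Agent.MP89da58.sum_dA (fun a b : ℕ => s a * β b * W (a * b))]
  apply sum_congr rfl
  intro d hd
  apply sum_congr rfl
  intro m hm
  split_ifs with h
  · rfl
  · rw [hW _ (not_le.mp h), mul_zero]

/-- A block as a pair of full intervals. -/
theorem CR_blk (M N : ℕ) (s β : ℕ → ℝ) (w : ℕ → ℕ → ℝ) :
    ∑ m ∈ Ioc M (2 * M), ∑ n ∈ Ioc N (2 * N), (s m : ℂ) * (β n : ℂ) * (w m n : ℂ)
      = ∑ m ∈ Icc 1 (2 * M), ∑ n ∈ Icc 1 (2 * N),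
        (if M < m then (s m : ℂ) else 0) * (if N < n then (β n : ℂ) else 0) * (w m n : ℂ) := by
  have h : ∀ K : ℕ, Ioc K (2 * K) = (Icc 1 (2 * K)).filter (fun m => K < m) := by
    intro K
    ext m
    simp only [mem_Ioc, mem_filter, mem_Icc]
    omega
  rw [h M, sum_filter]
  apply sum_congr rfl
  intro m _
  split_ifs with hm
  · rw [h N, sum_filter]
    apply sum_congr rfl
    intro n _
    split_ifs <;> simp
  · simp

/-- The values of `sA`. -/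
theorem CR_sA (J n : ℕ) : |sA J n| ≤ 1 := by
  unfold sA
  split_ifs <;> simp

/-- The coefficients of the first variable. -/
theorem CR_sa (J M : ℕ) (L : ℝ) (hL : 1 ≤ L) :
    ∑ m ∈ Icc 1 (2 * M), ‖(if M < m then (sA J m : ℂ) else 0)‖ ≤ M * L ^ 6 := by
  have h1 : ∑ m ∈ Icc 1 (2 * M), ‖(if M < m then (sA J m : ℂ) else 0)‖
      ≤ ∑ m ∈ Icc 1 (2 * M), (if M < m then (1 : ℝ) else 0) := by
    apply sum_le_sum
    intro m _
    split_ifs
    · rw [Complex.norm_real, Real.norm_eq_abs]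
      exact CR_sA J m
    · simp
  have h2 : ∑ m ∈ Icc 1 (2 * M), (if M < m then (1 : ℝ) else 0) = M := by
    rw [← sum_filter]
    have : (Icc 1 (2 * M)).filter (fun m => M < m) = Ioc M (2 * M) := by
      ext m
      simp only [mem_Ioc, mem_filter, mem_Icc]
      omega
    rw [this]
    simp only [sum_const, Nat.card_Ioc, nsmul_eq_mul, mul_one]
    congr 1
    omega
  have h3 : (1 : ℝ) ≤ L ^ 6 := one_le_pow₀ hL
  have h4 : (0 : ℝ) ≤ M := by positivity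
  nlinarith

/-- The coefficients of the second variable. -/
theorem CR_sb (N : ℕ) (β : ℕ → ℝ) (L : ℝ) (hL : 100 ≤ L) (hβ : ∀ n, |β n| ≤ 1000000) :
    ∑ n ∈ Icc 1 (2 * N), ‖(if N < n then (β n : ℂ) else 0)‖ ^ 2 ≤ N * L ^ 6 := by
  have h1 : ∑ n ∈ Icc 1 (2 * N), ‖(if N < n then (β n : ℂ) else 0)‖ ^ 2
      ≤ ∑ n ∈ Icc 1 (2 * N), (if N < n then (1000000000000 : ℝ) else 0) := by
    apply sum_le_sum
    intro n _
    split_ifs
    · rw [Complex.norm_real, Real.norm_eq_abs]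
      have := hβ n
      have h0 := abs_nonneg (β n)
      nlinarith
    · simp
  have h2 : ∑ n ∈ Icc 1 (2 * N), (if N < n then (1000000000000 : ℝ) else 0)
      = N * 1000000000000 := by
    rw [← sum_filter]
    have : (Icc 1 (2 * N)).filter (fun m => N < m) = Ioc N (2 * N) := by
      ext m
      simp only [mem_Ioc, mem_filter, mem_Icc]
      omega
    rw [this]
    simp only [sum_const, Nat.card_Ioc, nsmul_eq_mul]
    congr 2
    omega
  have h3 : (1000000000000 : ℝ) ≤ L ^ 6 := by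
    calc (1000000000000 : ℝ) = 100 ^ 6 := by norm_num
      _ ≤ L ^ 6 := pow_le_pow_left₀ (by norm_num) hL 6
  have h4 : (0 : ℝ) ≤ N := by positivity
  nlinarith

/-- The Dirichlet polynomial is a sum over the primes of an interval. -/
theorem CR_dp (J M : ℕ) (hJ : 1 ≤ J) (θ : ℝ) :
    ∃ M1 M2 : ℕ, M2 ≤ 2 * M ∧ dp (fun m => if M < m then (sA J m : ℂ) else 0) (2 * M) θ
      = ∑ n ∈ (Ioc M1 M2).filter Nat.Prime, (1 : DirichletCharacter ℂ 1) (n : ZMod 1) * pz (-θ) n := by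
  have hz : 0 < zJ J := by
    unfold zJ
    have : (0 : ℝ) < J := by exact_mod_cast hJ
    positivity
  have hc : 1 ≤ ⌈zJ J⌉₊ := Nat.one_le_ceil_iff.mpr hz
  refine ⟨max M (⌈zJ J⌉₊ - 1), min (2 * M) (Nat.sqrt (27 * J ^ 3)), min_le_left _ _, ?_⟩
  have e1 : ∀ n : ℕ, (1 : DirichletCharacter ℂ 1) (n : ZMod 1) = 1 := by
    intro n
    have : ((n : ZMod 1)) = 1 := Subsingleton.elim _ _
    rw [this, map_one]
  have e2 : (Ioc (max M (⌈zJ J⌉₊ - 1)) (min (2 * M) (Nat.sqrt (27 * J ^ 3)))).filter Nat.Prime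
      = (Icc 1 (2 * M)).filter (fun m => M < m ∧ (m.Prime ∧ zJ J ≤ (m : ℝ) ∧ m ^ 2 ≤ 27 * J ^ 3)) := by
    ext m
    simp only [mem_filter, mem_Ioc, mem_Icc, max_lt_iff, le_min_iff, Nat.le_sqrt']
    rw [← Nat.ceil_le]
    constructor
    · rintro ⟨⟨⟨h1, h2⟩, h3, h4⟩, h5⟩
      exact ⟨⟨h5.one_lt.le, h3⟩, h1, h5, by omega, h4⟩
    · rintro ⟨⟨h1, h2⟩, h3, h4, h5, h6⟩
      exact ⟨⟨⟨h3, by omega⟩, h2, h6⟩, h4⟩
  rw [e2, sum_filter]
  unfold dp
  apply sum_congr rfl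
  intro m _
  rw [e1]
  unfold sA
  beta_reduce
  by_cases h1 : M < m
  · by_cases h2 : m.Prime ∧ zJ J ≤ (m : ℝ) ∧ m ^ 2 ≤ 27 * J ^ 3
    · rw [if_pos h1, if_pos h2, if_pos ⟨h1, h2⟩]
      simp
    · rw [if_pos h1, if_neg h2, if_neg (fun h => h2 h.2)]
      simp
  · rw [if_neg h1, if_neg (fun h => h1 h.1)]
    simp

/-- The bound for the Dirichlet polynomial. -/
theorem CR_dpb (A C0 : ℕ) (hpw : ∀ᶠ M : ℝ in atTop, ∀ (r : ℕ)
    (χ : DirichletCharacter ℂ r), 1 ≤ r → (r : ℝ) ≤ (Real.log M) ^ 1 → χ.IsPrimitive → ∀ τ : ℝ,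
    |τ| ≤ M ^ (9 : ℝ) → (2 ≤ r ∨ (Real.log M) ^ C0 ≤ |τ|) → ∀ M1 M2 : ℕ, (M2 : ℝ) ≤ M →
    ‖∑ n ∈ (Ioc M1 M2).filter Nat.Prime, χ (n : ZMod r) * pz (-τ) n‖
      ≤ M / (Real.log M) ^ (A + 5)) :
    ∀ᶠ J : ℕ in atTop, ∀ M N : ℕ, ⌊(J : ℝ) ^ (3 / 8 : ℝ)⌋₊ ≤ M → J ≤ N → M * N ≤ 27 * J ^ 3 →
      ∀ θ : ℝ, (Real.log J) ^ (C0 + 1) ≤ |θ| → |θ| ≤ (J : ℝ) ^ 3 →
      ‖dp (fun m => if M < m then (sA J m : ℂ) else 0) (2 * M) θ‖ ≤ M / (Real.log J) ^ (A + 4) := by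
  have hlog : Tendsto (fun J : ℕ => Real.log J) atTop atTop :=
    Real.tendsto_log_atTop.comp tendsto_natCast_atTop_atTop
  have hpow : Tendsto (fun J : ℕ => (J : ℝ) ^ (3 / 8 : ℝ)) atTop atTop :=
    (tendsto_rpow_atTop (by norm_num)).comp tendsto_natCast_atTop_atTop
  obtain ⟨M0, hM0⟩ := eventually_atTop.mp hpw
  filter_upwards [hpow.eventually_ge_atTop M0, hlog.eventually_ge_atTop 100,
    hlog.eventually_ge_atTop (3 ^ C0), hlog.eventually_ge_atTop (2 * 3 ^ (A + 5)),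
    eventually_ge_atTop 1] with J h1 h2 h3 h4 hJ M N hM hN hMN θ hθ1 hθ2
  have hJr : (1 : ℝ) ≤ J := by exact_mod_cast hJ
  have hJ0 : (0 : ℝ) < J := by linarith
  have hU1 : 1 ≤ ⌊(J : ℝ) ^ (3 / 8 : ℝ)⌋₊ := by
    rw [Nat.one_le_floor_iff]
    exact Real.one_le_rpow hJr (by norm_num)
  have h2M : (J : ℝ) ^ (3 / 8 : ℝ) ≤ 2 * (M : ℝ) := by
    have a1 := Nat.lt_floor_add_one ((J : ℝ) ^ (3 / 8 : ℝ))
    have a2 : ((⌊(J : ℝ) ^ (3 / 8 : ℝ)⌋₊ : ℕ) : ℝ) ≤ M := by exact_mod_cast hM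
    have a3 : (1 : ℝ) ≤ ((⌊(J : ℝ) ^ (3 / 8 : ℝ)⌋₊ : ℕ) : ℝ) := by exact_mod_cast hU1
    linarith
  have hMle : (M : ℝ) ≤ 27 * (J : ℝ) ^ 2 := by
    have a1 : M * J ≤ 27 * J ^ 2 * J := by
      calc M * J ≤ M * N := Nat.mul_le_mul_left _ hN
        _ ≤ 27 * J ^ 3 := hMN
        _ = 27 * J ^ 2 * J := by ring
    have a2 : M ≤ 27 * J ^ 2 := Nat.le_of_mul_le_mul_right a1 hJ
    exact_mod_cast a2
  have hMpos : (0 : ℝ) < 2 * M := lt_of_lt_of_le (Real.rpow_pos_of_pos hJ0 _) h2M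
  have hlo : Real.log J / 3 ≤ Real.log (2 * M) := by
    have := Real.log_le_log (Real.rpow_pos_of_pos hJ0 _) h2M
    rw [Real.log_rpow hJ0] at this
    linarith
  have hhi : Real.log (2 * M) ≤ 3 * Real.log J := by
    have a1 : Real.log (2 * M) ≤ Real.log (54 * (J : ℝ) ^ 2) :=
      Real.log_le_log hMpos (by linarith)
    rw [Real.log_mul (x := 54) (by norm_num) (by positivity), Real.log_pow] at a1
    have a2 := Real.log_le_sub_one_of_pos (show (0 : ℝ) < 54 by norm_num)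
    push_cast at a1
    linarith
  have hl0 : 0 < Real.log (2 * M) := by linarith
  obtain ⟨M1, M2, hM2, hdp⟩ := CR_dp J M hJ θ
  rw [hdp]
  have b1 : ((1 : ℕ) : ℝ) ≤ (Real.log (2 * M)) ^ 1 := by
    rw [pow_one]
    push_cast
    linarith
  have b2 : |θ| ≤ (2 * (M : ℝ)) ^ (9 : ℝ) := by
    have a1 : (J : ℝ) ^ 3 ≤ ((J : ℝ) ^ (3 / 8 : ℝ)) ^ (9 : ℝ) := by
      rw [← Real.rpow_mul hJ0.le, ← Real.rpow_natCast]
      exact Real.rpow_le_rpow_of_exponent_le hJr (by norm_num)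
    have a2 : ((J : ℝ) ^ (3 / 8 : ℝ)) ^ (9 : ℝ) ≤ (2 * (M : ℝ)) ^ (9 : ℝ) :=
      Real.rpow_le_rpow (Real.rpow_nonneg hJ0.le _) h2M (by norm_num)
    linarith
  have b3 : (Real.log (2 * M)) ^ C0 ≤ |θ| := by
    calc (Real.log (2 * M)) ^ C0 ≤ (3 * Real.log J) ^ C0 := pow_le_pow_left₀ hl0.le hhi _
      _ = 3 ^ C0 * (Real.log J) ^ C0 := by rw [mul_pow]
      _ ≤ Real.log J * (Real.log J) ^ C0 := by gcongr
      _ = (Real.log J) ^ (C0 + 1) := by ring
      _ ≤ |θ| := hθ1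
  have b4 := hM0 (2 * M) (le_trans h1 h2M) 1 1 le_rfl b1
    DirichletCharacter.isPrimitive_one_level_one θ b2 (Or.inr b3) M1 M2 (by exact_mod_cast hM2)
  refine le_trans b4 ?_
  have hLp : (0 : ℝ) < Real.log J := by linarith
  rw [div_le_div_iff₀ (by positivity) (by positivity)]
  calc 2 * (M : ℝ) * (Real.log J) ^ (A + 4)
      = M * (2 * (Real.log J) ^ (A + 4)) := by ring
    _ ≤ M * (Real.log J / 3) ^ (A + 5) := by
        apply mul_le_mul_of_nonneg_left _ (by positivity)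
        rw [div_pow, le_div_iff₀ (by positivity)]
        calc 2 * (Real.log J) ^ (A + 4) * 3 ^ (A + 5)
            = (2 * 3 ^ (A + 5)) * (Real.log J) ^ (A + 4) := by ring
          _ ≤ Real.log J * (Real.log J) ^ (A + 4) := by gcongr
          _ = (Real.log J) ^ (A + 5) := by ring
    _ ≤ M * (Real.log (2 * M)) ^ (A + 5) := by gcongr

theorem p_CR : S_CR := by
  intro hcpm hdya hdec hspc hpwp A
  obtain ⟨C0, hC0⟩ := hpwp (A + 5 + 5) 1 9 (by norm_num)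
  obtain ⟨E0, hE0⟩ := hcpm (A + 5) (C0 + 1)
  refine ⟨max E0 1, fun E hE => ?_⟩
  have g1 := CR_dpb (A + 5) C0 hC0
  have g2 := hE0 E (le_trans (le_max_left _ _) hE)
  have hE1 : 1 ≤ E := le_trans (le_max_right _ _) hE
  have hlog : Tendsto (fun J : ℕ => Real.log J) atTop atTop :=
    Real.tendsto_log_atTop.comp tendsto_natCast_atTop_atTop
  filter_upwards [g1, g2, hdya, hlog.eventually_ge_atTop 100, eventually_ge_atTop 108] with
    J h1 h2 h3 hL hJ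
  obtain ⟨β, hβ, hRR⟩ := hdec J (by omega)
  obtain ⟨-, s1, s2⟩ := hspc J (by omega)
  have hJ1 : 1 ≤ J := by omega
  have hJr : (1 : ℝ) ≤ J := by exact_mod_cast hJ1
  have hJ0 : (0 : ℝ) < J := by linarith
  have hLE : 10 ≤ (Real.log J) ^ E := by
    calc (10 : ℝ) ≤ Real.log J := by linarith
      _ = (Real.log J) ^ 1 := (pow_one _).symm
      _ ≤ (Real.log J) ^ E := pow_le_pow_right₀ (by linarith) hE1
  have hsup : ∀ j ∈ Ioc J (2 * J), ∀ n : ℕ, 1 ≤ n →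
      2 * J * wJ J j n - (Real.log J) ^ E * wL ((Real.log J) ^ E) j n ≠ 0 →
      J ^ 3 < 2 * n ∧ n < 27 * J ^ 3 := by
    intro j hj n hn hne
    by_cases hw : wJ J j n = 0
    · apply s2 j hj n _ hn hLE
      intro h0
      apply hne
      rw [hw, h0]
      ring
    · obtain ⟨a1, a2⟩ := s1 j hj n hn hw
      rw [mem_Ioc] at hj
      have a3 : J ^ 3 ≤ j ^ 3 := Nat.pow_le_pow_left hj.1.le 3
      have a4 : (j + 1) ^ 3 ≤ (3 * J) ^ 3 := Nat.pow_le_pow_left (by omega) 3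
      have a5 : (3 * J) ^ 3 = 27 * J ^ 3 := by ring
      omega
  have hconv : ∀ j ∈ Ioc J (2 * J),
      (2 * (J : ℝ) * ∑ n ∈ Icc 1 (27 * J ^ 3), FR J n * wJ J j n
        - (Real.log J) ^ E * ∑ n ∈ Icc 1 (27 * J ^ 3), FR J n * wL ((Real.log J) ^ E) j n) ^ 2
      = ‖∑ m ∈ Icc 1 (27 * J ^ 3), ∑ n ∈ Icc 1 (27 * J ^ 3), (sA J m : ℂ) * (β n : ℂ) *
          ((2 * J * wJ J j (m * n) - (Real.log J) ^ E * wL ((Real.log J) ^ E) j (m * n) : ℝ) : ℂ)‖
            ^ 2 := by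
    intro j hj
    have c1 : 2 * (J : ℝ) * ∑ n ∈ Icc 1 (27 * J ^ 3), FR J n * wJ J j n
        - (Real.log J) ^ E * ∑ n ∈ Icc 1 (27 * J ^ 3), FR J n * wL ((Real.log J) ^ E) j n
        = ∑ n ∈ Icc 1 (27 * J ^ 3), RR (zJ J) n *
          (2 * J * wJ J j n - (Real.log J) ^ E * wL ((Real.log J) ^ E) j n) := by
      rw [mul_sum, mul_sum, ← sum_sub_distrib]
      apply sum_congr rfl
      intro n _
      unfold FR
      ring
    have c2 := CR_conv (27 * J ^ 3) (RR (zJ J)) (sA J) β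
      (fun n => 2 * J * wJ J j n - (Real.log J) ^ E * wL ((Real.log J) ^ E) j n) hRR
      (by
        intro n hn
        by_contra hne
        have := hsup j hj n (by omega) hne
        omega)
    rw [c1, c2, ← sq_abs, ← Real.norm_eq_abs, ← Complex.norm_real]
    push_cast
    rfl
  rw [sum_congr rfl hconv]
  have hU1 : 1 ≤ ⌊(J : ℝ) ^ (3 / 8 : ℝ)⌋₊ := by
    rw [Nat.one_le_floor_iff]
    exact Real.one_le_rpow hJr (by norm_num)
  have hLp : (0 : ℝ) < Real.log J := by linarith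
  have key := h3 ⌊(J : ℝ) ^ (3 / 8 : ℝ)⌋₊ J
    (fun j m n => (sA J m : ℂ) * (β n : ℂ) *
      ((2 * J * wJ J j (m * n) - (Real.log J) ^ E * wL ((Real.log J) ^ E) j (m * n) : ℝ) : ℂ))
    ((J : ℝ) ^ 7 / (Real.log J) ^ (A + 5)) hU1 hJ1 (by positivity)
    (by
      intro j hj m n hm hn hne
      have n1 : sA J m ≠ 0 := by
        intro h0
        apply hne
        simp [h0]
      have n2 : 2 * J * wJ J j ((m * n : ℕ)) - (Real.log J) ^ E * wL ((Real.log J) ^ E) j (m * n)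
          ≠ 0 := by
        intro h0
        apply hne
        rw [h0]
        simp
      obtain ⟨d1, d2⟩ := hsup j hj (m * n) (Nat.mul_pos hm hn) n2
      have n3 : m.Prime ∧ zJ J ≤ (m : ℝ) ∧ m ^ 2 ≤ 27 * J ^ 3 := by
        by_contra hcon
        apply n1
        unfold sA
        rw [if_neg hcon]
      obtain ⟨_, n4, n5⟩ := n3
      refine ⟨?_, ?_, d1, d2⟩
      · have e1 : (J : ℝ) ^ (3 / 8 : ℝ) < (3 * (J : ℝ)) ^ (3 / 8 : ℝ) :=
          Real.rpow_lt_rpow hJ0.le (by linarith) (by norm_num)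
        have e2 := Nat.floor_le (Real.rpow_nonneg hJ0.le (3 / 8 : ℝ))
        have e3 : ((⌊(J : ℝ) ^ (3 / 8 : ℝ)⌋₊ : ℕ) : ℝ) < (m : ℝ) := by
          unfold zJ at n4
          linarith
        exact_mod_cast e3
      · by_contra hcon
        push Not at hcon
        have e1 : J ^ 2 * J < 2 * m * J := by
          calc J ^ 2 * J = J ^ 3 := by ring
            _ < 2 * (m * n) := d1
            _ ≤ 2 * (m * J) := by gcongr
            _ = 2 * m * J := by ring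
        have e2 : J ^ 2 < 2 * m := Nat.lt_of_mul_lt_mul_right e1
        have e3 : (J ^ 2) ^ 2 < (2 * m) ^ 2 := Nat.pow_lt_pow_left e2 (by norm_num)
        have e4 : J * J ^ 3 < 108 * J ^ 3 := by
          calc J * J ^ 3 = (J ^ 2) ^ 2 := by ring
            _ < (2 * m) ^ 2 := e3
            _ = 4 * m ^ 2 := by ring
            _ ≤ 4 * (27 * J ^ 3) := by gcongr
            _ = 108 * J ^ 3 := by ring
        have e5 : J < 108 := Nat.lt_of_mul_lt_mul_right e4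
        omega)
    (by
      intro M N hM hN _ hMN
      have k1 := h2 M N (fun m => if M < m then (sA J m : ℂ) else 0)
        (fun n => if N < n then (β n : ℂ) else 0) (by omega) hMN
        (CR_sa J M (Real.log J) (by linarith)) (CR_sb N β (Real.log J) hL hβ)
        (h1 M N hM hN hMN)
      refine le_trans (le_of_eq ?_) k1
      apply sum_congr rfl
      intro j _
      congr 2
      exact CR_blk M N (sA J) β (fun m n => 2 * J * wJ J j (m * n)
        - (Real.log J) ^ E * wL ((Real.log J) ^ E) j (m * n)))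
  refine le_trans key (le_of_eq ?_)
  rw [pow_add (Real.log J) A 5]
  field_simp

end Pool.Agent.CH.D
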