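import Pool.Agent.Lib.MP_d610d0_nt.CH.D.Stm

set_option autoImplicit false

/-!
Piece LL.
-/

namespace Pool.Agent.CH.D

open Finset Filter
open ArithmeticFunction (vonMangoldt)
open Pool.Agent.MP89da58 (tri primChars)
open Pool.Agent.BVall (boxL)
open Pool.Agent.CH.V (pz ex)
open Pool.Agent.CH.P (R_PW R_PNT)

/-- Powers of `log J` against small powers of `J`. -/
theorem LL_log (k : ℕ) : ∀ᶠ J : ℕ in atTop, (Real.log J) ^ k ≤ (J : ℝ) ^ (1 / 5000 : ℝ) := by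
  have h := isLittleO_log_rpow_rpow_atTop (s := (1 / 5000 : ℝ)) (k : ℝ) (by norm_num)
  have h2 := h.bound (show (0 : ℝ) < 1 by norm_num)
  have h3 := tendsto_natCast_atTop_atTop (R := ℝ) |>.eventually h2
  filter_upwards [h3, eventually_ge_atTop 1] with J hJ h1
  have hl : 0 ≤ Real.log J := Real.log_natCast_nonneg J
  rw [one_mul, Real.rpow_natCast, Real.norm_of_nonneg (pow_nonneg hl _),
    Real.norm_of_nonneg (Real.rpow_nonneg (Nat.cast_nonneg _) _)] at hJ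
  exact hJ

theorem LL_big (c : ℝ) : ∀ᶠ J : ℕ in atTop, c ≤ Real.log J :=
  (Real.tendsto_log_atTop.comp (tendsto_natCast_atTop_atTop (R := ℝ))).eventually_ge_atTop c

theorem LL_big2 (c s : ℝ) (hs : 0 < s) : ∀ᶠ J : ℕ in atTop, c ≤ (J : ℝ) ^ s :=
  ((tendsto_rpow_atTop hs).comp
    (tendsto_natCast_atTop_atTop (R := ℝ))).eventually_ge_atTop c

/-- The weight. -/
noncomputable def LL_w (J j : ℕ) {r : ℕ} (χ : DirichletCharacter ℂ r) (k : ℕ) : ℂ :=
  χ (k : ZMod r) * (wJ J j k : ℂ)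

theorem LL_sup (X W : ℕ) (κ : ℕ → ℝ) (G : ℕ → ℂ) (K B : ℝ) (hK : 0 ≤ K)
    (h1 : ∀ m, 1 ≤ m → m ≤ W → |κ m| ≤ K) (h2 : ∀ m, W < m → κ m = 0)
    (h3 : ∀ m, 1 ≤ m → ‖G m‖ ≤ B) :
    ‖∑ m ∈ Icc 1 X, (κ m : ℂ) * G m‖ ≤ W * (K * B) := by
  have hr : ∑ m ∈ Icc 1 X, (κ m : ℂ) * G m
      = ∑ m ∈ (Icc 1 X).filter (fun m => m ≤ W), (κ m : ℂ) * G m := by
    rw [Finset.sum_filter]
    refine Finset.sum_congr rfl fun m _ => ?_
    split_ifs with h
    · rfl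
    · rw [h2 m (not_le.1 h)]; simp
  rw [hr]
  refine (norm_sum_le _ _).trans ?_
  have hs : (Icc 1 X).filter (fun m => m ≤ W) ⊆ Icc 1 W := by
    intro m hm
    rw [Finset.mem_filter, Finset.mem_Icc] at hm
    exact Finset.mem_Icc.2 ⟨hm.1.1, hm.2⟩
  refine (Finset.sum_le_sum_of_subset_of_nonneg hs fun _ _ _ => norm_nonneg _).trans ?_
  calc ∑ m ∈ Icc 1 W, ‖(κ m : ℂ) * G m‖ ≤ ∑ m ∈ Icc 1 W, K * B := by
        refine Finset.sum_le_sum fun m hm => ?_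
        rw [Finset.mem_Icc] at hm
        rw [norm_mul, Complex.norm_real, Real.norm_eq_abs]
        exact mul_le_mul (h1 m hm.1 hm.2) (h3 m hm.1) (norm_nonneg _) hK
    _ = W * (K * B) := by
        rw [Finset.sum_const, Nat.card_Icc, nsmul_eq_mul]
        simp

/-- The type I sums. -/
theorem LL_typeI (htI : R_tI) (X U V J j r : ℕ) (χ : DirichletCharacter ℂ r) (c d : ℕ → ℝ)
    (K : ℝ) (hJ : 1 ≤ J) (hj : j ∈ Ioc J (2 * J)) (hr : 2 ≤ r) (hχ : χ ≠ 1) (hU : 1 ≤ U)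
    (hK : Real.log (X + 1) ≤ K) (hK2 : Real.log ((U * V : ℕ) : ℝ) ≤ K)
    (hc1 : ∀ n, |c n| ≤ 1) (hc0 : ∀ n, V < n → c n = 0)
    (hd1 : ∀ n, 1 ≤ n → |d n| ≤ Real.log n) (hd0 : ∀ n, U * V < n → d n = 0) :
    ‖∑ m ∈ Icc 1 X, ∑ n ∈ Icc 1 X, (c m : ℂ) * (Real.log n : ℂ) * LL_w J j χ (m * n)
      - ∑ m ∈ Icc 1 X, ∑ n ∈ Icc 1 X, (d m : ℂ) * LL_w J j χ (m * n)‖
      ≤ 7 * r * ((U * V : ℕ) : ℝ) * K := by
  have hK0 : 0 ≤ K := le_trans (Real.log_nonneg (by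
    have : (0 : ℝ) ≤ X := Nat.cast_nonneg _
    linarith)) hK
  have hr0 : (0 : ℝ) ≤ r := Nat.cast_nonneg _
  have e1 : ∑ m ∈ Icc 1 X, ∑ n ∈ Icc 1 X, (c m : ℂ) * (Real.log n : ℂ) * LL_w J j χ (m * n)
      = ∑ m ∈ Icc 1 X, (c m : ℂ) * (χ (m : ZMod r) *
        ∑ n ∈ Icc 1 X, χ (n : ZMod r) * (Real.log n : ℂ) * (wJ J j (m * n) : ℂ)) := by
    refine Finset.sum_congr rfl fun m _ => ?_
    rw [Finset.mul_sum, Finset.mul_sum]
    refine Finset.sum_congr rfl fun n _ => ?_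
    unfold LL_w
    rw [Nat.cast_mul, map_mul]
    ring
  have e2 : ∑ m ∈ Icc 1 X, ∑ n ∈ Icc 1 X, (d m : ℂ) * LL_w J j χ (m * n)
      = ∑ m ∈ Icc 1 X, (d m : ℂ) * (χ (m : ZMod r) *
        ∑ n ∈ Icc 1 X, χ (n : ZMod r) * (wJ J j (m * n) : ℂ)) := by
    refine Finset.sum_congr rfl fun m _ => ?_
    rw [Finset.mul_sum, Finset.mul_sum]
    refine Finset.sum_congr rfl fun n _ => ?_
    unfold LL_w
    rw [Nat.cast_mul, map_mul]
    ring
  rw [e1, e2]
  have b1 := LL_sup X V c (fun m => χ (m : ZMod r) *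
        ∑ n ∈ Icc 1 X, χ (n : ZMod r) * (Real.log n : ℂ) * (wJ J j (m * n) : ℂ)) 1 (4 * r * K)
    zero_le_one (fun m _ _ => hc1 m) hc0 (fun m hm => by
      show ‖χ (m : ZMod r) *
        ∑ n ∈ Icc 1 X, χ (n : ZMod r) * (Real.log n : ℂ) * (wJ J j (m * n) : ℂ)‖ ≤ _
      rw [norm_mul]
      have h1 := (htI J j m X r χ hJ hj hm hr hχ).2
      have h2 : 4 * (r : ℝ) * Real.log (X + 1) ≤ 4 * r * K :=
        mul_le_mul_of_nonneg_left hK (by positivity)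
      have h3 := χ.norm_le_one (m : ZMod r)
      calc _ ≤ 1 * (4 * r * K) := mul_le_mul h3 (h1.trans h2) (norm_nonneg _) zero_le_one
        _ = _ := one_mul _)
  have b2 := LL_sup X (U * V) d (fun m => χ (m : ZMod r) *
        ∑ n ∈ Icc 1 X, χ (n : ZMod r) * (wJ J j (m * n) : ℂ)) K (3 * r)
    hK0 (fun m hm1 hm2 => (hd1 m hm1).trans (le_trans (Real.log_le_log
      (by exact_mod_cast hm1) (by exact_mod_cast hm2)) hK2)) hd0 (fun m hm => by
      show ‖χ (m : ZMod r) *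
        ∑ n ∈ Icc 1 X, χ (n : ZMod r) * (wJ J j (m * n) : ℂ)‖ ≤ _
      rw [norm_mul]
      have h1 := (htI J j m X r χ hJ hj hm hr hχ).1
      have h3 := χ.norm_le_one (m : ZMod r)
      calc _ ≤ 1 * (3 * (r : ℝ)) := mul_le_mul h3 h1 (norm_nonneg _) zero_le_one
        _ = _ := one_mul _)
  have hVU : (V : ℝ) ≤ ((U * V : ℕ) : ℝ) := by
    exact_mod_cast Nat.le_mul_of_pos_left V (by omega)
  refine (norm_sub_le _ _).trans ((add_le_add b1 b2).trans ?_)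
  have h4 : (V : ℝ) * (1 * (4 * r * K)) ≤ ((U * V : ℕ) : ℝ) * (4 * r * K) := by
    rw [one_mul]
    exact mul_le_mul_of_nonneg_right hVU (by positivity)
  calc (V : ℝ) * (1 * (4 * r * K)) + ((U * V : ℕ) : ℝ) * (K * (3 * r))
      ≤ ((U * V : ℕ) : ℝ) * (4 * r * K) + ((U * V : ℕ) : ℝ) * (K * (3 * r)) := by linarith
    _ = 7 * r * ((U * V : ℕ) : ℝ) * K := by ring

/-- The bilinear terms. -/
noncomputable def LL_f (J U R : ℕ) (e : ℕ → ℝ) (th : (Σ q, DirichletCharacter ℂ q) → ℂ)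
    (j m n : ℕ) : ℂ :=
  ∑ p ∈ primChars R, th p * (((if U < m then vonMangoldt m else 0 : ℝ) : ℂ) * (e n : ℂ) *
    LL_w J j p.2 (m * n))

/-- One block. -/
theorem LL_block (A J M N U R : ℕ) (e : ℕ → ℝ) (th : (Σ q, DirichletCharacter ℂ q) → ℂ)
    (he : ∀ n, |e n| ≤ n.divisors.card)
    (hc : ∀ (a b : ℕ → ℂ),
      ∑ m ∈ Icc 1 (2 * M), ‖a m‖ ^ 2 ≤ M * (Real.log J) ^ 6 →
      ∑ n ∈ Icc 1 (2 * N), ‖b n‖ ^ 2 ≤ N * (Real.log J) ^ 6 →
      ∑ j ∈ Ioc J (2 * J), ‖∑ p ∈ primChars R, th p * ∑ m ∈ Icc 1 (2 * M), ∑ n ∈ Icc 1 (2 * N),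
        a m * b n * p.2 ((m * n : ℕ) : ZMod p.1) * (wJ J j (m * n) : ℂ)‖ ^ 2
        ≤ (R : ℝ) ^ 2 * (J : ℝ) ^ 5 / (Real.log J) ^ (A + 6))
    (hUM : U ≤ M) (hL : 10 ≤ Real.log J)
    (hM3 : Real.log (2 * M) ≤ 4 * Real.log J) (hN3 : Real.log (2 * N) ≤ 4 * Real.log J) :
    ∑ j ∈ Ioc J (2 * J), ‖∑ m ∈ Ioc M (2 * M), ∑ n ∈ Ioc N (2 * N), LL_f J U R e th j m n‖ ^ 2
      ≤ (R : ℝ) ^ 2 * (J : ℝ) ^ 5 / (Real.log J) ^ (A + 6) := by
  set a' : ℕ → ℂ := fun m => if M < m then (vonMangoldt m : ℂ) else 0 with ha'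
  set b' : ℕ → ℂ := fun n => if N < n then (e n : ℂ) else 0 with hb'
  have hIM : (Icc 1 (2 * M)).filter (fun m => M < m) = Ioc M (2 * M) := by
    ext m; simp only [Finset.mem_filter, Finset.mem_Icc, Finset.mem_Ioc]; omega
  have hIN : (Icc 1 (2 * N)).filter (fun m => N < m) = Ioc N (2 * N) := by
    ext m; simp only [Finset.mem_filter, Finset.mem_Icc, Finset.mem_Ioc]; omega
  have hL0 : 0 < Real.log J := by linarith
  have h := hc a' b' ?_ ?_
  · refine le_trans (le_of_eq ?_) h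
    refine Finset.sum_congr rfl fun j _ => ?_
    congr 2
    have h1 : ∀ p ∈ primChars R, th p * ∑ m ∈ Icc 1 (2 * M), ∑ n ∈ Icc 1 (2 * N),
        a' m * b' n * p.2 ((m * n : ℕ) : ZMod p.1) * (wJ J j (m * n) : ℂ) =
        ∑ m ∈ Ioc M (2 * M), ∑ n ∈ Ioc N (2 * N), th p *
          (((if U < m then vonMangoldt m else 0 : ℝ) : ℂ) * (e n : ℂ) *
            LL_w J j p.2 (m * n)) := by
      intro p _
      rw [← hIM, Finset.sum_filter, Finset.mul_sum]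
      refine Finset.sum_congr rfl fun m hm => ?_
      by_cases hMm : M < m
      · rw [if_pos hMm, if_pos (lt_of_le_of_lt hUM hMm), ← hIN, Finset.sum_filter, Finset.mul_sum]
        refine Finset.sum_congr rfl fun n hn => ?_
        simp only [ha', hb', if_pos hMm, LL_w]
        by_cases hNn : N < n
        · rw [if_pos hNn, if_pos hNn]
          ring
        · rw [if_neg hNn, if_neg hNn]; simp
      · rw [if_neg hMm]
        simp only [ha', if_neg hMm]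
        simp
    rw [Finset.sum_congr rfl h1]
    symm
    rw [Finset.sum_comm]
    refine Finset.sum_congr rfl fun m _ => ?_
    rw [Finset.sum_comm]
    refine Finset.sum_congr rfl fun n _ => ?_
    rfl
  · calc ∑ m ∈ Icc 1 (2 * M), ‖a' m‖ ^ 2 = ∑ m ∈ Ioc M (2 * M), (vonMangoldt m) ^ 2 := by
          rw [← hIM, Finset.sum_filter]
          refine Finset.sum_congr rfl fun m _ => ?_
          simp only [ha']
          split_ifs
          · rw [Complex.norm_real, Real.norm_of_nonneg ArithmeticFunction.vonMangoldt_nonneg]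
          · simp
      _ ≤ ∑ m ∈ Ioc M (2 * M), (4 * Real.log J) ^ 2 := by
          refine Finset.sum_le_sum fun m hm => ?_
          rw [Finset.mem_Ioc] at hm
          refine pow_le_pow_left₀ ArithmeticFunction.vonMangoldt_nonneg ?_ 2
          refine (ArithmeticFunction.vonMangoldt_le_log).trans (le_trans ?_ hM3)
          apply Real.log_le_log (by exact_mod_cast (by omega : 0 < m))
          exact_mod_cast hm.2
      _ = M * (4 * Real.log J) ^ 2 := by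
          rw [Finset.sum_const, Nat.card_Ioc, nsmul_eq_mul]
          congr 2
          omega
      _ ≤ M * (Real.log J) ^ 6 := by
          apply mul_le_mul_of_nonneg_left _ (Nat.cast_nonneg _)
          have h1 : (10 : ℝ) ^ 4 ≤ (Real.log J) ^ 4 := pow_le_pow_left₀ (by norm_num) hL _
          have h2 : 0 ≤ (Real.log J) ^ 2 := by positivity
          nlinarith
  · calc ∑ n ∈ Icc 1 (2 * N), ‖b' n‖ ^ 2 ≤ ∑ n ∈ Icc 1 (2 * N), ((n.divisors.card : ℝ)) ^ 2 := by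
          refine Finset.sum_le_sum fun n _ => ?_
          simp only [hb']
          split_ifs
          · rw [Complex.norm_real, Real.norm_eq_abs]
            exact pow_le_pow_left₀ (abs_nonneg _) (he n) 2
          · simp only [norm_zero]
            exact le_trans (by norm_num) (sq_nonneg _)
      _ ≤ ((2 * N : ℕ) : ℝ) * (1 + Real.log ((2 * N : ℕ) : ℝ)) ^ 3 := Pool.Agent.MP89da58.sum_tau_sq _
      _ ≤ ((2 * N : ℕ) : ℝ) * (5 * Real.log J) ^ 3 := by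
          apply mul_le_mul_of_nonneg_left _ (Nat.cast_nonneg _)
          have h0 : 0 ≤ Real.log ((2 * N : ℕ) : ℝ) := Real.log_natCast_nonneg _
          apply pow_le_pow_left₀ (by linarith)
          push_cast
          linarith
      _ ≤ N * (Real.log J) ^ 6 := by
          push_cast
          have : (10 : ℝ) ^ 3 ≤ (Real.log J) ^ 3 := pow_le_pow_left₀ (by norm_num) hL _
          have h2 : 250 * (Real.log J) ^ 3 ≤ (Real.log J) ^ 6 := by
            have h3 : 0 ≤ (Real.log J) ^ 3 := by positivity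
            nlinarith
          have h4 : (0 : ℝ) ≤ N := Nat.cast_nonneg _
          calc 2 * (N : ℝ) * (5 * Real.log J) ^ 3 = N * (250 * (Real.log J) ^ 3) := by ring
            _ ≤ N * (Real.log J) ^ 6 := mul_le_mul_of_nonneg_left h2 h4

/-- The window. -/
theorem LL_supp (hspc : R_spc) (J j n : ℕ) (hJ : 2 ≤ J) (hj : j ∈ Ioc J (2 * J))
    (hn : 1 ≤ n) (h : wJ J j n ≠ 0) : J ^ 3 < n ∧ n < 27 * J ^ 3 := by
  obtain ⟨-, h1, -⟩ := hspc J (by omega)
  obtain ⟨h3, h4⟩ := h1 j hj n hn h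
  rw [Finset.mem_Ioc] at hj
  have h5 : J ^ 3 ≤ j ^ 3 := Nat.pow_le_pow_left hj.1.le 3
  have h6 : (j + 1) ^ 3 ≤ (3 * J) ^ 3 := Nat.pow_le_pow_left (by omega) 3
  have h7 : (3 * J) ^ 3 = 27 * J ^ 3 := by ring
  omega

theorem LL_ne_one {R : ℕ} {p : Σ q, DirichletCharacter ℂ q} (hp : p ∈ primChars R) :
    2 ≤ p.1 ∧ p.1 ≤ R ∧ p.2 ≠ 1 := by
  classical
  rw [primChars, mem_sigma, mem_filter, mem_Icc] at hp
  refine ⟨hp.1.1, hp.1.2, ?_⟩
  have h2 := hp.1.1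
  have h3 := hp.2.2
  have : NeZero p.1 := ⟨by omega⟩
  intro h
  rw [h, DirichletCharacter.isPrimitive_def, DirichletCharacter.conductor_one] at h3
  omega

/-- One window. -/
theorem LL_window (hspc : R_spc) (htI : R_tI) (J j U V R : ℕ) (c d e : ℕ → ℝ)
    (th : (Σ q, DirichletCharacter ℂ q) → ℂ) (hth : ∀ p, ‖th p‖ ≤ 1) (x L : ℝ)
    (hJ54 : 54 ≤ J) (hj : j ∈ Ioc J (2 * J)) (hUJ : U ≤ J) (hU1 : 1 ≤ U)
    (hUVx : ((U * V : ℕ) : ℝ) ≤ x ^ 2) (hL0 : 0 < L)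
    (hlX : Real.log (((27 * J ^ 3 : ℕ) : ℝ) + 1) ≤ 4 * L)
    (hlUV : Real.log ((U * V : ℕ) : ℝ) ≤ 4 * L)
    (hc1 : ∀ n, |c n| ≤ 1) (hc0 : ∀ n, V < n → c n = 0)
    (hd1 : ∀ n, 1 ≤ n → |d n| ≤ Real.log n) (hd0 : ∀ n, U * V < n → d n = 0)
    (hid : ∀ w : ℕ → ℂ, (∀ n, n ≤ U → w n = 0) → (∀ n, 27 * J ^ 3 < n → w n = 0) →
      ∑ n ∈ Icc 1 (27 * J ^ 3), (vonMangoldt n : ℂ) * w n
      = ∑ m ∈ Icc 1 (27 * J ^ 3), ∑ n ∈ Icc 1 (27 * J ^ 3),
          (c m : ℂ) * (Real.log (n : ℕ) : ℂ) * w (m * n)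
        - ∑ m ∈ Icc 1 (27 * J ^ 3), ∑ n ∈ Icc 1 (27 * J ^ 3), (d m : ℂ) * w (m * n)
        + ∑ m ∈ Icc 1 (27 * J ^ 3), ∑ n ∈ Icc 1 (27 * J ^ 3),
          ((if U < m then vonMangoldt m else 0 : ℝ) : ℂ) * (e n : ℂ) * w (m * n)) :
    ‖∑ p ∈ primChars R, th p * Sf (FL J) J j p.2‖ ^ 2 ≤
      2 * (28 * (R : ℝ) ^ 3 * x ^ 2 * L) ^ 2 +
      2 * ‖∑ m ∈ Icc 1 (27 * J ^ 3), ∑ n ∈ Icc 1 (27 * J ^ 3), LL_f J U R e th j m n‖ ^ 2 := by
  have hx20 : 0 ≤ x ^ 2 := by positivity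
  have key : ∀ p ∈ primChars R, ∃ T : ℂ, ‖T‖ ≤ 28 * R * x ^ 2 * L ∧
      Sf (FL J) J j p.2 = T + ∑ m ∈ Icc 1 (27 * J ^ 3), ∑ n ∈ Icc 1 (27 * J ^ 3),
          ((if U < m then vonMangoldt m else 0 : ℝ) : ℂ) * (e n : ℂ) *
            LL_w J j p.2 (m * n) := by
    intro p hp
    obtain ⟨hp2, hpR, hp1⟩ := LL_ne_one hp
    have h1 := hid (fun k => LL_w J j p.2 k) ?_ ?_
    · have h2 : Sf (FL J) J j p.2
          = ∑ n ∈ Icc 1 (27 * J ^ 3), (vonMangoldt n : ℂ) * LL_w J j p.2 n := by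
        unfold Sf
        refine Finset.sum_congr rfl fun n _ => ?_
        rw [FL, LL_w]
        ring
      rw [h1] at h2
      have h3 := LL_typeI htI (27 * J ^ 3) U V J j p.1 p.2 c d (4 * L) (by omega) hj hp2
        hp1 hU1 hlX hlUV hc1 hc0 hd1 hd0
      refine ⟨_, h3.trans ?_, h2⟩
      have hpR' : (p.1 : ℝ) ≤ R := by exact_mod_cast hpR
      calc 7 * (p.1 : ℝ) * ((U * V : ℕ) : ℝ) * (4 * L)
          ≤ 7 * R * x ^ 2 * (4 * L) := by
            apply mul_le_mul_of_nonneg_right _ (by positivity)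
            apply mul_le_mul _ hUVx (Nat.cast_nonneg _) (by positivity)
            exact mul_le_mul_of_nonneg_left hpR' (by norm_num)
        _ = 28 * R * x ^ 2 * L := by ring
    · intro n hn
      show LL_w J j p.2 n = 0
      by_cases hn0 : n = 0
      · unfold LL_w
        have : Fact (1 < p.1) := ⟨by omega⟩
        rw [hn0, Nat.cast_zero, MulChar.map_nonunit p.2 (by simp), zero_mul]
      · by_contra hne
        have hw : wJ J j n ≠ 0 := by
          intro h0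
          apply hne
          rw [LL_w, h0, Complex.ofReal_zero, mul_zero]
        have := (LL_supp hspc J j n (by omega) hj (by omega) hw).1
        have h3 : J * 54 ≤ J ^ 3 := by
          calc J * 54 ≤ J * (J * J) := Nat.mul_le_mul_left _ (by nlinarith)
            _ = J ^ 3 := by ring
        omega
    · intro n hn
      show LL_w J j p.2 n = 0
      by_contra hne
      have hw : wJ J j n ≠ 0 := by
        intro h0
        apply hne
        rw [LL_w, h0, Complex.ofReal_zero, mul_zero]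
      have := (LL_supp hspc J j n (by omega) hj (by omega) hw).2
      omega
  choose! T hT1 hT2 using key
  have h1 : ∑ p ∈ primChars R, th p * Sf (FL J) J j p.2 =
      ∑ p ∈ primChars R, th p * T p +
      ∑ m ∈ Icc 1 (27 * J ^ 3), ∑ n ∈ Icc 1 (27 * J ^ 3), LL_f J U R e th j m n := by
    have h2 : ∑ m ∈ Icc 1 (27 * J ^ 3), ∑ n ∈ Icc 1 (27 * J ^ 3), LL_f J U R e th j m n =
        ∑ p ∈ primChars R, th p * ∑ m ∈ Icc 1 (27 * J ^ 3), ∑ n ∈ Icc 1 (27 * J ^ 3),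
          ((if U < m then vonMangoldt m else 0 : ℝ) : ℂ) * (e n : ℂ) *
            LL_w J j p.2 (m * n) := by
      have h3 : ∀ p ∈ primChars R, th p * ∑ m ∈ Icc 1 (27 * J ^ 3), ∑ n ∈ Icc 1 (27 * J ^ 3),
          ((if U < m then vonMangoldt m else 0 : ℝ) : ℂ) * (e n : ℂ) *
            LL_w J j p.2 (m * n) = ∑ m ∈ Icc 1 (27 * J ^ 3), ∑ n ∈ Icc 1 (27 * J ^ 3), th p *
          (((if U < m then vonMangoldt m else 0 : ℝ) : ℂ) * (e n : ℂ) *
            LL_w J j p.2 (m * n)) := by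
        intro p _
        rw [Finset.mul_sum]
        refine Finset.sum_congr rfl fun m _ => ?_
        rw [Finset.mul_sum]
      rw [Finset.sum_congr rfl h3]
      symm
      rw [Finset.sum_comm]
      refine Finset.sum_congr rfl fun m _ => ?_
      rw [Finset.sum_comm]
      refine Finset.sum_congr rfl fun n _ => ?_
      rfl
    rw [h2, ← Finset.sum_add_distrib]
    refine Finset.sum_congr rfl fun p hp => ?_
    rw [hT2 p hp, mul_add]
  have h2 : ‖∑ p ∈ primChars R, th p * T p‖ ≤ 28 * (R : ℝ) ^ 3 * x ^ 2 * L := by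
    refine (norm_sum_le _ _).trans ?_
    have h3 : ∀ p ∈ primChars R, ‖th p * T p‖ ≤ 28 * R * x ^ 2 * L := by
      intro p hp
      rw [norm_mul]
      calc ‖th p‖ * ‖T p‖ ≤ 1 * (28 * R * x ^ 2 * L) :=
            mul_le_mul (hth p) (hT1 p hp) (norm_nonneg _) zero_le_one
        _ = _ := one_mul _
    refine (Finset.sum_le_card_nsmul _ _ _ h3).trans ?_
    rw [nsmul_eq_mul]
    have h4 : ((primChars R).card : ℝ) ≤ (R : ℝ) ^ 2 := by
      exact_mod_cast Pool.Agent.MP89da58.card_primChars R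
    calc ((primChars R).card : ℝ) * (28 * R * x ^ 2 * L) ≤ (R : ℝ) ^ 2 * (28 * R * x ^ 2 * L) :=
          mul_le_mul_of_nonneg_right h4 (by positivity)
      _ = _ := by ring
  rw [h1]
  set T1 := ∑ p ∈ primChars R, th p * T p with hT1d
  set T3 := ∑ m ∈ Icc 1 (27 * J ^ 3), ∑ n ∈ Icc 1 (27 * J ^ 3), LL_f J U R e th j m n with hT3d
  have h4 : ‖T1 + T3‖ ≤ ‖T1‖ + ‖T3‖ := norm_add_le _ _
  have h5 : 0 ≤ ‖T1 + T3‖ := norm_nonneg _
  have h6 : 0 ≤ ‖T1‖ := norm_nonneg _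
  have h7 : 0 ≤ ‖T3‖ := norm_nonneg _
  calc ‖T1 + T3‖ ^ 2 ≤ (‖T1‖ + ‖T3‖) ^ 2 := pow_le_pow_left₀ h5 h4 2
    _ ≤ 2 * ‖T1‖ ^ 2 + 2 * ‖T3‖ ^ 2 := by nlinarith [sq_nonneg (‖T1‖ - ‖T3‖)]
    _ ≤ 2 * (28 * (R : ℝ) ^ 3 * x ^ 2 * L) ^ 2 + 2 * ‖T3‖ ^ 2 := by
        have := pow_le_pow_left₀ h6 h2 2
        linarith

theorem p_LL : S_LL := by
  intro hblk hdya hvau htI hspc A
  obtain ⟨B, hB⟩ := hblk (A + 6) (1 / 6000) (by norm_num)
  refine ⟨B, ?_⟩
  filter_upwards [hB, hdya, LL_big 10, LL_log (A + 6), LL_big2 2 (1 / 30000) (by norm_num),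
    eventually_ge_atTop 54] with J hB hd hL hlA hJs hJ54 R hR1 hR2 th hth
  have hJ0 : (0 : ℝ) < J := by
    have : 0 < J := by omega
    exact_mod_cast this
  have hJ54' : (54 : ℝ) ≤ J := by exact_mod_cast hJ54
  have hJ1 : (1 : ℝ) ≤ J := by linarith
  set x : ℝ := (J : ℝ) ^ (1 / 5000 : ℝ) with hx
  have hJx : (J : ℝ) = x ^ 5000 := by
    rw [hx, ← Real.rpow_natCast, ← Real.rpow_mul hJ0.le]
    norm_num
  have hx2 : (J : ℝ) ^ (1 / 6000 : ℝ) + 1 ≤ x := by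
    have h1 : x = (J : ℝ) ^ (1 / 6000 : ℝ) * (J : ℝ) ^ (1 / 30000 : ℝ) := by
      rw [hx, ← Real.rpow_add hJ0]
      norm_num
    have h2 : (1 : ℝ) ≤ (J : ℝ) ^ (1 / 6000 : ℝ) := Real.one_le_rpow hJ1 (by norm_num)
    rw [h1]
    nlinarith
  have hx6 : (1 : ℝ) ≤ (J : ℝ) ^ (1 / 6000 : ℝ) := Real.one_le_rpow hJ1 (by norm_num)
  have hx1 : 1 ≤ x := by linarith
  have hx0 : 0 < x := by linarith
  have hlx : Real.log x = Real.log J / 5000 := by
    rw [hx, Real.log_rpow hJ0]; ring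
  have hRx : (R : ℝ) ≤ x ^ 4995 := by
    refine hR2.trans (le_of_eq ?_)
    rw [hx, ← Real.rpow_natCast, ← Real.rpow_mul hJ0.le]
    norm_num
  set U : ℕ := ⌊x⌋₊ with hU
  have hUx : (U : ℝ) ≤ x := Nat.floor_le hx0.le
  have hUd : (J : ℝ) ^ (1 / 6000 : ℝ) ≤ U := by
    have h1 : x < (U : ℝ) + 1 := Nat.lt_floor_add_one x
    linarith
  have hU1 : 1 ≤ U := Nat.le_floor (by push_cast; linarith)
  have hUJ : U ≤ J := by
    have h1 : (U : ℝ) ≤ J := by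
      rw [hJx]
      exact hUx.trans (le_self_pow₀ hx1 (by norm_num))
    exact_mod_cast h1
  have hL0 : 0 < Real.log J := by linarith
  have hLone : 1 ≤ Real.log J := by linarith
  have hUVx : ((U * U : ℕ) : ℝ) ≤ x ^ 2 := by
    push_cast
    calc (U : ℝ) * U ≤ x * x := mul_le_mul hUx hUx (Nat.cast_nonneg _) hx0.le
      _ = x ^ 2 := by ring
  have hUV1 : 1 ≤ U * U := Nat.mul_pos hU1 hU1
  have hlUV : Real.log ((U * U : ℕ) : ℝ) ≤ 4 * Real.log J := by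
    have h1 : Real.log ((U * U : ℕ) : ℝ) ≤ Real.log (x ^ 2) :=
      Real.log_le_log (by exact_mod_cast hUV1) hUVx
    rw [Real.log_pow, hlx] at h1
    push_cast at h1 ⊢
    linarith
  obtain ⟨c, d, e, hc1, hc0, hd1, hd0, he1, he0, hid⟩ := hvau U U (27 * J ^ 3)
  have hlog4 : ∀ M : ℕ, 1 ≤ M → M ≤ 27 * J ^ 3 → Real.log (2 * M) ≤ 4 * Real.log J := by
    intro M hM1 hM
    have h1 : (2 * M : ℝ) ≤ (J : ℝ) ^ 4 := by
      have h2 : (M : ℝ) ≤ 27 * (J : ℝ) ^ 3 := by exact_mod_cast hM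
      have h3 : (54 : ℝ) * (J : ℝ) ^ 3 ≤ J * (J : ℝ) ^ 3 :=
        mul_le_mul_of_nonneg_right hJ54' (by positivity)
      nlinarith
    have h0 : (0 : ℝ) < 2 * M := by
      have : (0 : ℝ) < M := by exact_mod_cast hM1
      linarith
    have := Real.log_le_log h0 h1
    rw [Real.log_pow] at this
    push_cast at this
    exact this
  have hX1 : 1 ≤ 27 * J ^ 3 := by
    have : 1 ≤ J ^ 3 := Nat.one_le_pow _ _ (by omega)
    omega
  have hlX : Real.log (((27 * J ^ 3 : ℕ) : ℝ) + 1) ≤ 4 * Real.log J := by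
    refine le_trans ?_ (hlog4 (27 * J ^ 3) hX1 le_rfl)
    have h1 : (1 : ℝ) ≤ ((27 * J ^ 3 : ℕ) : ℝ) := by exact_mod_cast hX1
    exact Real.log_le_log (by linarith) (by linarith)
  -- the third sum
  have hT3 := hd U U (LL_f J U R e th) ((R : ℝ) ^ 2 * (J : ℝ) ^ 5 / (Real.log J) ^ (A + 6))
    hU1 hU1 (by positivity) ?_ ?_
  · have hsum : ∀ j ∈ Ioc J (2 * J), _ := fun j hj =>
      LL_window hspc htI J j U U R c d e th hth x (Real.log J) hJ54 hj hUJ hU1 hUVx hL0 hlX hlUV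
        hc1 hc0 hd1 hd0 hid
    refine (Finset.sum_le_sum hsum).trans ?_
    rw [Finset.sum_add_distrib, Finset.sum_const, Nat.card_Ioc, nsmul_eq_mul, ← Finset.mul_sum]
    have hcard : ((2 * J - J : ℕ) : ℝ) = J := by
      have : 2 * J - J = J := by omega
      rw [this]
    rw [hcard]
    have hT3' := mul_le_mul_of_nonneg_left hT3 (show (0 : ℝ) ≤ 2 by norm_num)
    refine (add_le_add le_rfl hT3').trans ?_
    set L := Real.log J with hLdef
    have hLA : 0 < L ^ A := by positivity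
    have hR0 : (0 : ℝ) ≤ R := Nat.cast_nonneg _
    have e1 : (J : ℝ) * (2 * (28 * (R : ℝ) ^ 3 * x ^ 2 * L) ^ 2) ≤
        (R : ℝ) ^ 2 * (J : ℝ) ^ 5 / L ^ A * (1 / 2) := by
      rw [div_mul_eq_mul_div, le_div_iff₀ hLA]
      have h1 : (10 : ℝ) ^ 4 ≤ L ^ 4 := pow_le_pow_left₀ (by norm_num) hL _
      have h2 : (3136 : ℝ) * L ^ 2 * L ^ A ≤ x := by
        calc (3136 : ℝ) * L ^ 2 * L ^ A ≤ L ^ 4 * L ^ 2 * L ^ A := by
              apply mul_le_mul_of_nonneg_right _ hLA.le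
              apply mul_le_mul_of_nonneg_right _ (by positivity)
              linarith
          _ = L ^ (A + 6) := by ring
          _ ≤ x := hlA
      have h3 : x ^ 24985 ≤ x ^ 25000 := pow_le_pow_right₀ hx1 (by norm_num)
      have h4 : (R : ℝ) ^ 4 ≤ x ^ 19980 := by
        calc (R : ℝ) ^ 4 ≤ (x ^ 4995) ^ 4 := pow_le_pow_left₀ hR0 hRx 4
          _ = x ^ 19980 := by rw [← pow_mul]
      have h5 : (R : ℝ) ^ 4 * x ^ 5004 * (3136 * L ^ 2 * L ^ A) ≤ x ^ 25000 := by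
        calc (R : ℝ) ^ 4 * x ^ 5004 * (3136 * L ^ 2 * L ^ A)
            ≤ x ^ 19980 * x ^ 5004 * x := by
              apply mul_le_mul _ h2 (by positivity) (by positivity)
              exact mul_le_mul_of_nonneg_right h4 (by positivity)
          _ = x ^ 24985 := by rw [← pow_add, ← pow_succ]
          _ ≤ x ^ 25000 := h3
      calc (J : ℝ) * (2 * (28 * (R : ℝ) ^ 3 * x ^ 2 * L) ^ 2) * L ^ A
          = (R : ℝ) ^ 2 * ((R : ℝ) ^ 4 * ((J : ℝ) * x ^ 4) * (3136 * L ^ 2 * L ^ A)) * (1 / 2) := by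
            ring
        _ = (R : ℝ) ^ 2 * ((R : ℝ) ^ 4 * x ^ 5004 * (3136 * L ^ 2 * L ^ A)) * (1 / 2) := by
            rw [hJx, ← pow_add]
        _ ≤ (R : ℝ) ^ 2 * x ^ 25000 * (1 / 2) := by
            apply mul_le_mul_of_nonneg_right _ (by norm_num)
            exact mul_le_mul_of_nonneg_left h5 (by positivity)
        _ = (R : ℝ) ^ 2 * (J : ℝ) ^ 5 * (1 / 2) := by rw [hJx, ← pow_mul]
    have e2 : 2 * (L ^ 5 * ((R : ℝ) ^ 2 * (J : ℝ) ^ 5 / L ^ (A + 6))) ≤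
        (R : ℝ) ^ 2 * (J : ℝ) ^ 5 / L ^ A * (1 / 2) := by
      have h1 : 2 * (L ^ 5 * ((R : ℝ) ^ 2 * (J : ℝ) ^ 5 / L ^ (A + 6))) =
          (R : ℝ) ^ 2 * (J : ℝ) ^ 5 / L ^ A * (2 / L) := by
        have h2 : L ^ (A + 6) = L ^ A * L ^ 5 * L := by ring
        rw [h2]
        field_simp
      rw [h1]
      apply mul_le_mul_of_nonneg_left _ (by positivity)
      rw [div_le_div_iff₀ (by positivity) (by norm_num)]
      linarith
    linarith
  · intro j hj m n hm1 hn1 hne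
    have h1 : U < m := by
      by_contra h
      apply hne
      unfold LL_f
      refine Finset.sum_eq_zero fun p _ => ?_
      rw [if_neg h]
      simp
    have h2 : U < n := by
      by_contra h
      apply hne
      unfold LL_f
      refine Finset.sum_eq_zero fun p _ => ?_
      rw [he0 n (not_lt.1 h)]
      simp
    have h3 : wJ J j (m * n) ≠ 0 := by
      intro h
      apply hne
      unfold LL_f
      refine Finset.sum_eq_zero fun p _ => ?_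
      rw [LL_w, h]
      simp
    have h4 := LL_supp hspc J j (m * n) (by omega) hj (Nat.mul_pos hm1 hn1) h3
    exact ⟨h1, h2, by omega, h4.2⟩
  · intro M N hUM hVN _ hMN
    have hM1 : 1 ≤ M := hU1.trans hUM
    have hN1 : 1 ≤ N := hU1.trans hVN
    have hM27 : M ≤ 27 * J ^ 3 := (Nat.le_mul_of_pos_right M hN1).trans hMN
    have hN27 : N ≤ 27 * J ^ 3 := (Nat.le_mul_of_pos_left N hM1).trans hMN
    have hMd : (J : ℝ) ^ (1 / 6000 : ℝ) ≤ M := hUd.trans (by exact_mod_cast hUM)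
    have hNd : (J : ℝ) ^ (1 / 6000 : ℝ) ≤ N := hUd.trans (by exact_mod_cast hVN)
    exact LL_block A J M N U R e th he1
      (fun a b ha hb => hB R M N a b th hR1 hR2 hth hMd hNd (by exact_mod_cast hMN) ha hb)
      hUM hL (hlog4 M hM1 hM27) (hlog4 N hN1 hN27)

end Pool.Agent.CH.D
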