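import Pool.Agent.Lib.MP_d610d0_nt.CH.D.Stm

set_option autoImplicit false

/-!
Piece LR.
-/

namespace Pool.Agent.CH.D

open Finset Filter
open ArithmeticFunction (vonMangoldt)
open Pool.Agent.MP89da58 (tri primChars)
open Pool.Agent.BVall (boxL)
open Pool.Agent.CH.V (pz ex)
open Pool.Agent.CH.P (R_PW R_PNT)

/-- A sum over the divisors as a double sum. -/
private theorem LR_conv (X : ℕ) (g : ℕ → ℕ → ℂ)
    (hg : ∀ m k, 1 ≤ m → 1 ≤ k → X < m * k → g m k = 0) :
    ∑ n ∈ Icc 1 X, ∑ d ∈ n.divisors, g d (n / d) = ∑ m ∈ Icc 1 X, ∑ k ∈ Icc 1 X, g m k := by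
  have hI : Icc 1 X = Ioc 0 X := by
    ext x
    simp only [mem_Icc, mem_Ioc]
    omega
  have h1 : ∀ n ∈ Icc 1 X, ∑ d ∈ n.divisors, g d (n / d) =
      ∑ x ∈ Icc 1 X ×ˢ Icc 1 X, if x.1 * x.2 = n then g x.1 x.2 else 0 := by
    intro n hn
    rw [mem_Icc] at hn
    rw [← Nat.sum_divisorsAntidiagonal (fun a b => g a b),
      Nat.divisorsAntidiagonal_eq_prod_filter_of_le (by omega) hn.2, sum_filter, hI]
  rw [sum_congr rfl h1, sum_comm, sum_product]
  apply sum_congr rfl
  intro m hm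
  apply sum_congr rfl
  intro k hk
  rw [mem_Icc] at hm hk
  rw [Finset.sum_ite_eq]
  split_ifs with h
  · rfl
  · have h2 : 1 ≤ m * k := Nat.mul_pos (by omega) (by omega)
    have h3 : X < m * k := by
      by_contra h4
      push Not at h4
      exact h (mem_Icc.2 ⟨h2, h4⟩)
    exact (hg m k (by omega) (by omega) h3).symm

theorem p_LR : S_LR := by
  intro hblk hdya hdec hspc A
  obtain ⟨B, hB⟩ := hblk (A + 6) (1 / 3) (by norm_num)
  refine ⟨B, ?_⟩
  have hL : ∀ᶠ J : ℕ in atTop, (100 : ℝ) ≤ Real.log J :=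
    (Real.tendsto_log_atTop.comp tendsto_natCast_atTop_atTop).eventually_ge_atTop 100
  have hU : ∀ᶠ J : ℕ in atTop, (J : ℝ) ^ (1 / 3 : ℝ) + 1 ≤ (J : ℝ) ^ (3 / 8 : ℝ) := by
    have h1 : Tendsto (fun J : ℕ => (J : ℝ) ^ (1 / 24 : ℝ)) atTop atTop :=
      (tendsto_rpow_atTop (by norm_num)).comp tendsto_natCast_atTop_atTop
    filter_upwards [h1.eventually_ge_atTop 2, eventually_ge_atTop 1] with J hJ hJ1
    have hJ0 : (1 : ℝ) ≤ J := by exact_mod_cast hJ1
    have h2 : (J : ℝ) ^ (3 / 8 : ℝ) = (J : ℝ) ^ (1 / 3 : ℝ) * (J : ℝ) ^ (1 / 24 : ℝ) := by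
      rw [← Real.rpow_add (by linarith)]
      norm_num
    have h3 : (1 : ℝ) ≤ (J : ℝ) ^ (1 / 3 : ℝ) := Real.one_le_rpow hJ0 (by norm_num)
    rw [h2]
    nlinarith
  filter_upwards [hB, hdya, hL, hU, eventually_ge_atTop 28] with J hB hdya hL hU hJ28
  intro R hR1 hR2 th hth
  obtain ⟨β, hβ, hβ2⟩ := hdec J (by omega)
  obtain ⟨_, hsp, _⟩ := hspc J (by omega)
  have hJ0 : (1 : ℝ) ≤ J := by
    have : 1 ≤ J := by omega
    exact_mod_cast this
  have hL0 : 0 < Real.log J := by linarith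
  have hL1 : 1 ≤ Real.log J := by linarith
  -- the window is below `27 J^3`
  have hwin : ∀ j ∈ Ioc J (2 * J), ∀ n : ℕ, 1 ≤ n → wJ J j n ≠ 0 → J ^ 3 < n ∧ n < 27 * J ^ 3 := by
    intro j hj n hn hw
    obtain ⟨h1, h2⟩ := hsp j hj n hn hw
    rw [mem_Ioc] at hj
    have h3 : J ^ 3 ≤ j ^ 3 := Nat.pow_le_pow_left (by omega) 3
    have h4 : (j + 1) ^ 3 ≤ (3 * J) ^ 3 := Nat.pow_le_pow_left (by omega) 3
    have h5 : (3 * J) ^ 3 = 27 * J ^ 3 := by ring
    omega
  obtain ⟨f, hf⟩ : ∃ f : ℕ → ℕ → ℕ → ℂ, f = fun j m n => ∑ p ∈ primChars R, th p *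
      ((sA J m : ℂ) * (β n : ℂ) * p.2 ((m * n : ℕ) : ZMod p.1) * (wJ J j (m * n) : ℂ)) :=
    ⟨_, rfl⟩
  -- nonzero terms
  have hfne : ∀ j ∈ Ioc J (2 * J), ∀ m n : ℕ, 1 ≤ m → 1 ≤ n → f j m n ≠ 0 →
      sA J m ≠ 0 ∧ wJ J j (m * n) ≠ 0 := by
    intro j hj m n hm hn h
    constructor
    · intro h0
      apply h
      rw [hf]
      apply sum_eq_zero
      intro p _
      rw [h0]
      push_cast
      ring
    · intro h0
      apply h
      rw [hf]
      apply sum_eq_zero
      intro p _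
      rw [h0]
      push_cast
      ring
  have key : ∀ j ∈ Ioc J (2 * J), ∑ p ∈ primChars R, th p * Sf (FR J) J j p.2 =
      ∑ m ∈ Icc 1 (27 * J ^ 3), ∑ n ∈ Icc 1 (27 * J ^ 3), f j m n := by
    intro j hj
    have h1 : ∀ p ∈ primChars R, th p * Sf (FR J) J j p.2 =
        ∑ m ∈ Icc 1 (27 * J ^ 3), ∑ n ∈ Icc 1 (27 * J ^ 3), th p *
          ((sA J m : ℂ) * (β n : ℂ) * p.2 ((m * n : ℕ) : ZMod p.1) * (wJ J j (m * n) : ℂ)) := by
      intro p _
      obtain ⟨g, hg⟩ : ∃ g : ℕ → ℕ → ℂ, g = fun m k : ℕ => (sA J m : ℂ) * (β k : ℂ) *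
          p.2 ((m * k : ℕ) : ZMod p.1) * (wJ J j (m * k) : ℂ) := ⟨_, rfl⟩
      have h2 : Sf (FR J) J j p.2 = ∑ n ∈ Icc 1 (27 * J ^ 3), ∑ d ∈ n.divisors, g d (n / d) := by
        unfold Sf
        apply sum_congr rfl
        intro n hn
        rw [mem_Icc] at hn
        show ((RR (zJ J) n : ℝ) : ℂ) * _ * _ = _
        rw [hβ2 n hn.1 hn.2, Complex.ofReal_sum, sum_mul, sum_mul]
        apply sum_congr rfl
        intro d hd
        have h3 : d * (n / d) = n := Nat.mul_div_cancel' (Nat.dvd_of_mem_divisors hd)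
        rw [hg]
        show _ = (sA J d : ℂ) * (β (n / d) : ℂ) * p.2 ((d * (n / d) : ℕ) : ZMod p.1) *
            (wJ J j (d * (n / d)) : ℂ)
        rw [h3, Complex.ofReal_mul]
      rw [h2, LR_conv, mul_sum]
      · apply sum_congr rfl
        intro m _
        rw [mul_sum, hg]
      · intro m k hm hk hmk
        have h4 : wJ J j (m * k) = 0 := by
          by_contra h5
          have h6 := hwin j hj (m * k) (Nat.mul_pos (by omega) (by omega)) h5
          omega
        rw [hg]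
        show (sA J m : ℂ) * (β k : ℂ) * p.2 ((m * k : ℕ) : ZMod p.1) * (wJ J j (m * k) : ℂ) = 0
        rw [h4]
        push_cast
        ring
    rw [sum_congr rfl h1, sum_comm]
    apply sum_congr rfl
    intro m _
    rw [sum_comm]
    apply sum_congr rfl
    intro n _
    rw [hf]
  rw [sum_congr rfl (fun j hj => by rw [key j hj])]
  have hK : 0 ≤ (R : ℝ) ^ 2 * (J : ℝ) ^ 5 / Real.log J ^ (A + 6) := by positivity
  have hU1 : 1 ≤ ⌊(J : ℝ) ^ (3 / 8 : ℝ)⌋₊ := by
    rw [Nat.le_floor_iff (by positivity)]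
    push_cast
    exact Real.one_le_rpow hJ0 (by norm_num)
  have hmain := hdya ⌊(J : ℝ) ^ (3 / 8 : ℝ)⌋₊ J f _ hU1 (by omega) hK ?_ ?_
  · refine hmain.trans ?_
    have h1 : Real.log J ^ 5 * ((R : ℝ) ^ 2 * (J : ℝ) ^ 5 / Real.log J ^ (A + 6)) =
        (R : ℝ) ^ 2 * (J : ℝ) ^ 5 / Real.log J ^ (A + 1) := by
      have h2 : Real.log J ^ (A + 6) = Real.log J ^ (A + 1) * Real.log J ^ 5 := by
        rw [← pow_add]
      rw [h2]
      field_simp
    rw [h1]
    apply div_le_div_of_nonneg_left (by positivity) (by positivity)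
    exact pow_le_pow_right₀ hL1 (by omega)
  · -- support
    intro j hj m n hm hn hfn
    obtain ⟨hs, hw⟩ := hfne j hj m n hm hn hfn
    obtain ⟨h1, h2⟩ := hwin j hj (m * n) (Nat.mul_pos (by omega) (by omega)) hw
    have hs' : m.Prime ∧ zJ J ≤ (m : ℝ) ∧ m ^ 2 ≤ 27 * J ^ 3 := by
      by_contra h3
      apply hs
      unfold sA
      rw [if_neg h3]
    obtain ⟨_, hz, hm2⟩ := hs'
    refine ⟨?_, ?_, by omega, h2⟩
    · have h3 : (J : ℝ) ^ (3 / 8 : ℝ) < m := by
        refine lt_of_lt_of_le ?_ hz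
        unfold zJ
        exact Real.rpow_lt_rpow (by linarith) (by linarith) (by norm_num)
      exact (Nat.floor_lt (by positivity)).2 h3
    · by_contra h3
      push Not at h3
      have h4 : m * n ≤ m * J := Nat.mul_le_mul_left m h3
      have h5 : J ^ 3 < m * J := lt_of_lt_of_le h1 h4
      have h6 : J ^ 2 < m := by
        have h7 : J ^ 2 * J < m * J := by
          have : J ^ 2 * J = J ^ 3 := by ring
          omega
        exact lt_of_mul_lt_mul_right h7 (by omega)
      have h8 : (J ^ 2) ^ 2 < m ^ 2 := Nat.pow_lt_pow_left h6 (by norm_num)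
      have h9 : (J ^ 2) ^ 2 < 27 * J ^ 3 := lt_of_lt_of_le h8 hm2
      have h10 : J * J ^ 3 < 27 * J ^ 3 := by
        have : (J ^ 2) ^ 2 = J * J ^ 3 := by ring
        omega
      have h11 : J < 27 := lt_of_mul_lt_mul_right h10 (by positivity)
      omega
  · -- blocks
    intro M N hM hN _ hMN
    have hb := hB R M N (fun m => if M < m then (sA J m : ℂ) else 0)
      (fun n => if N < n then (β n : ℂ) else 0) th hR1 hR2 hth ?_ ?_ (by exact_mod_cast hMN) ?_ ?_
    · refine le_trans (le_of_eq ?_) hb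
      apply sum_congr rfl
      intro j _
      congr 2
      have hIM : ∀ K : ℕ, Ioc K (2 * K) = (Icc 1 (2 * K)).filter (fun x => K < x) := by
        intro K
        ext x
        simp only [mem_Ioc, mem_filter, mem_Icc]
        omega
      have h1 : ∀ p ∈ primChars R, th p * ∑ m ∈ Icc 1 (2 * M), ∑ n ∈ Icc 1 (2 * N),
          (if M < m then (sA J m : ℂ) else 0) * (if N < n then (β n : ℂ) else 0) *
            p.2 ((m * n : ℕ) : ZMod p.1) * (wJ J j (m * n) : ℂ) =
          ∑ m ∈ Ioc M (2 * M), ∑ n ∈ Ioc N (2 * N), th p *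
            ((sA J m : ℂ) * (β n : ℂ) * p.2 ((m * n : ℕ) : ZMod p.1) * (wJ J j (m * n) : ℂ)) := by
        intro p _
        rw [hIM M, sum_filter, mul_sum]
        apply sum_congr rfl
        intro m _
        split_ifs with hm
        · rw [hIM N, sum_filter, mul_sum]
          apply sum_congr rfl
          intro n _
          split_ifs with hn
          · rfl
          · ring
        · simp
      rw [sum_congr rfl h1]
      symm
      rw [sum_comm]
      apply sum_congr rfl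
      intro m _
      rw [sum_comm]
      apply sum_congr rfl
      intro n _
      rw [hf]
    · have h1 : (J : ℝ) ^ (3 / 8 : ℝ) < ⌊(J : ℝ) ^ (3 / 8 : ℝ)⌋₊ + 1 := Nat.lt_floor_add_one _
      have h2 : ((⌊(J : ℝ) ^ (3 / 8 : ℝ)⌋₊ : ℕ) : ℝ) ≤ M := by exact_mod_cast hM
      linarith
    · have h1 : (J : ℝ) ^ (1 / 3 : ℝ) ≤ (J : ℝ) ^ (1 : ℝ) :=
        Real.rpow_le_rpow_of_exponent_le hJ0 (by norm_num)
      rw [Real.rpow_one] at h1
      have h2 : (J : ℝ) ≤ N := by exact_mod_cast hN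
      linarith
    · have h1 : ∀ m ∈ Icc 1 (2 * M), ‖(if M < m then (sA J m : ℂ) else 0)‖ ^ 2 ≤
          if M < m then (1 : ℝ) else 0 := by
        intro m _
        split_ifs with hm
        · unfold sA
          split_ifs <;> simp
        · simp
      refine (sum_le_sum h1).trans ?_
      rw [← sum_filter, sum_const, nsmul_eq_mul, mul_one]
      have h2 : ((Icc 1 (2 * M)).filter (fun m => M < m)).card ≤ M := by
        have h3 : (Icc 1 (2 * M)).filter (fun m => M < m) ⊆ Ioc M (2 * M) := by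
          intro x
          simp only [mem_filter, mem_Icc, mem_Ioc]
          omega
        have h4 := card_le_card h3
        rw [Nat.card_Ioc] at h4
        omega
      have h3 : (((Icc 1 (2 * M)).filter (fun m => M < m)).card : ℝ) ≤ M := by exact_mod_cast h2
      refine h3.trans ?_
      exact le_mul_of_one_le_right (Nat.cast_nonneg M) (one_le_pow₀ hL1)
    · have h1 : ∀ n ∈ Icc 1 (2 * N), ‖(if N < n then (β n : ℂ) else 0)‖ ^ 2 ≤
          if N < n then ((1000000 : ℝ) ^ 2) else 0 := by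
        intro n _
        split_ifs with hn
        · rw [Complex.norm_real, Real.norm_eq_abs]
          exact pow_le_pow_left₀ (abs_nonneg _) (hβ n) 2
        · simp
      refine (sum_le_sum h1).trans ?_
      rw [← sum_filter, sum_const, nsmul_eq_mul]
      have h2 : ((Icc 1 (2 * N)).filter (fun m => N < m)).card ≤ N := by
        have h3 : (Icc 1 (2 * N)).filter (fun m => N < m) ⊆ Ioc N (2 * N) := by
          intro x
          simp only [mem_filter, mem_Icc, mem_Ioc]
          omega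
        have h4 := card_le_card h3
        rw [Nat.card_Ioc] at h4
        omega
      have h3 : (((Icc 1 (2 * N)).filter (fun m => N < m)).card : ℝ) ≤ N := by exact_mod_cast h2
      have h4 : (1000000 : ℝ) ^ 2 ≤ Real.log J ^ 6 := by
        have h5 : (100 : ℝ) ^ 6 ≤ Real.log J ^ 6 := pow_le_pow_left₀ (by norm_num) hL 6
        norm_num at h5 ⊢
        exact h5
      exact mul_le_mul h3 h4 (by positivity) (Nat.cast_nonneg N)

end Pool.Agent.CH.D
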