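import Pool.Agent.Lib.MP_d610d0_nt.CH.D.Stm

set_option autoImplicit false

/-!
Piece SL.
-/

namespace Pool.Agent.CH.D

open Finset Filter
open ArithmeticFunction (vonMangoldt)
open Pool.Agent.MP89da58 (tri primChars)
open Pool.Agent.BVall (boxL)
open Pool.Agent.CH.V (pz ex)
open Pool.Agent.CH.P (R_PW R_PNT)

/-- Powers of `log J` against small powers of `J`. -/
theorem SL_log (k : ℕ) : ∀ᶠ J : ℕ in atTop, (Real.log J) ^ k ≤ (J : ℝ) ^ (1 / 10 : ℝ) := by
  have h := isLittleO_log_rpow_rpow_atTop (s := (1 / 10 : ℝ)) (k : ℝ) (by norm_num)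
  have h2 := h.bound (show (0 : ℝ) < 1 by norm_num)
  have h3 := tendsto_natCast_atTop_atTop (R := ℝ) |>.eventually h2
  filter_upwards [h3, eventually_ge_atTop 1] with J hJ h1
  have hl : 0 ≤ Real.log J := Real.log_natCast_nonneg J
  rw [one_mul, Real.rpow_natCast, Real.norm_of_nonneg (pow_nonneg hl _),
    Real.norm_of_nonneg (Real.rpow_nonneg (Nat.cast_nonneg _) _)] at hJ
  exact hJ

theorem SL_big (c : ℝ) : ∀ᶠ J : ℕ in atTop, c ≤ Real.log J :=
  (Real.tendsto_log_atTop.comp (tendsto_natCast_atTop_atTop (R := ℝ))).eventually_ge_atTop c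

theorem SL_big2 (c : ℝ) : ∀ᶠ J : ℕ in atTop, c ≤ (J : ℝ) ^ (1 / 10 : ℝ) :=
  ((tendsto_rpow_atTop (show (0 : ℝ) < 1 / 10 by norm_num)).comp
    (tendsto_natCast_atTop_atTop (R := ℝ))).eventually_ge_atTop c

/-- The weight. -/
noncomputable def SL_w (J j : ℕ) {r : ℕ} (χ : DirichletCharacter ℂ r) (k : ℕ) : ℂ :=
  χ (k : ZMod r) * (wJ J j k : ℂ)

theorem SL_sup (X W : ℕ) (κ : ℕ → ℝ) (G : ℕ → ℂ) (K B : ℝ) (hK : 0 ≤ K) (hB : 0 ≤ B)
    (h1 : ∀ m, 1 ≤ m → m ≤ W → |κ m| ≤ K) (h2 : ∀ m, W < m → κ m = 0)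
    (h3 : ∀ m, 1 ≤ m → ‖G m‖ ≤ B) :
    ‖∑ m ∈ Icc 1 X, (κ m : ℂ) * G m‖ ≤ W * (K * B) := by
  have hr : ∑ m ∈ Icc 1 X, (κ m : ℂ) * G m
      = ∑ m ∈ (Icc 1 X).filter (fun m => m ≤ W), (κ m : ℂ) * G m := by
    rw [Finset.sum_filter]
    refine Finset.sum_congr rfl fun m _ => ?_
    split_ifs with h
    · rfl
    · rw [h2 m (not_le.1 h)]; simp
  rw [hr]
  refine (norm_sum_le _ _).trans ?_
  have hs : (Icc 1 X).filter (fun m => m ≤ W) ⊆ Icc 1 W := by
    intro m hm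
    rw [Finset.mem_filter, Finset.mem_Icc] at hm
    exact Finset.mem_Icc.2 ⟨hm.1.1, hm.2⟩
  refine (Finset.sum_le_sum_of_subset_of_nonneg hs fun _ _ _ => norm_nonneg _).trans ?_
  calc ∑ m ∈ Icc 1 W, ‖(κ m : ℂ) * G m‖ ≤ ∑ m ∈ Icc 1 W, K * B := by
        refine Finset.sum_le_sum fun m hm => ?_
        rw [Finset.mem_Icc] at hm
        rw [norm_mul, Complex.norm_real, Real.norm_eq_abs]
        exact mul_le_mul (h1 m hm.1 hm.2) (h3 m hm.1) (norm_nonneg _) hK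
    _ = W * (K * B) := by
        rw [Finset.sum_const, Nat.card_Icc, nsmul_eq_mul]
        simp

/-- The type I sums. -/
theorem SL_typeI (htI : R_tI) (X U V J j r : ℕ) (χ : DirichletCharacter ℂ r) (c d : ℕ → ℝ)
    (K : ℝ) (hJ : 1 ≤ J) (hj : j ∈ Ioc J (2 * J)) (hr : 2 ≤ r) (hχ : χ ≠ 1) (hU : 1 ≤ U)
    (hK : Real.log (X + 1) ≤ K) (hK2 : Real.log ((U * V : ℕ) : ℝ) ≤ K)
    (hc1 : ∀ n, |c n| ≤ 1) (hc0 : ∀ n, V < n → c n = 0)
    (hd1 : ∀ n, 1 ≤ n → |d n| ≤ Real.log n) (hd0 : ∀ n, U * V < n → d n = 0) :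
    ‖∑ m ∈ Icc 1 X, ∑ n ∈ Icc 1 X, (c m : ℂ) * (Real.log n : ℂ) * SL_w J j χ (m * n)
      - ∑ m ∈ Icc 1 X, ∑ n ∈ Icc 1 X, (d m : ℂ) * SL_w J j χ (m * n)‖
      ≤ 7 * r * ((U * V : ℕ) : ℝ) * K := by
  have hK0 : 0 ≤ K := le_trans (Real.log_nonneg (by
    have : (0 : ℝ) ≤ X := Nat.cast_nonneg _
    linarith)) hK
  have hr0 : (0 : ℝ) ≤ r := Nat.cast_nonneg _
  have e1 : ∑ m ∈ Icc 1 X, ∑ n ∈ Icc 1 X, (c m : ℂ) * (Real.log n : ℂ) * SL_w J j χ (m * n)
      = ∑ m ∈ Icc 1 X, (c m : ℂ) * (χ (m : ZMod r) *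
        ∑ n ∈ Icc 1 X, χ (n : ZMod r) * (Real.log n : ℂ) * (wJ J j (m * n) : ℂ)) := by
    refine Finset.sum_congr rfl fun m _ => ?_
    rw [Finset.mul_sum, Finset.mul_sum]
    refine Finset.sum_congr rfl fun n _ => ?_
    unfold SL_w
    rw [Nat.cast_mul, map_mul]
    ring
  have e2 : ∑ m ∈ Icc 1 X, ∑ n ∈ Icc 1 X, (d m : ℂ) * SL_w J j χ (m * n)
      = ∑ m ∈ Icc 1 X, (d m : ℂ) * (χ (m : ZMod r) *
        ∑ n ∈ Icc 1 X, χ (n : ZMod r) * (wJ J j (m * n) : ℂ)) := by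
    refine Finset.sum_congr rfl fun m _ => ?_
    rw [Finset.mul_sum, Finset.mul_sum]
    refine Finset.sum_congr rfl fun n _ => ?_
    unfold SL_w
    rw [Nat.cast_mul, map_mul]
    ring
  rw [e1, e2]
  have b1 := SL_sup X V c (fun m => χ (m : ZMod r) *
        ∑ n ∈ Icc 1 X, χ (n : ZMod r) * (Real.log n : ℂ) * (wJ J j (m * n) : ℂ)) 1 (4 * r * K)
    zero_le_one (by positivity) (fun m _ _ => hc1 m) hc0 (fun m hm => by
      show ‖χ (m : ZMod r) *
        ∑ n ∈ Icc 1 X, χ (n : ZMod r) * (Real.log n : ℂ) * (wJ J j (m * n) : ℂ)‖ ≤ _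
      rw [norm_mul]
      have h1 := (htI J j m X r χ hJ hj hm hr hχ).2
      have h2 : 4 * (r : ℝ) * Real.log (X + 1) ≤ 4 * r * K :=
        mul_le_mul_of_nonneg_left hK (by positivity)
      have h3 := χ.norm_le_one (m : ZMod r)
      calc _ ≤ 1 * (4 * r * K) := mul_le_mul h3 (h1.trans h2) (norm_nonneg _) zero_le_one
        _ = _ := one_mul _)
  have b2 := SL_sup X (U * V) d (fun m => χ (m : ZMod r) *
        ∑ n ∈ Icc 1 X, χ (n : ZMod r) * (wJ J j (m * n) : ℂ)) K (3 * r)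
    hK0 (by positivity) (fun m hm1 hm2 => (hd1 m hm1).trans (le_trans (Real.log_le_log
      (by exact_mod_cast hm1) (by exact_mod_cast hm2)) hK2)) hd0 (fun m hm => by
      show ‖χ (m : ZMod r) *
        ∑ n ∈ Icc 1 X, χ (n : ZMod r) * (wJ J j (m * n) : ℂ)‖ ≤ _
      rw [norm_mul]
      have h1 := (htI J j m X r χ hJ hj hm hr hχ).1
      have h3 := χ.norm_le_one (m : ZMod r)
      calc _ ≤ 1 * (3 * (r : ℝ)) := mul_le_mul h3 h1 (norm_nonneg _) zero_le_one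
        _ = _ := one_mul _)
  have hVU : (V : ℝ) ≤ ((U * V : ℕ) : ℝ) := by
    exact_mod_cast Nat.le_mul_of_pos_left V (by omega)
  refine (norm_sub_le _ _).trans ((add_le_add b1 b2).trans ?_)
  have h4 : (V : ℝ) * (1 * (4 * r * K)) ≤ ((U * V : ℕ) : ℝ) * (4 * r * K) := by
    rw [one_mul]
    exact mul_le_mul_of_nonneg_right hVU (by positivity)
  calc (V : ℝ) * (1 * (4 * r * K)) + ((U * V : ℕ) : ℝ) * (K * (3 * r))
      ≤ ((U * V : ℕ) : ℝ) * (4 * r * K) + ((U * V : ℕ) : ℝ) * (K * (3 * r)) := by linarith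
    _ = 7 * r * ((U * V : ℕ) : ℝ) * K := by ring

/-- The polynomial of a block. -/
theorem SL_dp (A B C0 : ℕ) (M0 : ℝ)
    (hM0 : ∀ M : ℝ, M0 ≤ M → ∀ (r : ℕ)
      (χ : DirichletCharacter ℂ r), 1 ≤ r → (r : ℝ) ≤ (Real.log M) ^ (B + 1) → χ.IsPrimitive →
      ∀ τ : ℝ, |τ| ≤ M ^ (30 : ℝ) → (2 ≤ r ∨ (Real.log M) ^ C0 ≤ |τ|) →
      ∀ M1 M2 : ℕ, (M2 : ℝ) ≤ M →
      ‖∑ n ∈ Ioc M1 M2, (vonMangoldt n : ℂ) * χ (n : ZMod r) * pz (-τ) n‖
        ≤ M / (Real.log M) ^ (A + 11))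
    (J M r : ℕ) (χ : DirichletCharacter ℂ r) (hr : 2 ≤ r) (hrB : (r : ℝ) ≤ (Real.log J) ^ B)
    (hχ : χ.IsPrimitive) (hJ : 2 ≤ J) (hM1 : M0 ≤ (J : ℝ) ^ (1 / 10 : ℝ))
    (hM2 : (J : ℝ) ^ (1 / 10 : ℝ) ≤ 2 * M) (hL : 10 ≤ Real.log J)
    (hL1 : 10 * (10 : ℝ) ^ B ≤ Real.log J) (hL2 : 2 * (10 : ℝ) ^ (A + 11) ≤ Real.log J) (θ : ℝ)
    (hθ2 : |θ| ≤ (J : ℝ) ^ 3) :
    ‖∑ n ∈ Ioc M (2 * M), (vonMangoldt n : ℂ) * χ (n : ZMod r) * pz (-θ) n‖
      ≤ M / (Real.log J) ^ (A + 10) := by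
  have hJ0 : (0 : ℝ) < J := by positivity
  have hx0 : (0 : ℝ) < (J : ℝ) ^ (1 / 10 : ℝ) := Real.rpow_pos_of_pos hJ0 _
  have hl : Real.log J / 10 ≤ Real.log (2 * M) := by
    have := Real.log_le_log hx0 hM2
    rw [Real.log_rpow hJ0] at this
    linarith
  have hlp : 0 < Real.log (2 * M) := by linarith
  have hLp : 0 < Real.log J := by linarith
  have hrM : (r : ℝ) ≤ (Real.log (2 * M)) ^ (B + 1) := by
    refine hrB.trans ?_
    have h1 : Real.log J ≤ 10 * Real.log (2 * M) := by linarith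
    have h2 : (10 : ℝ) ^ B ≤ Real.log (2 * M) := by linarith
    calc Real.log J ^ B ≤ (10 * Real.log (2 * M)) ^ B := pow_le_pow_left₀ hLp.le h1 _
      _ = 10 ^ B * Real.log (2 * M) ^ B := by rw [mul_pow]
      _ ≤ Real.log (2 * M) * Real.log (2 * M) ^ B :=
          mul_le_mul_of_nonneg_right h2 (by positivity)
      _ = Real.log (2 * M) ^ (B + 1) := by rw [pow_succ]; ring
  have h1 := hM0 (2 * M : ℝ) (hM1.trans hM2) r χ (by omega) hrM hχ θ ?_ (Or.inl hr) M (2 * M)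
    (by push_cast; exact le_rfl)
  · refine h1.trans ?_
    rw [div_le_div_iff₀ (by positivity) (by positivity)]
    have h3 : (Real.log J / 10) ^ (A + 11) ≤ (Real.log (2 * M)) ^ (A + 11) :=
      pow_le_pow_left₀ (by positivity) hl _
    have h4 : 2 * (Real.log J) ^ (A + 10) ≤ (Real.log J / 10) ^ (A + 11) := by
      rw [div_pow, le_div_iff₀ (by positivity), pow_succ (Real.log J) (A + 10)]
      have : 0 ≤ (Real.log J) ^ (A + 10) := by positivity
      nlinarith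
    have h5 : (0 : ℝ) ≤ M := Nat.cast_nonneg _
    calc 2 * (M : ℝ) * Real.log J ^ (A + 10) = M * (2 * Real.log J ^ (A + 10)) := by ring
      _ ≤ M * (Real.log (2 * M)) ^ (A + 11) := mul_le_mul_of_nonneg_left (h4.trans h3) h5
  · refine hθ2.trans ?_
    have h2 : (J : ℝ) ^ 3 = ((J : ℝ) ^ (1 / 10 : ℝ)) ^ (30 : ℝ) := by
      rw [← Real.rpow_mul hJ0.le, ← Real.rpow_natCast]
      norm_num
    rw [h2]
    exact Real.rpow_le_rpow hx0.le hM2 (by norm_num)

/-- One block. -/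
theorem SL_block (A J M N U r : ℕ) (χ : DirichletCharacter ℂ r) (e : ℕ → ℝ)
    (he : ∀ n, |e n| ≤ n.divisors.card)
    (hc : ∀ (M N : ℕ) (a b : ℕ → ℂ), J ≤ 4 * N → M * N ≤ 27 * J ^ 3 →
      ∑ m ∈ Icc 1 (2 * M), ‖a m‖ ≤ M * (Real.log J) ^ 6 →
      ∑ n ∈ Icc 1 (2 * N), ‖b n‖ ^ 2 ≤ N * (Real.log J) ^ 6 →
      (∀ θ : ℝ, |θ| ≤ (J : ℝ) ^ 3 → ‖dp a (2 * M) θ‖ ≤ M / (Real.log J) ^ (A + 6 + 4)) →
      ∑ j ∈ Ioc J (2 * J), ‖∑ m ∈ Icc 1 (2 * M), ∑ n ∈ Icc 1 (2 * N), a m * b n *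
          (wJ J j (m * n) : ℂ)‖ ^ 2 ≤ (J : ℝ) ^ 5 / (Real.log J) ^ (A + 6))
    (hUM : U ≤ M) (hN : J ≤ 4 * N) (hMN : M * N ≤ 27 * J ^ 3) (hL : 10 ≤ Real.log J)
    (hM3 : Real.log (2 * M) ≤ 4 * Real.log J) (hN3 : Real.log (2 * N) ≤ 4 * Real.log J)
    (hdp : ∀ θ : ℝ, |θ| ≤ (J : ℝ) ^ 3 →
      ‖∑ n ∈ Ioc M (2 * M), (vonMangoldt n : ℂ) * χ (n : ZMod r) * pz (-θ) n‖
        ≤ M / (Real.log J) ^ (A + 10)) :
    ∑ j ∈ Ioc J (2 * J), ‖∑ m ∈ Ioc M (2 * M), ∑ n ∈ Ioc N (2 * N),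
      ((if U < m then vonMangoldt m else 0 : ℝ) : ℂ) * (e n : ℂ) * SL_w J j χ (m * n)‖ ^ 2
      ≤ (J : ℝ) ^ 5 / (Real.log J) ^ (A + 6) := by
  set a' : ℕ → ℂ := fun m => if M < m then (vonMangoldt m : ℂ) * χ (m : ZMod r) else 0 with ha'
  set b' : ℕ → ℂ := fun n => if N < n then (e n : ℂ) * χ (n : ZMod r) else 0 with hb'
  have hIM : (Icc 1 (2 * M)).filter (fun m => M < m) = Ioc M (2 * M) := by
    ext m; simp only [Finset.mem_filter, Finset.mem_Icc, Finset.mem_Ioc]; omega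
  have hIN : (Icc 1 (2 * N)).filter (fun m => N < m) = Ioc N (2 * N) := by
    ext m; simp only [Finset.mem_filter, Finset.mem_Icc, Finset.mem_Ioc]; omega
  have hL0 : 0 < Real.log J := by linarith
  have h := hc M N a' b' hN hMN ?_ ?_ ?_
  · refine le_trans (le_of_eq ?_) h
    refine Finset.sum_congr rfl fun j _ => ?_
    congr 2
    rw [← hIM, Finset.sum_filter]
    refine Finset.sum_congr rfl fun m hm => ?_
    rw [Finset.mem_Icc] at hm
    by_cases hMm : M < m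
    · rw [if_pos hMm, if_pos (lt_of_le_of_lt hUM hMm), ← hIN, Finset.sum_filter]
      refine Finset.sum_congr rfl fun n hn => ?_
      rw [Finset.mem_Icc] at hn
      simp only [ha', hb', if_pos hMm, SL_w]
      by_cases hNn : N < n
      · rw [if_pos hNn, if_pos hNn, Nat.cast_mul, map_mul]
        ring
      · rw [if_neg hNn, if_neg hNn]; simp
    · rw [if_neg hMm]
      symm
      refine Finset.sum_eq_zero fun n _ => ?_
      simp only [ha', if_neg hMm]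
      simp
  · calc ∑ m ∈ Icc 1 (2 * M), ‖a' m‖ ≤ ∑ m ∈ Ioc M (2 * M), (vonMangoldt m) := by
          rw [← hIM, Finset.sum_filter]
          refine Finset.sum_le_sum fun m _ => ?_
          simp only [ha']
          split_ifs
          · rw [norm_mul, Complex.norm_real,
              Real.norm_of_nonneg ArithmeticFunction.vonMangoldt_nonneg]
            exact mul_le_of_le_one_right ArithmeticFunction.vonMangoldt_nonneg
              (χ.norm_le_one _)
          · simp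
      _ ≤ ∑ m ∈ Ioc M (2 * M), 4 * Real.log J := by
          refine Finset.sum_le_sum fun m hm => ?_
          rw [Finset.mem_Ioc] at hm
          refine (ArithmeticFunction.vonMangoldt_le_log).trans (le_trans ?_ hM3)
          apply Real.log_le_log (by exact_mod_cast (by omega : 0 < m))
          exact_mod_cast hm.2
      _ = M * (4 * Real.log J) := by
          rw [Finset.sum_const, Nat.card_Ioc, nsmul_eq_mul]
          congr 2
          omega
      _ ≤ M * (Real.log J) ^ 6 := by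
          apply mul_le_mul_of_nonneg_left _ (Nat.cast_nonneg _)
          have : (10 : ℝ) ^ 5 ≤ (Real.log J) ^ 5 := pow_le_pow_left₀ (by norm_num) hL _
          nlinarith
  · calc ∑ n ∈ Icc 1 (2 * N), ‖b' n‖ ^ 2 ≤ ∑ n ∈ Icc 1 (2 * N), ((n.divisors.card : ℝ)) ^ 2 := by
          refine Finset.sum_le_sum fun n _ => ?_
          simp only [hb']
          split_ifs
          · rw [norm_mul, Complex.norm_real, Real.norm_eq_abs]
            refine pow_le_pow_left₀ (by positivity) ?_ 2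
            calc |e n| * ‖χ (n : ZMod r)‖ ≤ |e n| * 1 :=
                  mul_le_mul_of_nonneg_left (χ.norm_le_one _) (abs_nonneg _)
              _ = |e n| := mul_one _
              _ ≤ _ := he n
          · simp only [norm_zero]
            exact le_trans (by norm_num) (sq_nonneg _)
      _ ≤ ((2 * N : ℕ) : ℝ) * (1 + Real.log ((2 * N : ℕ) : ℝ)) ^ 3 := Pool.Agent.MP89da58.sum_tau_sq _
      _ ≤ ((2 * N : ℕ) : ℝ) * (5 * Real.log J) ^ 3 := by
          apply mul_le_mul_of_nonneg_left _ (Nat.cast_nonneg _)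
          have h0 : 0 ≤ Real.log ((2 * N : ℕ) : ℝ) := Real.log_natCast_nonneg _
          apply pow_le_pow_left₀ (by linarith)
          push_cast
          linarith
      _ ≤ N * (Real.log J) ^ 6 := by
          push_cast
          have : (10 : ℝ) ^ 3 ≤ (Real.log J) ^ 3 := pow_le_pow_left₀ (by norm_num) hL _
          have h2 : 250 * (Real.log J) ^ 3 ≤ (Real.log J) ^ 6 := by
            have h3 : 0 ≤ (Real.log J) ^ 3 := by positivity
            nlinarith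
          have h4 : (0 : ℝ) ≤ N := Nat.cast_nonneg _
          calc 2 * (N : ℝ) * (5 * Real.log J) ^ 3 = N * (250 * (Real.log J) ^ 3) := by ring
            _ ≤ N * (Real.log J) ^ 6 := mul_le_mul_of_nonneg_left h2 h4
  · intro θ h2
    have h3 := hdp θ h2
    have h4 : dp a' (2 * M) θ =
        ∑ n ∈ Ioc M (2 * M), (vonMangoldt n : ℂ) * χ (n : ZMod r) * pz (-θ) n := by
      rw [dp, ← hIM, Finset.sum_filter]
      refine Finset.sum_congr rfl fun n _ => ?_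
      simp only [ha']
      split_ifs
      · rfl
      · simp
    rw [h4]
    exact h3

/-- The window. -/
theorem SL_supp (hspc : R_spc) (J j n : ℕ) (hJ : 2 ≤ J) (hj : j ∈ Ioc J (2 * J))
    (hn : 1 ≤ n) (h : wJ J j n ≠ 0) : J ^ 3 < n ∧ n < 27 * J ^ 3 := by
  obtain ⟨-, h1, -⟩ := hspc J (by omega)
  obtain ⟨h3, h4⟩ := h1 j hj n hn h
  rw [Finset.mem_Ioc] at hj
  have h5 : J ^ 3 ≤ j ^ 3 := Nat.pow_le_pow_left hj.1.le 3
  have h6 : (j + 1) ^ 3 ≤ (3 * J) ^ 3 := Nat.pow_le_pow_left (by omega) 3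
  have h7 : (3 * J) ^ 3 = 27 * J ^ 3 := by ring
  omega

theorem p_SL : S_SL := by
  intro hsml hdya hvau htI hspc hPW A B
  obtain ⟨C0, hC0⟩ := hPW (A + 11) (B + 1) 30 (by norm_num)
  obtain ⟨M0, hM0⟩ := eventually_atTop.1 hC0
  filter_upwards [hsml (A + 6), hdya, SL_big 10, SL_big (10 * (10 : ℝ) ^ B),
    SL_big (2 * (10 : ℝ) ^ (A + 11)), SL_log (A + 2 * B + 6), SL_big2 M0, SL_big2 2,
    eventually_ge_atTop 54] with J hc hd hL hL1 hL2 hlA hM01 hx2 hJ54 r χ hr hrB hχ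
  have hJ0 : (0 : ℝ) < J := by
    have : 0 < J := by omega
    exact_mod_cast this
  have hJ54' : (54 : ℝ) ≤ J := by exact_mod_cast hJ54
  set x : ℝ := (J : ℝ) ^ (1 / 10 : ℝ) with hx
  have hJx : (J : ℝ) = x ^ 10 := by
    rw [hx, ← Real.rpow_natCast, ← Real.rpow_mul hJ0.le]
    norm_num
  have hx0 : 0 < x := by linarith
  have hx1 : 1 ≤ x := by linarith
  have hlx : Real.log x = Real.log J / 10 := by
    rw [hx, Real.log_rpow hJ0]; ring
  set U : ℕ := ⌊x⌋₊ with hU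
  set V : ℕ := ⌊x ^ 11⌋₊ with hV
  have hUx : (U : ℝ) ≤ x := Nat.floor_le hx0.le
  have hVx : (V : ℝ) ≤ x ^ 11 := Nat.floor_le (by positivity)
  have hU1 : 1 ≤ U := Nat.le_floor (by push_cast; linarith)
  have hUJ : U ≤ J := by
    have h1 : (U : ℝ) ≤ J := by
      rw [hJx]
      exact hUx.trans (le_self_pow₀ hx1 (by norm_num))
    exact_mod_cast h1
  have hVJ : J ≤ V := by
    apply Nat.le_floor
    rw [hJx]
    exact pow_le_pow_right₀ hx1 (by norm_num)
  have hV1 : 1 ≤ V := by omega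
  have hL0 : 0 < Real.log J := by linarith
  have hLone : 1 ≤ Real.log J := by linarith
  have hχ1 : χ ≠ 1 := by
    intro h
    have : NeZero r := ⟨by omega⟩
    rw [h, DirichletCharacter.isPrimitive_def, DirichletCharacter.conductor_one] at hχ
    omega
  have hUVx : ((U * V : ℕ) : ℝ) ≤ x ^ 12 := by
    push_cast
    calc (U : ℝ) * V ≤ x * x ^ 11 := mul_le_mul hUx hVx (Nat.cast_nonneg _) hx0.le
      _ = x ^ 12 := by ring
  have hUV1 : 1 ≤ U * V := Nat.mul_pos hU1 hV1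
  have hlUV : Real.log ((U * V : ℕ) : ℝ) ≤ 4 * Real.log J := by
    have h1 : Real.log ((U * V : ℕ) : ℝ) ≤ Real.log (x ^ 12) :=
      Real.log_le_log (by exact_mod_cast hUV1) hUVx
    rw [Real.log_pow, hlx] at h1
    push_cast at h1 ⊢
    linarith
  obtain ⟨c, d, e, hc1, hc0, hd1, hd0, he1, he0, hid⟩ := hvau U V (27 * J ^ 3)
  have hlog4 : ∀ M : ℕ, 1 ≤ M → M ≤ 27 * J ^ 3 → Real.log (2 * M) ≤ 4 * Real.log J := by
    intro M hM1 hM
    have h1 : (2 * M : ℝ) ≤ (J : ℝ) ^ 4 := by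
      have h2 : (M : ℝ) ≤ 27 * (J : ℝ) ^ 3 := by exact_mod_cast hM
      have h3 : (54 : ℝ) * (J : ℝ) ^ 3 ≤ J * (J : ℝ) ^ 3 :=
        mul_le_mul_of_nonneg_right hJ54' (by positivity)
      nlinarith
    have h0 : (0 : ℝ) < 2 * M := by
      have : (0 : ℝ) < M := by exact_mod_cast hM1
      linarith
    have := Real.log_le_log h0 h1
    rw [Real.log_pow] at this
    push_cast at this
    exact this
  have hX1 : 1 ≤ 27 * J ^ 3 := by
    have : 1 ≤ J ^ 3 := Nat.one_le_pow _ _ (by omega)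
    omega
  have hlX : Real.log (((27 * J ^ 3 : ℕ) : ℝ) + 1) ≤ 4 * Real.log J := by
    refine le_trans ?_ (hlog4 (27 * J ^ 3) hX1 le_rfl)
    have h1 : (1 : ℝ) ≤ ((27 * J ^ 3 : ℕ) : ℝ) := by exact_mod_cast hX1
    exact Real.log_le_log (by linarith) (by linarith)
  -- the third sum
  have hT3 := hd U V (fun j m n => ((if U < m then vonMangoldt m else 0 : ℝ) : ℂ) * (e n : ℂ) *
      SL_w J j χ (m * n)) ((J : ℝ) ^ 5 / (Real.log J) ^ (A + 6)) hU1 hV1 (by positivity) ?_ ?_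
  · have hsum : ∀ j ∈ Ioc J (2 * J), ‖Sf (FL J) J j χ‖ ^ 2
        ≤ 2 * (28 * (Real.log J) ^ (B + 1) * x ^ 12) ^ 2 +
          2 * ‖∑ m ∈ Icc 1 (27 * J ^ 3), ∑ n ∈ Icc 1 (27 * J ^ 3),
            ((if U < m then vonMangoldt m else 0 : ℝ) : ℂ) * (e n : ℂ) *
              SL_w J j χ (m * n)‖ ^ 2 := by
      intro j hj
      have h1 := hid (fun k => SL_w J j χ k) ?_ ?_
      · have h2 : Sf (FL J) J j χ
            = ∑ n ∈ Icc 1 (27 * J ^ 3), (vonMangoldt n : ℂ) * SL_w J j χ n := by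
          unfold Sf
          refine Finset.sum_congr rfl fun n _ => ?_
          rw [FL, SL_w]
          ring
        rw [h1] at h2
        have h3 := SL_typeI htI (27 * J ^ 3) U V J j r χ c d (4 * Real.log J) (by omega) hj hr
          hχ1 hU1 hlX hlUV hc1 hc0 hd1 hd0
        rw [h2]
        set T1 := ∑ m ∈ Icc 1 (27 * J ^ 3), ∑ n ∈ Icc 1 (27 * J ^ 3), (c m : ℂ) *
          (Real.log (n : ℕ) : ℂ) * SL_w J j χ (m * n) with hT1d
        set T2 := ∑ m ∈ Icc 1 (27 * J ^ 3), ∑ n ∈ Icc 1 (27 * J ^ 3), (d m : ℂ) *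
          SL_w J j χ (m * n) with hT2d
        set T3 := ∑ m ∈ Icc 1 (27 * J ^ 3), ∑ n ∈ Icc 1 (27 * J ^ 3),
            ((if U < m then vonMangoldt m else 0 : ℝ) : ℂ) * (e n : ℂ) *
              SL_w J j χ (m * n) with hT3d
        have h3' : ‖T1 - T2‖ ≤ 28 * (Real.log J) ^ (B + 1) * x ^ 12 := by
          refine h3.trans ?_
          calc 7 * (r : ℝ) * ((U * V : ℕ) : ℝ) * (4 * Real.log J)
              ≤ 7 * (Real.log J) ^ B * x ^ 12 * (4 * Real.log J) := by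
                apply mul_le_mul_of_nonneg_right _ (by positivity)
                apply mul_le_mul _ hUVx (Nat.cast_nonneg _) (by positivity)
                exact mul_le_mul_of_nonneg_left hrB (by norm_num)
            _ = 28 * (Real.log J) ^ (B + 1) * x ^ 12 := by ring
        have h4 : ‖T1 - T2 + T3‖ ≤ ‖T1 - T2‖ + ‖T3‖ := norm_add_le _ _
        have h5 : 0 ≤ ‖T1 - T2 + T3‖ := norm_nonneg _
        have h6 : 0 ≤ ‖T1 - T2‖ := norm_nonneg _
        have h7 : 0 ≤ ‖T3‖ := norm_nonneg _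
        calc ‖T1 - T2 + T3‖ ^ 2 ≤ (‖T1 - T2‖ + ‖T3‖) ^ 2 := pow_le_pow_left₀ h5 h4 2
          _ ≤ 2 * ‖T1 - T2‖ ^ 2 + 2 * ‖T3‖ ^ 2 := by nlinarith [sq_nonneg (‖T1 - T2‖ - ‖T3‖)]
          _ ≤ 2 * (28 * (Real.log J) ^ (B + 1) * x ^ 12) ^ 2 + 2 * ‖T3‖ ^ 2 := by
              have := pow_le_pow_left₀ h6 h3' 2
              linarith
      · intro n hn
        show SL_w J j χ n = 0
        by_cases hn0 : n = 0
        · unfold SL_w
          have : Fact (1 < r) := ⟨by omega⟩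
          rw [hn0, Nat.cast_zero, MulChar.map_nonunit χ (by simp), zero_mul]
        · by_contra hne
          have hw : wJ J j n ≠ 0 := by
            intro h0
            apply hne
            rw [SL_w, h0, Complex.ofReal_zero, mul_zero]
          have := (SL_supp hspc J j n (by omega) hj (by omega) hw).1
          have h3 : J * 54 ≤ J ^ 3 := by
            calc J * 54 ≤ J * (J * J) := Nat.mul_le_mul_left _ (by nlinarith)
              _ = J ^ 3 := by ring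
          omega
      · intro n hn
        show SL_w J j χ n = 0
        by_contra hne
        have hw : wJ J j n ≠ 0 := by
          intro h0
          apply hne
          rw [SL_w, h0, Complex.ofReal_zero, mul_zero]
        have := (SL_supp hspc J j n (by omega) hj (by omega) hw).2
        omega
    refine (Finset.sum_le_sum hsum).trans ?_
    rw [Finset.sum_add_distrib, Finset.sum_const, Nat.card_Ioc, nsmul_eq_mul, ← Finset.mul_sum]
    have hcard : ((2 * J - J : ℕ) : ℝ) = J := by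
      have : 2 * J - J = J := by omega
      rw [this]
    rw [hcard]
    have hT3' := mul_le_mul_of_nonneg_left hT3 (show (0 : ℝ) ≤ 2 by norm_num)
    refine (add_le_add le_rfl hT3').trans ?_
    set L := Real.log J with hLdef
    have hLA : 0 < L ^ A := by positivity
    have e1 : (J : ℝ) * (2 * (28 * L ^ (B + 1) * x ^ 12) ^ 2) ≤ (J : ℝ) ^ 5 / L ^ A * (1 / 2) := by
      rw [div_mul_eq_mul_div, le_div_iff₀ hLA]
      have h1 : (10 : ℝ) ^ 4 ≤ L ^ 4 := pow_le_pow_left₀ (by norm_num) hL _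
      have h2 : (3136 : ℝ) * (L ^ (B + 1)) ^ 2 * L ^ A ≤ x := by
        calc (3136 : ℝ) * (L ^ (B + 1)) ^ 2 * L ^ A ≤ L ^ 4 * (L ^ (B + 1)) ^ 2 * L ^ A := by
              apply mul_le_mul_of_nonneg_right _ hLA.le
              apply mul_le_mul_of_nonneg_right _ (by positivity)
              linarith
          _ = L ^ (A + 2 * B + 6) := by ring
          _ ≤ x := hlA
      have h3 : x ^ 35 ≤ x ^ 50 := pow_le_pow_right₀ hx1 (by norm_num)
      calc (J : ℝ) * (2 * (28 * L ^ (B + 1) * x ^ 12) ^ 2) * L ^ A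
          = x ^ 34 * (3136 * (L ^ (B + 1)) ^ 2 * L ^ A) * (1 / 2) := by rw [hJx]; ring
        _ ≤ x ^ 34 * x * (1 / 2) := by
            apply mul_le_mul_of_nonneg_right _ (by norm_num)
            exact mul_le_mul_of_nonneg_left h2 (by positivity)
        _ = x ^ 35 * (1 / 2) := by ring
        _ ≤ x ^ 50 * (1 / 2) := mul_le_mul_of_nonneg_right h3 (by norm_num)
        _ = (J : ℝ) ^ 5 * (1 / 2) := by rw [hJx]; ring
    have e2 : 2 * (L ^ 5 * ((J : ℝ) ^ 5 / L ^ (A + 6))) ≤ (J : ℝ) ^ 5 / L ^ A * (1 / 2) := by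
      have h1 : 2 * (L ^ 5 * ((J : ℝ) ^ 5 / L ^ (A + 6))) = (J : ℝ) ^ 5 / L ^ A * (2 / L) := by
        have h2 : L ^ (A + 6) = L ^ A * L ^ 5 * L := by ring
        rw [h2]
        field_simp
      rw [h1]
      apply mul_le_mul_of_nonneg_left _ (by positivity)
      rw [div_le_div_iff₀ (by positivity) (by norm_num)]
      linarith
    linarith
  · intro j hj m n hm1 hn1 hne
    have h1 : U < m := by
      by_contra h
      apply hne
      simp only [if_neg h]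
      simp
    have h2 : V < n := by
      by_contra h
      apply hne
      simp only [he0 n (not_lt.1 h)]
      simp
    have h3 : wJ J j (m * n) ≠ 0 := by
      intro h
      apply hne
      simp only [SL_w, h]
      simp
    have h4 := SL_supp hspc J j (m * n) (by omega) hj (Nat.mul_pos hm1 hn1) h3
    exact ⟨h1, h2, by omega, h4.2⟩
  · intro M N hUM hVN _ hMN
    have hM1 : 1 ≤ M := hU1.trans hUM
    have hN1 : 1 ≤ N := hV1.trans hVN
    have hM27 : M ≤ 27 * J ^ 3 := (Nat.le_mul_of_pos_right M hN1).trans hMN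
    have hN27 : N ≤ 27 * J ^ 3 := (Nat.le_mul_of_pos_left N hM1).trans hMN
    refine SL_block A J M N U r χ e he1 hc hUM (by omega) hMN hL (hlog4 M hM1 hM27)
      (hlog4 N hN1 hN27) ?_
    intro θ hθ2
    refine SL_dp A B C0 M0 hM0 J M r χ hr hrB hχ (by omega) hM01 ?_ hL hL1 hL2 θ hθ2
    have h1 : x < (U : ℝ) + 1 := Nat.lt_floor_add_one x
    have h2 : (U : ℝ) ≤ M := by exact_mod_cast hUM
    have h3 : (1 : ℝ) ≤ M := by exact_mod_cast hM1
    linarith

end Pool.Agent.CH.D
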