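import Pool.Agent.Lib.MP_d610d0_nt.CH.D.Stm

set_option autoImplicit false

/-!
Piece SR.
-/

namespace Pool.Agent.CH.D

open Finset Filter
open ArithmeticFunction (vonMangoldt)
open Pool.Agent.MP89da58 (tri primChars)
open Pool.Agent.BVall (boxL)
open Pool.Agent.CH.V (pz ex)
open Pool.Agent.CH.P (R_PW R_PNT)

/-- the bilinear terms -/
private noncomputable def SR_f (J : ℕ) (β : ℕ → ℝ) {r : ℕ} (χ : DirichletCharacter ℂ r)
    (j m n : ℕ) : ℂ :=
  ((sA J m : ℂ) * χ (m : ZMod r)) * ((β n : ℂ) * χ (n : ZMod r)) * (wJ J j (m * n) : ℂ)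

private lemma SR_top {J j : ℕ} (_hJ : 1 ≤ J) (hj : j ∈ Ioc J (2 * J)) :
    (j + 1) ^ 3 ≤ 27 * J ^ 3 := by
  rw [Finset.mem_Ioc] at hj
  have h1 : j + 1 ≤ 3 * J := by omega
  calc (j + 1) ^ 3 ≤ (3 * J) ^ 3 := Nat.pow_le_pow_left h1 3
    _ = 27 * J ^ 3 := by ring

private lemma SR_sum (hspc : R_spc) {J : ℕ} (hJ : 1 ≤ J) {β : ℕ → ℝ}
    (hβ : ∀ n : ℕ, 1 ≤ n → n ≤ 27 * J ^ 3 →
      RR (zJ J) n = ∑ d ∈ n.divisors, sA J d * β (n / d))
    {r : ℕ} (χ : DirichletCharacter ℂ r) {j : ℕ} (hj : j ∈ Ioc J (2 * J)) :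
    Sf (FR J) J j χ = ∑ m ∈ Icc 1 (27 * J ^ 3), ∑ n ∈ Icc 1 (27 * J ^ 3), SR_f J β χ j m n := by
  have h1 : ∀ n ∈ Icc 1 (27 * J ^ 3), ((FR J n : ℝ) : ℂ) * χ (n : ZMod r) * (wJ J j n : ℂ) =
      ∑ x ∈ n.divisorsAntidiagonal, SR_f J β χ j x.1 x.2 := by
    intro n hn
    rw [Finset.mem_Icc] at hn
    have h2 : FR J n = ∑ x ∈ n.divisorsAntidiagonal, sA J x.1 * β x.2 := by
      rw [Nat.sum_divisorsAntidiagonal (fun a b => sA J a * β b)]
      exact hβ n hn.1 hn.2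
    rw [h2]
    push_cast
    rw [Finset.sum_mul, Finset.sum_mul]
    apply Finset.sum_congr rfl
    intro x hx
    rw [Nat.mem_divisorsAntidiagonal] at hx
    unfold SR_f
    rw [← hx.1]
    push_cast
    rw [map_mul]
    ring
  unfold Sf
  rw [Finset.sum_congr rfl h1, Pool.Agent.MP89da58.sum_dA (SR_f J β χ j)]
  apply Finset.sum_congr rfl
  intro d hd
  apply Finset.sum_congr rfl
  intro m hm
  rw [Finset.mem_Icc] at hd hm
  by_cases h : d * m ≤ 27 * J ^ 3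
  · rw [if_pos h]
  · rw [if_neg h]
    have h3 : wJ J j (d * m) = 0 := by
      by_contra h4
      have h5 := ((hspc J hJ).2.1 j hj (d * m) (Nat.mul_pos hd.1 hm.1) h4).2
      have h6 := SR_top hJ hj
      omega
    unfold SR_f
    rw [h3, Complex.ofReal_zero, mul_zero]

private lemma SR_sA_ne {J m : ℕ} (h : sA J m ≠ 0) :
    m.Prime ∧ zJ J ≤ (m : ℝ) ∧ m ^ 2 ≤ 27 * J ^ 3 := by
  unfold sA at h
  by_contra h1
  exact h (if_neg h1)

private lemma SR_sA_norm (J m : ℕ) : ‖((sA J m : ℝ) : ℂ)‖ ≤ 1 := by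
  unfold sA
  split_ifs <;> simp

/-- the support of the bilinear terms -/
private lemma SR_supp (hspc : R_spc) {J : ℕ} (hJ : 27 ≤ J) {β : ℕ → ℝ} {r : ℕ}
    (χ : DirichletCharacter ℂ r) {j : ℕ} (hj : j ∈ Ioc J (2 * J)) {m n : ℕ} (hm : 1 ≤ m)
    (hn : 1 ≤ n) (h : SR_f J β χ j m n ≠ 0) :
    ⌊(J : ℝ) ^ (3 / 8 : ℝ)⌋₊ < m ∧ J < n ∧ J ^ 3 < 2 * (m * n) ∧ m * n < 27 * J ^ 3 := by
  unfold SR_f at h
  have hw : wJ J j (m * n) ≠ 0 := by
    intro h1
    rw [h1, Complex.ofReal_zero, mul_zero] at h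
    exact h rfl
  have hs : sA J m ≠ 0 := by
    intro h1
    rw [h1, Complex.ofReal_zero, zero_mul, zero_mul, zero_mul] at h
    exact h rfl
  obtain ⟨hp, hz, hsq⟩ := SR_sA_ne hs
  obtain ⟨h1, h2⟩ := (hspc J (by omega)).2.1 j hj (m * n) (Nat.mul_pos hm hn) hw
  have h3 := SR_top (by omega) hj
  rw [Finset.mem_Ioc] at hj
  have h4 : J ^ 3 < m * n := lt_of_le_of_lt (Nat.pow_le_pow_left hj.1.le 3) h1
  refine ⟨?_, ?_, by omega, by omega⟩
  · have hJ0 : (0 : ℝ) < J := by exact_mod_cast (by omega : 0 < J)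
    have h5 : (J : ℝ) ^ (3 / 8 : ℝ) < zJ J := by
      unfold zJ
      exact Real.rpow_lt_rpow hJ0.le (by linarith) (by norm_num)
    have h6 : ((⌊(J : ℝ) ^ (3 / 8 : ℝ)⌋₊ : ℕ) : ℝ) ≤ (J : ℝ) ^ (3 / 8 : ℝ) :=
      Nat.floor_le (by positivity)
    exact_mod_cast (h6.trans_lt h5).trans_le hz
  · by_contra h5
    have h6 : n ≤ J := by omega
    have h7 : J ^ 3 < m * J := lt_of_lt_of_le h4 (Nat.mul_le_mul_left m h6)
    have h8 : J ^ 2 < m := by
      have h9 : J ^ 2 * J < m * J := by calc J ^ 2 * J = J ^ 3 := by ring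
        _ < m * J := h7
      exact lt_of_mul_lt_mul_right h9 (Nat.zero_le J)
    have h9 : (J ^ 2) ^ 2 < m ^ 2 := Nat.pow_lt_pow_left h8 (by norm_num)
    have h10 : 27 * J ^ 3 ≤ (J ^ 2) ^ 2 := by
      calc 27 * J ^ 3 ≤ J * J ^ 3 := Nat.mul_le_mul_right _ hJ
        _ = (J ^ 2) ^ 2 := by ring
    omega

/-- the Dirichlet polynomial over the small primes of a dyadic block -/
private lemma SR_dp (J M : ℕ) {r : ℕ} (χ : DirichletCharacter ℂ r) (θ : ℝ) :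
    ∃ M1 M2 : ℕ, M2 ≤ 2 * M ∧
      dp (fun m => if M < m then (sA J m : ℂ) * χ (m : ZMod r) else 0) (2 * M) θ =
        ∑ n ∈ (Ioc M1 M2).filter Nat.Prime, χ (n : ZMod r) * pz (-θ) n := by
  classical
  refine ⟨max M (⌈zJ J⌉₊ - 1), min (2 * M) (Nat.sqrt (27 * J ^ 3)), min_le_left _ _, ?_⟩
  unfold dp
  have h1 : (Ioc (max M (⌈zJ J⌉₊ - 1)) (min (2 * M) (Nat.sqrt (27 * J ^ 3)))).filter Nat.Prime =
      (Icc 1 (2 * M)).filter (fun m => M < m ∧ m.Prime ∧ zJ J ≤ (m : ℝ) ∧ m ^ 2 ≤ 27 * J ^ 3) := by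
    ext m
    rw [Finset.mem_filter, Finset.mem_filter, Finset.mem_Ioc, Finset.mem_Icc, max_lt_iff,
      le_min_iff, Nat.le_sqrt, ← pow_two]
    have h2 : m.Prime → (⌈zJ J⌉₊ - 1 < m ↔ zJ J ≤ (m : ℝ)) := by
      intro hp
      have h3 := hp.one_lt
      rw [← Nat.ceil_le]
      omega
    constructor
    · rintro ⟨⟨⟨ha, hb⟩, hc, hd⟩, hp⟩
      exact ⟨⟨hp.one_lt.le, hc⟩, ha, hp, (h2 hp).1 hb, hd⟩
    · rintro ⟨⟨_, hc⟩, ha, hp, hb, hd⟩
      exact ⟨⟨⟨ha, (h2 hp).2 hb⟩, hc, hd⟩, hp⟩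
  rw [h1, Finset.sum_filter]
  apply Finset.sum_congr rfl
  intro m _
  show (if M < m then (sA J m : ℂ) * χ (m : ZMod r) else 0) * pz (-θ) m = _
  by_cases hM : M < m
  · rw [if_pos hM]
    by_cases hc : m.Prime ∧ zJ J ≤ (m : ℝ) ∧ m ^ 2 ≤ 27 * J ^ 3
    · rw [if_pos ⟨hM, hc⟩]
      have hs : sA J m = 1 := by unfold sA; exact if_pos hc
      rw [hs, Complex.ofReal_one, one_mul]
    · rw [if_neg (fun h => hc h.2)]
      have hs : sA J m = 0 := by unfold sA; exact if_neg hc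
      rw [hs, Complex.ofReal_zero, zero_mul, zero_mul]
  · rw [if_neg hM, if_neg (fun h => hM h.1), zero_mul]

private lemma SR_restrict (N : ℕ) (F : ℕ → ℂ) :
    ∑ n ∈ Ioc N (2 * N), F n = ∑ n ∈ Icc 1 (2 * N), if N < n then F n else 0 := by
  rw [← Finset.sum_filter]
  apply Finset.sum_congr _ (fun _ _ => rfl)
  ext n
  rw [Finset.mem_Ioc, Finset.mem_filter, Finset.mem_Icc]
  omega

private lemma SR_block (J M N : ℕ) (β : ℕ → ℝ) {r : ℕ} (χ : DirichletCharacter ℂ r) (j : ℕ) :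
    ∑ m ∈ Ioc M (2 * M), ∑ n ∈ Ioc N (2 * N), SR_f J β χ j m n =
      ∑ m ∈ Icc 1 (2 * M), ∑ n ∈ Icc 1 (2 * N),
        (if M < m then (sA J m : ℂ) * χ (m : ZMod r) else 0) *
        (if N < n then (β n : ℂ) * χ (n : ZMod r) else 0) * (wJ J j (m * n) : ℂ) := by
  rw [SR_restrict M (fun m => ∑ n ∈ Ioc N (2 * N), SR_f J β χ j m n)]
  apply Finset.sum_congr rfl
  intro m _
  by_cases hM : M < m
  · rw [if_pos hM, if_pos hM, SR_restrict]
    apply Finset.sum_congr rfl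
    intro n _
    by_cases hN : N < n
    · rw [if_pos hN, if_pos hN]
      rfl
    · rw [if_neg hN, if_neg hN, mul_zero, zero_mul]
  · rw [if_neg hM, if_neg hM]
    symm
    apply Finset.sum_eq_zero
    intro n _
    rw [zero_mul, zero_mul]

/-- sums of the norms over a dyadic block -/
private lemma SR_norm (N : ℕ) (F : ℕ → ℂ) (K : ℝ) (hK : ∀ n, ‖F n‖ ≤ K) :
    ∑ n ∈ Icc 1 (2 * N), ‖if N < n then F n else 0‖ ≤ N * K := by
  have h1 : ∀ n ∈ Icc 1 (2 * N), ‖if N < n then F n else 0‖ =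
      if N < n then ‖F n‖ else 0 := by
    intro n _
    split_ifs
    · rfl
    · exact norm_zero
  rw [Finset.sum_congr rfl h1, ← Finset.sum_filter]
  have h2 : (Icc 1 (2 * N)).filter (fun n => N < n) = Ioc N (2 * N) := by
    ext n
    rw [Finset.mem_Ioc, Finset.mem_filter, Finset.mem_Icc]
    omega
  rw [h2]
  refine (Finset.sum_le_card_nsmul _ _ K (fun n _ => hK n)).trans ?_
  rw [Nat.card_Ioc, nsmul_eq_mul]
  have h3 : 2 * N - N = N := by omega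
  rw [h3]

theorem p_SR : S_SR := by
  intro hsml hdya hdec hspc hpwp A B
  obtain ⟨C0, hC0⟩ := hpwp (A + 10) (B + 1) 8 (by norm_num)
  obtain ⟨M0, hM0⟩ := Filter.eventually_atTop.1 hC0
  have htL : Tendsto (fun J : ℕ => Real.log (J : ℝ)) atTop atTop :=
    Real.tendsto_log_atTop.comp tendsto_natCast_atTop_atTop
  have htJ : Tendsto (fun J : ℕ => (J : ℝ) ^ (3 / 8 : ℝ)) atTop atTop :=
    (tendsto_rpow_atTop (by norm_num)).comp tendsto_natCast_atTop_atTop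
  filter_upwards [hsml (A + 5), hdya, eventually_ge_atTop 27,
    htL.eventually_ge_atTop 100, htL.eventually_ge_atTop (2 * 3 ^ (A + 10)),
    htL.eventually_ge_atTop (3 * 3 ^ B), htJ.eventually_ge_atTop (max M0 1)]
    with J hs hd hJ hL1 hL2 hL3 hJM r χ hr hrB hχ
  set L : ℝ := Real.log (J : ℝ) with hLd
  have hL0 : 0 < L := by linarith
  obtain ⟨β, hβ, hβ2⟩ := hdec J (by omega)
  have hJ0 : (0 : ℝ) < J := by exact_mod_cast (by omega : 0 < J)
  have hJ38 : (1 : ℝ) ≤ (J : ℝ) ^ (3 / 8 : ℝ) := (le_max_right _ _).trans hJM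
  have hU1 : 1 ≤ ⌊(J : ℝ) ^ (3 / 8 : ℝ)⌋₊ := by
    apply Nat.le_floor
    rw [Nat.cast_one]
    exact hJ38
  have hmain := hd ⌊(J : ℝ) ^ (3 / 8 : ℝ)⌋₊ J (fun j m n => SR_f J β χ j m n)
    ((J : ℝ) ^ 5 / L ^ (A + 5)) hU1 (by omega) (by positivity)
    (fun j hj m n hm hn h => SR_supp hspc hJ χ hj hm hn h) ?_
  · rw [Finset.sum_congr rfl (fun j hj => by rw [SR_sum hspc (by omega) hβ2 χ hj])]
    refine hmain.trans (le_of_eq ?_)
    rw [pow_add]
    field_simp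
  · intro M N hM hN _ hMN
    have h2M : (J : ℝ) ^ (3 / 8 : ℝ) ≤ 2 * (M : ℝ) := by
      have h1 : (J : ℝ) ^ (3 / 8 : ℝ) < (⌊(J : ℝ) ^ (3 / 8 : ℝ)⌋₊ : ℝ) + 1 := Nat.lt_floor_add_one _
      have h2 : ((⌊(J : ℝ) ^ (3 / 8 : ℝ)⌋₊ : ℕ) : ℝ) ≤ M := by exact_mod_cast hM
      have h3 : (1 : ℝ) ≤ ((⌊(J : ℝ) ^ (3 / 8 : ℝ)⌋₊ : ℕ) : ℝ) := by exact_mod_cast hU1
      linarith
    have hM1 : (1 : ℝ) ≤ M := by exact_mod_cast hU1.trans hM
    have hlog : 3 / 8 * L ≤ Real.log (2 * (M : ℝ)) := by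
      have h1 := Real.log_le_log (by linarith) h2M
      rwa [Real.log_rpow hJ0] at h1
    have hlog3 : L ≤ 3 * Real.log (2 * (M : ℝ)) := by linarith
    have hLM : (1 : ℝ) ≤ L ^ 6 := one_le_pow₀ (by linarith)
    have hres := hs M N (fun m => if M < m then (sA J m : ℂ) * χ (m : ZMod r) else 0)
      (fun n => if N < n then (β n : ℂ) * χ (n : ZMod r) else 0) (by omega) hMN ?_ ?_ ?_
    · refine le_trans (le_of_eq ?_) hres
      apply Finset.sum_congr rfl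
      intro j _
      rw [SR_block]
    · refine (SR_norm M _ 1 ?_).trans ?_
      · intro m
        rw [norm_mul]
        calc ‖((sA J m : ℝ) : ℂ)‖ * ‖χ (m : ZMod r)‖ ≤ 1 * 1 :=
              mul_le_mul (SR_sA_norm J m) (χ.norm_le_one _) (norm_nonneg _) zero_le_one
          _ = 1 := one_mul 1
      · exact mul_le_mul_of_nonneg_left hLM (by linarith)
    · have h1 : ∀ n ∈ Icc 1 (2 * N), ‖if N < n then (β n : ℂ) * χ (n : ZMod r) else 0‖ ^ 2 =
          ‖if N < n then ((β n : ℂ) * χ (n : ZMod r)) ^ 2 else 0‖ := by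
        intro n _
        split_ifs
        · rw [norm_pow]
        · simp
      rw [Finset.sum_congr rfl h1]
      refine (SR_norm N _ (1000000 ^ 2) ?_).trans ?_
      · intro n
        rw [norm_pow, norm_mul, Complex.norm_real]
        have h2 : ‖β n‖ * ‖χ (n : ZMod r)‖ ≤ 1000000 * 1 :=
          mul_le_mul (hβ n) (χ.norm_le_one _) (norm_nonneg _) (by norm_num)
        rw [mul_one] at h2
        exact pow_le_pow_left₀ (by positivity) h2 2
      · apply mul_le_mul_of_nonneg_left _ (Nat.cast_nonneg N)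
        calc (1000000 : ℝ) ^ 2 = 100 ^ 6 := by norm_num
          _ ≤ L ^ 6 := pow_le_pow_left₀ (by norm_num) hL1 6
    · intro θ hθ
      obtain ⟨M1, M2, hM2, hdp⟩ := SR_dp J M χ θ
      rw [hdp]
      have hlM : 0 < Real.log (2 * (M : ℝ)) := by linarith
      have h2M0 : (0 : ℝ) < 2 * (M : ℝ) := by linarith
      have hb := hM0 (2 * (M : ℝ)) (((le_max_left _ _).trans hJM).trans h2M) r χ (by omega) ?_ hχ θ
        ?_ (Or.inl hr) M1 M2 (by exact_mod_cast hM2)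
      · refine hb.trans ?_
        rw [div_le_div_iff₀ (by positivity) (by positivity)]
        have h1 : L ^ (A + 10) ≤ 3 ^ (A + 10) * Real.log (2 * (M : ℝ)) ^ (A + 10) := by
          rw [← mul_pow]
          exact pow_le_pow_left₀ hL0.le hlog3 _
        have h2 : 2 * 3 ^ (A + 10) * L ^ (A + 9) ≤ L ^ (A + 10) := by
          rw [pow_succ L (A + 9), mul_comm (L ^ (A + 9)) L]
          exact mul_le_mul_of_nonneg_right hL2 (by positivity)
        have h3 : (0 : ℝ) < 3 ^ (A + 10) := by positivity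
        have h4 : 2 * L ^ (A + 5 + 4) ≤ Real.log (2 * (M : ℝ)) ^ (A + 10) := by
          have h5 : A + 5 + 4 = A + 9 := by omega
          rw [h5]
          have h6 : 3 ^ (A + 10) * (2 * L ^ (A + 9)) ≤
              3 ^ (A + 10) * Real.log (2 * (M : ℝ)) ^ (A + 10) := by
            calc 3 ^ (A + 10) * (2 * L ^ (A + 9)) = 2 * 3 ^ (A + 10) * L ^ (A + 9) := by ring
              _ ≤ L ^ (A + 10) := h2
              _ ≤ _ := h1
          exact le_of_mul_le_mul_left h6 h3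
        calc 2 * (M : ℝ) * L ^ (A + 5 + 4) = M * (2 * L ^ (A + 5 + 4)) := by ring
          _ ≤ M * Real.log (2 * (M : ℝ)) ^ (A + 10) :=
              mul_le_mul_of_nonneg_left h4 (by linarith)
      · refine hrB.trans ?_
        have h1 : L ^ B ≤ 3 ^ B * Real.log (2 * (M : ℝ)) ^ B := by
          rw [← mul_pow]
          exact pow_le_pow_left₀ hL0.le hlog3 _
        have h2 : (3 : ℝ) ^ B ≤ Real.log (2 * (M : ℝ)) := by linarith
        calc L ^ B ≤ 3 ^ B * Real.log (2 * (M : ℝ)) ^ B := h1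
          _ ≤ Real.log (2 * (M : ℝ)) * Real.log (2 * (M : ℝ)) ^ B :=
              mul_le_mul_of_nonneg_right h2 (by positivity)
          _ = Real.log (2 * (M : ℝ)) ^ (B + 1) := by ring
      · refine hθ.trans ?_
        have h1 : ((J : ℝ) ^ (3 / 8 : ℝ)) ^ (8 : ℝ) = (J : ℝ) ^ 3 := by
          rw [← Real.rpow_mul hJ0.le, ← Real.rpow_natCast]
          norm_num
        rw [← h1]
        exact Real.rpow_le_rpow (by positivity) h2M (by norm_num)

end Pool.Agent.CH.D
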