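import Pool.Agent.Lib.MP_d610d0_nt.CH.D.Stm

set_option autoImplicit false

/-!
Piece TT.
-/

namespace Pool.Agent.CH.D

open Finset Filter
open ArithmeticFunction (vonMangoldt)
open Pool.Agent.MP89da58 (tri primChars)
open Pool.Agent.BVall (boxL)
open Pool.Agent.CH.V (pz ex)
open Pool.Agent.CH.P (R_PW R_PNT)

theorem TT_dnonneg (n : ℕ) : 0 ≤ vonMangoldt n - thP n := by
  unfold thP
  split_ifs with h
  · rw [ArithmeticFunction.vonMangoldt_apply_prime h]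
    linarith
  · rw [sub_zero]
    exact ArithmeticFunction.vonMangoldt_nonneg

theorem TT_wJ0 (J j n : ℕ) : 0 ≤ wJ J j n := le_max_left _ _

theorem TT_wL0 (lam : ℝ) (j n : ℕ) : 0 ≤ wL lam j n := le_max_left _ _

theorem TT_wL1 (lam : ℝ) (j n : ℕ) : wL lam j n ≤ 1 :=
  max_le zero_le_one (by linarith [abs_nonneg (lam * Real.log (n / ((j : ℝ) + 1 / 2) ^ 3))])

theorem TT_ev (a b C : ℝ) (A : ℕ) (hab : a < b) (hC : 0 ≤ C) :
    ∀ᶠ J : ℕ in atTop, C * (J : ℝ) ^ a * (Real.log J) ^ A ≤ (J : ℝ) ^ b := by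
  have h1 : (fun x : ℝ => Real.log x ^ (A : ℝ)) =o[atTop] fun x : ℝ => x ^ (b - a) :=
    isLittleO_log_rpow_rpow_atTop (A : ℝ) (by linarith)
  have h2 := h1.bound (show (0 : ℝ) < 1 / (C + 1) by positivity)
  have h3 := tendsto_natCast_atTop_atTop (R := ℝ) |>.eventually h2
  filter_upwards [h3, eventually_ge_atTop 1] with J hJ hJ1
  have hJ0 : (0 : ℝ) < (J : ℝ) := by exact_mod_cast hJ1
  have hJ1' : (1 : ℝ) ≤ (J : ℝ) := by exact_mod_cast hJ1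
  have hl : 0 ≤ Real.log (J : ℝ) := Real.log_nonneg hJ1'
  rw [Real.norm_of_nonneg (by positivity), Real.norm_of_nonneg (by positivity),
    Real.rpow_natCast] at hJ
  have hCC : C ≤ C + 1 := by linarith
  calc C * (J : ℝ) ^ a * (Real.log J) ^ A
      ≤ (C + 1) * (J : ℝ) ^ a * (1 / (C + 1) * (J : ℝ) ^ (b - a)) := by
        gcongr
    _ = (J : ℝ) ^ a * (J : ℝ) ^ (b - a) := by
        field_simp
    _ = (J : ℝ) ^ b := by
        rw [← Real.rpow_add hJ0]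
        congr 1
        ring

theorem TT_sq {ι : Type*} (S : Finset ι) (u v w : ι → ℂ) (c : ℝ)
    (h : ∀ i ∈ S, u i = v i - w i) (hw : ∀ i ∈ S, ‖w i‖ ≤ c) :
    ∑ i ∈ S, ‖u i‖ ^ 2 ≤ 2 * ∑ i ∈ S, ‖v i‖ ^ 2 + 2 * (S.card : ℝ) * c ^ 2 := by
  have h1 : ∑ i ∈ S, ‖u i‖ ^ 2 ≤ ∑ i ∈ S, (2 * ‖v i‖ ^ 2 + 2 * c ^ 2) := by
    refine Finset.sum_le_sum fun i hi => ?_
    have h2 : ‖u i‖ ≤ ‖v i‖ + c := by
      rw [h i hi]
      exact (norm_sub_le _ _).trans (by linarith [hw i hi])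
    have h3 : 0 ≤ ‖u i‖ := norm_nonneg _
    nlinarith [sq_nonneg (‖v i‖ - c)]
  refine h1.trans (le_of_eq ?_)
  rw [Finset.sum_add_distrib, ← Finset.mul_sum, Finset.sum_const, nsmul_eq_mul]
  ring

theorem TT_Sf (J j r : ℕ) (χ : DirichletCharacter ℂ r) :
    Sf thP J j χ = Sf (fun n => vonMangoldt n) J j χ -
      Sf (fun n => vonMangoldt n - thP n) J j χ := by
  unfold Sf
  rw [← Finset.sum_sub_distrib]
  refine Finset.sum_congr rfl fun n _ => ?_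
  push_cast
  ring

theorem TT_SfD (J j r : ℕ) (χ : DirichletCharacter ℂ r) :
    ‖Sf (fun n => vonMangoldt n - thP n) J j χ‖ ≤
      ∑ n ∈ Icc 1 (27 * J ^ 3), (vonMangoldt n - thP n) * wJ J j n := by
  unfold Sf
  refine (norm_sum_le _ _).trans (Finset.sum_le_sum fun n _ => ?_)
  rw [norm_mul, norm_mul, Complex.norm_real, Complex.norm_real,
    Real.norm_of_nonneg (TT_dnonneg n), Real.norm_of_nonneg (TT_wJ0 J j n)]
  have h1 : ‖χ (n : ZMod r)‖ ≤ 1 := DirichletCharacter.norm_le_one χ _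
  have h2 := TT_dnonneg n
  have h3 := TT_wJ0 J j n
  calc (vonMangoldt n - thP n) * ‖χ (n : ZMod r)‖ * wJ J j n
      ≤ (vonMangoldt n - thP n) * 1 * wJ J j n := by gcongr
    _ = _ := by ring

theorem TT_cardJ (J : ℕ) : ((Ioc J (2 * J)).card : ℝ) = J := by
  rw [Nat.card_Ioc]
  congr 1
  omega

theorem TT_logev (c : ℝ) : ∀ᶠ J : ℕ in atTop, c ≤ Real.log J :=
  (Real.tendsto_log_atTop.comp tendsto_natCast_atTop_atTop).eventually_ge_atTop c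

theorem TT_LC (hpp : R_pp) (h : LCb FL) : LCb FT := by
  intro A
  obtain ⟨B, hB⟩ := h (A + 2)
  refine ⟨B, ?_⟩
  filter_upwards [hB, hpp, TT_logev 2, eventually_ge_atTop 1,
    TT_ev (4198 / 1000) 5 4 A (by norm_num) (by norm_num)] with J hJ hp hlog hJ1 hev
  intro R hR1 hR2 th hth
  have hJ0 : (0 : ℝ) < (J : ℝ) := by exact_mod_cast hJ1
  have hL : 0 < Real.log (J : ℝ) := by linarith
  have h1 := hJ R hR1 hR2 th hth
  have h2 := TT_sq (Ioc J (2 * J)) (fun j => ∑ p ∈ primChars R, th p * Sf (FT J) J j p.2)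
    (fun j => ∑ p ∈ primChars R, th p * Sf (FL J) J j p.2)
    (fun j => ∑ p ∈ primChars R, th p * Sf (fun n => vonMangoldt n - thP n) J j p.2)
    ((R : ℝ) ^ 2 * (J : ℝ) ^ (3 / 5 : ℝ))
    (by
      intro j _
      show _ = _
      rw [← Finset.sum_sub_distrib]
      refine Finset.sum_congr rfl fun p _ => ?_
      show th p * Sf thP J j p.2 = _
      rw [TT_Sf]
      show _ = th p * Sf (fun n => vonMangoldt n) J j p.2 - _
      ring)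
    (by
      intro j hj
      refine (norm_sum_le _ _).trans ?_
      calc ∑ p ∈ primChars R, ‖th p * Sf (fun n => vonMangoldt n - thP n) J j p.2‖
          ≤ ∑ p ∈ primChars R, (J : ℝ) ^ (3 / 5 : ℝ) := by
            refine Finset.sum_le_sum fun p _ => ?_
            rw [norm_mul]
            have e1 := TT_SfD J j p.1 p.2
            have e2 := hp.1 j hj
            have e3 := hth p
            have e4 : 0 ≤ ‖Sf (fun n => vonMangoldt n - thP n) J j p.2‖ := norm_nonneg _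
            calc ‖th p‖ * ‖Sf (fun n => vonMangoldt n - thP n) J j p.2‖
                ≤ 1 * ‖Sf (fun n => vonMangoldt n - thP n) J j p.2‖ := by gcongr
              _ ≤ (J : ℝ) ^ (3 / 5 : ℝ) := by linarith
        _ = ((primChars R).card : ℝ) * (J : ℝ) ^ (3 / 5 : ℝ) := by
            rw [Finset.sum_const, nsmul_eq_mul]
        _ ≤ (R : ℝ) ^ 2 * (J : ℝ) ^ (3 / 5 : ℝ) := by
            have e5 : ((primChars R).card : ℝ) ≤ (R : ℝ) ^ 2 := by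
              exact_mod_cast Pool.Agent.MP89da58.card_primChars R
            gcongr)
  rw [TT_cardJ] at h2
  refine h2.trans ?_
  have e1 : 2 * ((R : ℝ) ^ 2 * (J : ℝ) ^ 5 / (Real.log J) ^ (A + 2))
      ≤ (R : ℝ) ^ 2 * (J : ℝ) ^ 5 / (Real.log J) ^ A / 2 := by
    rw [pow_add, ← div_div]
    have e6 : 0 ≤ (R : ℝ) ^ 2 * (J : ℝ) ^ 5 / (Real.log J) ^ A := by positivity
    rw [← mul_div_assoc, div_le_div_iff₀ (by positivity) (by norm_num)]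
    have e7 : 4 ≤ Real.log (J : ℝ) ^ 2 := by nlinarith
    nlinarith
  have e8 : (R : ℝ) ^ 2 ≤ (J : ℝ) ^ (1998 / 1000 : ℝ) := by
    have e9 : (R : ℝ) ^ 2 ≤ ((J : ℝ) ^ (999 / 1000 : ℝ)) ^ 2 := by gcongr
    refine e9.trans (le_of_eq ?_)
    rw [← Real.rpow_natCast, ← Real.rpow_mul hJ0.le]
    norm_num
  have e10 : 2 * (J : ℝ) * ((R : ℝ) ^ 2 * (J : ℝ) ^ (3 / 5 : ℝ)) ^ 2
      ≤ (R : ℝ) ^ 2 * (J : ℝ) ^ 5 / (Real.log J) ^ A / 2 := by
    have e11 : 2 * (J : ℝ) * ((R : ℝ) ^ 2 * (J : ℝ) ^ (3 / 5 : ℝ)) ^ 2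
        = (R : ℝ) ^ 2 * (2 * ((R : ℝ) ^ 2 * ((J : ℝ) * ((J : ℝ) ^ (3 / 5 : ℝ)) ^ 2))) := by ring
    have e12 : (J : ℝ) * ((J : ℝ) ^ (3 / 5 : ℝ)) ^ 2 = (J : ℝ) ^ (11 / 5 : ℝ) := by
      rw [← Real.rpow_natCast, ← Real.rpow_mul hJ0.le]
      nth_rewrite 1 [← Real.rpow_one (J : ℝ)]
      rw [← Real.rpow_add hJ0]
      norm_num
    have e13 : (J : ℝ) ^ (1998 / 1000 : ℝ) * (J : ℝ) ^ (11 / 5 : ℝ) =
        (J : ℝ) ^ (4198 / 1000 : ℝ) := by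
      rw [← Real.rpow_add hJ0]
      norm_num
    have e14 : (R : ℝ) ^ 2 * (J : ℝ) ^ (11 / 5 : ℝ) ≤ (J : ℝ) ^ (4198 / 1000 : ℝ) := by
      rw [← e13]
      gcongr
    have e15 : (J : ℝ) ^ (5 : ℝ) = (J : ℝ) ^ 5 := by
      rw [← Real.rpow_natCast]
      norm_num
    rw [e15] at hev
    have e16 : 4 * (J : ℝ) ^ (4198 / 1000 : ℝ) ≤ (J : ℝ) ^ 5 / (Real.log J) ^ A := by
      rw [le_div_iff₀ (by positivity)]
      exact hev
    rw [e11, e12]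
    have e17 : (R : ℝ) ^ 2 * (J : ℝ) ^ 5 / (Real.log J) ^ A / 2
        = (R : ℝ) ^ 2 * ((J : ℝ) ^ 5 / (Real.log J) ^ A / 2) := by ring
    rw [e17]
    have e18 : (0 : ℝ) ≤ (R : ℝ) ^ 2 := by positivity
    refine mul_le_mul_of_nonneg_left ?_ e18
    linarith
  linarith

theorem TT_SC (hpp : R_pp) (h : SCb FL) : SCb FT := by
  intro A B
  filter_upwards [h (A + 2) B, hpp, TT_logev 2, eventually_ge_atTop 1,
    TT_ev (11 / 5) 5 4 A (by norm_num) (by norm_num)] with J hJ hp hlog hJ1 hev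
  intro r χ hr1 hr2 hχ
  have hJ0 : (0 : ℝ) < (J : ℝ) := by exact_mod_cast hJ1
  have hL : 0 < Real.log (J : ℝ) := by linarith
  have h1 := hJ r χ hr1 hr2 hχ
  have h2 := TT_sq (Ioc J (2 * J)) (fun j => Sf (FT J) J j χ)
    (fun j => Sf (FL J) J j χ)
    (fun j => Sf (fun n => vonMangoldt n - thP n) J j χ)
    ((J : ℝ) ^ (3 / 5 : ℝ))
    (by
      intro j _
      exact TT_Sf J j r χ)
    (by
      intro j hj
      exact (TT_SfD J j r χ).trans (hp.1 j hj))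
  rw [TT_cardJ] at h2
  refine h2.trans ?_
  have e1 : 2 * ((J : ℝ) ^ 5 / (Real.log J) ^ (A + 2))
      ≤ (J : ℝ) ^ 5 / (Real.log J) ^ A / 2 := by
    rw [pow_add, ← div_div]
    have e6 : 0 ≤ (J : ℝ) ^ 5 / (Real.log J) ^ A := by positivity
    rw [← mul_div_assoc, div_le_div_iff₀ (by positivity) (by norm_num)]
    have e7 : 4 ≤ Real.log (J : ℝ) ^ 2 := by nlinarith
    nlinarith
  have e12 : (J : ℝ) * ((J : ℝ) ^ (3 / 5 : ℝ)) ^ 2 = (J : ℝ) ^ (11 / 5 : ℝ) := by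
    rw [← Real.rpow_natCast, ← Real.rpow_mul hJ0.le]
    nth_rewrite 1 [← Real.rpow_one (J : ℝ)]
    rw [← Real.rpow_add hJ0]
    norm_num
  have e15 : (J : ℝ) ^ (5 : ℝ) = (J : ℝ) ^ 5 := by
    rw [← Real.rpow_natCast]
    norm_num
  rw [e15] at hev
  have e16 : 4 * (J : ℝ) ^ (11 / 5 : ℝ) ≤ (J : ℝ) ^ 5 / (Real.log J) ^ A := by
    rw [le_div_iff₀ (by positivity)]
    exact hev
  have e17 : 2 * (J : ℝ) * ((J : ℝ) ^ (3 / 5 : ℝ)) ^ 2 = 2 * (J : ℝ) ^ (11 / 5 : ℝ) := by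
    rw [← e12]
    ring
  rw [e17]
  linarith

theorem TT_sqr {ι : Type*} (S : Finset ι) (u v : ι → ℝ) (c : ℝ)
    (h : ∀ i ∈ S, |v i - u i| ≤ c) :
    ∑ i ∈ S, u i ^ 2 ≤ 2 * ∑ i ∈ S, v i ^ 2 + 2 * (S.card : ℝ) * c ^ 2 := by
  have h1 : ∑ i ∈ S, u i ^ 2 ≤ ∑ i ∈ S, (2 * v i ^ 2 + 2 * c ^ 2) := by
    refine Finset.sum_le_sum fun i hi => ?_
    have h2 := h i hi
    have h3 : (v i - u i) ^ 2 ≤ c ^ 2 := by
      rw [← sq_abs (v i - u i)]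
      have h4 := abs_nonneg (v i - u i)
      gcongr
    nlinarith [sq_nonneg (2 * v i - u i)]
  refine h1.trans (le_of_eq ?_)
  rw [Finset.sum_add_distrib, ← Finset.mul_sum, Finset.sum_const, nsmul_eq_mul]
  ring

theorem TT_CM (hpp : R_pp) (h : CMb FL) : CMb FT := by
  intro A
  obtain ⟨E0, hE0⟩ := h (A + 2)
  refine ⟨E0, fun E hE => ?_⟩
  filter_upwards [hE0 E hE, hpp, TT_logev 2, eventually_ge_atTop 1,
    TT_ev (21 / 5) 7 36 (2 * E + A) (by norm_num) (by norm_num)] with J hJ hp hlog hJ1 hev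
  have hJ0 : (0 : ℝ) < (J : ℝ) := by exact_mod_cast hJ1
  have hL : 0 < Real.log (J : ℝ) := by linarith
  set L := Real.log (J : ℝ) with hLdef
  have h2 := TT_sqr (Ioc J (2 * J))
    (fun j => 2 * (J : ℝ) * ∑ n ∈ Icc 1 (27 * J ^ 3), FT J n * wJ J j n
      - L ^ E * ∑ n ∈ Icc 1 (27 * J ^ 3), FT J n * wL (L ^ E) j n)
    (fun j => 2 * (J : ℝ) * ∑ n ∈ Icc 1 (27 * J ^ 3), FL J n * wJ J j n
      - L ^ E * ∑ n ∈ Icc 1 (27 * J ^ 3), FL J n * wL (L ^ E) j n)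
    (2 * (J : ℝ) * (J : ℝ) ^ (3 / 5 : ℝ) + L ^ E * (J : ℝ) ^ (8 / 5 : ℝ))
    (by
      intro j hj
      have e1 : (2 * (J : ℝ) * ∑ n ∈ Icc 1 (27 * J ^ 3), FL J n * wJ J j n
          - L ^ E * ∑ n ∈ Icc 1 (27 * J ^ 3), FL J n * wL (L ^ E) j n)
          - (2 * (J : ℝ) * ∑ n ∈ Icc 1 (27 * J ^ 3), FT J n * wJ J j n
          - L ^ E * ∑ n ∈ Icc 1 (27 * J ^ 3), FT J n * wL (L ^ E) j n)
          = 2 * (J : ℝ) * ∑ n ∈ Icc 1 (27 * J ^ 3), (vonMangoldt n - thP n) * wJ J j n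
          - L ^ E * ∑ n ∈ Icc 1 (27 * J ^ 3), (vonMangoldt n - thP n) * wL (L ^ E) j n := by
        have e2 : ∀ w : ℕ → ℝ, ∑ n ∈ Icc 1 (27 * J ^ 3), (vonMangoldt n - thP n) * w n
            = ∑ n ∈ Icc 1 (27 * J ^ 3), FL J n * w n
              - ∑ n ∈ Icc 1 (27 * J ^ 3), FT J n * w n := by
          intro w
          rw [← Finset.sum_sub_distrib]
          refine Finset.sum_congr rfl fun n _ => ?_
          show (vonMangoldt n - thP n) * w n = vonMangoldt n * w n - thP n * w n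
          ring
        rw [e2 (fun n => wJ J j n), e2 (fun n => wL (L ^ E) j n)]
        ring
      show |_ - _| ≤ _
      rw [e1]
      have f1 : 0 ≤ ∑ n ∈ Icc 1 (27 * J ^ 3), (vonMangoldt n - thP n) * wJ J j n :=
        Finset.sum_nonneg fun n _ => mul_nonneg (TT_dnonneg n) (TT_wJ0 J j n)
      have f2 := hp.1 j hj
      have f3 : 0 ≤ ∑ n ∈ Icc 1 (27 * J ^ 3), (vonMangoldt n - thP n) * wL (L ^ E) j n :=
        Finset.sum_nonneg fun n _ => mul_nonneg (TT_dnonneg n) (TT_wL0 _ j n)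
      have f4 : ∑ n ∈ Icc 1 (27 * J ^ 3), (vonMangoldt n - thP n) * wL (L ^ E) j n
          ≤ (J : ℝ) ^ (8 / 5 : ℝ) := by
        refine le_trans (Finset.sum_le_sum fun n _ => ?_) hp.2
        have f5 := TT_dnonneg n
        have f6 := TT_wL1 (L ^ E) j n
        nlinarith
      have f7 : 0 ≤ L ^ E := by positivity
      have g1 : 0 ≤ 2 * (J : ℝ) *
          ∑ n ∈ Icc 1 (27 * J ^ 3), (vonMangoldt n - thP n) * wJ J j n := by positivity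
      have g2 : 2 * (J : ℝ) *
          ∑ n ∈ Icc 1 (27 * J ^ 3), (vonMangoldt n - thP n) * wJ J j n
          ≤ 2 * (J : ℝ) * (J : ℝ) ^ (3 / 5 : ℝ) := by gcongr
      have g3 : 0 ≤ L ^ E *
          ∑ n ∈ Icc 1 (27 * J ^ 3), (vonMangoldt n - thP n) * wL (L ^ E) j n := by positivity
      have g4 : L ^ E * ∑ n ∈ Icc 1 (27 * J ^ 3), (vonMangoldt n - thP n) * wL (L ^ E) j n
          ≤ L ^ E * (J : ℝ) ^ (8 / 5 : ℝ) := by gcongr
      rw [abs_le]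
      constructor <;> linarith)
  rw [TT_cardJ] at h2
  refine h2.trans ?_
  have e1 : 2 * ((J : ℝ) ^ 7 / L ^ (A + 2)) ≤ (J : ℝ) ^ 7 / L ^ A / 2 := by
    rw [pow_add, ← div_div]
    have e6 : 0 ≤ (J : ℝ) ^ 7 / L ^ A := by positivity
    rw [← mul_div_assoc, div_le_div_iff₀ (by positivity) (by norm_num)]
    have e7 : 4 ≤ L ^ 2 := by nlinarith
    nlinarith
  have e2 : (J : ℝ) * (J : ℝ) ^ (3 / 5 : ℝ) = (J : ℝ) ^ (8 / 5 : ℝ) := by
    nth_rewrite 1 [← Real.rpow_one (J : ℝ)]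
    rw [← Real.rpow_add hJ0]
    norm_num
  have e3 : (J : ℝ) * ((J : ℝ) ^ (8 / 5 : ℝ)) ^ 2 = (J : ℝ) ^ (21 / 5 : ℝ) := by
    rw [← Real.rpow_natCast, ← Real.rpow_mul hJ0.le]
    nth_rewrite 1 [← Real.rpow_one (J : ℝ)]
    rw [← Real.rpow_add hJ0]
    norm_num
  have e15 : (J : ℝ) ^ (7 : ℝ) = (J : ℝ) ^ 7 := by
    rw [← Real.rpow_natCast]
    norm_num
  rw [e15, pow_add, ← mul_assoc] at hev
  have e16 : 36 * (J : ℝ) ^ (21 / 5 : ℝ) * L ^ (2 * E) ≤ (J : ℝ) ^ 7 / L ^ A := by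
    rw [le_div_iff₀ (by positivity)]
    exact hev
  have hLE : 1 ≤ L ^ E := one_le_pow₀ (by linarith)
  have e17 : 2 * (J : ℝ) * (2 * (J : ℝ) * (J : ℝ) ^ (3 / 5 : ℝ)
      + L ^ E * (J : ℝ) ^ (8 / 5 : ℝ)) ^ 2 ≤ 18 * (J : ℝ) ^ (21 / 5 : ℝ) * L ^ (2 * E) := by
    have e18 : 2 * (J : ℝ) * (J : ℝ) ^ (3 / 5 : ℝ) = 2 * (J : ℝ) ^ (8 / 5 : ℝ) := by
      rw [mul_assoc, e2]
    rw [e18]
    have e19 : 2 * (J : ℝ) * (2 * (J : ℝ) ^ (8 / 5 : ℝ) + L ^ E * (J : ℝ) ^ (8 / 5 : ℝ)) ^ 2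
        = 2 * ((J : ℝ) * ((J : ℝ) ^ (8 / 5 : ℝ)) ^ 2) * (2 + L ^ E) ^ 2 := by ring
    rw [e19, e3]
    have e20 : L ^ (2 * E) = (L ^ E) ^ 2 := by
      rw [mul_comm, pow_mul]
    rw [e20]
    have e21 : (2 + L ^ E) ^ 2 ≤ 9 * (L ^ E) ^ 2 := by nlinarith
    have e22 : 0 ≤ (J : ℝ) ^ (21 / 5 : ℝ) := by positivity
    nlinarith
  linarith

theorem p_TT : S_TT :=
  fun hpp h1 h2 h3 => ⟨TT_LC hpp h1, TT_SC hpp h2, TT_CM hpp h3⟩

end Pool.Agent.CH.D
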