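import Pool.Agent.Lib.MP_d610d0_nt.CH.D.Stm

set_option autoImplicit false

/-!
Piece bB.
-/

namespace Pool.Agent.CH.D

open Finset Filter
open ArithmeticFunction (vonMangoldt)
open Pool.Agent.MP89da58 (tri primChars)
open Pool.Agent.BVall (boxL)
open Pool.Agent.CH.V (pz ex)
open Pool.Agent.CH.P (R_PW R_PNT)

lemma bB_sq (S : Finset ℕ) (g : ℕ → ℂ) (β : ℕ → ℝ) : ‖∑ j ∈ S, g j * (β j : ℂ)‖ ^ 2 =
    ∑ j ∈ S, ∑ k ∈ S, (g j * starRingEnd ℂ (g k)).re * (β j * β k) := by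
  have h1 : ((‖∑ j ∈ S, g j * (β j : ℂ)‖ ^ 2 : ℝ) : ℂ) =
      ∑ j ∈ S, ∑ k ∈ S, (g j * starRingEnd ℂ (g k)) * ((β j * β k : ℝ) : ℂ) := by
    have h2 := Complex.mul_conj' (∑ j ∈ S, g j * (β j : ℂ))
    push_cast
    rw [← h2, map_sum, sum_mul_sum]
    apply sum_congr rfl
    intro j _
    apply sum_congr rfl
    intro k _
    rw [map_mul, Complex.conj_ofReal]
    ring
  have h3 := congrArg Complex.re h1
  rw [Complex.ofReal_re, Complex.re_sum] at h3
  rw [h3]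
  apply sum_congr rfl
  intro j _
  rw [Complex.re_sum]
  apply sum_congr rfl
  intro k _
  rw [Complex.re_mul_ofReal]

lemma bB_int (hspc : R_spc) (J : ℕ) (hJ : 1 ≤ J) (g : ℕ → ℂ) (z : ℝ) :
    MeasureTheory.Integrable (fun s : ℝ => ‖∑ j ∈ Ioc J (2 * J), g j *
      (boxL (2 * J) (Real.log (xj j) - z) s : ℂ)‖ ^ 2) ∧
    ∫ s : ℝ, ‖∑ j ∈ Ioc J (2 * J), g j *
      (boxL (2 * J) (Real.log (xj j) - z) s : ℂ)‖ ^ 2 =
      (1 / (2 * (J : ℝ))) * ∑ j ∈ Ioc J (2 * J), ‖g j‖ ^ 2 := by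
  have hJ0 : (0 : ℝ) < J := by exact_mod_cast hJ
  have hJ1 : (1 : ℝ) ≤ J := by exact_mod_cast hJ
  have e : (fun s : ℝ => ‖∑ j ∈ Ioc J (2 * J), g j *
      (boxL (2 * J) (Real.log (xj j) - z) s : ℂ)‖ ^ 2) = fun s => ∑ j ∈ Ioc J (2 * J),
      ∑ k ∈ Ioc J (2 * J), (g j * starRingEnd ℂ (g k)).re *
        (boxL (2 * J) (Real.log (xj j) - z) s * boxL (2 * J) (Real.log (xj k) - z) s) := by
    funext s
    exact bB_sq _ g _
  have hi : ∀ j k : ℕ, MeasureTheory.Integrable (fun s : ℝ => (g j * starRingEnd ℂ (g k)).re *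
        (boxL (2 * J) (Real.log (xj j) - z) s * boxL (2 * J) (Real.log (xj k) - z) s)) :=
    fun j k => (Pool.Agent.BVall.integrable_boxL_mul _ _).const_mul _
  rw [e]
  constructor
  · exact MeasureTheory.integrable_finsetSum _ fun j _ =>
      MeasureTheory.integrable_finsetSum _ fun k _ => hi j k
  · rw [MeasureTheory.integral_finsetSum _ fun j _ =>
      MeasureTheory.integrable_finsetSum _ fun k _ => hi j k, mul_sum]
    apply sum_congr rfl
    intro j hj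
    rw [MeasureTheory.integral_finsetSum _ fun k _ => hi j k, sum_eq_single j]
    · rw [MeasureTheory.integral_const_mul]
      have h1 := Pool.Agent.BVall.integral_boxL_mul (lam := 2 * J) (by linarith)
        (Real.log (xj j) - z) (Real.log (xj j) - z)
      rw [sub_self, mul_zero] at h1
      have h2 : tri 0 = 1 := by
        unfold Pool.Agent.MP89da58.tri
        simp
      rw [h2] at h1
      have h3 : ∫ s, boxL (2 * J) (Real.log (xj j) - z) s * boxL (2 * J) (Real.log (xj j) - z) s =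
          1 / (2 * (J : ℝ)) := by
        rw [eq_div_iff (by positivity)]
        linarith
      rw [h3, Complex.mul_conj, Complex.ofReal_re, Complex.normSq_eq_norm_sq]
      ring
    · intro k hk hkj
      rw [MeasureTheory.integral_const_mul]
      have h1 := Pool.Agent.BVall.integral_boxL_mul (lam := 2 * J) (by linarith)
        (Real.log (xj j) - z) (Real.log (xj k) - z)
      have h2 : tri (2 * J * (Real.log (xj j) - z - (Real.log (xj k) - z))) = 0 := by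
        have h3 := (hspc J hJ).1 j hj k hk (Ne.symm hkj)
        have h4 : Real.log (xj j) - z - (Real.log (xj k) - z) =
          Real.log (xj j) - Real.log (xj k) := by ring
        rw [h4]
        unfold Pool.Agent.MP89da58.tri
        rw [max_eq_left_iff, abs_mul, abs_of_pos (a := 2 * (J : ℝ)) (by positivity)]
        have h5 : 2 * (J : ℝ) * (1 / (2 * J)) ≤ 2 * J * |Real.log (xj j) - Real.log (xj k)| :=
          mul_le_mul_of_nonneg_left h3 (by positivity)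
        have h6 : 2 * (J : ℝ) * (1 / (2 * J)) = 1 := by field_simp
        linarith
      rw [h2] at h1
      rcases mul_eq_zero.1 h1 with h | h
      · exact absurd h (by positivity)
      · rw [h, mul_zero]
    · intro h; exact absurd hj h

theorem p_bB : S_bB := by
  rintro ⟨C, hC, hls⟩ hspc
  refine ⟨C, hC, fun J N R b g hJ hR => ?_⟩
  have hJ0 : (0 : ℝ) < J := by exact_mod_cast hJ
  have hpt : ∀ s : ℝ, ∑ p ∈ primChars R, ‖∑ n ∈ Icc 1 N, b n * p.2 (n : ZMod p.1) *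
      ∑ j ∈ Ioc J (2 * J), g j * (boxL (2 * J) (Real.log (xj j) - Real.log n) s : ℂ)‖ ^ 2 ≤
      C * ((N : ℝ) + (R : ℝ) ^ 2) * ∑ n ∈ Icc 1 N, ‖b n‖ ^ 2 * ‖∑ j ∈ Ioc J (2 * J), g j *
        (boxL (2 * J) (Real.log (xj j) - Real.log n) s : ℂ)‖ ^ 2 := by
    intro s
    have h := hls R 0 N (fun n => b n * ∑ j ∈ Ioc J (2 * J), g j *
      (boxL (2 * J) (Real.log (xj j) - Real.log n) s : ℂ))
    have hI : Ioc 0 (0 + N) = Icc 1 N := by
      ext n; rw [mem_Ioc, mem_Icc]; omega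
    rw [hI] at h
    have e1 : ∑ n ∈ Icc 1 N, ‖b n * ∑ j ∈ Ioc J (2 * J), g j *
        (boxL (2 * J) (Real.log (xj j) - Real.log n) s : ℂ)‖ ^ 2 = ∑ n ∈ Icc 1 N, ‖b n‖ ^ 2 *
        ‖∑ j ∈ Ioc J (2 * J), g j *
          (boxL (2 * J) (Real.log (xj j) - Real.log n) s : ℂ)‖ ^ 2 := by
      apply sum_congr rfl
      intro n _
      rw [norm_mul, mul_pow]
    rw [e1] at h
    refine le_trans (le_of_eq ?_) h
    apply sum_congr rfl
    intro p _
    congr 2
    apply sum_congr rfl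
    intro n _
    ring
  have hi : ∀ n : ℕ, MeasureTheory.Integrable (fun s : ℝ => ‖b n‖ ^ 2 * ‖∑ j ∈ Ioc J (2 * J), g j *
        (boxL (2 * J) (Real.log (xj j) - Real.log n) s : ℂ)‖ ^ 2) := fun n =>
    (bB_int hspc J hJ g (Real.log n)).1.const_mul _
  have h1 : ∫ s : ℝ, ∑ p ∈ primChars R, ‖∑ n ∈ Icc 1 N, b n * p.2 (n : ZMod p.1) *
      ∑ j ∈ Ioc J (2 * J), g j * (boxL (2 * J) (Real.log (xj j) - Real.log n) s : ℂ)‖ ^ 2 ≤
      ∫ s : ℝ, C * ((N : ℝ) + (R : ℝ) ^ 2) * ∑ n ∈ Icc 1 N, ‖b n‖ ^ 2 *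
        ‖∑ j ∈ Ioc J (2 * J), g j *
          (boxL (2 * J) (Real.log (xj j) - Real.log n) s : ℂ)‖ ^ 2 := by
    apply MeasureTheory.integral_mono_of_nonneg
    · exact Filter.Eventually.of_forall fun s => sum_nonneg fun p _ => by positivity
    · exact (MeasureTheory.integrable_finsetSum _ fun n _ => hi n).const_mul _
    · exact Filter.Eventually.of_forall hpt
  refine h1.trans ?_
  rw [MeasureTheory.integral_const_mul, MeasureTheory.integral_finsetSum _ fun n _ => hi n]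
  have h2 : ∑ n ∈ Icc 1 N, ∫ s : ℝ, ‖b n‖ ^ 2 * ‖∑ j ∈ Ioc J (2 * J), g j *
        (boxL (2 * J) (Real.log (xj j) - Real.log n) s : ℂ)‖ ^ 2 =
      (1 / (2 * (J : ℝ))) * ((∑ n ∈ Icc 1 N, ‖b n‖ ^ 2) * ∑ j ∈ Ioc J (2 * J), ‖g j‖ ^ 2) := by
    rw [sum_mul, mul_sum]
    apply sum_congr rfl
    intro n _
    rw [MeasureTheory.integral_const_mul, (bB_int hspc J hJ g (Real.log n)).2]
    ring
  rw [h2]
  have h3 : 0 ≤ (∑ n ∈ Icc 1 N, ‖b n‖ ^ 2) * ∑ j ∈ Ioc J (2 * J), ‖g j‖ ^ 2 :=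
    mul_nonneg (sum_nonneg fun n _ => by positivity) (sum_nonneg fun n _ => by positivity)
  have h4 : C * ((N : ℝ) + (R : ℝ) ^ 2) * (1 / (2 * (J : ℝ))) ≤
      C * ((R : ℝ) ^ 2 + N) / J := by
    have h5 : C * ((R : ℝ) ^ 2 + N) / J = C * ((N : ℝ) + (R : ℝ) ^ 2) * (1 / J) := by ring
    rw [h5]
    apply mul_le_mul_of_nonneg_left _ (mul_nonneg (by linarith) (by positivity))
    exact one_div_le_one_div_of_le hJ0 (by linarith)
  calc _ = C * ((N : ℝ) + (R : ℝ) ^ 2) * (1 / (2 * (J : ℝ))) *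
        ((∑ n ∈ Icc 1 N, ‖b n‖ ^ 2) * ∑ j ∈ Ioc J (2 * J), ‖g j‖ ^ 2) := by ring
    _ ≤ C * ((R : ℝ) ^ 2 + N) / J *
        ((∑ n ∈ Icc 1 N, ‖b n‖ ^ 2) * ∑ j ∈ Ioc J (2 * J), ‖g j‖ ^ 2) :=
      mul_le_mul_of_nonneg_right h4 h3
    _ = _ := by ring

end Pool.Agent.CH.D
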