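import Pool.Agent.Lib.MP_d610d0_nt.CH.D.Stm

set_option autoImplicit false

/-!
Piece bes.
-/

namespace Pool.Agent.CH.D

open Finset Filter
open ArithmeticFunction (vonMangoldt)
open Pool.Agent.MP89da58 (tri primChars)
open Pool.Agent.BVall (boxL)
open Pool.Agent.CH.V (pz ex)
open Pool.Agent.CH.P (R_PW R_PNT)

/-- products of the kernel with bounded functions are integrable -/
theorem bes_int (lam : ℝ) (hi : MeasureTheory.Integrable (kap lam)) (hnn : ∀ θ, 0 ≤ kap lam θ)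
    (F : ℝ → ℂ) (hF : Measurable F) (B : ℝ) (hB : ∀ θ, ‖F θ‖ ≤ B) :
    MeasureTheory.Integrable (fun θ => (kap lam θ : ℂ) * F θ) := by
  refine MeasureTheory.Integrable.mono' (hi.mul_const B) ?_ ?_
  · exact hi.ofReal.aestronglyMeasurable.mul hF.aestronglyMeasurable
  · refine Filter.Eventually.of_forall fun θ => ?_
    rw [norm_mul, Complex.norm_real, Real.norm_of_nonneg (hnn θ)]
    exact mul_le_mul_of_nonneg_left (hB θ) (hnn θ)

/-- the square of a bounded function is integrable against the kernel -/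
theorem bes_int2 (lam : ℝ) (hi : MeasureTheory.Integrable (kap lam)) (hnn : ∀ θ, 0 ≤ kap lam θ)
    (F : ℝ → ℂ) (hF : Measurable F) (B : ℝ) (hB : ∀ θ, ‖F θ‖ ≤ B) :
    MeasureTheory.Integrable (fun θ => kap lam θ * ‖F θ‖ ^ 2) := by
  refine MeasureTheory.Integrable.mono' (hi.mul_const (B ^ 2)) ?_ ?_
  · exact hi.aestronglyMeasurable.mul (hF.norm.pow_const 2).aestronglyMeasurable
  · refine Filter.Eventually.of_forall fun θ => ?_
    rw [norm_mul, Real.norm_of_nonneg (hnn θ), Real.norm_of_nonneg (sq_nonneg _)]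
    refine mul_le_mul_of_nonneg_left ?_ (hnn θ)
    exact pow_le_pow_left₀ (norm_nonneg _) (hB θ) 2

theorem bes_norm (x : ℝ) : ‖Complex.exp (Complex.I * (x : ℂ))‖ = 1 := by
  rw [mul_comm, Complex.norm_exp_ofReal_mul_I]

theorem bes_conj (x : ℝ) :
    (starRingEnd ℂ) (Complex.exp (Complex.I * (x : ℂ))) = Complex.exp (-(Complex.I * (x : ℂ))) := by
  rw [← Complex.exp_conj, map_mul, Complex.conj_I, Complex.conj_ofReal, neg_mul]

theorem bes_norm' (x : ℝ) : ‖Complex.exp (-(Complex.I * (x : ℂ)))‖ = 1 := by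
  rw [← bes_conj, RCLike.norm_conj, bes_norm]

theorem bes_meas (a : ℝ) : Measurable fun θ : ℝ => Complex.exp (Complex.I * ((θ * a : ℝ) : ℂ)) := by
  refine Continuous.measurable ?_
  fun_prop

theorem bes_meas' (a : ℝ) :
    Measurable fun θ : ℝ => Complex.exp (-(Complex.I * ((θ * a : ℝ) : ℂ))) := by
  refine Continuous.measurable ?_
  fun_prop

/-- the coefficients of `g - c e_a` at the other points -/
theorem bes_coef (lam : ℝ) (hi : MeasureTheory.Integrable (kap lam)) (hnn : ∀ θ, 0 ≤ kap lam θ)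
    (hk : ∀ u : ℝ, ∫ θ : ℝ, (kap lam θ : ℂ) * Complex.exp (Complex.I * ((θ * u : ℝ) : ℂ))
      = (tri (lam * u) : ℂ))
    (g : ℝ → ℂ) (hg : Measurable g) (B : ℝ) (hB : ∀ θ, ‖g θ‖ ≤ B) (a b : ℝ) (c : ℂ) :
    ∫ θ : ℝ, (kap lam θ : ℂ) * (g θ - c * Complex.exp (Complex.I * ((θ * a : ℝ) : ℂ))) *
        Complex.exp (-(Complex.I * ((θ * b : ℝ) : ℂ))) =
      (∫ θ : ℝ, (kap lam θ : ℂ) * g θ * Complex.exp (-(Complex.I * ((θ * b : ℝ) : ℂ)))) -
        c * (tri (lam * (a - b)) : ℂ) := by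
  rw [← hk (a - b), ← MeasureTheory.integral_const_mul, ← MeasureTheory.integral_sub]
  · refine MeasureTheory.integral_congr_ae (Filter.Eventually.of_forall fun θ => ?_)
    show (kap lam θ : ℂ) * (g θ - c * Complex.exp (Complex.I * ((θ * a : ℝ) : ℂ))) *
        Complex.exp (-(Complex.I * ((θ * b : ℝ) : ℂ))) =
      (kap lam θ : ℂ) * g θ * Complex.exp (-(Complex.I * ((θ * b : ℝ) : ℂ))) -
        c * ((kap lam θ : ℂ) * Complex.exp (Complex.I * ((θ * (a - b) : ℝ) : ℂ)))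
    have h : Complex.exp (Complex.I * ((θ * (a - b) : ℝ) : ℂ)) =
        Complex.exp (Complex.I * ((θ * a : ℝ) : ℂ)) *
          Complex.exp (-(Complex.I * ((θ * b : ℝ) : ℂ))) := by
      rw [← Complex.exp_add]
      congr 1
      push_cast
      ring
    rw [h]
    ring
  · have h := bes_int lam hi hnn (fun θ => g θ * Complex.exp (-(Complex.I * ((θ * b : ℝ) : ℂ))))
      (hg.mul (bes_meas' b)) B fun θ => by
        rw [norm_mul, bes_norm', mul_one]
        exact hB θ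
    refine h.congr (Filter.Eventually.of_forall fun θ => ?_)
    show (kap lam θ : ℂ) * (g θ * Complex.exp (-(Complex.I * ((θ * b : ℝ) : ℂ)))) =
      (kap lam θ : ℂ) * g θ * Complex.exp (-(Complex.I * ((θ * b : ℝ) : ℂ)))
    ring
  · exact (bes_int lam hi hnn _ (bes_meas (a - b)) 1 fun θ => (bes_norm _).le).const_mul c

/-- removing one coefficient -/
theorem bes_step (lam : ℝ) (hi : MeasureTheory.Integrable (kap lam)) (hnn : ∀ θ, 0 ≤ kap lam θ)
    (hk : ∀ u : ℝ, ∫ θ : ℝ, (kap lam θ : ℂ) * Complex.exp (Complex.I * ((θ * u : ℝ) : ℂ))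
      = (tri (lam * u) : ℂ))
    (g : ℝ → ℂ) (hg : Measurable g) (B : ℝ) (hB : ∀ θ, ‖g θ‖ ≤ B) (a : ℝ) (c : ℂ)
    (hc : c = ∫ θ : ℝ, (kap lam θ : ℂ) * g θ * Complex.exp (-(Complex.I * ((θ * a : ℝ) : ℂ)))) :
    ∫ θ : ℝ, kap lam θ * ‖g θ - c * Complex.exp (Complex.I * ((θ * a : ℝ) : ℂ))‖ ^ 2 =
      (∫ θ : ℝ, kap lam θ * ‖g θ‖ ^ 2) - ‖c‖ ^ 2 := by
  have hF : MeasureTheory.Integrable (fun θ : ℝ => (kap lam θ : ℂ) * g θ *
      Complex.exp (-(Complex.I * ((θ * a : ℝ) : ℂ)))) := by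
    have h := bes_int lam hi hnn (fun θ => g θ * Complex.exp (-(Complex.I * ((θ * a : ℝ) : ℂ))))
      (hg.mul (bes_meas' a)) B fun θ => by
        rw [norm_mul, bes_norm', mul_one]
        exact hB θ
    refine h.congr (Filter.Eventually.of_forall fun θ => ?_)
    show (kap lam θ : ℂ) * (g θ * Complex.exp (-(Complex.I * ((θ * a : ℝ) : ℂ)))) =
      (kap lam θ : ℂ) * g θ * Complex.exp (-(Complex.I * ((θ * a : ℝ) : ℂ)))
    ring
  have hA := bes_int2 lam hi hnn g hg B hB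
  have hone : ∫ θ : ℝ, kap lam θ = 1 := by
    have h := hk 0
    have h2 : (fun θ : ℝ => (kap lam θ : ℂ) * Complex.exp (Complex.I * ((θ * 0 : ℝ) : ℂ))) =
        fun θ => (kap lam θ : ℂ) := by
      funext θ
      rw [mul_zero, Complex.ofReal_zero, mul_zero, Complex.exp_zero, mul_one]
    rw [h2, integral_complex_ofReal, mul_zero] at h
    have h3 : tri 0 = 1 := by
      show max 0 (1 - |(0 : ℝ)|) = 1
      rw [abs_zero, sub_zero]
      exact max_eq_right zero_le_one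
    rw [h3] at h
    exact_mod_cast h
  have hG := (hF.const_mul ((starRingEnd ℂ) c))
  have hre : ∫ θ : ℝ, ((starRingEnd ℂ) c * ((kap lam θ : ℂ) * g θ *
      Complex.exp (-(Complex.I * ((θ * a : ℝ) : ℂ))))).re = ‖c‖ ^ 2 := by
    have h := integral_re hG
    have h2 : ∫ θ : ℝ, (starRingEnd ℂ) c * ((kap lam θ : ℂ) * g θ *
        Complex.exp (-(Complex.I * ((θ * a : ℝ) : ℂ)))) = (starRingEnd ℂ) c * c := by
      rw [MeasureTheory.integral_const_mul, ← hc]
    rw [h2] at h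
    refine h.trans ?_
    show ((starRingEnd ℂ) c * c).re = ‖c‖ ^ 2
    rw [mul_comm, Complex.mul_conj, Complex.ofReal_re, Complex.sq_norm]
  have hpt : ∀ θ : ℝ, kap lam θ * ‖g θ - c * Complex.exp (Complex.I * ((θ * a : ℝ) : ℂ))‖ ^ 2 =
      kap lam θ * ‖g θ‖ ^ 2 - 2 * ((starRingEnd ℂ) c * ((kap lam θ : ℂ) * g θ *
        Complex.exp (-(Complex.I * ((θ * a : ℝ) : ℂ))))).re + ‖c‖ ^ 2 * kap lam θ := by
    intro θ
    rw [Complex.sq_norm, Complex.normSq_sub, Complex.normSq_mul, ← Complex.sq_norm,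
      ← Complex.sq_norm, ← Complex.sq_norm, bes_norm, map_mul, bes_conj]
    have h : (starRingEnd ℂ) c * ((kap lam θ : ℂ) * g θ *
        Complex.exp (-(Complex.I * ((θ * a : ℝ) : ℂ)))) = (kap lam θ : ℂ) *
        (g θ * ((starRingEnd ℂ) c * Complex.exp (-(Complex.I * ((θ * a : ℝ) : ℂ))))) := by
      ring
    rw [h, Complex.re_ofReal_mul]
    ring
  have hre_int : MeasureTheory.Integrable (fun θ : ℝ => 2 * ((starRingEnd ℂ) c *
      ((kap lam θ : ℂ) * g θ * Complex.exp (-(Complex.I * ((θ * a : ℝ) : ℂ))))).re) :=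
    hG.re.const_mul 2
  rw [show (fun θ : ℝ => kap lam θ *
      ‖g θ - c * Complex.exp (Complex.I * ((θ * a : ℝ) : ℂ))‖ ^ 2) = _ from funext hpt]
  have hAB : MeasureTheory.Integrable (fun θ : ℝ => kap lam θ * ‖g θ‖ ^ 2 -
      2 * ((starRingEnd ℂ) c * ((kap lam θ : ℂ) * g θ *
        Complex.exp (-(Complex.I * ((θ * a : ℝ) : ℂ))))).re) := hA.sub hre_int
  have hC : MeasureTheory.Integrable (fun θ : ℝ => ‖c‖ ^ 2 * kap lam θ) := hi.const_mul _
  rw [MeasureTheory.integral_add hAB hC,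
    MeasureTheory.integral_sub hA hre_int, MeasureTheory.integral_const_mul,
    MeasureTheory.integral_const_mul, hone, hre]
  ring

theorem bes_tri (lam : ℝ) (hl : 0 < lam) (u : ℝ) (hu : 1 / lam ≤ |u|) : tri (lam * u) = 0 := by
  show max 0 (1 - |lam * u|) = 0
  refine max_eq_left ?_
  rw [abs_mul, abs_of_pos hl]
  have h := mul_le_mul_of_nonneg_left hu hl.le
  rw [mul_one_div, div_self hl.ne'] at h
  linarith

theorem p_bes : S_bes := by
  intro hkf hkb lam hl S y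
  obtain ⟨hi, hk⟩ := hkf lam hl
  obtain ⟨hnn, -⟩ := hkb lam hl
  induction S using Finset.induction_on with
  | empty =>
    intro _ g _ _
    rw [Finset.sum_empty]
    exact MeasureTheory.integral_nonneg fun θ => mul_nonneg (hnn θ) (sq_nonneg _)
  | insert a S ha ih =>
    intro hsep g hg hB
    obtain ⟨B, hB⟩ := hB
    rw [Finset.sum_insert ha]
    set c : ℂ := ∫ θ : ℝ, (kap lam θ : ℂ) * g θ *
      Complex.exp (-(Complex.I * ((θ * y a : ℝ) : ℂ))) with hc
    have h1 := bes_step lam hi hnn hk g hg B hB (y a) c hc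
    have h2 := ih (fun i hi' k hk' hik => hsep i (Finset.mem_insert_of_mem hi') k
      (Finset.mem_insert_of_mem hk') hik)
      (fun θ => g θ - c * Complex.exp (Complex.I * ((θ * y a : ℝ) : ℂ)))
      (hg.sub ((bes_meas (y a)).const_mul c)) ⟨B + ‖c‖, fun θ => by
        refine (norm_sub_le _ _).trans (add_le_add (hB θ) ?_)
        rw [norm_mul, bes_norm, mul_one]⟩
    rw [h1] at h2
    have h3 : ∀ i ∈ S, ‖∫ θ : ℝ, (kap lam θ : ℂ) *
        (g θ - c * Complex.exp (Complex.I * ((θ * y a : ℝ) : ℂ))) *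
        Complex.exp (-(Complex.I * ((θ * y i : ℝ) : ℂ)))‖ ^ 2 =
        ‖∫ θ : ℝ, (kap lam θ : ℂ) * g θ *
          Complex.exp (-(Complex.I * ((θ * y i : ℝ) : ℂ)))‖ ^ 2 := by
      intro i hi'
      have hne : a ≠ i := fun h => ha (h ▸ hi')
      rw [bes_coef lam hi hnn hk g hg B hB (y a) (y i) c,
        bes_tri lam hl _ (hsep a (Finset.mem_insert_self _ _) i
          (Finset.mem_insert_of_mem hi') hne), Complex.ofReal_zero, mul_zero, sub_zero]
    rw [Finset.sum_congr rfl h3] at h2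
    linarith

end Pool.Agent.CH.D
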