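import Pool.Agent.Lib.MP_d610d0_nt.CH.D.Stm

set_option autoImplicit false

/-!
Piece bil.
-/

namespace Pool.Agent.CH.D

open Finset Filter
open ArithmeticFunction (vonMangoldt)
open Pool.Agent.MP89da58 (tri primChars)
open Pool.Agent.BVall (boxL)
open Pool.Agent.CH.V (pz ex)
open Pool.Agent.CH.P (R_PW R_PNT)

open MeasureTheory in
private lemma bil_memLp_box (lam x : ℝ) : MemLp (fun s => (boxL lam x s : ℂ)) 2 := by
  have h : (fun s => (boxL lam x s : ℂ)) = (Set.Icc (x - 1 / lam) x).indicator fun _ => (1 : ℂ) := by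
    funext s
    rw [boxL]
    by_cases hs : s ∈ Set.Icc (x - 1 / lam) x
    · rw [Set.indicator_of_mem hs, Set.indicator_of_mem hs, Complex.ofReal_one]
    · rw [Set.indicator_of_notMem hs, Set.indicator_of_notMem hs, Complex.ofReal_zero]
  rw [h]
  exact memLp_indicator_const 2 measurableSet_Icc 1 (Or.inr (by simp))

/-- the first factor -/
private noncomputable def bilA (J M : ℕ) (a : ℕ → ℂ) (p : Σ q, DirichletCharacter ℂ q) (s : ℝ) : ℂ :=
  ∑ m ∈ Icc 1 M, a m * p.2 (m : ZMod p.1) * (boxL (2 * J) (Real.log m) s : ℂ)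

/-- the second factor -/
private noncomputable def bilB (J N : ℕ) (b g : ℕ → ℂ) (p : Σ q, DirichletCharacter ℂ q) (s : ℝ) : ℂ :=
  ∑ n ∈ Icc 1 N, b n * p.2 (n : ZMod p.1) *
      ∑ j ∈ Ioc J (2 * J), g j * (boxL (2 * J) (Real.log (xj j) - Real.log n) s : ℂ)

open MeasureTheory in
private lemma bil_memLpA (J M : ℕ) (a : ℕ → ℂ) (p : Σ q, DirichletCharacter ℂ q) :
    MemLp (bilA J M a p) 2 := by
  have h : bilA J M a p = fun s => ∑ m ∈ Icc 1 M, a m * p.2 (m : ZMod p.1) *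
      (boxL (2 * J) (Real.log m) s : ℂ) := rfl
  rw [h]
  exact memLp_finsetSum _ fun m _ => (bil_memLp_box _ _).const_mul _

open MeasureTheory in
private lemma bil_memLpB (J N : ℕ) (b g : ℕ → ℂ) (p : Σ q, DirichletCharacter ℂ q) :
    MemLp (bilB J N b g p) 2 := by
  have h : bilB J N b g p = fun s => ∑ n ∈ Icc 1 N, b n * p.2 (n : ZMod p.1) *
      ∑ j ∈ Ioc J (2 * J), g j * (boxL (2 * J) (Real.log (xj j) - Real.log n) s : ℂ) := rfl
  rw [h]
  refine memLp_finsetSum _ fun n _ => MemLp.const_mul ?_ _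
  exact memLp_finsetSum _ fun j _ => (bil_memLp_box _ _).const_mul _

private lemma bil_w (J j m n : ℕ) (hJ : 1 ≤ J) (hm : 1 ≤ m) (hn : 1 ≤ n) :
    (2 * (J : ℝ)) * ∫ s, boxL (2 * J) (Real.log m) s * boxL (2 * J) (Real.log (xj j) - Real.log n) s =
      wJ J j (m * n) := by
  have hJ' : (1 : ℝ) ≤ J := by exact_mod_cast hJ
  have hm' : (0 : ℝ) < m := by exact_mod_cast hm
  have hn' : (0 : ℝ) < n := by exact_mod_cast hn
  have hx : (0 : ℝ) < xj j := by unfold xj; positivity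
  rw [Pool.Agent.BVall.integral_boxL_mul (by linarith), wJ]
  congr 2
  have e : (((m * n : ℕ) : ℝ) / ((j : ℝ) + 1 / 2) ^ 3) = m * n / xj j := by
    unfold xj; push_cast; rfl
  rw [e, Real.log_div (by positivity) hx.ne', Real.log_mul hm'.ne' hn'.ne']
  ring

open MeasureTheory in
private lemma bil_eq (J M N R : ℕ) (a b g : ℕ → ℂ) (th : (Σ q, DirichletCharacter ℂ q) → ℂ)
    (hJ : 1 ≤ J) :
    ∑ j ∈ Ioc J (2 * J), g j * ∑ p ∈ primChars R, th p * ∑ m ∈ Icc 1 M, ∑ n ∈ Icc 1 N,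
      a m * b n * p.2 ((m * n : ℕ) : ZMod p.1) * (wJ J j (m * n) : ℂ) =
    ((2 * (J : ℝ) : ℝ) : ℂ) * ∫ s, ∑ p ∈ primChars R, th p * (bilA J M a p s * bilB J N b g p s) := by
  have h1 : ∀ s, ∑ p ∈ primChars R, th p * (bilA J M a p s * bilB J N b g p s) =
      ∑ j ∈ Ioc J (2 * J), ∑ p ∈ primChars R, ∑ m ∈ Icc 1 M, ∑ n ∈ Icc 1 N,
        (g j * th p * (a m * b n * p.2 ((m * n : ℕ) : ZMod p.1))) *
          ((boxL (2 * J) (Real.log m) s * boxL (2 * J) (Real.log (xj j) - Real.log n) s : ℝ) : ℂ) := by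
    intro s
    rw [sum_comm (s := Ioc J (2 * J))]
    refine sum_congr rfl fun p _ => ?_
    rw [bilA, bilB, sum_mul_sum, mul_sum, sum_comm (s := Ioc J (2 * J))]
    refine sum_congr rfl fun m _ => ?_
    rw [mul_sum, sum_comm (s := Ioc J (2 * J))]
    refine sum_congr rfl fun n _ => ?_
    rw [mul_sum, mul_sum, mul_sum]
    refine sum_congr rfl fun j _ => ?_
    rw [Nat.cast_mul, map_mul]
    push_cast
    ring
  simp_rw [h1]
  have hint : ∀ (j : ℕ) (p : Σ q, DirichletCharacter ℂ q) (m n : ℕ), Integrable fun s =>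
      (g j * th p * (a m * b n * p.2 ((m * n : ℕ) : ZMod p.1))) *
          ((boxL (2 * J) (Real.log m) s * boxL (2 * J) (Real.log (xj j) - Real.log n) s : ℝ) : ℂ) := by
    intro j p m n
    exact ((Pool.Agent.BVall.integrable_boxL_mul _ _).ofReal).const_mul _
  rw [integral_finsetSum _ (fun j _ => integrable_finsetSum _ fun p _ => integrable_finsetSum _
    fun m _ => integrable_finsetSum _ fun n _ => hint j p m n), mul_sum]
  refine sum_congr rfl fun j _ => ?_
  rw [integral_finsetSum _ (fun p _ => integrable_finsetSum _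
    fun m _ => integrable_finsetSum _ fun n _ => hint j p m n), mul_sum, mul_sum]
  refine sum_congr rfl fun p _ => ?_
  rw [integral_finsetSum _ (fun m _ => integrable_finsetSum _ fun n _ => hint j p m n), mul_sum,
    mul_sum, mul_sum]
  refine sum_congr rfl fun m hm => ?_
  rw [integral_finsetSum _ (fun n _ => hint j p m n), mul_sum, mul_sum, mul_sum]
  refine sum_congr rfl fun n hn => ?_
  rw [integral_const_mul, integral_complex_ofReal, ← bil_w J j m n hJ (mem_Icc.mp hm).1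
    (mem_Icc.mp hn).1]
  push_cast
  ring

open MeasureTheory in
private lemma bil_norm (J M N R : ℕ) (a b g : ℕ → ℂ) (th : (Σ q, DirichletCharacter ℂ q) → ℂ)
    (hth : ∀ p, ‖th p‖ ≤ 1) (t : ℝ) (ht : 0 < t) :
    ‖∫ s, ∑ p ∈ primChars R, th p * (bilA J M a p s * bilB J N b g p s)‖ ≤
      (t * (∫ s, ∑ p ∈ primChars R, ‖bilA J M a p s‖ ^ 2) +
        (∫ s, ∑ p ∈ primChars R, ‖bilB J N b g p s‖ ^ 2) / t) / 2 := by
  have hA : Integrable fun s => ∑ p ∈ primChars R, ‖bilA J M a p s‖ ^ 2 :=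
    integrable_finsetSum _ fun p _ => (bil_memLpA J M a p).norm.integrable_sq
  have hB : Integrable fun s => ∑ p ∈ primChars R, ‖bilB J N b g p s‖ ^ 2 :=
    integrable_finsetSum _ fun p _ => (bil_memLpB J N b g p).norm.integrable_sq
  have hAB : Integrable fun s => ∑ p ∈ primChars R, th p * (bilA J M a p s * bilB J N b g p s) :=
    integrable_finsetSum _ fun p _ =>
      ((bil_memLpA J M a p).integrable_mul (bil_memLpB J N b g p)).const_mul _
  have h1 : ∫ s, (t * (∑ p ∈ primChars R, ‖bilA J M a p s‖ ^ 2) +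
      (∑ p ∈ primChars R, ‖bilB J N b g p s‖ ^ 2) / t) / 2 =
      (t * (∫ s, ∑ p ∈ primChars R, ‖bilA J M a p s‖ ^ 2) +
        (∫ s, ∑ p ∈ primChars R, ‖bilB J N b g p s‖ ^ 2) / t) / 2 := by
    rw [integral_div, integral_add (hA.const_mul t) (hB.div_const t), integral_const_mul,
      integral_div]
  rw [← h1]
  refine (norm_integral_le_integral_norm _).trans ?_
  refine integral_mono hAB.norm (((hA.const_mul t).add (hB.div_const t)).div_const 2) ?_
  intro s
  show ‖∑ p ∈ primChars R, th p * (bilA J M a p s * bilB J N b g p s)‖ ≤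
    (t * (∑ p ∈ primChars R, ‖bilA J M a p s‖ ^ 2) +
      (∑ p ∈ primChars R, ‖bilB J N b g p s‖ ^ 2) / t) / 2
  refine (norm_sum_le _ _).trans ?_
  rw [mul_sum, sum_div, ← sum_add_distrib, sum_div]
  refine sum_le_sum fun p _ => ?_
  rw [norm_mul, norm_mul]
  have h2 : ‖th p‖ * (‖bilA J M a p s‖ * ‖bilB J N b g p s‖) ≤
      ‖bilA J M a p s‖ * ‖bilB J N b g p s‖ := by
    have := mul_le_mul_of_nonneg_right (hth p)
      (mul_nonneg (norm_nonneg (bilA J M a p s)) (norm_nonneg (bilB J N b g p s)))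
    linarith
  refine h2.trans ?_
  set x := ‖bilA J M a p s‖
  set y := ‖bilB J N b g p s‖
  have h3 : 0 ≤ (t * x - y) ^ 2 := sq_nonneg _
  have h4 : (t * x ^ 2 + y ^ 2 / t) / 2 - x * y = (t * x - y) ^ 2 / (2 * t) := by
    field_simp
    ring
  have h5 : 0 ≤ (t * x - y) ^ 2 / (2 * t) := by positivity
  linarith

theorem p_bil : S_bil := by
  rintro ⟨C1, hC1, hbA⟩ ⟨C2, hC2, hbB⟩
  refine ⟨4 * C1 * C2, by nlinarith, fun J M N R a b th hJ hR hth => ?_⟩
  have hJ' : (1 : ℝ) ≤ J := by exact_mod_cast hJ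
  have hJ0 : (0 : ℝ) < J := by linarith
  set c : ℕ → ℂ := fun j => ∑ p ∈ primChars R, th p * ∑ m ∈ Icc 1 M, ∑ n ∈ Icc 1 N,
      a m * b n * p.2 ((m * n : ℕ) : ZMod p.1) * (wJ J j (m * n) : ℂ) with hc
  set g : ℕ → ℂ := fun j => (starRingEnd ℂ) (c j) with hg
  set S : ℝ := ∑ j ∈ Ioc J (2 * J), ‖c j‖ ^ 2 with hS
  show S ≤ _
  set SA : ℝ := ∑ m ∈ Icc 1 M, ‖a m‖ ^ 2 with hSA
  set SB : ℝ := ∑ n ∈ Icc 1 N, ‖b n‖ ^ 2 with hSB
  have hS0 : 0 ≤ S := sum_nonneg fun _ _ => by positivity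
  have hSA0 : 0 ≤ SA := sum_nonneg fun _ _ => by positivity
  have hSB0 : 0 ≤ SB := sum_nonneg fun _ _ => by positivity
  have hgS : ∑ j ∈ Ioc J (2 * J), ‖g j‖ ^ 2 = S := by
    refine sum_congr rfl fun j _ => ?_
    rw [hg]
    simp only [RCLike.norm_conj]
  have hA := hbA J M R a hJ hR
  have hB := hbB J N R b g hJ hR
  rw [hgS] at hB
  set X : ℝ := C1 * ((R : ℝ) ^ 2 + M / J) / J * SA with hX
  set Y : ℝ := C2 * ((R : ℝ) ^ 2 + N) / J * SB with hY
  have hX0 : 0 ≤ X := by positivity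
  have hY0 : 0 ≤ Y := by positivity
  have hA' : ∫ s, ∑ p ∈ primChars R, ‖bilA J M a p s‖ ^ 2 ≤ X := hA
  have hB' : ∫ s, ∑ p ∈ primChars R, ‖bilB J N b g p s‖ ^ 2 ≤ Y * S := hB
  have hSeq : (S : ℂ) = ∑ j ∈ Ioc J (2 * J), g j * c j := by
    rw [hS]
    push_cast
    refine sum_congr rfl fun j _ => ?_
    rw [hg]
    exact (Complex.conj_mul' (c j)).symm
  have hmain : ∀ t : ℝ, 0 < t → S ≤ J * (t * X + Y * S / t) := by
    intro t ht
    have h1 : ‖(S : ℂ)‖ = S := by rw [Complex.norm_real, Real.norm_of_nonneg hS0]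
    have h2 : (S : ℂ) = ((2 * (J : ℝ) : ℝ) : ℂ) *
        ∫ s, ∑ p ∈ primChars R, th p * (bilA J M a p s * bilB J N b g p s) := by
      rw [hSeq]
      exact bil_eq J M N R a b g th hJ
    have h3 : S = 2 * J * ‖∫ s, ∑ p ∈ primChars R, th p * (bilA J M a p s * bilB J N b g p s)‖ := by
      have h4 := congrArg norm h2
      rw [h1, norm_mul, Complex.norm_real, Real.norm_of_nonneg (by positivity)] at h4
      exact h4
    have h5 := bil_norm J M N R a b g th hth t ht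
    have h6 : (t * (∫ s, ∑ p ∈ primChars R, ‖bilA J M a p s‖ ^ 2) +
        (∫ s, ∑ p ∈ primChars R, ‖bilB J N b g p s‖ ^ 2) / t) / 2 ≤ (t * X + Y * S / t) / 2 := by
      have h7 := mul_le_mul_of_nonneg_left hA' ht.le
      have h8 := div_le_div_of_nonneg_right hB' ht.le
      linarith
    calc S = 2 * J * ‖∫ s, ∑ p ∈ primChars R, th p * (bilA J M a p s * bilB J N b g p s)‖ := h3
      _ ≤ 2 * J * ((t * X + Y * S / t) / 2) :=
        mul_le_mul_of_nonneg_left (h5.trans h6) (by positivity)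
      _ = J * (t * X + Y * S / t) := by ring
  have hfin : S ≤ 4 * J ^ 2 * X * Y := by
    refine le_of_forall_pos_le_add fun ε hε => ?_
    set δ : ℝ := ε / (2 * J * X + 1) with hδ
    have hδ0 : 0 < δ := by positivity
    have ht : 0 < 2 * J * Y + δ := by positivity
    have h1 := hmain _ ht
    have h2 : J * (Y * S / (2 * J * Y + δ)) ≤ S / 2 := by
      rw [← mul_div_assoc, div_le_iff₀ ht]
      have : 0 ≤ S * δ := by positivity
      nlinarith
    have h3 : S ≤ 2 * J * X * (2 * J * Y + δ) := by nlinarith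
    have h4 : 2 * J * X * δ ≤ ε := by
      rw [hδ, ← mul_div_assoc, div_le_iff₀ (by positivity)]
      nlinarith
    nlinarith
  refine hfin.trans (le_of_eq ?_)
  rw [hX, hY]
  field_simp

end Pool.Agent.CH.D
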