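import Pool.Agent.Lib.MP_d610d0_nt.CH.D.Stm

set_option autoImplicit false

/-!
Piece blk.
-/

namespace Pool.Agent.CH.D

open Finset Filter
open ArithmeticFunction (vonMangoldt)
open Pool.Agent.MP89da58 (tri primChars)
open Pool.Agent.BVall (boxL)
open Pool.Agent.CH.V (pz ex)
open Pool.Agent.CH.P (R_PW R_PNT)

/-- The real inequality at the end. -/
theorem blk_real (A B : ℕ) (C L x y R M N : ℝ) (hC : 1 ≤ C) (hL : 1 ≤ L) (hx : 1 ≤ x)
    (hM : 0 ≤ M) (hN : 0 ≤ N) (_hR : 0 ≤ R) (hRy : R ^ 2 ≤ y) (hNy : 2 * N ≤ 54 * y)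
    (hMy : 2 * M / x ≤ 54 * y) (hMN : M * N ≤ 27 * x ^ 3) (hRL : L ^ (2 * B) ≤ R ^ 2)
    (h1 : 27 * C * L ^ (12 + A) * (162 * y) ≤ x ^ 2 / 2)
    (h2 : 27 * C * L ^ (12 + A) * 108 ≤ L ^ (2 * B) / 2) :
    C * (R ^ 2 + 2 * M / x) * (R ^ 2 + 2 * N) * ((M * L ^ 6) * (N * L ^ 6)) ≤
      R ^ 2 * x ^ 5 / L ^ A := by
  have hx0 : 0 < x := by linarith
  have hL0 : 0 < L := by linarith
  have hLA : 0 < L ^ A := pow_pos hL0 A
  have hLB : 0 < L ^ (2 * B) := pow_pos hL0 _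
  have hR2 : 0 ≤ R ^ 2 := sq_nonneg R
  rw [le_div_iff₀ hLA]
  have e1 : (R ^ 2 + 2 * M / x) * (R ^ 2 + 2 * N) =
      R ^ 2 * (R ^ 2 + 2 * N + 2 * M / x) + 4 * (M * N) / x := by
    field_simp
    ring
  have e2 : 4 * (M * N) / x ≤ 108 * x ^ 2 := by
    rw [div_le_iff₀ hx0]
    nlinarith [hMN]
  have hy : 0 ≤ y := le_trans hR2 hRy
  have e3 : R ^ 2 * (R ^ 2 + 2 * N + 2 * M / x) ≤ R ^ 2 * (162 * y) := by
    apply mul_le_mul_of_nonneg_left _ hR2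
    linarith
  have e4 : 27 * C * L ^ (12 + A) * (108 * x ^ 2) ≤ R ^ 2 * (x ^ 2 / 2) := by
    have : 27 * C * L ^ (12 + A) * (108 * x ^ 2) = (27 * C * L ^ (12 + A) * 108) * x ^ 2 := by ring
    rw [this]
    have h3 : (27 * C * L ^ (12 + A) * 108) ≤ R ^ 2 / 2 := by linarith
    calc (27 * C * L ^ (12 + A) * 108) * x ^ 2 ≤ (R ^ 2 / 2) * x ^ 2 :=
          mul_le_mul_of_nonneg_right h3 (sq_nonneg x)
      _ = R ^ 2 * (x ^ 2 / 2) := by ring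
  have e5 : 27 * C * L ^ (12 + A) * (R ^ 2 * (162 * y)) ≤ R ^ 2 * (x ^ 2 / 2) := by
    have : 27 * C * L ^ (12 + A) * (R ^ 2 * (162 * y)) =
        R ^ 2 * (27 * C * L ^ (12 + A) * (162 * y)) := by ring
    rw [this]
    exact mul_le_mul_of_nonneg_left h1 hR2
  have e6 : (R ^ 2 + 2 * M / x) * (R ^ 2 + 2 * N) ≤ R ^ 2 * (162 * y) + 108 * x ^ 2 := by
    rw [e1]
    linarith
  have hL12 : 0 ≤ L ^ (12 + A) := (pow_pos hL0 _).le
  have hE0 : 0 ≤ R ^ 2 * (162 * y) + 108 * x ^ 2 := by positivity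
  calc C * (R ^ 2 + 2 * M / x) * (R ^ 2 + 2 * N) * ((M * L ^ 6) * (N * L ^ 6)) * L ^ A
      = (C * L ^ (12 + A) * (M * N)) * ((R ^ 2 + 2 * M / x) * (R ^ 2 + 2 * N)) := by
        rw [pow_add]; ring
    _ ≤ (C * L ^ (12 + A) * (M * N)) * (R ^ 2 * (162 * y) + 108 * x ^ 2) :=
        mul_le_mul_of_nonneg_left e6 (by positivity)
    _ ≤ (C * L ^ (12 + A) * (27 * x ^ 3)) * (R ^ 2 * (162 * y) + 108 * x ^ 2) := by
        apply mul_le_mul_of_nonneg_right _ hE0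
        exact mul_le_mul_of_nonneg_left hMN (by positivity)
    _ = x ^ 3 * (27 * C * L ^ (12 + A) * (R ^ 2 * (162 * y)) +
          27 * C * L ^ (12 + A) * (108 * x ^ 2)) := by ring
    _ ≤ x ^ 3 * (R ^ 2 * (x ^ 2 / 2) + R ^ 2 * (x ^ 2 / 2)) := by
        apply mul_le_mul_of_nonneg_left _ (by positivity)
        linarith
    _ = R ^ 2 * x ^ 5 := by ring

/-- the ordered case -/
theorem blk_ord (hb : R_bil) (A : ℕ) (δ : ℝ) (hδ : 0 < δ) : ∀ᶠ J : ℕ in atTop, ∀ (R M N : ℕ)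
  (a b : ℕ → ℂ) (th : (Σ q, DirichletCharacter ℂ q) → ℂ), (Real.log J) ^ (A + 13) ≤ (R : ℝ) →
  (R : ℝ) ≤ (J : ℝ) ^ (999 / 1000 : ℝ) → (∀ p, ‖th p‖ ≤ 1) → (J : ℝ) ^ δ ≤ M → (J : ℝ) ^ δ ≤ N →
  N ≤ M → M * N ≤ 27 * J ^ 3 →
  ∑ m ∈ Icc 1 (2 * M), ‖a m‖ ^ 2 ≤ M * (Real.log J) ^ 6 →
  ∑ n ∈ Icc 1 (2 * N), ‖b n‖ ^ 2 ≤ N * (Real.log J) ^ 6 →
  ∑ j ∈ Ioc J (2 * J), ‖∑ p ∈ primChars R, th p * ∑ m ∈ Icc 1 (2 * M), ∑ n ∈ Icc 1 (2 * N),
      a m * b n * p.2 ((m * n : ℕ) : ZMod p.1) * (wJ J j (m * n) : ℂ)‖ ^ 2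
    ≤ (R : ℝ) ^ 2 * (J : ℝ) ^ 5 / (Real.log J) ^ A := by
  obtain ⟨C, hC, hbil⟩ := hb
  set η : ℝ := min (2 / 1000) δ with hη
  have hη0 : 0 < η := lt_min (by norm_num) hδ
  have hη1 : η ≤ 2 / 1000 := min_le_left _ _
  have hη2 : η ≤ δ := min_le_right _ _
  have hlog : Tendsto (fun J : ℕ => Real.log (J : ℝ)) atTop atTop :=
    Real.tendsto_log_atTop.comp tendsto_natCast_atTop_atTop
  -- first eventual inequality
  have ev1 : ∀ᶠ J : ℕ in atTop,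
      27 * C * (Real.log J) ^ (12 + A) * 324 ≤ (J : ℝ) ^ η := by
    have h1 := isLittleO_log_rpow_rpow_atTop (s := η) ((12 + A : ℕ) : ℝ) hη0
    have h2 := h1.bound (show (0 : ℝ) < (27 * C * 324)⁻¹ by positivity)
    have h3 := tendsto_natCast_atTop_atTop (R := ℝ) |>.eventually h2
    filter_upwards [h3, hlog.eventually_ge_atTop 1] with J hJ hL
    rw [Real.rpow_natCast, Real.norm_of_nonneg (by positivity),
      Real.norm_of_nonneg (Real.rpow_nonneg (Nat.cast_nonneg J) η)] at hJ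
    have hc : (0 : ℝ) < 27 * C * 324 := by positivity
    calc 27 * C * (Real.log J) ^ (12 + A) * 324 = (27 * C * 324) * (Real.log J) ^ (12 + A) := by ring
      _ ≤ (27 * C * 324) * ((27 * C * 324)⁻¹ * (J : ℝ) ^ η) := mul_le_mul_of_nonneg_left hJ hc.le
      _ = (J : ℝ) ^ η := by rw [← mul_assoc, mul_inv_cancel₀ hc.ne', one_mul]
  filter_upwards [ev1, hlog.eventually_ge_atTop (27 * C * 216), eventually_ge_atTop 1]
    with J hJ1 hJ2 hJ3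
  intro R M N a b th hR1 hR2 hth hM hN hNM hMN ha hb
  set L : ℝ := Real.log J with hLdef
  have hL : 1 ≤ L := le_trans (by nlinarith) hJ2
  have hx : (1 : ℝ) ≤ (J : ℝ) := by exact_mod_cast hJ3
  have hx0 : (0 : ℝ) < J := by linarith
  have hR0 : 0 < R := by
    have : (0 : ℝ) < (R : ℝ) := lt_of_lt_of_le (by positivity) hR1
    exact_mod_cast this
  have hMNr : (M : ℝ) * N ≤ 27 * (J : ℝ) ^ 3 := by exact_mod_cast hMN
  have hJδ : (0 : ℝ) < (J : ℝ) ^ δ := Real.rpow_pos_of_pos hx0 δ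
  have hN0 : (0 : ℝ) < N := lt_of_lt_of_le hJδ hN
  have hM0 : (0 : ℝ) < M := lt_of_lt_of_le hJδ hM
  have hNMr : (N : ℝ) ≤ M := by exact_mod_cast hNM
  have hkey := hbil J (2 * M) (2 * N) R a b th hJ3 hR0 hth
  refine le_trans hkey ?_
  have hy2 : (J : ℝ) ^ (2 - η) * (J : ℝ) ^ η = (J : ℝ) ^ 2 := by
    rw [← Real.rpow_add hx0, sub_add_cancel, Real.rpow_two]
  have hy0 : (0 : ℝ) < (J : ℝ) ^ (2 - η) := Real.rpow_pos_of_pos hx0 _
  have hreal := blk_real A (A + 13) C L J ((J : ℝ) ^ (2 - η)) R M N hC hL hx hM0.le hN0.le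
    (Nat.cast_nonneg R) ?_ ?_ ?_ hMNr ?_ ?_ ?_
  · refine le_trans ?_ hreal
    push_cast
    refine mul_le_mul_of_nonneg_left ?_ (by positivity)
    exact mul_le_mul ha hb (Finset.sum_nonneg fun _ _ => sq_nonneg _) (by positivity)
  · calc (R : ℝ) ^ 2 ≤ ((J : ℝ) ^ (999 / 1000 : ℝ)) ^ 2 :=
          pow_le_pow_left₀ (Nat.cast_nonneg R) hR2 2
      _ = (J : ℝ) ^ (2 * (999 / 1000 : ℝ)) := by
          rw [← Real.rpow_natCast, ← Real.rpow_mul hx0.le]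
          norm_num
      _ ≤ (J : ℝ) ^ (2 - η) := Real.rpow_le_rpow_of_exponent_le hx (by linarith)
  · -- `N`
    have h1 : (N : ℝ) ^ 2 ≤ (27 * (J : ℝ) ^ (3 / 2 : ℝ)) ^ 2 := by
      calc (N : ℝ) ^ 2 ≤ M * N := by nlinarith
        _ ≤ 27 * (J : ℝ) ^ 3 := hMNr
        _ ≤ (27 * (J : ℝ) ^ (3 / 2 : ℝ)) ^ 2 := by
            have h2 : ((J : ℝ) ^ (3 / 2 : ℝ)) ^ 2 = (J : ℝ) ^ 3 := by
              rw [← Real.rpow_natCast, ← Real.rpow_mul hx0.le, ← Real.rpow_natCast]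
              norm_num
            rw [mul_pow, h2]
            have h3 : (0 : ℝ) ≤ (J : ℝ) ^ 3 := by positivity
            nlinarith
    have h4 : (N : ℝ) ≤ 27 * (J : ℝ) ^ (3 / 2 : ℝ) :=
      (pow_le_pow_iff_left₀ hN0.le (by positivity) two_ne_zero).1 h1
    have h5 : (J : ℝ) ^ (3 / 2 : ℝ) ≤ (J : ℝ) ^ (2 - η) :=
      Real.rpow_le_rpow_of_exponent_le hx (by linarith)
    linarith
  · -- `M`
    have h1 : (M : ℝ) * (J : ℝ) ^ δ ≤ 27 * (J : ℝ) ^ 3 :=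
      le_trans (mul_le_mul_of_nonneg_left hN hM0.le) hMNr
    have h2 : (M : ℝ) ≤ 27 * (J : ℝ) ^ (3 - δ) := by
      have h3 : (J : ℝ) ^ (3 - δ) * (J : ℝ) ^ δ = (J : ℝ) ^ 3 := by
        rw [← Real.rpow_add hx0, sub_add_cancel, ← Real.rpow_natCast]
        norm_num
      have h4 : (M : ℝ) * (J : ℝ) ^ δ ≤ (27 * (J : ℝ) ^ (3 - δ)) * (J : ℝ) ^ δ := by
        rw [mul_assoc, h3]; exact h1
      exact le_of_mul_le_mul_right h4 hJδ
    rw [div_le_iff₀ hx0]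
    have h5 : (J : ℝ) ^ (3 - δ) ≤ (J : ℝ) ^ (2 - η) * J := by
      have h6 : (J : ℝ) ^ (2 - η) * J = (J : ℝ) ^ (3 - η) := by
        rw [← Real.rpow_add_one hx0.ne']
        congr 1
        ring
      rw [h6]
      exact Real.rpow_le_rpow_of_exponent_le hx (by linarith)
    nlinarith
  · rw [mul_comm 2, pow_mul]
    exact pow_le_pow_left₀ (by positivity) hR1 2
  · have h1 : 27 * C * L ^ (12 + A) * (162 * (J : ℝ) ^ (2 - η)) =
        (27 * C * L ^ (12 + A) * 324) * (J : ℝ) ^ (2 - η) / 2 := by ring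
    rw [h1, ← hy2, mul_comm ((J : ℝ) ^ (2 - η))]
    have := mul_le_mul_of_nonneg_right hJ1 hy0.le
    linarith
  · have h1 : 2 * (A + 13) = (12 + A) + (A + 14) := by ring
    rw [h1, pow_add L (12 + A) (A + 14)]
    have h2 : 27 * C * 216 ≤ L ^ (A + 14) := by
      refine le_trans hJ2 ?_
      exact le_self_pow₀ hL (by omega)
    have h3 : (0 : ℝ) ≤ L ^ (12 + A) := by positivity
    have := mul_le_mul_of_nonneg_left h2 h3
    nlinarith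

theorem p_blk : S_blk := by
  intro hb A δ hδ
  refine ⟨A + 13, ?_⟩
  filter_upwards [blk_ord hb A δ hδ] with J hJ
  intro R M N a b th hR1 hR2 hth hM hN hMN ha hb'
  rcases le_total N M with h | h
  · exact hJ R M N a b th hR1 hR2 hth hM hN h hMN ha hb'
  · have h1 := hJ R N M b a th hR1 hR2 hth hN hM h (by rw [mul_comm]; exact hMN) hb' ha
    have h2 : ∀ j, (∑ p ∈ primChars R, th p * ∑ m ∈ Icc 1 (2 * M), ∑ n ∈ Icc 1 (2 * N),
        a m * b n * p.2 ((m * n : ℕ) : ZMod p.1) * (wJ J j (m * n) : ℂ)) =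
        ∑ p ∈ primChars R, th p * ∑ m ∈ Icc 1 (2 * N), ∑ n ∈ Icc 1 (2 * M),
        b m * a n * p.2 ((m * n : ℕ) : ZMod p.1) * (wJ J j (m * n) : ℂ) := by
      intro j
      refine Finset.sum_congr rfl fun p _ => ?_
      congr 1
      rw [Finset.sum_comm]
      refine Finset.sum_congr rfl fun n _ => Finset.sum_congr rfl fun m _ => ?_
      rw [mul_comm (a m) (b n), mul_comm m n]
    rw [Finset.sum_congr rfl fun j _ => by rw [h2 j]]
    exact h1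

end Pool.Agent.CH.D
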