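import Pool.Agent.Lib.MP_d610d0_nt.CH.D.Stm
import Pool.Agent.Lib.MP_89da58_nt.Bv

set_option autoImplicit false

/-!
Piece cfs.
-/

namespace Pool.Agent.CH.D

open Finset Filter
open ArithmeticFunction (vonMangoldt)
open Pool.Agent.MP89da58 (tri primChars)
open Pool.Agent.BVall (boxL)
open Pool.Agent.CH.V (pz ex)
open Pool.Agent.CH.P (R_PW R_PNT)

private lemma cfs_sum {J r : ℕ} (hr : 1 ≤ r) :
    ∑ q ∈ (Icc 1 J).filter (fun q => r ∣ q), 1 / (Nat.totient q : ℝ) ≤
      1 / (Nat.totient r : ℝ) * ∑ m ∈ Icc 1 J, 1 / (Nat.totient m : ℝ) := by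
  have hsub : (Icc 1 J).filter (fun q => r ∣ q) ⊆ (Icc 1 J).image (fun m => r * m) := by
    intro q hq
    obtain ⟨hq1, ⟨m, rfl⟩⟩ := mem_filter.mp hq
    obtain ⟨h1, h2⟩ := mem_Icc.mp hq1
    refine mem_image.mpr ⟨m, mem_Icc.mpr ⟨?_, ?_⟩, rfl⟩
    · rcases Nat.eq_zero_or_pos m with h | h
      · subst h
        omega
      · exact h
    · exact (Nat.le_mul_of_pos_left m hr).trans h2
  calc ∑ q ∈ (Icc 1 J).filter (fun q => r ∣ q), 1 / (Nat.totient q : ℝ)
      ≤ ∑ q ∈ (Icc 1 J).image (fun m => r * m), 1 / (Nat.totient q : ℝ) :=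
        sum_le_sum_of_subset_of_nonneg hsub fun _ _ _ => by positivity
    _ = ∑ m ∈ Icc 1 J, 1 / (Nat.totient (r * m) : ℝ) := by
        refine sum_image (fun a _ b _ hab => ?_)
        exact Nat.eq_of_mul_eq_mul_left hr hab
    _ ≤ ∑ m ∈ Icc 1 J, 1 / (Nat.totient r : ℝ) * (1 / (Nat.totient m : ℝ)) := by
        refine sum_le_sum fun m hm => ?_
        have hm1 : 0 < m := (mem_Icc.mp hm).1
        have h1 : (0 : ℝ) < Nat.totient r := by exact_mod_cast Nat.totient_pos.2 hr
        have h2 : (0 : ℝ) < Nat.totient m := by exact_mod_cast Nat.totient_pos.2 hm1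
        have h3 : (Nat.totient r : ℝ) * Nat.totient m ≤ (Nat.totient (r * m) : ℝ) := by
          exact_mod_cast Nat.totient_super_multiplicative r m
        rw [one_div_mul_one_div]
        exact one_div_le_one_div_of_le (mul_pos h1 h2) h3
    _ = _ := by rw [mul_sum]

theorem p_cfs : S_cfs := by
  intro z Q c J r hW hJ hr
  have hr0 : (0 : ℝ) < r := by exact_mod_cast hr
  have hJ1 : (1 : ℝ) ≤ J := by
    have : 1 ≤ J := by omega
    exact_mod_cast this
  have hlogJ : 0 ≤ Real.log J := Real.log_nonneg hJ1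
  constructor
  · by_cases hrJ : r ≤ J
    · have h1 : |∑ q ∈ (Icc 1 J).filter (fun q => r ∣ q), c q / Nat.totient q| ≤
          3 * ∑ q ∈ (Icc 1 J).filter (fun q => r ∣ q), 1 / (Nat.totient q : ℝ) := by
        refine (abs_sum_le_sum_abs _ _).trans ?_
        rw [mul_sum]
        refine sum_le_sum fun q _ => ?_
        rw [abs_div, Nat.abs_cast, mul_one_div]
        exact div_le_div_of_nonneg_right (hW.bd q) (Nat.cast_nonneg _)
      have h2 := cfs_sum (J := J) hr
      have h3 := Pool.Agent.MP89da58.inv_totient_le r (by omega)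
      have h4 := Pool.Agent.MP89da58.sum_inv_totient_le J (by omega)
      have hl2 : (0.69 : ℝ) < Real.log 2 := lt_trans (by norm_num) Real.log_two_gt_d9
      have hl0 : 0 < Real.log 2 := by linarith
      have hlr : Real.log r ≤ Real.log J := Real.log_le_log hr0 (by exact_mod_cast hrJ)
      have h5 : Real.log J / Real.log 2 + 1 ≤ 1.5 * (Real.log J + 1) := by
        have : Real.log J / Real.log 2 ≤ 1.5 * Real.log J := by
          rw [div_le_iff₀ hl0]
          nlinarith
        linarith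
      have h6 : Real.log r / Real.log 2 + 1 ≤ 1.5 * (Real.log J + 1) := by
        have := div_le_div_of_nonneg_right hlr hl0.le
        linarith
      have h7 : 1 / (Nat.totient r : ℝ) ≤ 1.5 * (Real.log J + 1) / r :=
        h3.trans (div_le_div_of_nonneg_right h6 hr0.le)
      have h8 : ∑ m ∈ Icc 1 J, 1 / (Nat.totient m : ℝ) ≤
          1.5 * (Real.log J + 1) * (1 + Real.log J) :=
        h4.trans (mul_le_mul_of_nonneg_right h5 (by linarith))
      have h9 : 1 / (Nat.totient r : ℝ) * ∑ m ∈ Icc 1 J, 1 / (Nat.totient m : ℝ) ≤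
          1.5 * (Real.log J + 1) / r * (1.5 * (Real.log J + 1) * (1 + Real.log J)) :=
        mul_le_mul h7 h8 (sum_nonneg fun _ _ => by positivity) (by positivity)
      have h10 : 3 * (1.5 * (Real.log J + 1) / r * (1.5 * (Real.log J + 1) * (1 + Real.log J)))
          = 6.75 * ((Real.log J + 1) ^ 3 / r) := by
        ring
      have h11 : 0 ≤ (Real.log J + 1) ^ 3 / r := by positivity
      have h12 : 100 * (Real.log J + 1) ^ 3 / r = 100 * ((Real.log J + 1) ^ 3 / r) := by ring
      rw [h12]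
      linarith
    · have hemp : (Icc 1 J).filter (fun q => r ∣ q) = ∅ := by
        rw [filter_eq_empty_iff]
        intro q hq hrq
        obtain ⟨hq1, hq2⟩ := mem_Icc.mp hq
        have := Nat.le_of_dvd (by omega) hrq
        omega
      rw [hemp, sum_empty, abs_zero]
      positivity
  · intro hQ
    refine sum_eq_zero fun q hq => ?_
    obtain ⟨hq1, hrq⟩ := mem_filter.mp hq
    obtain ⟨hq1, hq2⟩ := mem_Icc.mp hq1
    by_cases hc : c q = 0
    · rw [hc, zero_div]
    · exfalso
      have h1 := hW.le q hc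
      have h2 : (r : ℝ) ≤ q := by exact_mod_cast Nat.le_of_dvd (by omega) hrq
      linarith

end Pool.Agent.CH.D
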