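import Pool.Agent.Lib.MP_d610d0_nt.CH.D.Stm

set_option autoImplicit false

/-!
Piece chr.
-/

namespace Pool.Agent.CH.D

open Finset Filter
open ArithmeticFunction (vonMangoldt)
open Pool.Agent.MP89da58 (tri primChars)
open Pool.Agent.BVall (boxL)
open Pool.Agent.CH.V (pz ex)
open Pool.Agent.CH.P (R_PW R_PNT)

private theorem chr_inv {q : ℕ} [NeZero q] (χ : DirichletCharacter ℂ q) {a : ZMod q}
    (ha : IsUnit a) : χ⁻¹ a = χ a⁻¹ := by
  have h1 : χ⁻¹ a * χ a = 1 := by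
    rw [← MulChar.mul_apply, inv_mul_cancel, MulChar.one_apply ha]
  have h2 : χ a * χ a⁻¹ = 1 := by
    rw [← map_mul, ZMod.mul_inv_of_unit a ha, map_one]
  calc χ⁻¹ a = χ⁻¹ a * (χ a * χ a⁻¹) := by rw [h2, mul_one]
    _ = χ a⁻¹ := by rw [← mul_assoc, h1, one_mul]

theorem p_chr : S_chr := by
  intro J j q f a hq ha hf
  haveI : NeZero q := ⟨by omega⟩
  have hu : IsUnit (a : ZMod q) := by
    exact (ZMod.coe_int_isUnit_iff_isCoprime a q).2 ha.symm
  -- all characters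
  have hall : ∑ χ : DirichletCharacter ℂ q, χ⁻¹ (a : ZMod q) * Sf f J j χ =
      (Nat.totient q : ℂ) * ∑ n ∈ (Icc 1 (27 * J ^ 3)).filter (fun n : ℕ => (q : ℤ) ∣ (n : ℤ) - a),
        (f n : ℂ) * (wJ J j n : ℂ) := by
    unfold Sf
    simp only [Finset.mul_sum]
    rw [Finset.sum_comm, Finset.sum_filter]
    refine Finset.sum_congr rfl fun n _ => ?_
    have h1 := DirichletCharacter.sum_char_inv_mul_char_eq ℂ hu (n : ZMod q)
    have h2 : ∑ χ : DirichletCharacter ℂ q, χ⁻¹ (a : ZMod q) *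
        ((f n : ℂ) * χ (n : ZMod q) * (wJ J j n : ℂ)) =
        (∑ χ : DirichletCharacter ℂ q, χ ((a : ZMod q)⁻¹) * χ (n : ZMod q)) *
          ((f n : ℂ) * (wJ J j n : ℂ)) := by
      rw [Finset.sum_mul]
      refine Finset.sum_congr rfl fun χ _ => ?_
      rw [chr_inv χ hu]
      ring
    rw [h2, h1]
    have h3 : ((a : ZMod q) = (n : ZMod q)) ↔ (q : ℤ) ∣ (n : ℤ) - a := by
      rw [← ZMod.intCast_eq_intCast_iff_dvd_sub]
      simp
    by_cases h4 : (q : ℤ) ∣ (n : ℤ) - a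
    · rw [if_pos h4, if_pos (h3.2 h4)]
    · rw [if_neg h4, if_neg (fun h => h4 (h3.1 h))]
      ring
  -- the principal character
  have hone : (1 : DirichletCharacter ℂ q)⁻¹ (a : ZMod q) * Sf f J j (1 : DirichletCharacter ℂ q) =
      ∑ n ∈ Icc 1 (27 * J ^ 3), (f n : ℂ) * (wJ J j n : ℂ) := by
    rw [inv_one, MulChar.one_apply hu, one_mul]
    unfold Sf
    refine Finset.sum_congr rfl fun n hn => ?_
    by_cases h0 : f n = 0
    · rw [h0]; simp
    by_cases h1 : wJ J j n = 0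
    · rw [h1]; simp
    have h2 := hf n (Finset.mem_Icc.1 hn).1 h0 h1
    rw [MulChar.one_apply ((ZMod.isUnit_iff_coprime n q).2 h2), mul_one]
  have key : ∀ inst : DecidableEq (DirichletCharacter ℂ q),
      ∑ χ ∈ @Finset.erase _ inst Finset.univ 1, χ⁻¹ (a : ZMod q) * Sf f J j χ =
        ∑ χ : DirichletCharacter ℂ q, χ⁻¹ (a : ZMod q) * Sf f J j χ -
        (1 : DirichletCharacter ℂ q)⁻¹ (a : ZMod q) * Sf f J j (1 : DirichletCharacter ℂ q) := by
    intro inst
    have h := @Finset.add_sum_erase _ _ _ inst Finset.univ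
      (fun χ : DirichletCharacter ℂ q => χ⁻¹ (a : ZMod q) * Sf f J j χ) 1 (Finset.mem_univ _)
    rw [← h]
    ring
  rw [key, hall, hone]
  unfold EE
  have hq0 : (Nat.totient q : ℂ) ≠ 0 := by
    have := Nat.totient_pos.2 hq
    exact_mod_cast this.ne'
  push_cast
  rw [mul_sub, ← mul_assoc, mul_one_div_cancel hq0, one_mul]

end Pool.Agent.CH.D
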