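import Pool.Agent.Lib.MP_d610d0_nt.CH.D.Stm

set_option autoImplicit false

/-!
Piece cmi.
-/

namespace Pool.Agent.CH.D

open Finset Filter
open ArithmeticFunction (vonMangoldt)
open Pool.Agent.MP89da58 (tri primChars)
open Pool.Agent.BVall (boxL)
open Pool.Agent.CH.V (pz ex)
open Pool.Agent.CH.P (R_PW R_PNT)

/-- finitely many small `J` are absorbed by the constant -/
private theorem cmi_abs (S : ℕ → ℝ) (hS : ∀ J, 0 ≤ S J) (A : ℕ)
    (h : ∀ᶠ J : ℕ in atTop, S J ≤ (J : ℝ) ^ 7 / Real.log J ^ A) :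
    ∃ C : ℝ, ∀ J : ℕ, 2 ≤ J → S J ≤ C * (J : ℝ) ^ 7 / Real.log J ^ A := by
  obtain ⟨J0, hJ0⟩ := eventually_atTop.1 h
  have hlog : ∀ J : ℕ, 0 ≤ Real.log J := fun J => Real.log_natCast_nonneg J
  let g : ℕ → ℝ := fun J => S J * Real.log J ^ A / (J : ℝ) ^ 7
  have hg : ∀ J, 0 ≤ g J := fun J =>
    div_nonneg (mul_nonneg (hS J) (pow_nonneg (hlog J) A)) (by positivity)
  refine ⟨1 + ∑ J ∈ range J0, g J, fun J hJ => ?_⟩
  have hJ' : (2 : ℝ) ≤ (J : ℝ) := by exact_mod_cast hJ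
  have hl : 0 < Real.log J := Real.log_pos (by linarith)
  have hlA : 0 < Real.log J ^ A := pow_pos hl A
  have hJ7 : 0 < (J : ℝ) ^ 7 := by positivity
  have hsum : 0 ≤ ∑ J ∈ range J0, g J := Finset.sum_nonneg fun J _ => hg J
  by_cases hc : J0 ≤ J
  · refine (hJ0 J hc).trans ?_
    rw [div_le_div_iff_of_pos_right hlA]
    nlinarith
  · push Not at hc
    have h1 : g J ≤ ∑ J ∈ range J0, g J :=
      Finset.single_le_sum (f := g) (fun i _ => hg i) (Finset.mem_range.2 hc)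
    have h2 : S J = g J * (J : ℝ) ^ 7 / Real.log J ^ A := by
      show S J = S J * Real.log J ^ A / (J : ℝ) ^ 7 * (J : ℝ) ^ 7 / Real.log J ^ A
      field_simp
    rw [h2, div_le_div_iff_of_pos_right hlA]
    exact mul_le_mul_of_nonneg_right (by linarith) hJ7.le

theorem p_cmi : S_cmi := by
  intro hCM A
  obtain ⟨E0, hE0⟩ := hCM A
  have h := hE0 (E0 + 1) (Nat.le_succ E0)
  obtain ⟨C, hC⟩ := cmi_abs (fun J => ∑ j ∈ Ioc J (2 * J),
    (2 * (J : ℝ) * ∑ n ∈ Icc 1 (27 * J ^ 3), RR (zJ J) n * wJ J j n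
    - Real.log J ^ (E0 + 1) *
      ∑ n ∈ Icc 1 (27 * J ^ 3), RR (zJ J) n * wL (Real.log J ^ (E0 + 1)) j n) ^ 2)
    (fun J => Finset.sum_nonneg fun j _ => sq_nonneg _) A h
  exact ⟨E0 + 1, C, Nat.succ_le_succ (Nat.zero_le _), hC⟩

end Pool.Agent.CH.D
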