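import Pool.Agent.Lib.MP_d610d0_nt.CH.D.Stm

set_option autoImplicit false

/-!
Piece cpm.
-/

namespace Pool.Agent.CH.D

open Finset Filter
open ArithmeticFunction (vonMangoldt)
open Pool.Agent.MP89da58 (tri primChars)
open Pool.Agent.BVall (boxL)
open Pool.Agent.CH.V (pz ex)
open Pool.Agent.CH.P (R_PW R_PNT)

private theorem cpm_ev (C : ℝ) (k : ℕ) :
    ∀ᶠ J : ℕ in atTop, C * (Real.log J) ^ k ≤ (J : ℝ) := by
  have h := (Real.isLittleO_pow_log_id_atTop (n := k))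
  have hc : 0 < (|C| + 1)⁻¹ := by positivity
  have h1 := h.def hc
  have h2 := (tendsto_natCast_atTop_atTop (R := ℝ)).eventually h1
  filter_upwards [h2, eventually_ge_atTop 1] with J hJ hJ1
  have hlog : 0 ≤ Real.log (J : ℝ) := Real.log_natCast_nonneg J
  rw [Real.norm_of_nonneg (pow_nonneg hlog k), id_eq, Real.norm_of_nonneg (Nat.cast_nonneg J)] at hJ
  have h3 : (|C| + 1) * (Real.log J) ^ k ≤ J := by
    calc (|C| + 1) * (Real.log J) ^ k ≤ (|C| + 1) * ((|C| + 1)⁻¹ * J) :=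
          mul_le_mul_of_nonneg_left hJ (by positivity)
      _ = J := by
          rw [← mul_assoc, mul_inv_cancel₀ (by positivity), one_mul]
  refine le_trans ?_ h3
  apply mul_le_mul_of_nonneg_right _ (pow_nonneg hlog k)
  linarith only [le_abs_self C]

private theorem cpm_num (x L M N u Sa Sb Sb2 t e : ℝ) (hx : 2 ≤ x) (hL : 600000 ≤ L) (hM : 0 ≤ M)
    (hN : 0 ≤ N) (hu : 1 ≤ u) (hSa0 : 0 ≤ Sa) (hSb0 : 0 ≤ Sb) (hSb20 : 0 ≤ Sb2) (hxN : x ≤ 4 * N)
    (hMN : M * N ≤ 27 * x ^ 3) (ha : Sa ≤ M * L ^ 6) (hb : Sb2 ≤ N * L ^ 6)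
    (hb1 : Sb ^ 2 ≤ 2 * N * Sb2) (ht : 0 ≤ t) (he : 0 < e) (hte : t * (u * L ^ 19) ≤ e)
    (h3 : 583200 * (L ^ 18 * u) ≤ x) (h4 : 46656 * (e * L ^ 18 * u) ≤ x) :
    50 * x ^ 2 * (M / (u * L ^ 4)) ^ 2 * (1 + 3 * (2 * N) / (2 * x)) * Sb2
      + (4 * x * t / e + 50 + 4 * e / x) * (Sa * Sb) ^ 2 ≤ x ^ 7 / u := by
  have hx0 : 0 < x := by linarith only [hx]
  have hL0 : 0 < L := by linarith only [hL]
  have hu0 : 0 < u := by linarith only [hu]
  have hP : (M * N) ^ 2 ≤ 729 * x ^ 6 := by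
    calc (M * N) ^ 2 ≤ (27 * x ^ 3) ^ 2 := pow_le_pow_left₀ (by positivity) hMN 2
      _ = 729 * x ^ 6 := by ring
  have t1 : 50 * x ^ 2 * (M / (u * L ^ 4)) ^ 2 * (1 + 3 * (2 * N) / (2 * x)) * Sb2
      ≤ x ^ 7 / (2 * u) := by
    have a1 : 1 + 3 * (2 * N) / (2 * x) ≤ 7 * N / x := by
      rw [show 1 + 3 * (2 * N) / (2 * x) = (x + 3 * N) / x by field_simp]
      exact div_le_div_of_nonneg_right (by linarith only [hxN]) hx0.le
    calc 50 * x ^ 2 * (M / (u * L ^ 4)) ^ 2 * (1 + 3 * (2 * N) / (2 * x)) * Sb2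
        ≤ 50 * x ^ 2 * (M / (u * L ^ 4)) ^ 2 * (7 * N / x) * (N * L ^ 6) := by
          apply mul_le_mul _ hb hSb20 (by positivity)
          exact mul_le_mul_of_nonneg_left a1 (by positivity)
      _ = 350 * x * (M * N) ^ 2 / (u ^ 2 * L ^ 2) := by
          field_simp
          ring
      _ ≤ 350 * x * (729 * x ^ 6) / (u ^ 2 * L ^ 2) := by
          apply div_le_div_of_nonneg_right _ (by positivity)
          exact mul_le_mul_of_nonneg_left hP (by positivity)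
      _ ≤ x ^ 7 / (2 * u) := by
          rw [div_le_div_iff₀ (by positivity) (by positivity)]
          have b1 : 510300 ≤ u * L ^ 2 := by nlinarith only [hL, hu]
          calc 350 * x * (729 * x ^ 6) * (2 * u) = x ^ 7 * u * 510300 := by ring
            _ ≤ x ^ 7 * u * (u * L ^ 2) := mul_le_mul_of_nonneg_left b1 (by positivity)
            _ = x ^ 7 * (u ^ 2 * L ^ 2) := by ring
  have hW : (Sa * Sb) ^ 2 ≤ 1458 * x ^ 6 * L ^ 18 := by
    calc (Sa * Sb) ^ 2 = Sa ^ 2 * Sb ^ 2 := by ring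
      _ ≤ (M * L ^ 6) ^ 2 * (2 * N * (N * L ^ 6)) := by
          apply mul_le_mul (pow_le_pow_left₀ hSa0 ha 2) _ (by positivity) (by positivity)
          exact hb1.trans (mul_le_mul_of_nonneg_left hb (by positivity))
      _ = 2 * (M * N) ^ 2 * L ^ 18 := by ring
      _ ≤ 2 * (729 * x ^ 6) * L ^ 18 := by
          apply mul_le_mul_of_nonneg_right _ (by positivity)
          exact mul_le_mul_of_nonneg_left hP (by norm_num)
      _ = 1458 * x ^ 6 * L ^ 18 := by ring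
  have t2 : 4 * x * t / e * (1458 * x ^ 6 * L ^ 18) ≤ x ^ 7 / (8 * u) := by
    have c1 : t / e ≤ 1 / (u * L ^ 19) := by
      rw [div_le_div_iff₀ he (by positivity)]
      linarith only [hte]
    calc 4 * x * t / e * (1458 * x ^ 6 * L ^ 18) = 5832 * x ^ 7 * L ^ 18 * (t / e) := by ring
      _ ≤ 5832 * x ^ 7 * L ^ 18 * (1 / (u * L ^ 19)) :=
          mul_le_mul_of_nonneg_left c1 (by positivity)
      _ = 5832 * x ^ 7 / (u * L) := by
          field_simp
      _ ≤ x ^ 7 / (8 * u) := by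
          rw [div_le_div_iff₀ (by positivity) (by positivity)]
          have b1 : 46656 ≤ L := by linarith only [hL]
          calc 5832 * x ^ 7 * (8 * u) = x ^ 7 * u * 46656 := by ring
            _ ≤ x ^ 7 * u * L := mul_le_mul_of_nonneg_left b1 (by positivity)
            _ = x ^ 7 * (u * L) := by ring
  have t3 : 50 * (1458 * x ^ 6 * L ^ 18) ≤ x ^ 7 / (8 * u) := by
    rw [le_div_iff₀ (by positivity)]
    calc 50 * (1458 * x ^ 6 * L ^ 18) * (8 * u) = x ^ 6 * (583200 * (L ^ 18 * u)) := by ring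
      _ ≤ x ^ 6 * x := mul_le_mul_of_nonneg_left h3 (by positivity)
      _ = x ^ 7 := by ring
  have t4 : 4 * e / x * (1458 * x ^ 6 * L ^ 18) ≤ x ^ 7 / (8 * u) := by
    rw [le_div_iff₀ (by positivity)]
    calc 4 * e / x * (1458 * x ^ 6 * L ^ 18) * (8 * u)
        = x ^ 5 * (46656 * (e * L ^ 18 * u)) := by
          field_simp
          ring
      _ ≤ x ^ 5 * x := mul_le_mul_of_nonneg_left h4 (by positivity)
      _ ≤ x ^ 5 * x ^ 2 := by
          apply mul_le_mul_of_nonneg_left _ (by positivity)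
          nlinarith only [hx]
      _ = x ^ 7 := by ring
  have t5 : (4 * x * t / e + 50 + 4 * e / x) * (Sa * Sb) ^ 2
      ≤ (4 * x * t / e + 50 + 4 * e / x) * (1458 * x ^ 6 * L ^ 18) :=
    mul_le_mul_of_nonneg_left hW (by positivity)
  have t6 : x ^ 7 / (2 * u) + 3 * (x ^ 7 / (8 * u)) ≤ x ^ 7 / u := by
    have : 0 ≤ x ^ 7 / u := by positivity
    rw [show x ^ 7 / (2 * u) = 1 / 2 * (x ^ 7 / u) by field_simp,
      show x ^ 7 / (8 * u) = 1 / 8 * (x ^ 7 / u) by field_simp]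
    linarith only [this]
  have t7 : (4 * x * t / e + 50 + 4 * e / x) * (1458 * x ^ 6 * L ^ 18) =
      4 * x * t / e * (1458 * x ^ 6 * L ^ 18) + 50 * (1458 * x ^ 6 * L ^ 18) +
        4 * e / x * (1458 * x ^ 6 * L ^ 18) := by ring
  linarith only [t1, t2, t3, t4, t5, t6, t7]

theorem p_cpm : S_cpm := by
  intro hcm A D
  refine ⟨6 * D + A + 19, fun E hE => ?_⟩
  have h0 : Tendsto (fun J : ℕ => Real.log (J : ℝ)) atTop atTop :=
    Real.tendsto_log_atTop.comp tendsto_natCast_atTop_atTop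
  filter_upwards [eventually_ge_atTop 2, h0.eventually_ge_atTop 600000, cpm_ev 1 D, cpm_ev 1 E,
    cpm_ev 583200 (18 + A), cpm_ev 46656 (4 * E + 18 + A)] with J hJ2 hL hD1 hE1 h3 h4 M N a b hJN
    hMN ha hb hθ
  have hx : (2 : ℝ) ≤ J := by exact_mod_cast hJ2
  have hL0 : 0 < Real.log J := by linarith only [hL]
  have hL1 : 1 ≤ Real.log J := by linarith only [hL]
  have key := hcm J (2 * M) (2 * N) a b (M / (Real.log J) ^ (A + 4)) ((Real.log J) ^ D)
    ((Real.log J) ^ E) hJ2 (by positivity) (one_le_pow₀ hL1) (by linarith only [hD1, hx])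
    (one_le_pow₀ hL1) (by linarith only [hE1, hx]) hθ
  refine key.trans ?_
  have hcs : (∑ n ∈ Icc 1 (2 * N), ‖b n‖) ^ 2 ≤ 2 * N * ∑ n ∈ Icc 1 (2 * N), ‖b n‖ ^ 2 := by
    have := sq_sum_le_card_mul_sum_sq (s := Icc 1 (2 * N)) (f := fun n => ‖b n‖)
    rw [Nat.card_Icc, Nat.add_sub_cancel] at this
    push_cast at this
    exact this
  have hnum := cpm_num J (Real.log J) M N ((Real.log J) ^ A) (∑ m ∈ Icc 1 (2 * M), ‖a m‖)
    (∑ n ∈ Icc 1 (2 * N), ‖b n‖) (∑ n ∈ Icc 1 (2 * N), ‖b n‖ ^ 2) (((Real.log J) ^ D) ^ 6)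
    (((Real.log J) ^ E) ^ 4) hx hL (Nat.cast_nonneg _) (Nat.cast_nonneg _) (one_le_pow₀ hL1)
    (sum_nonneg fun _ _ => norm_nonneg _) (sum_nonneg fun _ _ => norm_nonneg _)
    (sum_nonneg fun _ _ => by positivity) (by exact_mod_cast hJN) (by exact_mod_cast hMN) ha hb hcs
    (by positivity) (by positivity)
    (by
      rw [← pow_mul, ← pow_mul, ← pow_add, ← pow_add]
      exact pow_le_pow_right₀ hL1 (by omega))
    (by rw [← pow_add]; exact h3)
    (by rw [← pow_mul, ← pow_add, ← pow_add, mul_comm E 4]; exact h4)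
  rw [pow_add (Real.log J) A 4]
  push_cast
  push_cast at hnum
  exact hnum

end Pool.Agent.CH.D
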