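import Pool.Agent.Lib.MP_d610d0_nt.CH.D.Stm

set_option autoImplicit false

/-!
Piece dec.
-/

namespace Pool.Agent.CH.D

open Finset Filter
open ArithmeticFunction (vonMangoldt)
open Pool.Agent.MP89da58 (tri primChars)
open Pool.Agent.BVall (boxL)
open Pool.Agent.CH.V (pz ex)
open Pool.Agent.CH.P (R_PW R_PNT)

/-- the tuples with product `n` -/
private def dec_A (P : ℕ → Prop) [DecidablePred P] (k n : ℕ) : Finset (Fin k → ℕ) :=
  (Fintype.piFinset (fun _ : Fin k => (range (n + 1)).filter P)).filter (fun q => ∏ i, q i = n)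

private theorem dec_mem (P : ℕ → Prop) [DecidablePred P] {k n : ℕ} (hn : 1 ≤ n) (q : Fin k → ℕ) :
    q ∈ dec_A P k n ↔ (∀ i, P (q i)) ∧ ∏ i, q i = n := by
  unfold dec_A
  rw [Finset.mem_filter, Fintype.mem_piFinset]
  constructor
  · rintro ⟨h1, h2⟩
    exact ⟨fun i => (Finset.mem_filter.1 (h1 i)).2, h2⟩
  · rintro ⟨h1, h2⟩
    refine ⟨fun i => Finset.mem_filter.2 ⟨Finset.mem_range.2 (Nat.lt_succ_of_le ?_), h1 i⟩, h2⟩
    refine Nat.le_of_dvd (by omega) ?_
    rw [← h2]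
    exact Finset.dvd_prod_of_mem q (Finset.mem_univ i)

private theorem dec_succ (P : ℕ → Prop) [DecidablePred P] {k n : ℕ} (hn : 1 ≤ n) :
    (dec_A P (k + 1) n).card = ∑ d ∈ n.divisors, if P d then (dec_A P k (n / d)).card else 0 := by
  have hmaps : ∀ q ∈ dec_A P (k + 1) n, q 0 ∈ n.divisors := by
    intro q hq
    rw [dec_mem P hn] at hq
    rw [Nat.mem_divisors]
    exact ⟨by rw [← hq.2]; exact Finset.dvd_prod_of_mem q (Finset.mem_univ 0), by omega⟩
  rw [Finset.card_eq_sum_card_fiberwise hmaps]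
  refine Finset.sum_congr rfl fun d hd => ?_
  have hdn : d ∣ n := (Nat.mem_divisors.1 hd).1
  have hd0 : 0 < d := Nat.pos_of_dvd_of_pos hdn (by omega)
  have hq0 : 1 ≤ n / d := Nat.div_pos (Nat.le_of_dvd (by omega) hdn) hd0
  by_cases hP : P d
  · rw [if_pos hP]
    refine Finset.card_nbij' (fun q => Fin.tail q) (fun q => Fin.cons d q) ?_ ?_ ?_ ?_
    · intro q hq
      have hq1 := Finset.mem_filter.1 hq
      obtain ⟨h1, h2⟩ := (dec_mem P hn q).1 hq1.1
      refine (dec_mem P hq0 _).2 ⟨fun i => h1 _, ?_⟩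
      rw [Fin.prod_univ_succ, hq1.2] at h2
      rw [← h2, Nat.mul_div_cancel_left _ hd0]
      rfl
    · intro q hq
      obtain ⟨h1, h2⟩ := (dec_mem P hq0 q).1 hq
      refine Finset.mem_filter.2 ⟨(dec_mem P hn _).2 ⟨fun i => ?_, ?_⟩, by simp⟩
      · refine Fin.cases ?_ ?_ i
        · simpa using hP
        · intro j
          simpa using h1 j
      · rw [Fin.prod_univ_succ]
        simp only [Fin.cons_zero, Fin.cons_succ]
        rw [h2]
        exact Nat.mul_div_cancel' hdn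
    · intro q hq
      have hq1 := Finset.mem_filter.1 hq
      simp only
      rw [← hq1.2]
      exact Fin.cons_self_tail q
    · intro q _
      funext i
      simp [Fin.tail]
  · rw [if_neg hP, Finset.card_eq_zero, Finset.filter_eq_empty_iff]
    intro q hq h0
    exact hP (h0 ▸ ((dec_mem P hn q).1 hq).1 0)

open Classical in
/-- the indicator function -/
private noncomputable def dec_I (P : ℕ → Prop) : ArithmeticFunction ℝ :=
  ⟨fun n => if n ≠ 0 ∧ P n then 1 else 0, by simp⟩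

private theorem dec_I_apply (P : ℕ → Prop) [DecidablePred P] {n : ℕ} (hn : n ≠ 0) :
    dec_I P n = if P n then 1 else 0 := by
  unfold dec_I
  rw [ArithmeticFunction.coe_mk]
  by_cases h : P n
  · rw [if_pos ⟨hn, h⟩, if_pos h]
  · rw [if_neg (fun h' => h h'.2), if_neg h]

private theorem dec_pow (P : ℕ → Prop) [DecidablePred P] (k : ℕ) :
    ∀ n : ℕ, 1 ≤ n → ((dec_I P) ^ k) n = ((dec_A P k n).card : ℝ) := by
  induction k with
  | zero =>
    intro n hn
    rw [pow_zero, ArithmeticFunction.one_apply]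
    by_cases h : n = 1
    · subst h
      rw [if_pos rfl]
      have : dec_A P 0 1 = {fun i => i.elim0} := by
        ext q
        rw [dec_mem P le_rfl, Finset.mem_singleton]
        exact ⟨fun _ => Subsingleton.elim _ _, fun _ => ⟨fun i => i.elim0, by simp⟩⟩
      rw [this]
      simp
    · rw [if_neg h]
      have : dec_A P 0 n = ∅ := by
        rw [Finset.eq_empty_iff_forall_notMem]
        intro q hq
        have := ((dec_mem P hn q).1 hq).2
        simp at this
        exact h this.symm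
      rw [this]
      simp
  | succ k ih =>
    intro n hn
    rw [pow_succ', ArithmeticFunction.mul_apply,
      Nat.sum_divisorsAntidiagonal (f := fun d e => dec_I P d * ((dec_I P) ^ k) e), dec_succ P hn]
    push_cast
    refine Finset.sum_congr rfl fun d hd => ?_
    have hdn : d ∣ n := (Nat.mem_divisors.1 hd).1
    have hd0 : 0 < d := Nat.pos_of_dvd_of_pos hdn (by omega)
    rw [dec_I_apply P hd0.ne', ih _ (Nat.div_pos (Nat.le_of_dvd (by omega) hdn) hd0)]
    by_cases hP : P d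
    · rw [if_pos hP, if_pos hP, one_mul]
    · rw [if_neg hP, if_neg hP, zero_mul]

private theorem dec_mul_le {f g f' g' : ArithmeticFunction ℝ} (h1 : ∀ n, 0 ≤ f n)
    (h2 : ∀ n, f n ≤ g n) (h1' : ∀ n, 0 ≤ f' n) (h2' : ∀ n, f' n ≤ g' n) :
    (∀ n, 0 ≤ (f * f') n) ∧ ∀ n, (f * f') n ≤ (g * g') n := by
  constructor
  · intro n
    rw [ArithmeticFunction.mul_apply]
    exact Finset.sum_nonneg fun x _ => mul_nonneg (h1 _) (h1' _)
  · intro n
    rw [ArithmeticFunction.mul_apply, ArithmeticFunction.mul_apply]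
    exact Finset.sum_le_sum fun x _ => mul_le_mul (h2 _) (h2' _) (h1' _) ((h1 _).trans (h2 _))

private theorem dec_pow_le {f g : ArithmeticFunction ℝ} (h1 : ∀ n, 0 ≤ f n)
    (h2 : ∀ n, f n ≤ g n) (k : ℕ) :
    (∀ n, 0 ≤ (f ^ k) n) ∧ ∀ n, (f ^ k) n ≤ (g ^ k) n := by
  induction k with
  | zero =>
    rw [pow_zero, pow_zero]
    refine ⟨fun n => ?_, fun n => le_rfl⟩
    rw [ArithmeticFunction.one_apply]
    split_ifs <;> norm_num
  | succ k ih =>
    rw [pow_succ, pow_succ]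
    exact dec_mul_le ih.1 ih.2 h1 h2

/-- a number below `z ^ 8` has at most eight prime factors `≥ z` -/
private theorem dec_eight {z : ℝ} (hz : 1 < z) {m : ℕ} (hm : 1 ≤ m) (hmz : (m : ℝ) ≤ z ^ 8)
    (s : Finset ℕ) (hs : ∀ p ∈ s, p.Prime ∧ z ≤ p ∧ p ∣ m) : s.card ≤ 8 := by
  by_contra h
  push Not at h
  obtain ⟨t, ht, ht9⟩ := Finset.exists_subset_card_eq (show 9 ≤ s.card from h)
  have h1 : ∏ p ∈ t, p ∣ m := by
    refine Finset.prod_primes_dvd m (fun p hp => ((hs p (ht hp)).1).prime) fun p hp => (hs p (ht hp)).2.2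
  have h2 : ((∏ p ∈ t, p : ℕ) : ℝ) ≤ m := by exact_mod_cast Nat.le_of_dvd (by omega) h1
  have h3 : z ^ 9 ≤ ((∏ p ∈ t, p : ℕ) : ℝ) := by
    push_cast
    rw [← ht9, ← Finset.prod_const]
    exact Finset.prod_le_prod (fun p _ => by linarith) fun p hp => (hs p (ht hp)).2.1
  have h4 : z ^ 8 < z ^ 9 := pow_lt_pow_right₀ hz (by norm_num)
  linarith

private theorem dec_card {z : ℝ} (hz : 1 < z) {m : ℕ} (hm : 1 ≤ m) (hmz : (m : ℝ) ≤ z ^ 8)
    (P : ℕ → Prop) [DecidablePred P] (hP : ∀ p, P p → p.Prime ∧ z ≤ p) (k : ℕ) :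
    (dec_A P k m).card ≤ 8 ^ k := by
  have h1 : dec_A P k m ⊆ Fintype.piFinset (fun _ : Fin k => m.divisors.filter P) := by
    intro q hq
    obtain ⟨h2, h3⟩ := (dec_mem P hm q).1 hq
    rw [Fintype.mem_piFinset]
    intro i
    rw [Finset.mem_filter, Nat.mem_divisors]
    exact ⟨⟨by rw [← h3]; exact Finset.dvd_prod_of_mem q (Finset.mem_univ i), by omega⟩, h2 i⟩
  refine (Finset.card_le_card h1).trans ?_
  rw [Fintype.card_piFinset]
  simp only [Finset.prod_const, Finset.card_univ, Fintype.card_fin]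
  refine Nat.pow_le_pow_left (dec_eight hz hm hmz _ fun p hp => ?_) k
  rw [Finset.mem_filter, Nat.mem_divisors] at hp
  exact ⟨(hP p hp.2).1, (hP p hp.2).2, hp.1.1⟩

private theorem dec_z {J : ℕ} (hJ : 1 ≤ J) : 1 < zJ J ∧ zJ J ^ 8 = 27 * (J : ℝ) ^ 3 := by
  have hJ' : (1 : ℝ) ≤ J := by exact_mod_cast hJ
  unfold zJ
  constructor
  · exact Real.one_lt_rpow (by linarith) (by norm_num)
  · rw [← Real.rpow_natCast, ← Real.rpow_mul (by positivity)]
    norm_num
    rw [mul_pow]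
    norm_num

theorem p_dec : S_dec := by
  classical
  intro J hJ
  obtain ⟨hz1, hz8⟩ := dec_z hJ
  let P : ℕ → Prop := fun p => p.Prime ∧ zJ J ≤ p
  let Q : ℕ → Prop := fun p => p.Prime ∧ zJ J ≤ p ∧ p ^ 2 ≤ 27 * J ^ 3
  let Q' : ℕ → Prop := fun p => p.Prime ∧ zJ J ≤ p ∧ 27 * J ^ 3 < p ^ 2
  let s := dec_I Q
  let b := dec_I Q'
  have hsb : dec_I P = s + b := by
    ext n
    by_cases hn : n = 0
    · rw [hn]; simp
    rw [ArithmeticFunction.add_apply, dec_I_apply P hn, dec_I_apply Q hn, dec_I_apply Q' hn]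
    by_cases h : P n
    · rw [if_pos h]
      by_cases h2 : n ^ 2 ≤ 27 * J ^ 3
      · rw [if_pos (show Q n from ⟨h.1, h.2, h2⟩), if_neg (fun h' : Q' n => absurd h'.2.2 (not_lt.2 h2)),
          add_zero]
      · rw [if_neg (fun h' : Q n => h2 h'.2.2), if_pos (show Q' n from ⟨h.1, h.2, not_le.1 h2⟩),
          zero_add]
    · rw [if_neg h, if_neg (fun h' : Q n => h ⟨h'.1, h'.2.1⟩), if_neg (fun h' : Q' n => h ⟨h'.1, h'.2.1⟩),
        add_zero]
  have hs0 : ∀ n, 0 ≤ s n := by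
    intro n
    by_cases hn : n = 0
    · rw [hn]; simp
    · change 0 ≤ dec_I Q n
      rw [dec_I_apply Q hn]; split_ifs <;> norm_num
  have hb0 : ∀ n, 0 ≤ b n := by
    intro n
    by_cases hn : n = 0
    · rw [hn]; simp
    · change 0 ≤ dec_I Q' n
      rw [dec_I_apply Q' hn]; split_ifs <;> norm_num
  have hsu : ∀ n, s n ≤ dec_I P n := fun n => by
    rw [hsb, ArithmeticFunction.add_apply]; linarith [hb0 n]
  have hbu : ∀ n, b n ≤ dec_I P n := fun n => by
    rw [hsb, ArithmeticFunction.add_apply]; linarith [hs0 n]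
  -- `b * b` vanishes up to `27 J^3`
  have hbb : ∀ n : ℕ, n ≤ 27 * J ^ 3 → (b * b) n = 0 := by
    intro n hn
    rw [ArithmeticFunction.mul_apply]
    refine Finset.sum_eq_zero fun x hx => ?_
    obtain ⟨hx1, hx2⟩ := Nat.mem_divisorsAntidiagonal.1 hx
    have hx01 : x.1 ≠ 0 := fun h => hx2 (by rw [← hx1, h, zero_mul])
    have hx02 : x.2 ≠ 0 := fun h => hx2 (by rw [← hx1, h, mul_zero])
    change dec_I Q' x.1 * dec_I Q' x.2 = 0
    rw [dec_I_apply Q' hx01, dec_I_apply Q' hx02]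
    by_cases h1 : Q' x.1
    · by_cases h2 : Q' x.2
      · exfalso
        have h3 := h1.2.2
        have h4 := h2.2.2
        have h5 : (27 * J ^ 3) * (27 * J ^ 3) < n * n := by
          calc (27 * J ^ 3) * (27 * J ^ 3) < x.1 ^ 2 * x.2 ^ 2 := Nat.mul_lt_mul'' h3 h4
            _ = n * n := by rw [← hx1]; ring
        have h6 : n * n ≤ (27 * J ^ 3) * (27 * J ^ 3) := Nat.mul_le_mul hn hn
        omega
      · rw [if_neg h2, mul_zero]
    · rw [if_neg h1, zero_mul]
  have hbbR : ∀ (R : ArithmeticFunction ℝ) (n : ℕ), n ≤ 27 * J ^ 3 → ((b * b) * R) n = 0 := by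
    intro R n hn
    rw [ArithmeticFunction.mul_apply]
    refine Finset.sum_eq_zero fun x hx => ?_
    obtain ⟨hx1, hx2⟩ := Nat.mem_divisorsAntidiagonal.1 hx
    rw [hbb x.1 ?_, zero_mul]
    exact (Nat.le_of_dvd (Nat.pos_of_ne_zero hx2) ⟨x.2, hx1.symm⟩).trans hn
  -- the function `β`
  let F : ℕ → ArithmeticFunction ℝ := fun k => s ^ (k - 1) + (k : ArithmeticFunction ℝ) * (s ^ (k - 2) * b)
  have hnat : ∀ (k : ℕ) (f : ArithmeticFunction ℝ) (n : ℕ),
      (((k : ℕ) : ArithmeticFunction ℝ) * f) n = (k : ℝ) * f n := by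
    intro k f n
    rw [← nsmul_eq_mul]
    induction k with
    | zero => simp
    | succ k ih => rw [succ_nsmul, ArithmeticFunction.add_apply, ih]; push_cast; ring
  have hF : ∀ k ∈ Icc 4 7, ∃ R : ArithmeticFunction ℝ, (s + b) ^ k = s * F k + (b * b) * R := by
    intro k hk
    obtain ⟨h1, h2⟩ := Finset.mem_Icc.1 hk
    interval_cases k
    · exact ⟨6 * s ^ 2 + 4 * s * b + b ^ 2, by simp only [F]; push_cast; ring⟩
    · exact ⟨10 * s ^ 3 + 10 * s ^ 2 * b + 5 * s * b ^ 2 + b ^ 3, by simp only [F]; push_cast; ring⟩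
    · exact ⟨15 * s ^ 4 + 20 * s ^ 3 * b + 15 * s ^ 2 * b ^ 2 + 6 * s * b ^ 3 + b ^ 4, by
        simp only [F]; push_cast; ring⟩
    · exact ⟨21 * s ^ 5 + 35 * s ^ 4 * b + 35 * s ^ 3 * b ^ 2 + 21 * s ^ 2 * b ^ 3 + 7 * s * b ^ 4 +
        b ^ 5, by simp only [F]; push_cast; ring⟩
  let β : ℕ → ℝ := fun m => if m ≤ 27 * J ^ 3 then
    ∑ k ∈ Icc 4 7, (1 / (k.factorial : ℝ)) * F k m else 0
  refine ⟨β, ?_, ?_⟩
  · intro m
    change |if m ≤ 27 * J ^ 3 then ∑ k ∈ Icc 4 7, (1 / (k.factorial : ℝ)) * F k m else 0| ≤ _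
    by_cases hm : m ≤ 27 * J ^ 3
    swap
    · rw [if_neg hm]; norm_num
    rw [if_pos hm]
    rcases Nat.eq_zero_or_pos m with rfl | hm0
    · simp
    have hmz : (m : ℝ) ≤ zJ J ^ 8 := by rw [hz8]; exact_mod_cast hm
    have hu : ∀ k, ((dec_I P) ^ k) m ≤ 8 ^ k := by
      intro k
      rw [dec_pow P k m hm0]
      exact_mod_cast dec_card hz1 hm0 hmz P (fun p hp => hp) k
    have hFk : ∀ k ∈ Icc 4 7, 0 ≤ F k m ∧ F k m ≤ ((k : ℝ) + 1) * 8 ^ (k - 1) := by
      intro k hk
      obtain ⟨h1, h2⟩ := Finset.mem_Icc.1 hk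
      have h3 := dec_pow_le hs0 hsu (k - 1)
      have h4 := dec_pow_le hs0 hsu (k - 2)
      have h5 := dec_mul_le h4.1 h4.2 hb0 hbu
      have h6 : (dec_I P) ^ (k - 2) * dec_I P = (dec_I P) ^ (k - 1) := by
        rw [← pow_succ]
        congr 1
        omega
      have h7 : F k m = (s ^ (k - 1)) m + (k : ℝ) * (s ^ (k - 2) * b) m := by
        change (s ^ (k - 1) + (k : ArithmeticFunction ℝ) * (s ^ (k - 2) * b)) m = _
        rw [ArithmeticFunction.add_apply, hnat]
      have h8 := h5.2 m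
      rw [h6] at h8
      have h9 := (h8).trans (hu (k - 1))
      have h10 := (h3.2 m).trans (hu (k - 1))
      have h11 := h5.1 m
      have h12 := h3.1 m
      have hk0 : (0 : ℝ) ≤ k := by positivity
      rw [h7]
      constructor
      · positivity
      · nlinarith
    have habs : ∑ k ∈ Icc 4 7, (1 / (k.factorial : ℝ)) * F k m ≤
        ∑ k ∈ (Icc 4 7 : Finset ℕ), (1 / (k.factorial : ℝ)) * (((k : ℝ) + 1) * 8 ^ (k - 1)) :=
      Finset.sum_le_sum fun k hk => mul_le_mul_of_nonneg_left (hFk k hk).2 (by positivity)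
    have hnn : 0 ≤ ∑ k ∈ Icc 4 7, (1 / (k.factorial : ℝ)) * F k m :=
      Finset.sum_nonneg fun k hk => mul_nonneg (by positivity) (hFk k hk).1
    rw [abs_of_nonneg hnn]
    refine habs.trans ?_
    have hIcc : (Icc 4 7 : Finset ℕ) = {4, 5, 6, 7} := by decide
    rw [hIcc]
    norm_num [Nat.factorial]
  · intro n hn hnX
    have h1 : ∀ k ∈ Icc 4 7, Rk (zJ J) k n = (1 / (k.factorial : ℝ)) * (s * F k) n := by
      intro k hk
      obtain ⟨R, hR⟩ := hF k hk
      have h2 := dec_pow P k n hn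
      rw [hsb, hR, ArithmeticFunction.add_apply, hbbR R n hnX, add_zero] at h2
      rw [h2]
      unfold Rk
      rw [one_div, mul_comm, ← div_eq_mul_inv]
      congr 2
    unfold RR
    rw [Finset.sum_congr rfl h1]
    have h2 : ∀ k, (s * F k) n = ∑ d ∈ n.divisors, sA J d * F k (n / d) := by
      intro k
      rw [ArithmeticFunction.mul_apply,
        Nat.sum_divisorsAntidiagonal (f := fun d e => s d * (F k) e)]
      refine Finset.sum_congr rfl fun d hd => ?_
      have hdn : d ∣ n := (Nat.mem_divisors.1 hd).1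
      have hd0 : 0 < d := Nat.pos_of_dvd_of_pos hdn (by omega)
      congr 1
      change dec_I Q d = _
      rw [dec_I_apply Q hd0.ne']
      unfold sA
      congr 1
    simp only [h2, Finset.mul_sum]
    rw [Finset.sum_comm]
    refine Finset.sum_congr rfl fun d hd => ?_
    have hdn : d ∣ n := (Nat.mem_divisors.1 hd).1
    have hle : n / d ≤ 27 * J ^ 3 := (Nat.div_le_self n d).trans hnX
    have hβ : β (n / d) = ∑ k ∈ (Icc 4 7 : Finset ℕ), (1 / (k.factorial : ℝ)) * F k (n / d) :=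
      if_pos hle
    rw [hβ, Finset.mul_sum]
    refine Finset.sum_congr rfl fun k _ => ?_
    ring

end Pool.Agent.CH.D
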