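import Pool.Agent.Lib.MP_d610d0_nt.CH.D.Stm

set_option autoImplicit false

/-!
Piece dya.
-/

namespace Pool.Agent.CH.D

open Finset Filter
open ArithmeticFunction (vonMangoldt)
open Pool.Agent.MP89da58 (tri primChars)
open Pool.Agent.BVall (boxL)
open Pool.Agent.CH.V (pz ex)
open Pool.Agent.CH.P (R_PW R_PNT)

private theorem dya_split (U : ℕ) (g : ℕ → ℂ) (I : ℕ) :
    ∑ m ∈ Ioc U (2 ^ I * U), g m =
      ∑ i ∈ range I, ∑ m ∈ Ioc (2 ^ i * U) (2 * (2 ^ i * U)), g m := by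
  induction I with
  | zero => simp
  | succ I ih =>
    rw [sum_range_succ, ← ih, show 2 * (2 ^ I * U) = 2 ^ (I + 1) * U by ring]
    have h1 : 1 ≤ 2 ^ I := Nat.one_le_two_pow
    have h2 : 1 * U ≤ 2 ^ I * U := Nat.mul_le_mul_right U h1
    rw [one_mul] at h2
    exact (sum_Ioc_consecutive g h2
      (Nat.mul_le_mul_right U (Nat.pow_le_pow_right (by norm_num) (Nat.le_succ I)))).symm

private theorem dya_one (U V X I : ℕ) (F : ℕ → ℕ → ℂ) (hU : 1 ≤ U) (hV : 1 ≤ V) (hI : X < 2 ^ I)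
    (hF : ∀ m n : ℕ, 1 ≤ m → 1 ≤ n → F m n ≠ 0 → U < m ∧ V < n ∧ m * n < X) :
    ∑ m ∈ Icc 1 X, ∑ n ∈ Icc 1 X, F m n =
      ∑ p ∈ range I ×ˢ range I, ∑ m ∈ Ioc (2 ^ p.1 * U) (2 * (2 ^ p.1 * U)),
        ∑ n ∈ Ioc (2 ^ p.2 * V) (2 * (2 ^ p.2 * V)), F m n := by
  have h1 : ∑ m ∈ Icc 1 X, ∑ n ∈ Icc 1 X, F m n =
      ∑ m ∈ Ioc U (2 ^ I * U), ∑ n ∈ Ioc V (2 ^ I * V), F m n := by
    rw [← sum_product', ← sum_product']
    apply sum_congr_of_eq_on_inter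
    · rintro ⟨m, n⟩ h1 h2
      rw [mem_product, mem_Icc, mem_Icc] at h1
      rw [mem_product, mem_Ioc, mem_Ioc] at h2
      by_contra h3
      obtain ⟨h4, h5, h6⟩ := hF m n h1.1.1 h1.2.1 h3
      apply h2
      refine ⟨⟨h4, ?_⟩, ⟨h5, ?_⟩⟩
      · calc m ≤ X := h1.1.2
          _ ≤ 2 ^ I := hI.le
          _ = 2 ^ I * 1 := (mul_one _).symm
          _ ≤ 2 ^ I * U := Nat.mul_le_mul_left _ hU
      · calc n ≤ X := h1.2.2
          _ ≤ 2 ^ I := hI.le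
          _ = 2 ^ I * 1 := (mul_one _).symm
          _ ≤ 2 ^ I * V := Nat.mul_le_mul_left _ hV
    · rintro ⟨m, n⟩ h1 h2
      rw [mem_product, mem_Ioc, mem_Ioc] at h1
      rw [mem_product, mem_Icc, mem_Icc] at h2
      simp only at h1 h2
      by_contra h3
      obtain ⟨h4, h5, h6⟩ := hF m n (by omega) (by omega) h3
      apply h2
      have hm : 1 ≤ m := by omega
      have hn : 1 ≤ n := by omega
      have h7 : m * 1 ≤ m * n := Nat.mul_le_mul_left _ hn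
      have h8 : 1 * n ≤ m * n := Nat.mul_le_mul_right _ hm
      refine ⟨⟨hm, ?_⟩, ⟨hn, ?_⟩⟩ <;> omega
    · intro a _ _
      rfl
  rw [h1, dya_split, sum_product]
  apply sum_congr rfl
  intro i _
  simp only
  exact (sum_congr rfl fun m _ => dya_split V (F m) I).trans sum_comm

private theorem dya_log : ∀ᶠ J : ℕ in atTop,
    ((Nat.log 2 (27 * J ^ 3) + 1 : ℕ) : ℝ) ^ 4 ≤ (Real.log J) ^ 5 := by
  have h0 : Tendsto (fun J : ℕ => Real.log (J : ℝ)) atTop atTop :=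
    Real.tendsto_log_atTop.comp tendsto_natCast_atTop_atTop
  filter_upwards [h0.eventually_ge_atTop 625, eventually_ge_atTop 1] with J hJ hJ1
  have hJ0 : (0 : ℝ) < J := by exact_mod_cast hJ1
  have hX : 27 * J ^ 3 ≠ 0 := by positivity
  have h1 : 2 ^ (Nat.log 2 (27 * J ^ 3)) ≤ 27 * J ^ 3 := Nat.pow_log_le_self 2 hX
  have h2 : ((2 : ℝ)) ^ (Nat.log 2 (27 * J ^ 3)) ≤ 27 * (J : ℝ) ^ 3 := by exact_mod_cast h1
  have h3 := Real.log_le_log (by positivity) h2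
  rw [Real.log_pow, Real.log_mul (by norm_num) (by positivity), Real.log_pow] at h3
  have h4 : Real.log 27 ≤ 27 := (Real.log_le_sub_one_of_pos (by norm_num)).trans (by norm_num)
  have h5 := Real.log_two_gt_d9
  set l : ℝ := ((Nat.log 2 (27 * J ^ 3) : ℕ) : ℝ) with hl
  have hl0 : 0 ≤ l := Nat.cast_nonneg _
  have h6 : l ≤ 4.5 * Real.log J := by
    push_cast at h3
    nlinarith only [h3, h4, h5, hl0, hJ]
  have h7 : l + 1 ≤ 5 * Real.log J := by linarith only [h6, hJ]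
  push_cast
  calc (l + 1) ^ 4 ≤ (5 * Real.log J) ^ 4 := pow_le_pow_left₀ (by linarith only [hl0]) h7 4
    _ = 625 * (Real.log J) ^ 4 := by ring
    _ ≤ Real.log J * (Real.log J) ^ 4 := mul_le_mul_of_nonneg_right hJ (by positivity)
    _ = (Real.log J) ^ 5 := by ring

theorem p_dya : S_dya := by
  filter_upwards [dya_log] with J hJ U V f K hU hV hK hsup hblk
  set X : ℕ := 27 * J ^ 3 with hX
  set I : ℕ := Nat.log 2 X + 1 with hI
  have hI2 : X < 2 ^ I := Nat.lt_pow_succ_log_self (by norm_num) X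
  have hone : ∀ j ∈ Ioc J (2 * J), ∑ m ∈ Icc 1 X, ∑ n ∈ Icc 1 X, f j m n =
      ∑ p ∈ range I ×ˢ range I, ∑ m ∈ Ioc (2 ^ p.1 * U) (2 * (2 ^ p.1 * U)),
        ∑ n ∈ Ioc (2 ^ p.2 * V) (2 * (2 ^ p.2 * V)), f j m n := by
    intro j hj
    apply dya_one U V X I (f j) hU hV hI2
    intro m n hm hn hne
    obtain ⟨h1, h2, h3, h4⟩ := hsup j hj m n hm hn hne
    exact ⟨h1, h2, h4⟩
  have hblock : ∀ p ∈ range I ×ˢ range I, ∑ j ∈ Ioc J (2 * J),
      ‖∑ m ∈ Ioc (2 ^ p.1 * U) (2 * (2 ^ p.1 * U)),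
        ∑ n ∈ Ioc (2 ^ p.2 * V) (2 * (2 ^ p.2 * V)), f j m n‖ ^ 2 ≤ K := by
    rintro ⟨i, k⟩ _
    simp only
    have hi : 1 ≤ 2 ^ i := Nat.one_le_two_pow
    have hk : 1 ≤ 2 ^ k := Nat.one_le_two_pow
    have hUM : U ≤ 2 ^ i * U := by
      have := Nat.mul_le_mul_right U hi
      rwa [one_mul] at this
    have hVN : V ≤ 2 ^ k * V := by
      have := Nat.mul_le_mul_right V hk
      rwa [one_mul] at this
    generalize 2 ^ i * U = M at hUM ⊢
    generalize 2 ^ k * V = N at hVN ⊢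
    by_cases hex : ∃ j ∈ Ioc J (2 * J), ∃ m ∈ Ioc M (2 * M), ∃ n ∈ Ioc N (2 * N), f j m n ≠ 0
    · obtain ⟨j, hj, m, hm, n, hn, hne⟩ := hex
      rw [mem_Ioc] at hm hn
      obtain ⟨h1, h2, h3, h4⟩ := hsup j hj m n (by omega) (by omega) hne
      apply hblk M N hUM hVN
      · have h5 : m * n ≤ (2 * M) * (2 * N) := Nat.mul_le_mul hm.2 hn.2
        have h6 : (2 * M) * (2 * N) = 4 * (M * N) := by ring
        rw [h6] at h5
        omega
      · have h5 : M * N ≤ m * n := Nat.mul_le_mul hm.1.le hn.1.le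
        omega
    · push Not at hex
      refine le_trans (le_of_eq ?_) hK
      apply sum_eq_zero
      intro j hj
      rw [sum_eq_zero]
      · simp
      · intro m hm
        apply sum_eq_zero
        intro n hn
        exact hex j hj m hm n hn
  calc ∑ j ∈ Ioc J (2 * J), ‖∑ m ∈ Icc 1 X, ∑ n ∈ Icc 1 X, f j m n‖ ^ 2
      ≤ ∑ j ∈ Ioc J (2 * J), ((I : ℝ) ^ 2 * ∑ p ∈ range I ×ˢ range I,
        ‖∑ m ∈ Ioc (2 ^ p.1 * U) (2 * (2 ^ p.1 * U)),
          ∑ n ∈ Ioc (2 ^ p.2 * V) (2 * (2 ^ p.2 * V)), f j m n‖ ^ 2) := by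
        apply sum_le_sum
        intro j hj
        rw [hone j hj]
        have h1 := norm_sum_le (range I ×ˢ range I) (fun p : ℕ × ℕ =>
          ∑ m ∈ Ioc (2 ^ p.1 * U) (2 * (2 ^ p.1 * U)),
            ∑ n ∈ Ioc (2 ^ p.2 * V) (2 * (2 ^ p.2 * V)), f j m n)
        have h2 := pow_le_pow_left₀ (norm_nonneg _) h1 2
        refine h2.trans ?_
        have h3 := sq_sum_le_card_mul_sum_sq (s := range I ×ˢ range I) (f := fun p : ℕ × ℕ =>
          ‖∑ m ∈ Ioc (2 ^ p.1 * U) (2 * (2 ^ p.1 * U)),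
            ∑ n ∈ Ioc (2 ^ p.2 * V) (2 * (2 ^ p.2 * V)), f j m n‖)
        rw [card_product, card_range] at h3
        push_cast at h3
        rw [pow_two (I : ℝ)]
        exact h3
    _ = (I : ℝ) ^ 2 * ∑ p ∈ range I ×ˢ range I, ∑ j ∈ Ioc J (2 * J),
        ‖∑ m ∈ Ioc (2 ^ p.1 * U) (2 * (2 ^ p.1 * U)),
          ∑ n ∈ Ioc (2 ^ p.2 * V) (2 * (2 ^ p.2 * V)), f j m n‖ ^ 2 := by
        rw [← mul_sum, sum_comm]
    _ ≤ (I : ℝ) ^ 2 * ∑ _p ∈ range I ×ˢ range I, K :=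
        mul_le_mul_of_nonneg_left (sum_le_sum hblock) (by positivity)
    _ = (I : ℝ) ^ 4 * K := by
        rw [sum_const, card_product, card_range, nsmul_eq_mul]
        push_cast
        ring
    _ ≤ (Real.log J) ^ 5 * K := mul_le_mul_of_nonneg_right hJ hK

end Pool.Agent.CH.D
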