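import Pool.Agent.Lib.MP_d610d0_nt.CH.D.Stm

set_option autoImplicit false

/-!
Piece evc.
-/

namespace Pool.Agent.CH.D

open Finset Filter
open ArithmeticFunction (vonMangoldt)
open Pool.Agent.MP89da58 (tri primChars)
open Pool.Agent.BVall (boxL)
open Pool.Agent.CH.V (pz ex)
open Pool.Agent.CH.P (R_PW R_PNT)

/-- A crude bound. -/
private noncomputable def evc_G (f : ℕ → ℝ) (J : ℕ) : ℝ := ∑ n ∈ Icc 1 (27 * J ^ 3), |f n|

private theorem evc_G_nonneg (f : ℕ → ℝ) (J : ℕ) : 0 ≤ evc_G f J :=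
  Finset.sum_nonneg fun _ _ => abs_nonneg _

private theorem evc_w (J j n : ℕ) : |wJ J j n| ≤ 1 := by
  unfold wJ tri
  rw [abs_of_nonneg (le_max_left _ _)]
  apply max_le
  · norm_num
  · have := abs_nonneg (2 * (J : ℝ) * Real.log (n / ((j : ℝ) + 1 / 2) ^ 3))
    linarith

private theorem evc_EE (f : ℕ → ℝ) (J : ℕ) (a : ℤ) (j q : ℕ) :
    |EE J f a j q| ≤ 2 * evc_G f J := by
  have h1 : ∀ s : Finset ℕ, s ⊆ Icc 1 (27 * J ^ 3) → |∑ n ∈ s, f n * wJ J j n| ≤ evc_G f J := by
    intro s hs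
    calc |∑ n ∈ s, f n * wJ J j n| ≤ ∑ n ∈ s, |f n * wJ J j n| := Finset.abs_sum_le_sum_abs _ _
      _ ≤ ∑ n ∈ s, |f n| := by
          apply Finset.sum_le_sum
          intro n _
          rw [abs_mul]
          exact mul_le_of_le_one_right (abs_nonneg _) (evc_w J j n)
      _ ≤ evc_G f J := Finset.sum_le_sum_of_subset_of_nonneg hs fun _ _ _ => abs_nonneg _
  have h2 := h1 ((Icc 1 (27 * J ^ 3)).filter (fun n : ℕ => (q : ℤ) ∣ (n : ℤ) - a))
    (Finset.filter_subset _ _)
  have h3 := h1 (Icc 1 (27 * J ^ 3)) (Finset.Subset.refl _)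
  have h4 : |1 / (Nat.totient q : ℝ)| ≤ 1 := by
    rw [abs_of_nonneg (by positivity)]
    rcases Nat.eq_zero_or_pos (Nat.totient q) with h | h
    · rw [h]
      norm_num
    · have : (1 : ℝ) ≤ Nat.totient q := by exact_mod_cast h
      rw [div_le_one (by linarith)]
      exact this
  unfold EE
  calc _ ≤ |∑ n ∈ (Icc 1 (27 * J ^ 3)).filter (fun n : ℕ => (q : ℤ) ∣ (n : ℤ) - a),
        f n * wJ J j n| + |1 / (Nat.totient q : ℝ) * ∑ n ∈ Icc 1 (27 * J ^ 3), f n * wJ J j n| :=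
        abs_sub _ _
    _ ≤ evc_G f J + 1 * evc_G f J := by
        apply add_le_add h2
        rw [abs_mul]
        exact mul_le_mul h4 h3 (abs_nonneg _) zero_le_one
    _ = 2 * evc_G f J := by ring

theorem p_evc : S_evc := by
  intro F a hF A
  obtain ⟨J0, hJ0⟩ := eventually_atTop.1 (hF A)
  set D : ℕ → ℝ := fun J => J * (3 * J * (2 * evc_G (F J) J)) ^ 2 * (Real.log J) ^ A / J ^ 5 with hD
  have hDn : ∀ J : ℕ, 0 ≤ D J := by
    intro J
    have : 0 ≤ Real.log J := Real.log_natCast_nonneg J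
    rw [hD]
    positivity
  refine ⟨1 + ∑ J ∈ range J0, D J, ?_⟩
  intro J hJ c hc
  have hJr : (2 : ℝ) ≤ J := by exact_mod_cast hJ
  have hL : 0 < Real.log J := Real.log_pos (by linarith)
  have hS : 0 ≤ ∑ J ∈ range J0, D J := Finset.sum_nonneg fun i _ => hDn i
  rcases lt_or_ge J J0 with hlt | hge
  · have h1 : ∀ j ∈ Ioc J (2 * J), (∑ q ∈ Icc 1 J, c q * EE J (F J) a j q) ^ 2
        ≤ (3 * J * (2 * evc_G (F J) J)) ^ 2 := by
      intro j _
      have h0 : |∑ q ∈ Icc 1 J, c q * EE J (F J) a j q| ≤ 3 * J * (2 * evc_G (F J) J) := by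
        calc |∑ q ∈ Icc 1 J, c q * EE J (F J) a j q|
            ≤ ∑ q ∈ Icc 1 J, |c q * EE J (F J) a j q| := Finset.abs_sum_le_sum_abs _ _
          _ ≤ ∑ q ∈ Icc 1 J, 3 * (2 * evc_G (F J) J) := by
              apply Finset.sum_le_sum
              intro q _
              rw [abs_mul]
              exact mul_le_mul (hc.bd q) (evc_EE _ _ _ _ _) (abs_nonneg _) (by norm_num)
          _ = 3 * J * (2 * evc_G (F J) J) := by
              rw [Finset.sum_const, Nat.card_Icc, nsmul_eq_mul]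
              rw [Nat.add_sub_cancel]
              ring
      apply sq_le_sq'
      · exact neg_le_of_abs_le h0
      · exact le_of_abs_le h0
    calc ∑ j ∈ Ioc J (2 * J), (∑ q ∈ Icc 1 J, c q * EE J (F J) a j q) ^ 2
        ≤ ∑ j ∈ Ioc J (2 * J), (3 * J * (2 * evc_G (F J) J)) ^ 2 := Finset.sum_le_sum h1
      _ = J * (3 * J * (2 * evc_G (F J) J)) ^ 2 := by
          rw [Finset.sum_const, Nat.card_Ioc, nsmul_eq_mul]
          congr 2
          omega
      _ = D J * (J : ℝ) ^ 5 / Real.log J ^ A := by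
          rw [hD]
          field_simp
      _ ≤ (1 + ∑ J ∈ range J0, D J) * (J : ℝ) ^ 5 / Real.log J ^ A := by
          have h2 : D J ≤ ∑ J ∈ range J0, D J :=
            Finset.single_le_sum (f := D) (fun i _ => hDn i) (Finset.mem_range.2 hlt)
          gcongr
          linarith
  · refine (hJ0 J hge c hc).trans ?_
    rw [mul_div_assoc]
    apply le_mul_of_one_le_left (by positivity)
    linarith

end Pool.Agent.CH.D
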