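import Pool.Agent.Lib.MP_d610d0_nt.CH.D.Stm

set_option autoImplicit false

/-!
Piece grp.
-/

namespace Pool.Agent.CH.D

open Finset Filter
open ArithmeticFunction (vonMangoldt)
open Pool.Agent.MP89da58 (tri primChars)
open Pool.Agent.BVall (boxL)
open Pool.Agent.CH.V (pz ex)
open Pool.Agent.CH.P (R_PW R_PNT)

private theorem grp_ext {q : ℕ} [NeZero q] (x y : Σ r, DirichletCharacter ℂ r) (h : x.1 = y.1)
    (hx : x.1 ∣ q) (hy : y.1 ∣ q)
    (he : DirichletCharacter.changeLevel hx x.2 = DirichletCharacter.changeLevel hy y.2) :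
    x = y := by
  obtain ⟨r, χ⟩ := x
  obtain ⟨s, ψ⟩ := y
  dsimp only at h
  subst h
  dsimp only at he
  rw [DirichletCharacter.changeLevel_injective hx he]

/-- the decidability instance does not matter -/
private theorem grp_erase {α : Type} (d1 d2 : DecidableEq α) (s : Finset α) (a : α) :
    @Finset.erase α d1 s a = @Finset.erase α d2 s a :=
  congrArg (fun d : DecidableEq α => @Finset.erase α d s a) (Subsingleton.elim d1 d2)

open Classical in
/-- the characters modulo `q` and the primitive characters -/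
private theorem grp_bij (Q q : ℕ) (hq : 1 ≤ q) (hqQ : q ≤ Q)
    (G : (Σ r, DirichletCharacter ℂ r) → ℂ) :
    ∑ χ ∈ (Finset.univ : Finset (DirichletCharacter ℂ q)).erase 1,
      G ⟨χ.conductor, χ.primitiveCharacter⟩ = ∑ p ∈ (primChars Q).filter (fun p => p.1 ∣ q), G p := by
  have : NeZero q := ⟨by omega⟩
  let σ : DirichletCharacter ℂ q → (Σ r, DirichletCharacter ℂ r) := fun χ =>
    ⟨χ.conductor, χ.primitiveCharacter⟩
  have hσ : Function.Injective σ := by
    intro χ ψ h
    have key : ∀ (x : (r : ℕ) × DirichletCharacter ℂ r) (y : (r : ℕ) × DirichletCharacter ℂ r)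
        (hx : x.1 ∣ q) (hy : y.1 ∣ q), x = y →
        DirichletCharacter.changeLevel hx x.2 = DirichletCharacter.changeLevel hy y.2 := by
      rintro x y hx hy rfl
      rfl
    have := key (σ χ) (σ ψ) χ.conductor_dvd_level ψ.conductor_dvd_level h
    rwa [DirichletCharacter.changeLevel_primitiveCharacter,
      DirichletCharacter.changeLevel_primitiveCharacter] at this
  have himg : ((Finset.univ : Finset (DirichletCharacter ℂ q)).erase 1).image σ
      = (primChars Q).filter (fun p => p.1 ∣ q) := by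
    ext p
    constructor
    · intro hp
      obtain ⟨χ, hχ, rfl⟩ := Finset.mem_image.1 hp
      have hne : χ ≠ 1 := (Finset.mem_erase.1 hχ).1
      have hd : χ.conductor ∣ q := χ.conductor_dvd_level
      have h1 : χ.conductor ≠ 1 := fun h => hne (DirichletCharacter.eq_one_iff_conductor_eq_one.2 h)
      have h0 : χ.conductor ≠ 0 := fun h => by
        rw [h] at hd
        exact (NeZero.ne q) (Nat.eq_zero_of_zero_dvd hd)
      have hle : χ.conductor ≤ q := Nat.le_of_dvd (by omega) hd
      rw [Finset.mem_filter]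
      refine ⟨?_, hd⟩
      rw [primChars, mem_sigma, mem_filter, mem_Icc]
      exact ⟨⟨by show 2 ≤ χ.conductor; omega, hle.trans hqQ⟩, Finset.mem_univ _,
        χ.primitiveCharacter_isPrimitive⟩
    · intro hp
      rw [Finset.mem_filter, primChars, mem_sigma, mem_filter, mem_Icc] at hp
      obtain ⟨⟨⟨h2, hQ'⟩, -, hprim⟩, hd⟩ := hp
      have hne1 : NeZero p.1 := ⟨by omega⟩
      set χ := DirichletCharacter.changeLevel hd p.2 with hχ
      have hc : χ.conductor = p.1 := by
        rw [hχ, DirichletCharacter.conductor_changeLevel]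
        exact hprim
      refine Finset.mem_image.2 ⟨χ, Finset.mem_erase.2 ⟨?_, Finset.mem_univ _⟩, ?_⟩
      · intro h
        rw [DirichletCharacter.eq_one_iff_conductor_eq_one, hc] at h
        omega
      · apply grp_ext (q := q) (σ χ) p hc χ.conductor_dvd_level hd
        show DirichletCharacter.changeLevel _ χ.primitiveCharacter = _
        rw [DirichletCharacter.changeLevel_primitiveCharacter]
  rw [← himg, Finset.sum_image (fun a _ b _ h => hσ h)]
  apply Finset.sum_congr
  · exact grp_erase _ _ _ _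
  · intro _ _
    rfl

/-- one modulus -/
private theorem grp_one (hchr : R_chr) (J j Q q : ℕ) (f : ℕ → ℝ) (a : ℤ) (hq : 1 ≤ q)
    (hqQ : q ≤ Q) (ha : IsCoprime a (q : ℤ))
    (hf : ∀ n, 1 ≤ n → f n ≠ 0 → wJ J j n ≠ 0 → n.Coprime q) :
    (Nat.totient q : ℂ) * (EE J f a j q : ℂ) =
      ∑ p ∈ (primChars Q).filter (fun p => p.1 ∣ q), p.2⁻¹ (a : ZMod p.1) * Sf f J j p.2 := by
  have : NeZero q := ⟨by omega⟩
  rw [hchr J j q f a hq ha hf,
    ← grp_bij Q q hq hqQ (fun p => p.2⁻¹ (a : ZMod p.1) * Sf f J j p.2)]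
  apply Finset.sum_congr rfl
  intro χ _
  have hcop : ∀ n : ℕ, n.Coprime q →
      χ (n : ZMod q) = χ.primitiveCharacter (n : ZMod χ.conductor) := by
    intro n hn
    have := χ.primitiveCharacter_apply_of_isCoprime (a := (n : ℤ)) (by
      rw [Nat.isCoprime_iff_coprime]; exact hn)
    push_cast at this
    exact this.symm
  have h1 : χ⁻¹ (a : ZMod q) = χ.primitiveCharacter⁻¹ (a : ZMod χ.conductor) := by
    have h := χ.primitiveCharacter_apply_of_isCoprime (a := a) ha
    rw [MulChar.inv_apply_eq_inv', MulChar.inv_apply_eq_inv', h]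
  have h2 : Sf f J j χ = Sf f J j χ.primitiveCharacter := by
    unfold Sf
    apply Finset.sum_congr rfl
    intro n hn
    have hn1 : 1 ≤ n := (Finset.mem_Icc.1 hn).1
    by_cases hf0 : f n = 0
    · rw [hf0]
      simp
    by_cases hw0 : wJ J j n = 0
    · rw [hw0]
      simp
    rw [hcop n (hf n hn1 hf0 hw0)]
  rw [h1, h2]

theorem p_grp : S_grp := by
  intro hchr J j Q f c a hyp
  have h1 : ((∑ q ∈ Icc 1 Q, c q * EE J f a j q : ℝ) : ℂ) =
      ∑ q ∈ Icc 1 Q, ∑ p ∈ (primChars Q).filter (fun p => p.1 ∣ q),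
        ((c q / Nat.totient q : ℝ) : ℂ) * (p.2⁻¹ (a : ZMod p.1) * Sf f J j p.2) := by
    push_cast
    apply Finset.sum_congr rfl
    intro q hq
    obtain ⟨hq1, hqQ⟩ := Finset.mem_Icc.1 hq
    by_cases hc : c q = 0
    · rw [hc]
      simp
    · obtain ⟨ha, hf⟩ := hyp q hq hc
      have h := grp_one hchr J j Q q f a hq1 hqQ ha hf
      rw [← Finset.mul_sum, ← h]
      have hφ : (Nat.totient q : ℂ) ≠ 0 := by
        have : 0 < Nat.totient q := Nat.totient_pos.2 hq1
        exact_mod_cast this.ne'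
      field_simp
  rw [h1, Finset.sum_congr rfl (fun q _ => Finset.sum_filter _ _), Finset.sum_comm]
  apply Finset.sum_congr rfl
  intro p _
  rw [← Finset.sum_filter, ← Finset.sum_mul, Complex.ofReal_sum]
  ring

end Pool.Agent.CH.D
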