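import Pool.Agent.Lib.MP_d610d0_nt.CH.D.Stm

set_option autoImplicit false

/-!
Piece m1.
-/

namespace Pool.Agent.CH.D

open Finset Filter
open ArithmeticFunction (vonMangoldt)
open Pool.Agent.MP89da58 (tri primChars)
open Pool.Agent.BVall (boxL)
open Pool.Agent.CH.V (pz ex)
open Pool.Agent.CH.P (R_PW R_PNT)

private theorem m1_wL (lam : ℝ) (j n : ℕ) : 0 ≤ wL lam j n ∧ wL lam j n ≤ 1 := by
  unfold wL tri
  refine ⟨le_max_left _ _, max_le zero_le_one ?_⟩
  have := abs_nonneg (lam * Real.log (n / ((j : ℝ) + 1 / 2) ^ 3))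
  linarith

private theorem m1_thP (n : ℕ) : 0 ≤ vonMangoldt n - thP n := by
  unfold thP
  split_ifs with h
  · rw [ArithmeticFunction.vonMangoldt_apply_prime h, sub_self]
  · rw [sub_zero]
    exact ArithmeticFunction.vonMangoldt_nonneg

/-- the asymptotic inequalities -/
private theorem m1_ev (E : ℕ) : ∀ᶠ J : ℕ in atTop, (Real.log J) ^ E * (J : ℝ) ^ (8 / 5 : ℝ)
    ≤ 0.0001 * (J : ℝ) ^ 3 ∧ 1 / Real.log J ≤ 0.0001 ∧ 4000000 / Real.log J ≤ 1 ∧ 1 ≤ J := by
  have h1 : ∀ᶠ x : ℝ in atTop, (Real.log x) ^ E ≤ 0.0001 * x := by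
    have h := (Real.isLittleO_pow_log_id_atTop (n := E)).def (c := 0.0001) (by norm_num)
    filter_upwards [h, eventually_ge_atTop 1] with x hx hx1
    have h2 : ‖(Real.log x) ^ E‖ = (Real.log x) ^ E :=
      Real.norm_of_nonneg (pow_nonneg (Real.log_nonneg hx1) _)
    rw [h2] at hx
    simpa [abs_of_nonneg (by linarith : (0 : ℝ) ≤ x)] using hx
  have h2 : ∀ᶠ x : ℝ in atTop, 4000000 ≤ Real.log x :=
    Real.tendsto_log_atTop.eventually_ge_atTop _
  have h3 := (tendsto_natCast_atTop_atTop (R := ℝ)).eventually h1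
  have h4 := (tendsto_natCast_atTop_atTop (R := ℝ)).eventually h2
  filter_upwards [h3, h4, eventually_ge_atTop 1] with J hJ1 hJ2 hJ3
  have hJr : (1 : ℝ) ≤ J := by exact_mod_cast hJ3
  refine ⟨?_, ?_, ?_, hJ3⟩
  · calc (Real.log J) ^ E * (J : ℝ) ^ (8 / 5 : ℝ) ≤ (0.0001 * J) * (J : ℝ) ^ (2 : ℝ) := by
          apply mul_le_mul hJ1 (Real.rpow_le_rpow_of_exponent_le hJr (by norm_num))
            (by positivity) (by positivity)
      _ = 0.0001 * (J : ℝ) ^ 3 := by
          rw [Real.rpow_two]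
          ring
  · rw [div_le_iff₀ (by linarith)]
    linarith
  · rw [div_le_one (by linarith)]
    exact hJ2

theorem p_m1 : S_m1 := by
  intro hpp hm1a hCM A
  obtain ⟨E0, hE0⟩ := hCM (A + 1)
  have ev := (hE0 (E0 + 1) (Nat.le_succ _)).and ((hm1a (E0 + 1) (Nat.succ_pos _)).and
    (hpp.and (m1_ev (E0 + 1))))
  obtain ⟨J0, hJ0⟩ := eventually_atTop.1 ev
  refine ⟨1 + (Real.log J0) ^ A, ?_⟩
  intro J hJ
  have hJr : (2 : ℝ) ≤ J := by exact_mod_cast hJ
  have hL : 0 < Real.log J := Real.log_pos (by linarith)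
  set L : ℝ := Real.log J with hLdef
  set bad := (Ioc J (2 * J)).filter (fun j : ℕ => ∑ n ∈ Icc 1 (27 * J ^ 3), thP n * wJ J j n
    < 0.999 * (((j : ℝ) + 1 / 2) ^ 3 / (2 * J))) with hbad
  have hcard : (bad.card : ℝ) ≤ J := by
    have h : bad.card ≤ J := by
      calc bad.card ≤ (Ioc J (2 * J)).card := Finset.card_filter_le _ _
        _ = J := by
            rw [Nat.card_Ioc]
            omega
    exact_mod_cast h
  have hlogJ0 : 0 ≤ Real.log J0 := Real.log_natCast_nonneg J0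
  rcases lt_or_ge J J0 with hlt | hge
  · have h1 : L ^ A ≤ (Real.log J0) ^ A := by
      apply pow_le_pow_left₀ hL.le
      apply Real.log_le_log (by linarith)
      exact_mod_cast hlt.le
    rw [le_div_iff₀ (pow_pos hL A)]
    have h2 : (bad.card : ℝ) * L ^ A ≤ J * (Real.log J0) ^ A :=
      mul_le_mul hcard h1 (pow_nonneg hL.le _) (by linarith)
    have h3 : J * (Real.log J0) ^ A ≤ (1 + (Real.log J0) ^ A) * J := by nlinarith
    exact h2.trans h3
  · obtain ⟨g1, g2, ⟨g3, g4⟩, g5, g6, g7, g8⟩ := hJ0 J hge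
    rw [← hLdef] at g1 g2 g5 g6 g7
    set E := E0 + 1 with hE
    have hpt : ∀ j ∈ bad, (0.0005 * (J : ℝ) ^ 3) ^ 2 ≤
        (2 * (J : ℝ) * ∑ n ∈ Icc 1 (27 * J ^ 3), FT J n * wJ J j n
          - L ^ E * ∑ n ∈ Icc 1 (27 * J ^ 3), FT J n * wL (L ^ E) j n) ^ 2 := by
      intro j hj
      rw [hbad, Finset.mem_filter] at hj
      obtain ⟨hj1, hj2⟩ := hj
      have k1 := g2 j hj1
      have hjJ : (J : ℝ) ≤ j := by
        have := (Finset.mem_Ioc.1 hj1).1
        exact_mod_cast this.le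
      have hxj : (J : ℝ) ^ 3 ≤ xj j := by
        unfold xj
        apply pow_le_pow_left₀ (by linarith)
        linarith
      have hxj0 : 0 < xj j := lt_of_lt_of_le (by positivity) hxj
      have k2 : xj j / L ≤ 0.0001 * xj j := by
        rw [div_eq_mul_one_div, mul_comm]
        exact mul_le_mul_of_nonneg_right g6 hxj0.le
      have k3 : ∑ n ∈ Icc 1 (27 * J ^ 3), vonMangoldt n * wL (L ^ E) j n
          - ∑ n ∈ Icc 1 (27 * J ^ 3), FT J n * wL (L ^ E) j n ≤ (J : ℝ) ^ (8 / 5 : ℝ) := by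
        rw [← Finset.sum_sub_distrib]
        refine le_trans (Finset.sum_le_sum ?_) g4
        intro n _
        rw [← sub_mul]
        exact mul_le_of_le_one_right (m1_thP n) (m1_wL _ _ _).2
      have k4 : L ^ E * (∑ n ∈ Icc 1 (27 * J ^ 3), vonMangoldt n * wL (L ^ E) j n
          - ∑ n ∈ Icc 1 (27 * J ^ 3), FT J n * wL (L ^ E) j n) ≤ 0.0001 * xj j :=
        (mul_le_mul_of_nonneg_left k3 (pow_nonneg hL.le _)).trans (g5.trans (by linarith))
      have k5 := (abs_le.1 k1).1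
      have k6 : 2 * (J : ℝ) * ∑ n ∈ Icc 1 (27 * J ^ 3), FT J n * wJ J j n < 0.999 * xj j := by
        have : 2 * (J : ℝ) * (0.999 * (((j : ℝ) + 1 / 2) ^ 3 / (2 * J))) = 0.999 * xj j := by
          unfold xj
          field_simp
        rw [← this]
        exact mul_lt_mul_of_pos_left hj2 (by linarith)
      rw [← neg_sq (2 * (J : ℝ) * ∑ n ∈ Icc 1 (27 * J ^ 3), FT J n * wJ J j n
          - L ^ E * ∑ n ∈ Icc 1 (27 * J ^ 3), FT J n * wL (L ^ E) j n)]
      apply pow_le_pow_left₀ (by positivity)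
      rw [mul_sub] at k4
      linarith
    have hsum : (bad.card : ℝ) * (0.0005 * (J : ℝ) ^ 3) ^ 2 ≤ (J : ℝ) ^ 7 / L ^ (A + 1) := by
      calc (bad.card : ℝ) * (0.0005 * (J : ℝ) ^ 3) ^ 2
          = ∑ j ∈ bad, (0.0005 * (J : ℝ) ^ 3) ^ 2 := by
            rw [Finset.sum_const, nsmul_eq_mul]
        _ ≤ _ := Finset.sum_le_sum hpt
        _ ≤ _ := Finset.sum_le_sum_of_subset_of_nonneg (Finset.filter_subset _ _)
            fun _ _ _ => sq_nonneg _
        _ ≤ _ := g1
    have h5 : (bad.card : ℝ) ≤ (J / L ^ A) * (4000000 / L) := by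
      have hp : (0 : ℝ) < (0.0005 * (J : ℝ) ^ 3) ^ 2 := by positivity
      rw [← le_div_iff₀ hp] at hsum
      refine hsum.trans (le_of_eq ?_)
      rw [pow_succ L A]
      field_simp
      norm_num
    calc (bad.card : ℝ) ≤ (J / L ^ A) * (4000000 / L) := h5
      _ ≤ (J / L ^ A) * 1 := mul_le_mul_of_nonneg_left g7 (by positivity)
      _ ≤ (1 + (Real.log J0) ^ A) * J / L ^ A := by
          rw [mul_one, mul_div_assoc]
          apply le_mul_of_one_le_left (by positivity)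
          have : 0 ≤ (Real.log J0) ^ A := pow_nonneg hlogJ0 _
          linarith

end Pool.Agent.CH.D
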