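import Pool.Agent.Lib.MP_d610d0_nt.CH.D.Stm
import Mathlib.NumberTheory.Chebyshev

set_option autoImplicit false

/-!
Piece pp: proper prime powers in the windows.
-/

namespace Pool.Agent.CH.D

open Finset Filter
open ArithmeticFunction (vonMangoldt)
open Pool.Agent.MP89da58 (tri primChars)

private theorem pq_pow {j k a b : ℕ} (hj : 256 ≤ j) (hk : 4 ≤ k) (ha : j ^ 3 < a ^ k)
    (hb : b ^ k < (j + 1) ^ 3) : b ≤ a := by
  by_contra hab
  push Not at hab
  have h1 : 4 * j ^ 2 ≤ a ^ (k - 1) := by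
    by_contra h
    push Not at h
    have h2 : (a ^ k) ^ (k - 1) ≤ (j ^ 3) ^ (k - 1) := by
      calc (a ^ k) ^ (k - 1) = (a ^ (k - 1)) ^ k := by rw [← pow_mul, ← pow_mul, mul_comm]
        _ ≤ (4 * j ^ 2) ^ k := Nat.pow_le_pow_left h.le k
        _ = 4 ^ k * j ^ (2 * k) := by rw [mul_pow, ← pow_mul]
        _ ≤ 4 ^ (4 * (k - 3)) * j ^ (2 * k) :=
            Nat.mul_le_mul_right _ (Nat.pow_le_pow_right (by norm_num) (by omega))
        _ = 256 ^ (k - 3) * j ^ (2 * k) := by rw [pow_mul]; norm_num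
        _ ≤ j ^ (k - 3) * j ^ (2 * k) := Nat.mul_le_mul_right _ (Nat.pow_le_pow_left hj _)
        _ = (j ^ 3) ^ (k - 1) := by
            rw [← pow_add, ← pow_mul]
            congr 1
            omega
    have h3 := (Nat.pow_le_pow_iff_left (n := k - 1) (by omega)).1 h2
    omega
  have h2 : a ^ k + a ^ (k - 1) ≤ b ^ k := by
    calc a ^ k + a ^ (k - 1) = a ^ (k - 1) * (a + 1) := by
          obtain ⟨m, rfl⟩ : ∃ m, k = m + 1 := ⟨k - 1, by omega⟩
          simp only [Nat.add_sub_cancel]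
          ring
      _ ≤ (a + 1) ^ (k - 1) * (a + 1) :=
          Nat.mul_le_mul_right _ (Nat.pow_le_pow_left (by omega) _)
      _ = (a + 1) ^ k := by
          rw [← pow_succ]
          congr 1
          omega
      _ ≤ b ^ k := Nat.pow_le_pow_left (by omega) _
  have h3 : (j + 1) ^ 3 ≤ j ^ 3 + 1 + 4 * j ^ 2 := by nlinarith
  omega

private theorem pq_tri0 (u : ℝ) : 0 ≤ tri u := le_max_left _ _

private theorem pq_tri1 (u : ℝ) : tri u ≤ 1 := by
  unfold tri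
  exact max_le (by norm_num) (by linarith [abs_nonneg u])

private theorem pq_th0 (n : ℕ) : 0 ≤ thP n := by
  unfold thP
  split_ifs
  · exact Real.log_natCast_nonneg n
  · exact le_rfl

/-- proper prime powers -/
private theorem pq_pp {n : ℕ} (h : vonMangoldt n ≠ thP n) :
    ∃ p k : ℕ, p.Prime ∧ 2 ≤ k ∧ p ^ k = n := by
  have h1 : vonMangoldt n ≠ 0 := by
    intro h0
    apply h
    rw [h0]
    unfold thP
    rw [if_neg]
    intro hp
    rw [ArithmeticFunction.vonMangoldt_apply_prime hp] at h0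
    have := Real.log_pos (x := (n : ℝ)) (by exact_mod_cast hp.one_lt)
    linarith
  rw [ArithmeticFunction.vonMangoldt_ne_zero_iff] at h1
  rw [isPrimePow_nat_iff] at h1
  obtain ⟨p, k, hp, hk, hpk⟩ := h1
  refine ⟨p, k, hp, ?_, hpk⟩
  by_contra hk2
  have hk1 : k = 1 := by omega
  subst hk1
  rw [pow_one] at hpk
  subst hpk
  apply h
  rw [ArithmeticFunction.vonMangoldt_apply_prime hp]
  unfold thP
  rw [if_pos hp]

private noncomputable def pqB (J j : ℕ) : Finset ℕ :=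
  (Icc 1 (27 * J ^ 3)).filter (fun n => vonMangoldt n ≠ thP n ∧ wJ J j n ≠ 0)

open Classical in
private noncomputable def pqS (j k : ℕ) : Finset ℕ :=
  (Ioo (j ^ 3) ((j + 1) ^ 3)).filter (fun n => ∃ a : ℕ, a ^ k = n)

private theorem pq_sub (hs : R_spc) {J j : ℕ} (hJ : 256 ≤ J) (hj : j ∈ Ioc J (2 * J)) :
    pqB J j ⊆ ((Ioc (Nat.sqrt (j ^ 3)) (Nat.sqrt ((j + 1) ^ 3))).image (fun a => a ^ 2)) ∪
      (range (Nat.log 2 (27 * J ^ 3) + 1)).biUnion (fun k => if 4 ≤ k then pqS j k else ∅) := by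
  intro n hn
  unfold pqB at hn
  rw [mem_filter, mem_Icc] at hn
  obtain ⟨⟨hn1, hn2⟩, hn3, hn4⟩ := hn
  obtain ⟨h5, h6⟩ := (hs J (by omega)).2.1 j hj n hn1 hn4
  obtain ⟨p, k, hp, hk, hpk⟩ := pq_pp hn3
  rw [mem_union]
  rcases Nat.lt_or_ge k 4 with hk4 | hk4
  · left
    have : k = 2 ∨ k = 3 := by omega
    rcases this with rfl | rfl
    · rw [mem_image]
      refine ⟨p, ?_, hpk⟩
      rw [mem_Ioc]
      constructor
      · rw [Nat.sqrt_lt']
        omega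
      · rw [Nat.le_sqrt']
        omega
    · exfalso
      rw [← hpk] at h5 h6
      have h7 := (Nat.pow_lt_pow_iff_left (by norm_num)).1 h5
      have h8 := (Nat.pow_lt_pow_iff_left (by norm_num)).1 h6
      omega
  · right
    rw [mem_biUnion]
    refine ⟨k, ?_, ?_⟩
    · rw [mem_range]
      have : k ≤ Nat.log 2 (27 * J ^ 3) := by
        apply Nat.le_log_of_pow_le (by norm_num)
        calc 2 ^ k ≤ p ^ k := Nat.pow_le_pow_left hp.two_le k
          _ = n := hpk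
          _ ≤ _ := hn2
      omega
    · rw [if_pos hk4]
      unfold pqS
      rw [mem_filter, mem_Ioo]
      exact ⟨⟨h5, h6⟩, p, hpk⟩

private theorem pq_cS {j k : ℕ} (hj : 256 ≤ j) (hk : 4 ≤ k) : (pqS j k).card ≤ 1 := by
  rw [card_le_one]
  intro m hm n hn
  unfold pqS at hm hn
  rw [mem_filter, mem_Ioo] at hm hn
  obtain ⟨⟨h1, h2⟩, a, rfl⟩ := hm
  obtain ⟨⟨h3, h4⟩, b, rfl⟩ := hn
  have h5 := pq_pow hj hk h1 h4
  have h6 := pq_pow hj hk h3 h2
  have : a = b := by omega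
  rw [this]

private theorem pq_sq {j : ℕ} (hj : 4 ≤ j) :
    ((Nat.sqrt ((j + 1) ^ 3) - Nat.sqrt (j ^ 3) : ℕ) : ℝ) ≤ 2 * √(j : ℝ) + 1 := by
  have hm : Nat.sqrt (j ^ 3) ≤ Nat.sqrt ((j + 1) ^ 3) :=
    Nat.sqrt_le_sqrt (Nat.pow_le_pow_left (by omega) 3)
  rw [Nat.cast_sub hm]
  have hj0 : (4 : ℝ) ≤ j := by exact_mod_cast hj
  set s : ℝ := √(j : ℝ) with hs
  have hs2 : s ^ 2 = j := Real.sq_sqrt (by linarith)
  have hs0 : 0 < s := Real.sqrt_pos.2 (by linarith)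
  have h1 : (Nat.sqrt ((j + 1) ^ 3) : ℝ) ^ 2 ≤ ((j : ℝ) + 1) ^ 3 := by
    have := Nat.sqrt_le' ((j + 1) ^ 3)
    exact_mod_cast this
  have h2 : (j : ℝ) ^ 3 < ((Nat.sqrt (j ^ 3) : ℝ) + 1) ^ 2 := by
    have := Nat.lt_succ_sqrt' (j ^ 3)
    exact_mod_cast this
  have h3 : s ^ 3 < (Nat.sqrt (j ^ 3) : ℝ) + 1 := by
    have : (s ^ 3) ^ 2 < ((Nat.sqrt (j ^ 3) : ℝ) + 1) ^ 2 := by
      calc (s ^ 3) ^ 2 = (s ^ 2) ^ 3 := by ring
        _ = (j : ℝ) ^ 3 := by rw [hs2]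
        _ < _ := h2
    exact lt_of_pow_lt_pow_left₀ 2 (by positivity) this
  have h4 : (Nat.sqrt ((j + 1) ^ 3) : ℝ) ≤ s ^ 3 + 2 * s := by
    have : (Nat.sqrt ((j + 1) ^ 3) : ℝ) ^ 2 ≤ (s ^ 3 + 2 * s) ^ 2 := by
      refine h1.trans ?_
      have e : (s ^ 3 + 2 * s) ^ 2 = (s ^ 2) ^ 3 + 4 * (s ^ 2) ^ 2 + 4 * s ^ 2 := by ring
      rw [e, hs2]
      nlinarith
    exact le_of_sq_le_sq this (by positivity)
  linarith

private theorem pq_card (hs : R_spc) {J j : ℕ} (hJ : 256 ≤ J) (hj : j ∈ Ioc J (2 * J)) :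
    ((pqB J j).card : ℝ) ≤ 3 * √(J : ℝ) + 2 + Nat.log 2 (27 * J ^ 3) := by
  have h1 := (card_le_card (pq_sub hs hJ hj)).trans (card_union_le _ _)
  have hj' := mem_Ioc.1 hj
  have h2 : ((Ioc (Nat.sqrt (j ^ 3)) (Nat.sqrt ((j + 1) ^ 3))).image (fun a => a ^ 2)).card ≤
      Nat.sqrt ((j + 1) ^ 3) - Nat.sqrt (j ^ 3) := by
    refine card_image_le.trans ?_
    rw [Nat.card_Ioc]
  have h3 : ((range (Nat.log 2 (27 * J ^ 3) + 1)).biUnion
      (fun k => if 4 ≤ k then pqS j k else ∅)).card ≤ Nat.log 2 (27 * J ^ 3) + 1 := by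
    refine card_biUnion_le.trans ?_
    calc ∑ k ∈ range (Nat.log 2 (27 * J ^ 3) + 1), (if 4 ≤ k then pqS j k else ∅).card
        ≤ ∑ k ∈ range (Nat.log 2 (27 * J ^ 3) + 1), 1 := by
          apply sum_le_sum
          intro k _
          split_ifs with hk
          · exact pq_cS (by omega) hk
          · simp
      _ = _ := by simp
  have h4 : (pqB J j).card ≤ (Nat.sqrt ((j + 1) ^ 3) - Nat.sqrt (j ^ 3)) +
      (Nat.log 2 (27 * J ^ 3) + 1) := by omega
  have h5 : ((pqB J j).card : ℝ) ≤ ((Nat.sqrt ((j + 1) ^ 3) - Nat.sqrt (j ^ 3) : ℕ) : ℝ) +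
      ((Nat.log 2 (27 * J ^ 3) : ℝ) + 1) := by exact_mod_cast h4
  have h6 := pq_sq (j := j) (by omega)
  have h7 : √(j : ℝ) ≤ (3 / 2) * √(J : ℝ) := by
    have e : (3 / 2 : ℝ) * √(J : ℝ) = √((9 / 4) * J) := by
      rw [Real.sqrt_mul (by norm_num)]
      congr 1
      rw [show (9 / 4 : ℝ) = (3 / 2) ^ 2 by norm_num, Real.sqrt_sq (by norm_num)]
    rw [e]
    apply Real.sqrt_le_sqrt
    have : (j : ℝ) ≤ 2 * J := by exact_mod_cast hj'.2
    have hJ0 : (0 : ℝ) ≤ J := Nat.cast_nonneg J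
    linarith
  linarith

private theorem pq_sum (hs : R_spc) {J j : ℕ} (hJ : 256 ≤ J) (hj : j ∈ Ioc J (2 * J)) :
    ∑ n ∈ Icc 1 (27 * J ^ 3), (vonMangoldt n - thP n) * wJ J j n ≤
      (3 * √(J : ℝ) + 2 + Nat.log 2 (27 * J ^ 3)) * Real.log (27 * (J : ℝ) ^ 3) := by
  have hJ1 : (1 : ℝ) ≤ J := by
    have : 1 ≤ J := by omega
    exact_mod_cast this
  have hL0 : 0 ≤ Real.log (27 * (J : ℝ) ^ 3) := Real.log_nonneg (by
    have : (1 : ℝ) ≤ (J : ℝ) ^ 3 := one_le_pow₀ hJ1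
    linarith)
  calc ∑ n ∈ Icc 1 (27 * J ^ 3), (vonMangoldt n - thP n) * wJ J j n
      ≤ ∑ n ∈ Icc 1 (27 * J ^ 3), (if vonMangoldt n ≠ thP n ∧ wJ J j n ≠ 0 then
          Real.log (27 * (J : ℝ) ^ 3) else 0) := by
        apply sum_le_sum
        intro n hn
        rw [mem_Icc] at hn
        have hw0 : 0 ≤ wJ J j n := pq_tri0 _
        have hw1 : wJ J j n ≤ 1 := pq_tri1 _
        split_ifs with h
        · have h1 : vonMangoldt n - thP n ≤ Real.log (27 * (J : ℝ) ^ 3) := by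
            have h2 := ArithmeticFunction.vonMangoldt_le_log (n := n)
            have h3 : Real.log n ≤ Real.log (27 * (J : ℝ) ^ 3) := by
              apply Real.log_le_log
              · exact_mod_cast hn.1
              · exact_mod_cast hn.2
            have := pq_th0 n
            linarith
          calc (vonMangoldt n - thP n) * wJ J j n ≤ Real.log (27 * (J : ℝ) ^ 3) * wJ J j n :=
                mul_le_mul_of_nonneg_right h1 hw0
            _ ≤ Real.log (27 * (J : ℝ) ^ 3) * 1 := mul_le_mul_of_nonneg_left hw1 hL0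
            _ = _ := mul_one _
        · have : vonMangoldt n - thP n = 0 ∨ wJ J j n = 0 := by
            by_contra hc
            push Not at hc
            exact h ⟨fun e => hc.1 (by rw [e, sub_self]), hc.2⟩
          rcases this with h1 | h1
          · rw [h1, zero_mul]
          · rw [h1, mul_zero]
    _ = (pqB J j).card * Real.log (27 * (J : ℝ) ^ 3) := by
        rw [← sum_filter, sum_const, nsmul_eq_mul]
        rfl
    _ ≤ _ := mul_le_mul_of_nonneg_right (pq_card hs hJ hj) hL0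

private theorem pq_psi (J : ℕ) (hJ : 1 ≤ J) :
    ∑ n ∈ Icc 1 (27 * J ^ 3), (vonMangoldt n - thP n) ≤
      2 * √(27 * (J : ℝ) ^ 3) * Real.log (27 * (J : ℝ) ^ 3) := by
  have hJ1 : (1 : ℝ) ≤ J := by exact_mod_cast hJ
  have hJ3 : (1 : ℝ) ≤ (J : ℝ) ^ 3 := one_le_pow₀ hJ1
  have h := Chebyshev.psi_sub_theta_le (x := 27 * (J : ℝ) ^ 3) (by linarith)
  refine le_trans (le_of_eq ?_) h
  have hfl : ⌊(27 * (J : ℝ) ^ 3)⌋₊ = 27 * J ^ 3 := by
    rw [show (27 * (J : ℝ) ^ 3) = ((27 * J ^ 3 : ℕ) : ℝ) by push_cast; ring]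
    exact Nat.floor_natCast _
  rw [sum_sub_distrib]
  unfold Chebyshev.psi Chebyshev.theta
  rw [hfl]
  congr 1
  rw [sum_filter]
  apply sum_congr rfl
  intro n _
  unfold thP
  rfl

theorem p_pp : S_pp := by
  intro hs
  have h1 : ∀ᶠ J : ℕ in atTop, 256 ≤ J := eventually_ge_atTop 256
  have h2 : ∀ᶠ x : ℝ in atTop, Real.log x ≤ (1 / 100) * x ^ (1 / 10 : ℝ) := by
    have h := (isLittleO_log_rpow_atTop (r := 1 / 10) (by norm_num)).bound
      (c := 1 / 100) (by norm_num)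
    filter_upwards [h, eventually_ge_atTop (1 : ℝ)] with x hx hx1
    rw [Real.norm_eq_abs, Real.norm_eq_abs, abs_of_nonneg (Real.log_nonneg hx1),
      abs_of_nonneg (Real.rpow_nonneg (by linarith) _)] at hx
    exact hx
  have h3 := tendsto_natCast_atTop_atTop.eventually h2
  filter_upwards [h1, h3] with J hJ hJ2
  have hJ0 : (256 : ℝ) ≤ J := by exact_mod_cast hJ
  have hJp : (0 : ℝ) < J := by linarith
  have hL0 : 0 ≤ Real.log J := Real.log_nonneg (by linarith)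
  set X : ℝ := (J : ℝ) ^ (1 / 10 : ℝ) with hX
  have hX1 : 1 ≤ X := Real.one_le_rpow (by linarith) (by norm_num)
  have hsq : √(J : ℝ) = X ^ 5 := by
    rw [Real.sqrt_eq_rpow, hX, ← Real.rpow_natCast, ← Real.rpow_mul hJp.le]
    norm_num
  have h35 : (J : ℝ) ^ (3 / 5 : ℝ) = X ^ 6 := by
    rw [hX, ← Real.rpow_natCast, ← Real.rpow_mul hJp.le]
    norm_num
  have h85 : (J : ℝ) ^ (8 / 5 : ℝ) = X ^ 16 := by
    rw [hX, ← Real.rpow_natCast, ← Real.rpow_mul hJp.le]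
    norm_num
  have hJX : (J : ℝ) = X ^ 10 := by
    rw [hX, ← Real.rpow_natCast, ← Real.rpow_mul hJp.le]
    norm_num
  have hlog : Real.log (27 * (J : ℝ) ^ 3) ≤ 4 * Real.log J := by
    rw [Real.log_mul (by norm_num) (by positivity), Real.log_pow]
    have h7 : Real.log 27 ≤ Real.log J := Real.log_le_log (by norm_num) (by linarith)
    push_cast
    linarith
  have hlog0 : 0 ≤ Real.log (27 * (J : ℝ) ^ 3) := Real.log_nonneg (by
    have : (1 : ℝ) ≤ (J : ℝ) ^ 3 := one_le_pow₀ (by linarith)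
    linarith)
  have hnl : (Nat.log 2 (27 * J ^ 3) : ℝ) ≤ 6 * Real.log J := by
    have h8 : (2 : ℕ) ^ (Nat.log 2 (27 * J ^ 3)) ≤ 27 * J ^ 3 :=
      Nat.pow_log_le_self 2 (by positivity)
    have h9 : (2 : ℝ) ^ (Nat.log 2 (27 * J ^ 3)) ≤ 27 * (J : ℝ) ^ 3 := by exact_mod_cast h8
    have h10 := Real.log_le_log (by positivity) h9
    rw [Real.log_pow] at h10
    have h11 : (2 / 3 : ℝ) ≤ Real.log 2 := by
      have := Real.log_two_gt_d9
      linarith
    have h12 : (Nat.log 2 (27 * J ^ 3) : ℝ) * (2 / 3) ≤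
        (Nat.log 2 (27 * J ^ 3) : ℝ) * Real.log 2 :=
      mul_le_mul_of_nonneg_left h11 (Nat.cast_nonneg _)
    linarith
  constructor
  · intro j hj
    refine (pq_sum hs hJ hj).trans ?_
    rw [h35, hsq]
    have hX5 : X ≤ X ^ 5 := by
      calc X = X ^ 1 := (pow_one X).symm
        _ ≤ X ^ 5 := pow_le_pow_right₀ hX1 (by norm_num)
    have h13 : 3 * X ^ 5 + 2 + (Nat.log 2 (27 * J ^ 3) : ℝ) ≤ 6 * X ^ 5 := by
      have : 1 ≤ X ^ 5 := one_le_pow₀ hX1
      linarith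
    calc (3 * X ^ 5 + 2 + (Nat.log 2 (27 * J ^ 3) : ℝ)) * Real.log (27 * (J : ℝ) ^ 3)
        ≤ 6 * X ^ 5 * (4 * Real.log J) := by
          apply mul_le_mul h13 hlog hlog0 (by positivity)
      _ ≤ 6 * X ^ 5 * (4 * (1 / 100 * X)) := by gcongr
      _ = (24 / 100) * X ^ 6 := by ring
      _ ≤ X ^ 6 := by
          have : 0 ≤ X ^ 6 := by positivity
          linarith
  · refine (pq_psi J (by omega)).trans ?_
    rw [h85]
    have h14 : √(27 * (J : ℝ) ^ 3) ≤ 6 * X ^ 15 := by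
      rw [hJX]
      have e : (6 * X ^ 15) = √((6 * X ^ 15) ^ 2) := (Real.sqrt_sq (by positivity)).symm
      rw [e]
      apply Real.sqrt_le_sqrt
      have : 0 ≤ X ^ 30 := by positivity
      nlinarith
    calc 2 * √(27 * (J : ℝ) ^ 3) * Real.log (27 * (J : ℝ) ^ 3)
        ≤ 2 * (6 * X ^ 15) * (4 * (1 / 100 * X)) := by
          apply mul_le_mul (by linarith) (hlog.trans (by linarith)) hlog0 (by positivity)
      _ = (48 / 100) * X ^ 16 := by ring
      _ ≤ X ^ 16 := by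
          have : 0 ≤ X ^ 16 := by positivity
          linarith

end Pool.Agent.CH.D
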