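import Pool.Agent.Lib.MP_d610d0_nt.CH.D.Stm

set_option autoImplicit false

/-!
Piece pwp.
-/

namespace Pool.Agent.CH.D

open Finset Filter
open ArithmeticFunction (vonMangoldt)
open Pool.Agent.MP89da58 (tri primChars)
open Pool.Agent.BVall (boxL)
open Pool.Agent.CH.V (pz ex)
open Pool.Agent.CH.P (R_PW R_PNT)

private theorem pwp_norm (t x : ℝ) : ‖pz t x‖ = 1 := by
  unfold pz
  rw [Complex.norm_exp]
  simp

/-- Abel's inequality -/
private theorem pwp_abel (w : ℕ → ℝ) (c : ℕ → ℂ) (a : ℕ) (T : ℝ) (hT : 0 ≤ T)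
    (hw : Antitone w) (hw0 : ∀ n, 0 ≤ w n) (hw1 : ∀ n, w n ≤ 1)
    (b : ℕ) (hb : ∀ m ≤ b, ‖∑ n ∈ Ioc a m, c n‖ ≤ T) :
    ‖∑ n ∈ Ioc a b, (w n : ℂ) * c n‖ ≤ T := by
  rcases lt_or_ge b a with hlt | hge
  · rw [Finset.Ioc_eq_empty (by omega)]
    simpa using hT
  have key : ∀ b, a ≤ b → (∀ m ≤ b, ‖∑ n ∈ Ioc a m, c n‖ ≤ T) →
      ‖∑ n ∈ Ioc a b, (w n : ℂ) * c n - (w b : ℂ) * ∑ n ∈ Ioc a b, c n‖ ≤ (w a - w b) * T := by
    intro b hab
    induction b, hab using Nat.le_induction with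
    | base =>
      intro _
      simp
    | succ k hk ih =>
      intro hm
      have ih' := ih fun m hmk => hm m (hmk.trans (Nat.le_succ k))
      have h1 : ∑ n ∈ Ioc a (k + 1), (w n : ℂ) * c n =
          ∑ n ∈ Ioc a k, (w n : ℂ) * c n + (w (k + 1) : ℂ) * c (k + 1) := by
        rw [Finset.sum_Ioc_succ_top hk]
      have h2 : ∑ n ∈ Ioc a (k + 1), c n = ∑ n ∈ Ioc a k, c n + c (k + 1) := by
        rw [Finset.sum_Ioc_succ_top hk]
      rw [h1, h2]
      have h3 : ∑ n ∈ Ioc a k, (w n : ℂ) * c n + (w (k + 1) : ℂ) * c (k + 1) -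
          (w (k + 1) : ℂ) * (∑ n ∈ Ioc a k, c n + c (k + 1)) =
          (∑ n ∈ Ioc a k, (w n : ℂ) * c n - (w k : ℂ) * ∑ n ∈ Ioc a k, c n) +
          ((w k - w (k + 1) : ℝ) : ℂ) * ∑ n ∈ Ioc a k, c n := by
        push_cast
        ring
      rw [h3]
      have h4 : ‖((w k - w (k + 1) : ℝ) : ℂ) * ∑ n ∈ Ioc a k, c n‖ ≤ (w k - w (k + 1)) * T := by
        have h5 : 0 ≤ w k - w (k + 1) := sub_nonneg.2 (hw (Nat.le_succ k))
        rw [norm_mul, Complex.norm_real, Real.norm_of_nonneg h5]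
        exact mul_le_mul_of_nonneg_left (hm k (Nat.le_succ k)) h5
      refine (norm_add_le _ _).trans ((add_le_add ih' h4).trans (le_of_eq ?_))
      ring
  have h1 := key b hge hb
  have h2 : ‖(w b : ℂ) * ∑ n ∈ Ioc a b, c n‖ ≤ w b * T := by
    rw [norm_mul, Complex.norm_real, Real.norm_of_nonneg (hw0 b)]
    exact mul_le_mul_of_nonneg_left (hb b le_rfl) (hw0 b)
  have h3 : ∑ n ∈ Ioc a b, (w n : ℂ) * c n =
      (∑ n ∈ Ioc a b, (w n : ℂ) * c n - (w b : ℂ) * ∑ n ∈ Ioc a b, c n) +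
      (w b : ℂ) * ∑ n ∈ Ioc a b, c n := by ring
  rw [h3]
  calc _ ≤ (w a - w b) * T + w b * T := (norm_add_le _ _).trans (add_le_add h1 h2)
    _ = w a * T := by ring
    _ ≤ 1 * T := mul_le_mul_of_nonneg_right (hw1 a) hT
    _ = T := one_mul T

/-- the weight `1 / log n` -/
private noncomputable def pwp_w (n : ℕ) : ℝ := 1 / Real.log ((max n 3 : ℕ) : ℝ)

private theorem pwp_log3 : 1 ≤ Real.log 3 := by
  rw [Real.le_log_iff_exp_le (by norm_num)]
  linarith [Real.exp_one_lt_d9]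

private theorem pwp_wlog (n : ℕ) : 1 ≤ Real.log ((max n 3 : ℕ) : ℝ) := by
  refine pwp_log3.trans (Real.log_le_log (by norm_num) ?_)
  exact_mod_cast le_max_right n 3

private theorem pwp_anti : Antitone pwp_w := by
  intro m n hmn
  unfold pwp_w
  apply one_div_le_one_div_of_le (by linarith [pwp_wlog m])
  apply Real.log_le_log
  · have : 3 ≤ max m 3 := le_max_right _ _
    have : (3 : ℝ) ≤ ((max m 3 : ℕ) : ℝ) := by exact_mod_cast this
    linarith
  · exact_mod_cast max_le_max hmn le_rfl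

private theorem pwp_w0 (n : ℕ) : 0 ≤ pwp_w n := by
  unfold pwp_w
  have := pwp_wlog n
  positivity

private theorem pwp_w1 (n : ℕ) : pwp_w n ≤ 1 := by
  unfold pwp_w
  rw [div_le_one (by linarith [pwp_wlog n])]
  exact pwp_wlog n

/-- the indicator function of the primes -/
private noncomputable def pwp_i (n : ℕ) : ℝ := if n.Prime then 1 else 0

private theorem pwp_diff (n : ℕ) : |pwp_i n - pwp_w n * vonMangoldt n| ≤
    (if n = 2 then 1 else 0) + (vonMangoldt n - thP n) := by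
  unfold pwp_i thP
  by_cases hp : n.Prime
  · rw [if_pos hp, if_pos hp, ArithmeticFunction.vonMangoldt_apply_prime hp, sub_self, add_zero]
    by_cases h2 : n = 2
    · rw [if_pos h2]
      have h3 : 0 ≤ pwp_w n * Real.log n := mul_nonneg (pwp_w0 n) (Real.log_natCast_nonneg n)
      have h4 : pwp_w n * Real.log n ≤ 1 := by
        have h5 : Real.log n ≤ 1 := by
          rw [h2]
          have := Real.log_two_lt_d9
          push_cast
          linarith
        calc pwp_w n * Real.log n ≤ 1 * 1 :=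
              mul_le_mul (pwp_w1 n) h5 (Real.log_natCast_nonneg n) zero_le_one
          _ = 1 := one_mul 1
      rw [abs_le]
      constructor <;> linarith
    · rw [if_neg h2]
      have h3 : max n 3 = n := max_eq_left (by
        have := hp.two_le
        omega)
      have h4 : pwp_w n * Real.log n = 1 := by
        have h5 := pwp_wlog n
        unfold pwp_w
        rw [h3] at h5 ⊢
        exact one_div_mul_cancel (by linarith)
      rw [h4, sub_self, abs_zero]
  · rw [if_neg hp, if_neg hp, zero_sub, abs_neg, sub_zero,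
      abs_of_nonneg (mul_nonneg (pwp_w0 n) ArithmeticFunction.vonMangoldt_nonneg)]
    have h1 : pwp_w n * vonMangoldt n ≤ 1 * vonMangoldt n :=
      mul_le_mul_of_nonneg_right (pwp_w1 n) ArithmeticFunction.vonMangoldt_nonneg
    have h2 : (0 : ℝ) ≤ if n = 2 then 1 else 0 := by split_ifs <;> norm_num
    linarith

private theorem pwp_nonneg (n : ℕ) : 0 ≤ (if n = 2 then 1 else 0) + (vonMangoldt n - thP n) :=
  (abs_nonneg _).trans (pwp_diff n)

private theorem pwp_err (N : ℕ) (hN : 1 ≤ N) :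
    ∑ n ∈ Ioc 0 N, ((if n = 2 then 1 else 0) + (vonMangoldt n - thP n)) ≤
      1 + 2 * Real.sqrt N * Real.log N := by
  rw [Finset.sum_add_distrib]
  apply add_le_add
  · rw [Finset.sum_ite_eq' (Ioc 0 N) 2 (fun _ => (1 : ℝ))]
    split_ifs <;> norm_num
  · have h := Chebyshev.psi_sub_theta_le (x := (N : ℝ)) (by exact_mod_cast hN)
    refine le_trans (le_of_eq ?_) h
    unfold Chebyshev.psi Chebyshev.theta
    rw [Nat.floor_natCast, Finset.sum_sub_distrib, Finset.sum_filter]
    rfl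

/-- the asymptotic inequality -/
private theorem pwp_ev (A : ℕ) : ∀ᶠ M : ℝ in atTop, 3 ≤ M ∧
    M / (Real.log M) ^ (A + 1) + (1 + 2 * Real.sqrt M * Real.log M) ≤ M / (Real.log M) ^ A := by
  have h1 : ∀ᶠ x : ℝ in atTop, (Real.log x) ^ ((A + 1 : ℕ) : ℝ) ≤ (1 / 6) * x ^ (1 / 2 : ℝ) := by
    have h := (isLittleO_log_rpow_rpow_atTop ((A + 1 : ℕ) : ℝ) (s := 1 / 2) (by norm_num)).def
      (c := 1 / 6) (by norm_num)
    filter_upwards [h, eventually_ge_atTop 1] with x hx hx1
    rw [Real.norm_of_nonneg (Real.rpow_nonneg (Real.log_nonneg hx1) _),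
      Real.norm_of_nonneg (Real.rpow_nonneg (by linarith) _)] at hx
    exact hx
  have h2 : ∀ᶠ x : ℝ in atTop, 2 ≤ Real.log x := Real.tendsto_log_atTop.eventually_ge_atTop _
  filter_upwards [h1, h2, eventually_ge_atTop 3] with M hM1 hM2 hM3
  refine ⟨hM3, ?_⟩
  have hL : 0 < Real.log M := by linarith
  have hs : 0 < Real.sqrt M := Real.sqrt_pos.2 (by linarith)
  have hs1 : 1 ≤ Real.sqrt M := by
    rw [Real.one_le_sqrt]
    linarith
  have hss : Real.sqrt M * Real.sqrt M = M := Real.mul_self_sqrt (by linarith)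
  rw [Real.rpow_natCast, ← Real.sqrt_eq_rpow] at hM1
  have h3 : 1 + 2 * Real.sqrt M * Real.log M ≤ 3 * Real.sqrt M * Real.log M := by nlinarith
  have h4 : (1 + 2 * Real.sqrt M * Real.log M) * (Real.log M) ^ A ≤ M / 2 := by
    calc _ ≤ 3 * Real.sqrt M * Real.log M * (Real.log M) ^ A :=
          mul_le_mul_of_nonneg_right h3 (by positivity)
      _ = 3 * Real.sqrt M * (Real.log M) ^ (A + 1) := by
          rw [pow_succ]
          ring
      _ ≤ 3 * Real.sqrt M * (1 / 6 * Real.sqrt M) := mul_le_mul_of_nonneg_left hM1 (by positivity)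
      _ = (Real.sqrt M * Real.sqrt M) / 2 := by ring
      _ = M / 2 := by rw [hss]
  rw [le_div_iff₀ (by positivity), add_mul]
  have h5 : M / (Real.log M) ^ (A + 1) * (Real.log M) ^ A ≤ M / 2 := by
    rw [pow_succ]
    have : M / ((Real.log M) ^ A * Real.log M) * (Real.log M) ^ A = M / Real.log M := by
      field_simp
    rw [this]
    apply div_le_div_of_nonneg_left (by linarith) (by norm_num) hM2
  linarith

theorem p_pwp : S_pwp := by
  intro hPW A B κ hκ
  obtain ⟨C0, hC0⟩ := hPW (A + 1) B κ hκ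
  refine ⟨C0, ?_⟩
  filter_upwards [hC0, pwp_ev A] with M hM1 hM2
  obtain ⟨hM3, hM4⟩ := hM2
  intro r χ hr hrB hχ τ hτ hτ' M1 M2 hM2M
  have hT := hM1 r χ hr hrB hχ τ hτ hτ' M1
  have hLM : 0 < Real.log M := Real.log_pos (by linarith)
  have hT0 : 0 ≤ M / (Real.log M) ^ (A + 1) := by positivity
  rcases Nat.eq_zero_or_pos M2 with h0 | hpos
  · rw [h0, Finset.Ioc_eq_empty (by omega)]
    simp only [Finset.filter_empty, Finset.sum_empty, norm_zero]
    positivity
  set c : ℕ → ℂ := fun n => (vonMangoldt n : ℂ) * χ (n : ZMod r) * pz (-τ) n with hc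
  have hA := pwp_abel pwp_w c M1 _ hT0 pwp_anti pwp_w0 pwp_w1 M2 (fun m hm =>
    hT m (le_trans (by exact_mod_cast hm) hM2M))
  have hsplit : ∑ n ∈ (Ioc M1 M2).filter Nat.Prime, χ (n : ZMod r) * pz (-τ) n =
      ∑ n ∈ Ioc M1 M2, (pwp_w n : ℂ) * c n +
      ∑ n ∈ Ioc M1 M2, ((pwp_i n - pwp_w n * vonMangoldt n : ℝ) : ℂ) *
        (χ (n : ZMod r) * pz (-τ) n) := by
    rw [Finset.sum_filter, ← Finset.sum_add_distrib]
    apply Finset.sum_congr rfl
    intro n _
    rw [hc]
    unfold pwp_i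
    split_ifs with h
    · push_cast
      ring
    · push_cast
      ring
  have hE : ‖∑ n ∈ Ioc M1 M2, ((pwp_i n - pwp_w n * vonMangoldt n : ℝ) : ℂ) *
        (χ (n : ZMod r) * pz (-τ) n)‖ ≤ 1 + 2 * Real.sqrt M * Real.log M := by
    calc _ ≤ ∑ n ∈ Ioc M1 M2, ‖((pwp_i n - pwp_w n * vonMangoldt n : ℝ) : ℂ) *
          (χ (n : ZMod r) * pz (-τ) n)‖ := norm_sum_le _ _
      _ ≤ ∑ n ∈ Ioc M1 M2, ((if n = 2 then 1 else 0) + (vonMangoldt n - thP n)) := by
          apply Finset.sum_le_sum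
          intro n _
          rw [norm_mul, norm_mul, pwp_norm, mul_one, Complex.norm_real, Real.norm_eq_abs]
          calc |pwp_i n - pwp_w n * vonMangoldt n| * ‖χ (n : ZMod r)‖
              ≤ |pwp_i n - pwp_w n * vonMangoldt n| * 1 :=
                mul_le_mul_of_nonneg_left (DirichletCharacter.norm_le_one χ _) (abs_nonneg _)
            _ ≤ _ := by
                rw [mul_one]
                exact pwp_diff n
      _ ≤ ∑ n ∈ Ioc 0 M2, ((if n = 2 then 1 else 0) + (vonMangoldt n - thP n)) := by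
          apply Finset.sum_le_sum_of_subset_of_nonneg
          · intro n hn
            rw [Finset.mem_Ioc] at hn ⊢
            omega
          · intro n _ _
            exact pwp_nonneg n
      _ ≤ 1 + 2 * Real.sqrt M2 * Real.log M2 := pwp_err M2 hpos
      _ ≤ 1 + 2 * Real.sqrt M * Real.log M := by
          have h1 : Real.sqrt M2 ≤ Real.sqrt M := Real.sqrt_le_sqrt hM2M
          have h2 : Real.log M2 ≤ Real.log M :=
            Real.log_le_log (by exact_mod_cast hpos) hM2M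
          have h3 : 0 ≤ Real.log M2 := Real.log_natCast_nonneg M2
          have h4 : Real.sqrt M2 * Real.log M2 ≤ Real.sqrt M * Real.log M :=
            mul_le_mul h1 h2 h3 (Real.sqrt_nonneg _)
          nlinarith
  rw [hsplit]
  exact (norm_add_le _ _).trans ((add_le_add hA hE).trans hM4)

end Pool.Agent.CH.D
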