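import Pool.Agent.Lib.MP_d610d0_nt.CH.D.Stm

set_option autoImplicit false

/-!
Piece red.
-/

namespace Pool.Agent.CH.D

open Finset Filter
open ArithmeticFunction (vonMangoldt)
open Pool.Agent.MP89da58 (tri primChars)
open Pool.Agent.BVall (boxL)
open Pool.Agent.CH.V (pz ex)
open Pool.Agent.CH.P (R_PW R_PNT)

private lemma red_mem {R : ℕ} {p : Σ q, DirichletCharacter ℂ q} :
    p ∈ primChars R ↔ (2 ≤ p.1 ∧ p.1 ≤ R) ∧ p.2.IsPrimitive := by
  classical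
  rw [primChars, mem_sigma, mem_filter, mem_Icc]
  simp only [mem_univ, true_and]

private lemma red_step {R R' : ℕ} (h : R ≤ R') (g : (Σ q, DirichletCharacter ℂ q) → ℂ) :
    ∑ p ∈ primChars R', g p - ∑ p ∈ primChars R, g p =
      ∑ p ∈ primChars R', (if R < p.1 then g p else 0) := by
  classical
  have h1 : primChars R = (primChars R').filter (fun p => ¬ R < p.1) := by
    ext p
    rw [mem_filter, red_mem, red_mem]
    constructor
    · rintro ⟨⟨h2, h3⟩, h4⟩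
      exact ⟨⟨⟨h2, h3.trans h⟩, h4⟩, by omega⟩
    · rintro ⟨⟨⟨h2, _⟩, h4⟩, h5⟩
      exact ⟨⟨h2, by omega⟩, h4⟩
  rw [h1, sum_filter, ← sum_sub_distrib]
  apply sum_congr rfl
  intro p _
  by_cases hp : R < p.1
  · simp [hp]
  · simp [hp]

private lemma red_cs {ι : Type} (s : Finset ι) (x : ι → ℂ) :
    ‖∑ i ∈ s, x i‖ ^ 2 ≤ s.card * ∑ i ∈ s, ‖x i‖ ^ 2 := by
  calc ‖∑ i ∈ s, x i‖ ^ 2 ≤ (∑ i ∈ s, ‖x i‖) ^ 2 :=
        pow_le_pow_left₀ (norm_nonneg _) (norm_sum_le _ _) 2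
    _ ≤ _ := sq_sum_le_card_mul_sum_sq

/-- the core estimate -/
private lemma red_core (T : Finset ℕ) (S : ℕ → (Σ q, DirichletCharacter ℂ q) → ℂ)
    (C : (Σ q, DirichletCharacter ℂ q) → ℂ) (K X1 X2 : ℝ) (R : ℕ → ℕ) (I : ℕ)
    (hK : 0 < K) (hX1 : 0 ≤ X1) (hX2 : 0 ≤ X2)
    (hRm : ∀ i, R i ≤ R (i + 1)) (hR2 : ∀ i, R (i + 1) ≤ 2 * R i)
    (hC : ∀ p : (Σ q, DirichletCharacter ℂ q), 1 ≤ p.1 → ‖C p‖ ≤ K / p.1)
    (hS : ∀ p ∈ primChars (R 0), ∑ j ∈ T, ‖S j p‖ ^ 2 ≤ X1)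
    (hL : ∀ i < I, ∀ th : (Σ q, DirichletCharacter ℂ q) → ℂ, (∀ p, ‖th p‖ ≤ 1) →
      ∑ j ∈ T, ‖∑ p ∈ primChars (R (i + 1)), th p * S j p‖ ^ 2 ≤ (R (i + 1) : ℝ) ^ 2 * X2) :
    ∑ j ∈ T, ‖∑ p ∈ primChars (R I), C p * S j p‖ ^ 2 ≤
      2 * ((R 0 : ℝ) ^ 4 * K ^ 2 * X1) + 8 * (I : ℝ) ^ 2 * K ^ 2 * X2 := by
  classical
  obtain ⟨D, hD⟩ : ∃ D : ℕ → ℕ → ℂ, D = fun R j => ∑ p ∈ primChars R, C p * S j p := ⟨_, rfl⟩
  have hD' : ∀ R j, D R j = ∑ p ∈ primChars R, C p * S j p := fun R j => by rw [hD]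
  -- small
  have hsmall : ∑ j ∈ T, ‖D (R 0) j‖ ^ 2 ≤ (R 0 : ℝ) ^ 4 * K ^ 2 * X1 := by
    have hcard : ((primChars (R 0)).card : ℝ) ≤ (R 0 : ℝ) ^ 2 := by
      exact_mod_cast Pool.Agent.MP89da58.card_primChars (R 0)
    have hcK : ∀ p ∈ primChars (R 0), ‖C p‖ ^ 2 ≤ K ^ 2 := by
      intro p hp
      have h2 : 2 ≤ p.1 := (red_mem.1 hp).1.1
      have h3 : (1 : ℝ) ≤ (p.1 : ℝ) := by exact_mod_cast (by omega : 1 ≤ p.1)
      exact pow_le_pow_left₀ (norm_nonneg _)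
        ((hC p (by omega)).trans (div_le_self hK.le h3)) 2
    calc ∑ j ∈ T, ‖D (R 0) j‖ ^ 2
        ≤ ∑ j ∈ T, ((primChars (R 0)).card : ℝ) * ∑ p ∈ primChars (R 0), ‖C p * S j p‖ ^ 2 := by
          apply sum_le_sum
          intro j _
          rw [hD']
          exact red_cs _ _
      _ = ((primChars (R 0)).card : ℝ) *
            ∑ p ∈ primChars (R 0), ‖C p‖ ^ 2 * ∑ j ∈ T, ‖S j p‖ ^ 2 := by
          rw [← mul_sum, sum_comm]
          congr 1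
          apply sum_congr rfl
          intro p _
          rw [mul_sum]
          apply sum_congr rfl
          intro j _
          rw [norm_mul, mul_pow]
      _ ≤ ((primChars (R 0)).card : ℝ) * ∑ p ∈ primChars (R 0), K ^ 2 * X1 := by
          apply mul_le_mul_of_nonneg_left _ (Nat.cast_nonneg _)
          apply sum_le_sum
          intro p hp
          exact mul_le_mul (hcK p hp) (hS p hp) (sum_nonneg (fun j _ => by positivity))
            (by positivity)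
      _ = ((primChars (R 0)).card : ℝ) ^ 2 * (K ^ 2 * X1) := by
          rw [sum_const, nsmul_eq_mul]; ring
      _ ≤ ((R 0 : ℝ) ^ 2) ^ 2 * (K ^ 2 * X1) := by
          apply mul_le_mul_of_nonneg_right _ (by positivity)
          exact pow_le_pow_left₀ (Nat.cast_nonneg _) hcard 2
      _ = (R 0 : ℝ) ^ 4 * K ^ 2 * X1 := by ring
  -- one block
  have hblk : ∀ i < I, ∑ j ∈ T, ‖D (R (i + 1)) j - D (R i) j‖ ^ 2 ≤ 4 * K ^ 2 * X2 := by
    intro i hi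
    rcases Nat.eq_zero_or_pos (R (i + 1)) with hR0 | hR0
    · have h3 : R i = 0 := by have := hRm i; omega
      have h4 : ∑ j ∈ T, ‖D (R (i + 1)) j - D (R i) j‖ ^ 2 = 0 := by
        rw [h3, hR0]; simp
      rw [h4]
      positivity
    · have hR0' : (0 : ℝ) < (R (i + 1) : ℝ) := by exact_mod_cast hR0
      obtain ⟨u, hu⟩ : ∃ u : ℝ, u = (R (i + 1) : ℝ) / (2 * K) := ⟨_, rfl⟩
      have hu0 : 0 < u := by rw [hu]; positivity
      have hth := hL i hi (fun p => if R i < p.1 then C p * (u : ℂ) else 0) (by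
        intro p
        by_cases hp : R i < p.1
        · simp only [hp, if_true]
          have hp1 : (0 : ℝ) < (p.1 : ℝ) := by exact_mod_cast (by omega : 0 < p.1)
          have hp2 : (R (i + 1) : ℝ) ≤ 2 * (p.1 : ℝ) := by
            have h5 := hR2 i
            exact_mod_cast (by omega : R (i + 1) ≤ 2 * p.1)
          rw [norm_mul, Complex.norm_real, Real.norm_of_nonneg hu0.le]
          calc ‖C p‖ * u ≤ K / p.1 * u := mul_le_mul_of_nonneg_right (hC p (by omega)) hu0.le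
            _ = (R (i + 1) : ℝ) / (2 * p.1) := by rw [hu]; field_simp
            _ ≤ 1 := by rw [div_le_one (by positivity)]; exact hp2
        · simp [hp])
      have hEq : ∀ j, D (R (i + 1)) j - D (R i) j =
          ((u⁻¹ : ℝ) : ℂ) * ∑ p ∈ primChars (R (i + 1)),
            (if R i < p.1 then C p * (u : ℂ) else 0) * S j p := by
        intro j
        rw [hD', hD', red_step (hRm i), mul_sum]
        apply sum_congr rfl
        intro p _
        by_cases hp : R i < p.1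
        · simp only [hp, if_true]
          have hu1 : (u : ℂ) ≠ 0 := by exact_mod_cast hu0.ne'
          push_cast
          field_simp
        · simp [hp]
      calc ∑ j ∈ T, ‖D (R (i + 1)) j - D (R i) j‖ ^ 2
          = ∑ j ∈ T, (u⁻¹) ^ 2 * ‖∑ p ∈ primChars (R (i + 1)),
              (if R i < p.1 then C p * (u : ℂ) else 0) * S j p‖ ^ 2 := by
            apply sum_congr rfl
            intro j _
            rw [hEq, norm_mul, Complex.norm_real, Real.norm_of_nonneg (by positivity), mul_pow]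
        _ = (u⁻¹) ^ 2 * ∑ j ∈ T, ‖∑ p ∈ primChars (R (i + 1)),
              (if R i < p.1 then C p * (u : ℂ) else 0) * S j p‖ ^ 2 := by rw [mul_sum]
        _ ≤ (u⁻¹) ^ 2 * ((R (i + 1) : ℝ) ^ 2 * X2) :=
            mul_le_mul_of_nonneg_left hth (by positivity)
        _ = 4 * K ^ 2 * X2 := by rw [hu]; field_simp; ring
  -- all blocks
  have hblks : ∑ j ∈ T, ‖∑ i ∈ range I, (D (R (i + 1)) j - D (R i) j)‖ ^ 2 ≤
      4 * (I : ℝ) ^ 2 * K ^ 2 * X2 := by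
    calc ∑ j ∈ T, ‖∑ i ∈ range I, (D (R (i + 1)) j - D (R i) j)‖ ^ 2
        ≤ ∑ j ∈ T, ((range I).card : ℝ) * ∑ i ∈ range I, ‖D (R (i + 1)) j - D (R i) j‖ ^ 2 :=
          sum_le_sum (fun j _ => red_cs _ _)
      _ = (I : ℝ) * ∑ i ∈ range I, ∑ j ∈ T, ‖D (R (i + 1)) j - D (R i) j‖ ^ 2 := by
          rw [← mul_sum, sum_comm, card_range]
      _ ≤ (I : ℝ) * ∑ i ∈ range I, 4 * K ^ 2 * X2 := by
          apply mul_le_mul_of_nonneg_left _ (Nat.cast_nonneg _)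
          exact sum_le_sum (fun i hi => hblk i (mem_range.1 hi))
      _ = 4 * (I : ℝ) ^ 2 * K ^ 2 * X2 := by
          rw [sum_const, card_range, nsmul_eq_mul]; ring
  have htel : ∀ j, D (R I) j = D (R 0) j + ∑ i ∈ range I, (D (R (i + 1)) j - D (R i) j) := by
    intro j
    rw [sum_range_sub (fun i => D (R i) j)]
    ring
  calc ∑ j ∈ T, ‖∑ p ∈ primChars (R I), C p * S j p‖ ^ 2
      = ∑ j ∈ T, ‖D (R 0) j + ∑ i ∈ range I, (D (R (i + 1)) j - D (R i) j)‖ ^ 2 := by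
        apply sum_congr rfl
        intro j _
        rw [← htel, hD']
    _ ≤ ∑ j ∈ T, (2 * ‖D (R 0) j‖ ^ 2 +
          2 * ‖∑ i ∈ range I, (D (R (i + 1)) j - D (R i) j)‖ ^ 2) := by
        apply sum_le_sum
        intro j _
        have h1 := norm_add_le (D (R 0) j) (∑ i ∈ range I, (D (R (i + 1)) j - D (R i) j))
        have h2 := pow_le_pow_left₀ (norm_nonneg _) h1 2
        nlinarith [sq_nonneg (‖D (R 0) j‖ - ‖∑ i ∈ range I, (D (R (i + 1)) j - D (R i) j)‖)]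
    _ = 2 * ∑ j ∈ T, ‖D (R 0) j‖ ^ 2 +
          2 * ∑ j ∈ T, ‖∑ i ∈ range I, (D (R (i + 1)) j - D (R i) j)‖ ^ 2 := by
        rw [sum_add_distrib, mul_sum, mul_sum]
    _ ≤ _ := by linarith

/-- the elementary estimate -/
private lemma red_num (A B : ℕ) (L K r I Z : ℝ) (hL : 10 ≤ L) (hZ : 0 ≤ Z) (hK0 : 0 ≤ K)
    (hK : K ≤ 800 * L ^ 3) (hr0 : 0 ≤ r) (hr : r ≤ 2 * L ^ B) (hI0 : 0 ≤ I) (hI : I ≤ 3 * L) :
    2 * (r ^ 4 * K ^ 2 * (Z / L ^ (A + 4 * B + 30))) + 8 * I ^ 2 * K ^ 2 * (Z / L ^ (A + 20)) ≤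
      Z / L ^ A := by
  have hL0 : 0 < L := by linarith
  have h1 : r ^ 4 ≤ 16 * L ^ (4 * B) := by
    calc r ^ 4 ≤ (2 * L ^ B) ^ 4 := pow_le_pow_left₀ hr0 hr 4
      _ = 16 * L ^ (4 * B) := by rw [mul_pow, ← pow_mul, mul_comm B 4]; norm_num
  have h2 : K ^ 2 ≤ 640000 * L ^ 6 := by
    calc K ^ 2 ≤ (800 * L ^ 3) ^ 2 := pow_le_pow_left₀ hK0 hK 2
      _ = 640000 * L ^ 6 := by ring
  have h3 : I ^ 2 ≤ 9 * L ^ 2 := by
    calc I ^ 2 ≤ (3 * L) ^ 2 := pow_le_pow_left₀ hI0 hI 2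
      _ = 9 * L ^ 2 := by ring
  have h4 : (10 : ℝ) ^ 12 ≤ L ^ 12 := pow_le_pow_left₀ (by norm_num) hL 12
  have h5 : (10 : ℝ) ^ 24 ≤ L ^ 24 := pow_le_pow_left₀ (by norm_num) hL 24
  have e1 : 2 * (r ^ 4 * K ^ 2 * (Z / L ^ (A + 4 * B + 30))) ≤
      2 * (16 * L ^ (4 * B) * (640000 * L ^ 6) * (Z / L ^ (A + 4 * B + 30))) := by
    gcongr
  have e2 : 8 * I ^ 2 * K ^ 2 * (Z / L ^ (A + 20)) ≤
      8 * (9 * L ^ 2) * (640000 * L ^ 6) * (Z / L ^ (A + 20)) := by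
    gcongr
  have e3 : 2 * (16 * L ^ (4 * B) * (640000 * L ^ 6) * (Z / L ^ (A + 4 * B + 30))) =
      20480000 / L ^ 24 * (Z / L ^ A) := by
    have : L ^ (A + 4 * B + 30) = L ^ A * L ^ (4 * B) * L ^ 6 * L ^ 24 := by
      rw [← pow_add, ← pow_add, ← pow_add]
    rw [this]
    field_simp
    ring
  have e4 : 8 * (9 * L ^ 2) * (640000 * L ^ 6) * (Z / L ^ (A + 20)) =
      46080000 / L ^ 12 * (Z / L ^ A) := by
    have : L ^ (A + 20) = L ^ A * L ^ 2 * L ^ 6 * L ^ 12 := by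
      rw [← pow_add, ← pow_add, ← pow_add]
    rw [this]
    field_simp
    ring
  have e5 : 20480000 / L ^ 24 ≤ 1 / 2 := by
    rw [div_le_iff₀ (by positivity)]
    nlinarith only [h5]
  have e6 : 46080000 / L ^ 12 ≤ 1 / 2 := by
    rw [div_le_iff₀ (by positivity)]
    nlinarith only [h4]
  have hZA : 0 ≤ Z / L ^ A := by positivity
  have e7 := mul_le_mul_of_nonneg_right e5 hZA
  have e8 := mul_le_mul_of_nonneg_right e6 hZA
  linarith

/-- the characters -/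
private lemma red_C (hcfs : R_cfs) {z Q : ℝ} {c : ℕ → ℝ} {J : ℕ} (hW : Wt z Q c) (hJ : 2 ≤ J)
    (a : ℤ) (p : Σ q, DirichletCharacter ℂ q) :
    (1 ≤ p.1 → ‖p.2⁻¹ (a : ZMod p.1) *
      ((∑ q ∈ (Icc 1 J).filter (fun q => p.1 ∣ q), c q / Nat.totient q : ℝ) : ℂ)‖
        ≤ 100 * (Real.log J + 1) ^ 3 / p.1) ∧
    (Q < p.1 → 1 ≤ p.1 → p.2⁻¹ (a : ZMod p.1) *
      ((∑ q ∈ (Icc 1 J).filter (fun q => p.1 ∣ q), c q / Nat.totient q : ℝ) : ℂ) = 0) := by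
  constructor
  · intro hp
    rw [norm_mul, Complex.norm_real, Real.norm_eq_abs]
    have h1 := (hcfs z Q c J p.1 hW hJ hp).1
    have h2 : ‖p.2⁻¹ (a : ZMod p.1)‖ ≤ 1 := DirichletCharacter.norm_le_one _ _
    calc ‖p.2⁻¹ (a : ZMod p.1)‖ *
          |∑ q ∈ (Icc 1 J).filter (fun q => p.1 ∣ q), c q / Nat.totient q|
        ≤ 1 * (100 * (Real.log J + 1) ^ 3 / p.1) :=
          mul_le_mul h2 h1 (abs_nonneg _) zero_le_one
      _ = _ := one_mul _
  · intro hQ hp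
    rw [(hcfs z Q c J p.1 hW hJ hp).2 hQ, Complex.ofReal_zero, mul_zero]

/-- coprimality -/
private lemma red_cop {z Q : ℝ} {c : ℕ → ℝ} (hW : Wt z Q c) {a : ℤ} (ha : a = 2 ∨ a = -2)
    {q : ℕ} (hq : c q ≠ 0) : IsCoprime a (q : ℤ) ∧ ∀ n, Rough z n → n.Coprime q := by
  constructor
  · obtain ⟨k, hk⟩ := hW.odd q hq
    rw [hk]
    rcases ha with rfl | rfl
    · exact ⟨-(k : ℤ), 1, by push_cast; ring⟩
    · exact ⟨(k : ℤ), 1, by push_cast; ring⟩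
  · intro n hn
    by_contra hc
    obtain ⟨p, hp, hpn, hpq⟩ := Nat.Prime.not_coprime_iff_dvd.1 hc
    exact absurd (hW.small q hq p hp hpq) (not_lt.2 (hn p hp hpn))

theorem p_red : S_red := by
  classical
  intro hgrp hcfs F hLC hSC hrough a ha A
  obtain ⟨B, hB⟩ := hLC (A + 20)
  have hS1 := hSC (A + 4 * B + 30) (B + 1)
  have hlog : Tendsto (fun J : ℕ => Real.log (J : ℝ)) atTop atTop :=
    Real.tendsto_log_atTop.comp tendsto_natCast_atTop_atTop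
  have hY : ∀ᶠ J : ℕ in atTop, (Real.log J) ^ B + 1 ≤ (J : ℝ) ^ (999 / 1000 : ℝ) := by
    have h1 : Tendsto (fun x : ℝ => x ^ (999 / 1000 : ℝ)) atTop atTop :=
      tendsto_rpow_atTop (by norm_num)
    have h2 : ∀ᶠ x : ℝ in atTop, Real.log x ^ (B : ℝ) ≤ 1 / 2 * x ^ (999 / 1000 : ℝ) := by
      have h3 := (isLittleO_log_rpow_rpow_atTop (B : ℝ)
        (by norm_num : (0 : ℝ) < 999 / 1000)).bound (by norm_num : (0 : ℝ) < 1 / 2)
      filter_upwards [h3, eventually_ge_atTop 1] with x hx hx1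
      have h4 : 0 ≤ Real.log x ^ (B : ℝ) := Real.rpow_nonneg (Real.log_nonneg hx1) _
      have h5 : 0 ≤ x ^ (999 / 1000 : ℝ) := Real.rpow_nonneg (by linarith) _
      rwa [Real.norm_of_nonneg h4, Real.norm_of_nonneg h5] at hx
    have h6 : ∀ᶠ x : ℝ in atTop, Real.log x ^ B + 1 ≤ x ^ (999 / 1000 : ℝ) := by
      filter_upwards [h2, h1.eventually_ge_atTop 2] with x hx hx2
      rw [Real.rpow_natCast] at hx
      linarith
    exact tendsto_natCast_atTop_atTop.eventually h6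
  filter_upwards [hB, hS1, hrough, hY, hlog.eventually_ge_atTop 10, eventually_ge_atTop 2]
    with J hBJ hSJ hrJ hYJ hL hJ2 c hW
  obtain ⟨L, hLdef⟩ : ∃ L : ℝ, L = Real.log J := ⟨_, rfl⟩
  obtain ⟨Y, hYdef⟩ : ∃ Y : ℝ, Y = (J : ℝ) ^ (999 / 1000 : ℝ) := ⟨_, rfl⟩
  rw [← hLdef, ← hYdef] at hBJ hYJ
  rw [← hLdef] at hSJ hL ⊢
  rw [← hYdef] at hW
  have hJ0 : (0 : ℝ) < (J : ℝ) := by exact_mod_cast (by omega : 0 < J)
  have hJ1 : (1 : ℝ) ≤ (J : ℝ) := by exact_mod_cast (by omega : 1 ≤ J)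
  have hY0 : 0 ≤ Y := by rw [hYdef]; positivity
  have hYJle : Y ≤ J := by
    rw [hYdef]
    calc (J : ℝ) ^ (999 / 1000 : ℝ) ≤ (J : ℝ) ^ (1 : ℝ) :=
          Real.rpow_le_rpow_of_exponent_le hJ1 (by norm_num)
      _ = J := Real.rpow_one _
  obtain ⟨Y0, hY0def⟩ : ∃ Y0 : ℕ, Y0 = ⌊Y⌋₊ := ⟨_, rfl⟩
  have hY0le : (Y0 : ℝ) ≤ Y := by rw [hY0def]; exact Nat.floor_le hY0
  have hY0lt : Y < Y0 + 1 := by rw [hY0def]; exact Nat.lt_floor_add_one Y
  have hY0J : Y0 ≤ J := by exact_mod_cast hY0le.trans hYJle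
  obtain ⟨R0, hR0def⟩ : ∃ R0 : ℕ, R0 = ⌈L ^ B⌉₊ := ⟨_, rfl⟩
  have hLB1 : 1 ≤ L ^ B := one_le_pow₀ (by linarith)
  have hR0ge : L ^ B ≤ R0 := by rw [hR0def]; exact Nat.le_ceil _
  have hR0lt : (R0 : ℝ) < L ^ B + 1 := by rw [hR0def]; exact Nat.ceil_lt_add_one (by positivity)
  have hR0pos : 0 < R0 := by
    have : (0 : ℝ) < R0 := by linarith
    exact_mod_cast this
  have hY0B : L ^ B ≤ Y0 := by linarith
  obtain ⟨R, hRdef⟩ : ∃ R : ℕ → ℕ, R = fun i => min (2 ^ i * R0) Y0 := ⟨_, rfl⟩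
  have hR : ∀ i, R i = min (2 ^ i * R0) Y0 := fun i => by rw [hRdef]
  obtain ⟨I, hIdef⟩ : ∃ I : ℕ, I = ⌈2 * L⌉₊ := ⟨_, rfl⟩
  have hIle : (I : ℝ) ≤ 3 * L := by
    have : (I : ℝ) < 2 * L + 1 := by rw [hIdef]; exact Nat.ceil_lt_add_one (by linarith)
    linarith
  have hRI : R I = Y0 := by
    rw [hR]
    apply min_eq_right
    have h1 : 2 * L ≤ I := by rw [hIdef]; exact Nat.le_ceil _
    have h2 : (J : ℝ) ≤ 2 ^ I := by
      have h3 : Real.log J ≤ Real.log (2 ^ I) := by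
        rw [Real.log_pow, ← hLdef]
        have h4 : (0.5 : ℝ) < Real.log 2 := by linarith [Real.log_two_gt_d9]
        nlinarith
      exact (Real.log_le_log_iff hJ0 (by positivity)).1 h3
    have h5 : J ≤ 2 ^ I := by exact_mod_cast h2
    calc Y0 ≤ J := hY0J
      _ ≤ 2 ^ I := h5
      _ = 2 ^ I * 1 := (mul_one _).symm
      _ ≤ 2 ^ I * R0 := Nat.mul_le_mul_left _ hR0pos
  have hRB : ∀ i, L ^ B ≤ (R i : ℝ) := by
    intro i
    rw [hR]
    push_cast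
    apply le_min
    · calc L ^ B ≤ R0 := hR0ge
        _ = 1 * (R0 : ℝ) := (one_mul _).symm
        _ ≤ 2 ^ i * (R0 : ℝ) := mul_le_mul_of_nonneg_right (one_le_pow₀ (by norm_num))
            (Nat.cast_nonneg _)
    · exact hY0B
  have hRY : ∀ i, (R i : ℝ) ≤ Y := by
    intro i
    refine le_trans ?_ hY0le
    rw [hR]
    exact_mod_cast min_le_right _ _
  have hR0' : (R 0 : ℝ) ≤ 2 * L ^ B := by
    have h1 : (R 0 : ℝ) ≤ R0 := by
      rw [hR, pow_zero, one_mul]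
      exact_mod_cast min_le_left _ _
    linarith
  obtain ⟨K, hKdef⟩ : ∃ K : ℝ, K = 100 * (L + 1) ^ 3 := ⟨_, rfl⟩
  have hK0 : 0 < K := by rw [hKdef]; positivity
  have hK8 : K ≤ 800 * L ^ 3 := by
    rw [hKdef]
    have : (L + 1) ^ 3 ≤ (2 * L) ^ 3 := pow_le_pow_left₀ (by linarith) (by linarith) 3
    calc 100 * (L + 1) ^ 3 ≤ 100 * (2 * L) ^ 3 := by linarith
      _ = 800 * L ^ 3 := by ring
  obtain ⟨C, hCdef⟩ : ∃ C : (Σ q, DirichletCharacter ℂ q) → ℂ, C = fun p =>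
      p.2⁻¹ (a : ZMod p.1) *
      ((∑ q ∈ (Icc 1 J).filter (fun q => p.1 ∣ q), c q / Nat.totient q : ℝ) : ℂ) := ⟨_, rfl⟩
  have hCv : ∀ p, C p = p.2⁻¹ (a : ZMod p.1) *
      ((∑ q ∈ (Icc 1 J).filter (fun q => p.1 ∣ q), c q / Nat.totient q : ℝ) : ℂ) := fun p => by
    rw [hCdef]
  have hC : ∀ p : (Σ q, DirichletCharacter ℂ q), 1 ≤ p.1 → ‖C p‖ ≤ K / p.1 := by
    intro p hp
    rw [hCv, hKdef, hLdef]
    exact (red_C hcfs hW hJ2 a p).1 hp
  have hC0 : ∀ p : (Σ q, DirichletCharacter ℂ q), Y0 < p.1 → C p = 0 := by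
    intro p hp
    rw [hCv]
    refine (red_C hcfs hW hJ2 a p).2 ?_ (by omega)
    have : ((Y0 : ℝ) + 1) ≤ p.1 := by exact_mod_cast hp
    linarith
  have hcore := red_core (Ioc J (2 * J)) (fun j p => Sf (F J) J j p.2) C K
    ((J : ℝ) ^ 5 / L ^ (A + 4 * B + 30)) ((J : ℝ) ^ 5 / L ^ (A + 20)) R I hK0 (by positivity)
    (by positivity)
    (by
      intro i
      rw [hR, hR]
      apply min_le_min _ le_rfl
      exact Nat.mul_le_mul_right _ (Nat.pow_le_pow_right (by norm_num) (Nat.le_succ i)))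
    (by
      intro i
      rw [hR, hR]
      have : 2 ^ (i + 1) * R0 = 2 * (2 ^ i * R0) := by ring
      rw [this]
      omega)
    hC
    (by
      intro p hp
      obtain ⟨⟨h1, h2⟩, h3⟩ := red_mem.1 hp
      refine hSJ p.1 p.2 h1 ?_ h3
      have h4 : (p.1 : ℝ) ≤ R 0 := by exact_mod_cast h2
      have h5 : L ^ (B + 1) = L * L ^ B := by ring
      have h6 : 2 * L ^ B ≤ L * L ^ B :=
        mul_le_mul_of_nonneg_right (by linarith) (by positivity)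
      linarith)
    (by
      intro i _ th hth
      have h1 := hBJ (R (i + 1)) (hRB _) (hRY _) th hth
      rw [mul_div_assoc] at h1
      exact h1)
  have hnum := red_num A B L K (R 0 : ℝ) (I : ℝ) ((J : ℝ) ^ 5) hL (by positivity) hK0.le hK8
    (Nat.cast_nonneg _) hR0' (Nat.cast_nonneg _) hIle
  refine le_trans (le_of_eq ?_) (hcore.trans hnum)
  apply sum_congr rfl
  intro j hj
  have hcop : ∀ q ∈ Icc 1 J, c q ≠ 0 → IsCoprime a (q : ℤ) ∧
      ∀ n, 1 ≤ n → F J n ≠ 0 → wJ J j n ≠ 0 → n.Coprime q := by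
    intro q _ hq
    obtain ⟨h1, h2⟩ := red_cop hW ha hq
    exact ⟨h1, fun n hn hFn hwn => h2 n (hrJ j hj n hn hFn hwn)⟩
  have h1 := hgrp J j J (F J) c a hcop
  have h2 : (∑ q ∈ Icc 1 J, c q * EE J (F J) a j q) ^ 2 =
      ‖((∑ q ∈ Icc 1 J, c q * EE J (F J) a j q : ℝ) : ℂ)‖ ^ 2 := by
    rw [Complex.norm_real, Real.norm_eq_abs, sq_abs]
  rw [h2, h1, hRI]
  congr 2
  have h3 := red_step hY0J (fun p => C p * Sf (F J) J j p.2)
  have h4 : ∑ p ∈ primChars J, (if Y0 < p.1 then C p * Sf (F J) J j p.2 else 0) = 0 := by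
    apply sum_eq_zero
    intro p _
    by_cases hp : Y0 < p.1
    · simp [hp, hC0 p hp]
    · simp [hp]
  rw [h4, sub_eq_zero] at h3
  rw [← h3]
  apply sum_congr rfl
  intro p _
  rw [hCv]

end Pool.Agent.CH.D
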