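import Pool.Agent.Lib.MP_d610d0_nt.CH.D.Stm

set_option autoImplicit false

/-!
Piece sml.
-/

namespace Pool.Agent.CH.D

open Finset Filter
open ArithmeticFunction (vonMangoldt)
open Pool.Agent.MP89da58 (tri primChars)
open Pool.Agent.BVall (boxL)
open Pool.Agent.CH.V (pz ex)
open Pool.Agent.CH.P (R_PW R_PNT)

private theorem sml_log_pow (K : ℕ) :
    ∀ᶠ J : ℕ in atTop, 8748 * Real.log (J : ℝ) ^ K ≤ (J : ℝ) := by
  have h := (Real.isLittleO_pow_log_id_atTop (n := K)).bound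
    (show (0 : ℝ) < 1 / 8748 by norm_num)
  have h2 := tendsto_natCast_atTop_atTop (R := ℝ) |>.eventually h
  filter_upwards [h2, eventually_ge_atTop 1] with J hJ hJ1
  have hJ0 : (1 : ℝ) ≤ J := by exact_mod_cast hJ1
  have hl : 0 ≤ Real.log (J : ℝ) := Real.log_nonneg hJ0
  simp only [id, Real.norm_eq_abs] at hJ
  rw [abs_of_nonneg (pow_nonneg hl K), abs_of_nonneg (by linarith : (0 : ℝ) ≤ J)] at hJ
  linarith

theorem p_sml : S_sml := by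
  intro hms A
  have hlog : ∀ᶠ J : ℕ in atTop, (10206 : ℝ) ≤ Real.log (J : ℝ) :=
    (Real.tendsto_log_atTop.comp (tendsto_natCast_atTop_atTop (R := ℝ))).eventually_ge_atTop 10206
  filter_upwards [hlog, sml_log_pow (18 + A), eventually_ge_atTop 2] with J hL hP hJ2
  intro M N a b hJN hMN ha hb hdp
  have hJ0 : (0 : ℝ) < J := by
    have : 0 < J := by omega
    exact_mod_cast this
  have hM0 : (0 : ℝ) ≤ M := Nat.cast_nonneg M
  have hN0 : (0 : ℝ) ≤ N := Nat.cast_nonneg N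
  have hJN' : (J : ℝ) ≤ 4 * N := by exact_mod_cast hJN
  have hMN' : (M : ℝ) * N ≤ 27 * (J : ℝ) ^ 3 := by exact_mod_cast hMN
  have hS0 : 0 ≤ (M : ℝ) / Real.log (J : ℝ) ^ (A + 4) := by
    have : 0 < Real.log (J : ℝ) := by linarith
    positivity
  have h := hms J (2 * M) (2 * N) a b _ hJ2 hS0 hdp
  refine h.trans ?_
  generalize Real.log (J : ℝ) = L at *
  have hL0 : 0 < L := by linarith
  have hL1 : 1 ≤ L := by linarith
  have hb0 : 0 ≤ ∑ n ∈ Icc 1 (2 * N), ‖b n‖ ^ 2 := by positivity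
  have ha0 : 0 ≤ ∑ m ∈ Icc 1 (2 * M), ‖a m‖ := by positivity
  have hb1 : 0 ≤ ∑ n ∈ Icc 1 (2 * N), ‖b n‖ := by positivity
  have hMN2 : ((M : ℝ) * N) ^ 2 ≤ 729 * (J : ℝ) ^ 6 := by
    have : ((M : ℝ) * N) ^ 2 ≤ (27 * (J : ℝ) ^ 3) ^ 2 :=
      pow_le_pow_left₀ (by positivity) hMN' 2
    calc ((M : ℝ) * N) ^ 2 ≤ (27 * (J : ℝ) ^ 3) ^ 2 := this
      _ = 729 * (J : ℝ) ^ 6 := by ring
  -- first term
  have h1 : ((M : ℝ) / L ^ (A + 4)) ^ 2 * (1 + 3 * ((2 * N : ℕ) : ℝ) / (2 * J)) *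
      ∑ n ∈ Icc 1 (2 * N), ‖b n‖ ^ 2 ≤ (J : ℝ) ^ 5 / L ^ A / 2 := by
    have e1 : 1 + 3 * ((2 * N : ℕ) : ℝ) / (2 * J) ≤ 7 * N / J := by
      rw [show 1 + 3 * ((2 * N : ℕ) : ℝ) / (2 * J) = (J + 3 * N) / J by
        push_cast
        field_simp]
      exact div_le_div_of_nonneg_right (by linarith) hJ0.le
    have e2 : (10206 : ℝ) ≤ L ^ (A + 2) := by
      calc (10206 : ℝ) ≤ L := hL
        _ = L ^ 1 := (pow_one L).symm
        _ ≤ L ^ (A + 2) := pow_le_pow_right₀ hL1 (by omega)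
    calc ((M : ℝ) / L ^ (A + 4)) ^ 2 * (1 + 3 * ((2 * N : ℕ) : ℝ) / (2 * J)) *
          ∑ n ∈ Icc 1 (2 * N), ‖b n‖ ^ 2
        ≤ ((M : ℝ) / L ^ (A + 4)) ^ 2 * (7 * N / J) * (N * L ^ 6) := by
          apply mul_le_mul _ hb hb0 (by positivity)
          exact mul_le_mul_of_nonneg_left e1 (by positivity)
      _ = ((M : ℝ) * N) ^ 2 * (7 / (J * (L ^ (A + 2) * L ^ A))) := by
          rw [div_pow]
          have e3 : (L ^ (A + 4)) ^ 2 = L ^ (A + 2) * L ^ A * L ^ 6 := by ring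
          rw [e3]
          field_simp
      _ ≤ (729 * (J : ℝ) ^ 6) * (7 / (J * (L ^ (A + 2) * L ^ A))) :=
          mul_le_mul_of_nonneg_right hMN2 (by positivity)
      _ = 10206 * ((J : ℝ) ^ 5 / L ^ A / 2) / L ^ (A + 2) := by
          field_simp
          ring
      _ ≤ L ^ (A + 2) * ((J : ℝ) ^ 5 / L ^ A / 2) / L ^ (A + 2) := by
          apply div_le_div_of_nonneg_right _ (by positivity)
          exact mul_le_mul_of_nonneg_right e2 (by positivity)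
      _ = (J : ℝ) ^ 5 / L ^ A / 2 := by
          field_simp
  -- second term
  have hbs : (∑ n ∈ Icc 1 (2 * N), ‖b n‖) ^ 2 ≤ 2 * (N : ℝ) ^ 2 * L ^ 6 := by
    have hc := sq_sum_le_card_mul_sum_sq (s := Icc 1 (2 * N)) (f := fun n => ‖b n‖)
    rw [Nat.card_Icc, Nat.add_sub_cancel] at hc
    push_cast at hc
    calc (∑ n ∈ Icc 1 (2 * N), ‖b n‖) ^ 2 ≤ 2 * N * ∑ n ∈ Icc 1 (2 * N), ‖b n‖ ^ 2 := hc
      _ ≤ 2 * N * (N * L ^ 6) := mul_le_mul_of_nonneg_left hb (by positivity)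
      _ = 2 * (N : ℝ) ^ 2 * L ^ 6 := by ring
  have h2 : 3 / (J : ℝ) ^ 2 * ((∑ m ∈ Icc 1 (2 * M), ‖a m‖) * ∑ n ∈ Icc 1 (2 * N), ‖b n‖) ^ 2
      ≤ (J : ℝ) ^ 5 / L ^ A / 2 := by
    have e1 : ((∑ m ∈ Icc 1 (2 * M), ‖a m‖) * ∑ n ∈ Icc 1 (2 * N), ‖b n‖) ^ 2
        ≤ 1458 * (J : ℝ) ^ 6 * L ^ 18 := by
      rw [mul_pow]
      calc (∑ m ∈ Icc 1 (2 * M), ‖a m‖) ^ 2 * (∑ n ∈ Icc 1 (2 * N), ‖b n‖) ^ 2
          ≤ (M * L ^ 6) ^ 2 * (2 * (N : ℝ) ^ 2 * L ^ 6) :=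
            mul_le_mul (pow_le_pow_left₀ ha0 ha 2) hbs (by positivity) (by positivity)
        _ = ((M : ℝ) * N) ^ 2 * (2 * L ^ 18) := by ring
        _ ≤ (729 * (J : ℝ) ^ 6) * (2 * L ^ 18) :=
            mul_le_mul_of_nonneg_right hMN2 (by positivity)
        _ = 1458 * (J : ℝ) ^ 6 * L ^ 18 := by ring
    calc 3 / (J : ℝ) ^ 2 * ((∑ m ∈ Icc 1 (2 * M), ‖a m‖) * ∑ n ∈ Icc 1 (2 * N), ‖b n‖) ^ 2
        ≤ 3 / (J : ℝ) ^ 2 * (1458 * (J : ℝ) ^ 6 * L ^ 18) :=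
          mul_le_mul_of_nonneg_left e1 (by positivity)
      _ = (8748 * L ^ (18 + A)) * ((J : ℝ) ^ 4 / L ^ A / 2) := by
          rw [pow_add]
          field_simp
          ring
      _ ≤ J * ((J : ℝ) ^ 4 / L ^ A / 2) := mul_le_mul_of_nonneg_right hP (by positivity)
      _ = (J : ℝ) ^ 5 / L ^ A / 2 := by ring
  calc _ ≤ (J : ℝ) ^ 5 / L ^ A / 2 + (J : ℝ) ^ 5 / L ^ A / 2 := add_le_add h1 h2
    _ = (J : ℝ) ^ 5 / L ^ A := by ring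

end Pool.Agent.CH.D
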