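import Pool.Agent.Lib.MP_d610d0_nt.CH.D.Stm

set_option autoImplicit false

/-!
Piece tO.
-/

namespace Pool.Agent.CH.D

open Finset Filter
open ArithmeticFunction (vonMangoldt)
open Pool.Agent.MP89da58 (tri primChars)
open Pool.Agent.BVall (boxL)
open Pool.Agent.CH.V (pz ex)
open Pool.Agent.CH.P (R_PW R_PNT)

private theorem tO_expb {μ : ℝ} (hμ : 10 ≤ μ) : 1 - 1 / μ ≤ Real.exp (-(1 / μ)) ∧
    Real.exp (1 / μ) ≤ 1 + 1 / μ + (1 / μ) ^ 2 ∧ 0 < 1 / μ ∧ 1 / μ ≤ 1 / 10 := by
  have h0 : 0 < μ := by linarith only [hμ]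
  have h1 : 0 < 1 / μ := by positivity
  have h2 : 1 / μ ≤ 1 / 10 := one_div_le_one_div_of_le (by norm_num) hμ
  refine ⟨?_, ?_, h1, h2⟩
  · have := Real.add_one_le_exp (-(1 / μ))
    linarith only [this]
  · have h3 := Real.abs_exp_sub_one_sub_id_le (x := 1 / μ)
      (by rw [abs_of_pos h1]; linarith only [h2])
    have h4 := le_abs_self (Real.exp (1 / μ) - 1 - 1 / μ)
    linarith only [h3, h4]

private theorem tO_riem (Ψ : ℝ → ℝ) (K : ℝ) (hK : 0 ≤ K) (hc : Continuous Ψ)
    (hΨ : ∀ u v, |Ψ u - Ψ v| ≤ K * |u - v|) (h0 : ∀ v, 1 ≤ |v| → Ψ v = 0) (μ y : ℝ) (N : ℕ)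
    (hμ : 10 ≤ μ) (hy : 5 ≤ y) (hμy : μ ≤ 2 * y) (hN : y * Real.exp (1 / μ) ≤ N) :
    |∑ n ∈ Icc 1 N, Ψ (μ * Real.log (n / y)) -
      y / μ * ∫ v in (-1 : ℝ)..1, Ψ v * Real.exp (v / μ)| ≤ 10 * K := by
  obtain ⟨e1, e2, e3, e4⟩ := tO_expb hμ
  have hμ0 : 0 < μ := by linarith only [hμ]
  have hy0 : 0 < y := by linarith only [hy]
  set F : ℝ → ℝ := fun t => Ψ (μ * Real.log (t / y)) with hF
  set a : ℝ := y * Real.exp (-(1 / μ)) with ha
  set b : ℝ := y * Real.exp (1 / μ) with hb
  have ha0 : 0.9 * y ≤ a := by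
    rw [ha]
    have : (0.9 : ℝ) ≤ Real.exp (-(1 / μ)) := by linarith only [e1, e4]
    nlinarith only [this, hy0]
  have hb0 : y ≤ b := by
    rw [hb]
    have : 1 ≤ Real.exp (1 / μ) := Real.one_le_exp e3.le
    nlinarith only [this, hy0]
  have ha1 : 1 ≤ a := by linarith only [ha0, hy]
  have hapos : 0 < a := by linarith only [ha1]
  have hab : a ≤ b := by
    rw [ha, hb]
    apply mul_le_mul_of_nonneg_left _ hy0.le
    apply Real.exp_le_exp.2
    linarith only [e3]
  have hba : μ * (b - a) ≤ 2.1 * y := by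
    have h1 : b - a ≤ y * (1 + 1 / μ + (1 / μ) ^ 2) - y * (1 - 1 / μ) := by
      rw [ha, hb]
      have h2 := mul_le_mul_of_nonneg_left e2 hy0.le
      have h3 := mul_le_mul_of_nonneg_left e1 hy0.le
      linarith only [h2, h3]
    have h2 : y * (1 + 1 / μ + (1 / μ) ^ 2) - y * (1 - 1 / μ) = y / μ * (2 + 1 / μ) := by
      field_simp
      ring
    rw [h2] at h1
    have h3 : y / μ * (2 + 1 / μ) ≤ y / μ * 2.1 :=
      mul_le_mul_of_nonneg_left (by linarith only [e4]) (by positivity)
    calc μ * (b - a) ≤ μ * (y / μ * 2.1) := mul_le_mul_of_nonneg_left (h1.trans h3) hμ0.le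
      _ = 2.1 * y := by field_simp
  have hFa : ∀ t, 0 < t → t ≤ a → F t = 0 := by
    intro t ht hta
    apply h0
    have h1 : Real.log (t / y) ≤ -(1 / μ) := by
      rw [Real.log_le_iff_le_exp (by positivity), div_le_iff₀ hy0, mul_comm]
      exact hta
    have h2 : μ * Real.log (t / y) ≤ -1 := by
      calc μ * Real.log (t / y) ≤ μ * -(1 / μ) := mul_le_mul_of_nonneg_left h1 hμ0.le
        _ = -1 := by field_simp
    rw [abs_of_nonpos (by linarith only [h2])]
    linarith only [h2]
  have hFb : ∀ t, b ≤ t → F t = 0 := by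
    intro t htb
    apply h0
    have ht0 : 0 < t := by linarith only [htb, hb0, hy0]
    have h1 : 1 / μ ≤ Real.log (t / y) := by
      rw [Real.le_log_iff_exp_le (by positivity), le_div_iff₀ hy0, mul_comm]
      exact htb
    have h2 : 1 ≤ μ * Real.log (t / y) := by
      calc (1 : ℝ) = μ * (1 / μ) := by field_simp
        _ ≤ μ * Real.log (t / y) := mul_le_mul_of_nonneg_left h1 hμ0.le
    exact h2.trans (le_abs_self _)
  have hFc : ContinuousOn F (Set.Ioi 0) := by
    apply hc.comp_continuousOn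
    apply ContinuousOn.mul continuousOn_const
    apply ContinuousOn.log
    · exact continuousOn_id.div_const y
    · intro t ht
      have ht' : 0 < t := ht
      show t / y ≠ 0
      positivity
  have hFi : ∀ s t : ℝ, 0 < s → 0 < t → IntervalIntegrable F MeasureTheory.volume s t := by
    intro s t hs ht
    apply ContinuousOn.intervalIntegrable
    apply hFc.mono
    intro x hx
    rw [Set.mem_uIcc] at hx
    show 0 < x
    rcases hx with h | h
    · exact lt_of_lt_of_le hs h.1
    · exact lt_of_lt_of_le ht h.1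
  have hN0 : (0 : ℝ) < N := by linarith only [hN, hb0, hy0]
  have hN1 : 1 ≤ N := by exact_mod_cast hN0
  -- change of variables
  have s1 : y / μ * ∫ v in (-1 : ℝ)..1, Ψ v * Real.exp (v / μ) = ∫ t in a..b, F t := by
    have h1 := intervalIntegral.integral_comp_mul_deriv' (a := -1) (b := 1)
      (f := fun v => y * Real.exp (v / μ)) (f' := fun v => y * (Real.exp (v / μ) * (1 / μ)))
      (g := F)
      (by
        intro x _
        have := ((hasDerivAt_id x).div_const μ).exp.const_mul y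
        simpa using this)
      (by fun_prop)
      (by
        apply hFc.mono
        rintro _ ⟨x, _, rfl⟩
        show 0 < y * Real.exp (x / μ)
        positivity)
    have h2 : (∫ x in (-1 : ℝ)..1, (F ∘ fun v => y * Real.exp (v / μ)) x *
        (y * (Real.exp (x / μ) * (1 / μ)))) =
        ∫ x in (-1 : ℝ)..1, y / μ * (Ψ x * Real.exp (x / μ)) := by
      apply intervalIntegral.integral_congr
      intro x _
      simp only [Function.comp_apply, hF]
      rw [mul_div_assoc, mul_div_left_comm, div_self hy0.ne', mul_one, Real.log_exp,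
        mul_div_cancel₀ x hμ0.ne']
      ring
    rw [h2, intervalIntegral.integral_const_mul] at h1
    rw [h1]
    congr 1
    · rw [ha]
      congr 2
      ring
  have s2 : ∫ t in (1 : ℝ)..N, F t = ∫ t in a..b, F t := by
    have h1 : ∫ t in (1 : ℝ)..a, F t = 0 := by
      rw [intervalIntegral.integral_congr (g := fun _ => (0 : ℝ))]
      · simp
      · intro t ht
        rw [Set.uIcc_of_le ha1] at ht
        exact hFa t (by linarith only [ht.1]) ht.2
    have h2 : ∫ t in b..N, F t = 0 := by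
      rw [intervalIntegral.integral_congr (g := fun _ => (0 : ℝ))]
      · simp
      · intro t ht
        rw [Set.uIcc_of_le hN] at ht
        exact hFb t ht.1
    have h3 := intervalIntegral.integral_add_adjacent_intervals (hFi 1 a one_pos hapos)
      (hFi a b hapos (by linarith only [hb0, hy0]))
    have h4 := intervalIntegral.integral_add_adjacent_intervals
      (hFi 1 b one_pos (by linarith only [hb0, hy0]))
      (hFi b N (by linarith only [hb0, hy0]) hN0)
    rw [← h4, ← h3, h1, h2]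
    ring
  have s3 : ∑ k ∈ Ico 1 N, ∫ t in (k : ℝ)..((k + 1 : ℕ) : ℝ), F t = ∫ t in (1 : ℝ)..N, F t := by
    have h1 := intervalIntegral.sum_integral_adjacent_intervals_Ico (f := F)
      (μ := MeasureTheory.volume) (a := fun k : ℕ => (k : ℝ)) hN1 (by
        intro k hk
        have hk1 : 1 ≤ k := hk.1
        apply hFi
        · exact_mod_cast hk1
        · push_cast
          positivity)
    rw [h1]
    norm_num
  have s4 : ∑ n ∈ Icc 1 N, Ψ (μ * Real.log (n / y)) = ∑ k ∈ Ico 1 N, F ((k + 1 : ℕ) : ℝ) := by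
    have h1 : Icc 1 N = Ico 1 (N + 1) := by
      ext x
      simp only [mem_Icc, mem_Ico]
      omega
    rw [h1, sum_eq_sum_Ico_succ_bot (by omega)]
    have h2 : Ψ (μ * Real.log (((1 : ℕ) : ℝ) / y)) = 0 := by
      have := hFa 1 one_pos ha1
      rw [Nat.cast_one]
      exact this
    rw [h2, zero_add, ← sum_Ico_add']
  set la : ℝ := Real.log (a - 1) with hla
  set lb : ℝ := Real.log (b + 1) with hlb
  set H : ℕ → ℝ := fun n => min (max (Real.log n) la) lb with hH
  have ham : 0.7 * y ≤ a - 1 := by linarith only [ha0, hy]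
  have ham0 : 0 < a - 1 := by linarith only [ham, hy0]
  have hlab : la ≤ lb := Real.log_le_log ham0 (by linarith only [hab])
  have hHmono : ∀ k : ℕ, 1 ≤ k → H k ≤ H (k + 1) := by
    intro k hk
    apply min_le_min_right
    apply max_le_max_right
    apply Real.log_le_log (by exact_mod_cast hk)
    push_cast
    linarith only []
  have s5 : ∀ k ∈ Ico 1 N, |F ((k + 1 : ℕ) : ℝ) - ∫ t in (k : ℝ)..((k + 1 : ℕ) : ℝ), F t| ≤
      K * μ * (H (k + 1) - H k) := by
    intro k hk
    rw [mem_Ico] at hk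
    have hk0 : (0 : ℝ) < k := by exact_mod_cast hk.1
    have h1 : F ((k + 1 : ℕ) : ℝ) - ∫ t in (k : ℝ)..((k + 1 : ℕ) : ℝ), F t =
        ∫ t in (k : ℝ)..((k + 1 : ℕ) : ℝ), (F ((k + 1 : ℕ) : ℝ) - F t) := by
      rw [intervalIntegral.integral_sub (by simp) (hFi _ _ hk0 (by positivity)),
        intervalIntegral.integral_const]
      push_cast
      rw [add_sub_cancel_left, one_smul]
    rw [h1]
    have h2 := intervalIntegral.norm_integral_le_of_norm_le_const (a := (k : ℝ))
      (b := ((k + 1 : ℕ) : ℝ)) (C := K * μ * (H (k + 1) - H k))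
      (f := fun t => F ((k + 1 : ℕ) : ℝ) - F t) (by
        intro t ht
        rw [Set.uIoc_of_le (by push_cast; linarith only [])] at ht
        have ht0 : 0 < t := lt_of_le_of_lt hk0.le ht.1
        have hHk := hHmono k hk.1
        have hC0 : 0 ≤ K * μ * (H (k + 1) - H k) :=
          mul_nonneg (mul_nonneg hK hμ0.le) (by linarith only [hHk])
        rw [Real.norm_eq_abs]
        by_cases hA : ((k + 1 : ℕ) : ℝ) ≤ a
        · rw [hFa _ (by positivity) hA, hFa t ht0 (ht.2.trans hA), sub_zero, abs_zero]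
          exact hC0
        by_cases hB : b ≤ k
        · rw [hFb _ (by push_cast; linarith only [hB]), hFb t (hB.trans ht.1.le), sub_zero,
            abs_zero]
          exact hC0
        rw [not_le] at hA hB
        push_cast at hA
        have h3 : H k = Real.log k := by
          simp only [hH]
          rw [max_eq_left, min_eq_left]
          · exact Real.log_le_log hk0 (by linarith only [hB])
          · exact Real.log_le_log ham0 (by linarith only [hA])
        have h4 : H (k + 1) = Real.log ((k + 1 : ℕ) : ℝ) := by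
          simp only [hH]
          rw [max_eq_left, min_eq_left]
          · exact Real.log_le_log (by positivity) (by push_cast; linarith only [hB])
          · exact Real.log_le_log ham0 (by push_cast; linarith only [hA])
        rw [h3, h4]
        refine (hΨ _ _).trans ?_
        rw [← mul_sub, abs_mul, abs_of_pos hμ0, ← mul_assoc]
        apply mul_le_mul_of_nonneg_left _ (mul_nonneg hK hμ0.le)
        rw [Real.log_div (by positivity) hy0.ne', Real.log_div ht0.ne' hy0.ne']
        have h5 : Real.log t ≤ Real.log ((k + 1 : ℕ) : ℝ) := Real.log_le_log ht0 ht.2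
        have h6 : Real.log k ≤ Real.log t := Real.log_le_log hk0 ht.1.le
        rw [abs_of_nonneg (by linarith only [h5])]
        linarith only [h5, h6])
    rw [Real.norm_eq_abs] at h2
    refine h2.trans (le_of_eq ?_)
    push_cast
    rw [add_sub_cancel_left, abs_one, mul_one]
  have s6 : ∑ k ∈ Ico 1 N, K * μ * (H (k + 1) - H k) ≤ K * μ * (lb - la) := by
    rw [← mul_sum]
    apply mul_le_mul_of_nonneg_left _ (mul_nonneg hK hμ0.le)
    have h1 : ∑ k ∈ Ico 1 N, (H (k + 1) - H k) = H N - H 1 := by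
      rw [sum_Ico_eq_sum_range]
      have h2 := sum_range_sub (fun i => H (1 + i)) (N - 1)
      simp only [add_zero] at h2
      rw [show 1 + (N - 1) = N by omega] at h2
      rw [← h2]
      rfl
    rw [h1]
    have h3 : H N ≤ lb := min_le_right _ _
    have h4 : la ≤ H 1 := le_min (le_max_right _ _) hlab
    linarith only [h3, h4]
  have s7 : μ * (lb - la) ≤ 10 := by
    have h1 : lb - la = Real.log ((b + 1) / (a - 1)) := by
      rw [Real.log_div (by linarith only [hb0, hy0]) ham0.ne']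
    have h2 : Real.log ((b + 1) / (a - 1)) ≤ (b + 1) / (a - 1) - 1 :=
      Real.log_le_sub_one_of_pos (div_pos (by linarith only [hb0, hy0]) ham0)
    have h3 : (b + 1) / (a - 1) - 1 = (b - a + 2) / (a - 1) := by
      rw [div_sub_one ham0.ne']
      congr 1
      ring
    rw [h1]
    calc μ * Real.log ((b + 1) / (a - 1)) ≤ μ * ((b - a + 2) / (a - 1)) :=
          mul_le_mul_of_nonneg_left (h2.trans h3.le) hμ0.le
      _ = (μ * (b - a) + 2 * μ) / (a - 1) := by ring
      _ ≤ 10 := by
          rw [div_le_iff₀ ham0]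
          linarith only [hba, hμy, ham, hy0]
  rw [s4, s1, ← s2, ← s3, ← sum_sub_distrib]
  calc |∑ k ∈ Ico 1 N, (F ((k + 1 : ℕ) : ℝ) - ∫ t in (k : ℝ)..((k + 1 : ℕ) : ℝ), F t)|
      ≤ ∑ k ∈ Ico 1 N, |F ((k + 1 : ℕ) : ℝ) - ∫ t in (k : ℝ)..((k + 1 : ℕ) : ℝ), F t| :=
        abs_sum_le_sum_abs _ _
    _ ≤ ∑ k ∈ Ico 1 N, K * μ * (H (k + 1) - H k) := sum_le_sum s5
    _ ≤ K * μ * (lb - la) := s6
    _ = K * (μ * (lb - la)) := by ring
    _ ≤ K * 10 := mul_le_mul_of_nonneg_left s7 hK
    _ = 10 * K := by ring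

private theorem tO_tri_cont : Continuous tri := by
  unfold tri
  fun_prop

private theorem tO_tri_lip (u v : ℝ) : |tri u - tri v| ≤ |u - v| := by
  unfold tri
  have h1 := abs_max_sub_max_le_abs (1 - |u|) (1 - |v|) 0
  rw [max_comm 0, max_comm 0]
  refine h1.trans ?_
  rw [show 1 - |u| - (1 - |v|) = |v| - |u| by ring]
  rw [abs_sub_comm u v]
  exact abs_abs_sub_abs_le_abs_sub v u

private theorem tO_tri_zero {v : ℝ} (hv : 1 ≤ |v|) : tri v = 0 := by
  unfold tri
  exact max_eq_left (by linarith only [hv])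

private theorem tO_tri_01 (v : ℝ) : 0 ≤ tri v ∧ tri v ≤ 1 := by
  unfold tri
  exact ⟨le_max_left _ _, max_le zero_le_one (by linarith only [abs_nonneg v])⟩

private theorem tO_tri_neg (v : ℝ) : tri (-v) = tri v := by
  unfold tri
  rw [abs_neg]

private theorem tO_psi_lip (u v : ℝ) : |u * tri u - v * tri v| ≤ 2 * |u - v| := by
  have key : ∀ u v : ℝ, |v| ≤ 1 → |u * tri u - v * tri v| ≤ 2 * |u - v| := by
    intro u v hv
    have h1 : u * tri u - v * tri v = (u - v) * tri u + v * (tri u - tri v) := by ring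
    rw [h1]
    refine (abs_add_le _ _).trans ?_
    rw [abs_mul, abs_mul, abs_of_nonneg (tO_tri_01 u).1]
    have h2 : |u - v| * tri u ≤ |u - v| * 1 :=
      mul_le_mul_of_nonneg_left (tO_tri_01 u).2 (abs_nonneg _)
    have h3 : |v| * |tri u - tri v| ≤ 1 * |u - v| :=
      mul_le_mul hv (tO_tri_lip u v) (abs_nonneg _) zero_le_one
    linarith only [h2, h3]
  by_cases hv : |v| ≤ 1
  · exact key u v hv
  by_cases hu : |u| ≤ 1
  · rw [abs_sub_comm, abs_sub_comm u v]
    exact key v u hu
  · rw [tO_tri_zero (not_le.1 hu).le, tO_tri_zero (not_le.1 hv).le, mul_zero, mul_zero, sub_zero,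
      abs_zero]
    positivity

private theorem tO_odd : ∫ v in (-1 : ℝ)..1, v * tri v = 0 := by
  have h1 := intervalIntegral.integral_comp_neg (a := -1) (b := 1) (fun v : ℝ => v * tri v)
  simp only [tO_tri_neg, neg_mul, neg_neg, intervalIntegral.integral_neg] at h1
  linarith only [h1]

private theorem tO_int {μ : ℝ} (hμ : 10 ≤ μ) :
    |(∫ v in (-1 : ℝ)..1, tri v * Real.exp (v / μ)) - ∫ v in (-1 : ℝ)..1, tri v| ≤ 2 / μ ^ 2 ∧
    |∫ v in (-1 : ℝ)..1, (v * tri v) * Real.exp (v / μ)| ≤ 4 / μ := by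
  have hμ0 : 0 < μ := by linarith only [hμ]
  have hsm : ∀ v : ℝ, v ∈ Set.uIoc (-1 : ℝ) 1 → |v| ≤ 1 ∧ |v / μ| ≤ 1 := by
    intro v hv
    rw [Set.uIoc_of_le (by norm_num)] at hv
    have h1 : |v| ≤ 1 := abs_le.2 ⟨hv.1.le, hv.2⟩
    refine ⟨h1, ?_⟩
    rw [abs_div, abs_of_pos hμ0, div_le_one hμ0]
    linarith only [h1, hμ]
  have hct := tO_tri_cont
  constructor
  · have h1 : (∫ v in (-1 : ℝ)..1, tri v * Real.exp (v / μ)) - ∫ v in (-1 : ℝ)..1, tri v =
        ∫ v in (-1 : ℝ)..1, tri v * (Real.exp (v / μ) - 1 - v / μ) := by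
      have h2 : ∫ v in (-1 : ℝ)..1, (1 / μ) * (v * tri v) = 0 := by
        rw [intervalIntegral.integral_const_mul, tO_odd, mul_zero]
      have h3 : ∫ v in (-1 : ℝ)..1, tri v * (Real.exp (v / μ) - 1 - v / μ) =
          ∫ v in (-1 : ℝ)..1, (tri v * Real.exp (v / μ) - tri v - (1 / μ) * (v * tri v)) := by
        apply intervalIntegral.integral_congr
        intro v _
        simp only
        ring
      rw [h3, intervalIntegral.integral_sub, intervalIntegral.integral_sub, h2, sub_zero]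
      · exact (by fun_prop : Continuous fun v => tri v * Real.exp (v / μ)).intervalIntegrable _ _
      · exact hct.intervalIntegrable _ _
      · exact (by fun_prop :
          Continuous fun v => tri v * Real.exp (v / μ) - tri v).intervalIntegrable _ _
      · exact (by fun_prop : Continuous fun v => (1 / μ) * (v * tri v)).intervalIntegrable _ _
    rw [h1]
    have h4 := intervalIntegral.norm_integral_le_of_norm_le_const (a := (-1 : ℝ)) (b := 1)
      (C := 1 / μ ^ 2) (f := fun v => tri v * (Real.exp (v / μ) - 1 - v / μ)) (by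
        intro v hv
        obtain ⟨hv1, hv2⟩ := hsm v hv
        rw [Real.norm_eq_abs, abs_mul, abs_of_nonneg (tO_tri_01 v).1]
        have h5 := Real.abs_exp_sub_one_sub_id_le hv2
        have h6 : (v / μ) ^ 2 ≤ 1 / μ ^ 2 := by
          rw [div_pow]
          apply div_le_div_of_nonneg_right _ (by positivity)
          rw [← sq_abs]
          nlinarith only [hv1, abs_nonneg v]
        calc tri v * |Real.exp (v / μ) - 1 - v / μ| ≤ 1 * (v / μ) ^ 2 :=
              mul_le_mul (tO_tri_01 v).2 h5 (abs_nonneg _) zero_le_one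
          _ ≤ 1 / μ ^ 2 := by rw [one_mul]; exact h6)
    rw [Real.norm_eq_abs] at h4
    refine h4.trans (le_of_eq ?_)
    norm_num
    ring
  · have h1 : (∫ v in (-1 : ℝ)..1, (v * tri v) * Real.exp (v / μ)) =
        ∫ v in (-1 : ℝ)..1, (v * tri v) * (Real.exp (v / μ) - 1) := by
      have h3 : ∫ v in (-1 : ℝ)..1, (v * tri v) * (Real.exp (v / μ) - 1) =
          ∫ v in (-1 : ℝ)..1, ((v * tri v) * Real.exp (v / μ) - v * tri v) := by
        apply intervalIntegral.integral_congr
        intro v _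
        simp only
        ring
      rw [h3, intervalIntegral.integral_sub, tO_odd, sub_zero]
      · exact (by fun_prop :
          Continuous fun v => (v * tri v) * Real.exp (v / μ)).intervalIntegrable _ _
      · exact (by fun_prop : Continuous fun v => v * tri v).intervalIntegrable _ _
    rw [h1]
    have h4 := intervalIntegral.norm_integral_le_of_norm_le_const (a := (-1 : ℝ)) (b := 1)
      (C := 2 / μ) (f := fun v => (v * tri v) * (Real.exp (v / μ) - 1)) (by
        intro v hv
        obtain ⟨hv1, hv2⟩ := hsm v hv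
        rw [Real.norm_eq_abs, abs_mul, abs_mul, abs_of_nonneg (tO_tri_01 v).1]
        have h5 : |Real.exp (v / μ) - 1| ≤ 2 * |v / μ| := Real.abs_exp_sub_one_le hv2
        have h6 : |v / μ| ≤ 1 / μ := by
          rw [abs_div, abs_of_pos hμ0]
          exact div_le_div_of_nonneg_right hv1 hμ0.le
        have h7 : |v| * tri v ≤ 1 * 1 :=
          mul_le_mul hv1 (tO_tri_01 v).2 (tO_tri_01 v).1 zero_le_one
        calc |v| * tri v * |Real.exp (v / μ) - 1| ≤ (1 * 1) * (2 * (1 / μ)) :=
              mul_le_mul h7 (by linarith only [h5, h6]) (abs_nonneg _) (by norm_num)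
          _ = 2 / μ := by ring)
    rw [Real.norm_eq_abs] at h4
    refine h4.trans (le_of_eq ?_)
    norm_num
    ring

private theorem tO_one {μ y : ℝ} {N : ℕ} (hμ : 10 ≤ μ) (hy : 5 ≤ y) (hμy : μ ≤ 2 * y)
    (hN : y * Real.exp (1 / μ) ≤ N) :
    |μ * ∑ n ∈ Icc 1 N, tri (μ * Real.log (n / y)) - y * ∫ v in (-1 : ℝ)..1, tri v|
      ≤ 2 * y / μ ^ 2 + 10 * μ ∧
    |∑ n ∈ Icc 1 N, (μ * Real.log (n / y)) * tri (μ * Real.log (n / y))|
      ≤ 4 * y / μ ^ 2 + 20 := by
  have hμ0 : 0 < μ := by linarith only [hμ]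
  have hy0 : 0 < y := by linarith only [hy]
  obtain ⟨h1, h2⟩ := tO_int hμ
  have h3 := tO_riem tri 1 zero_le_one tO_tri_cont (fun u v => by
    rw [one_mul]; exact tO_tri_lip u v) (fun v hv => tO_tri_zero hv) μ y N hμ hy hμy hN
  have hct := tO_tri_cont
  have h4 := tO_riem (fun v => v * tri v) 2 (by norm_num) (by fun_prop) tO_psi_lip
    (fun v hv => by rw [tO_tri_zero hv, mul_zero]) μ y N hμ hy hμy hN
  constructor
  · set A := ∑ n ∈ Icc 1 N, tri (μ * Real.log (n / y))
    set B := ∫ v in (-1 : ℝ)..1, tri v * Real.exp (v / μ)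
    set c := ∫ v in (-1 : ℝ)..1, tri v
    have h5 : μ * A - y * c = μ * (A - y / μ * B) + y * (B - c) := by
      field_simp
      ring
    rw [h5]
    refine (abs_add_le _ _).trans ?_
    rw [abs_mul, abs_mul, abs_of_pos hμ0, abs_of_pos hy0]
    have h6 := mul_le_mul_of_nonneg_left h3 hμ0.le
    have h7 := mul_le_mul_of_nonneg_left h1 hy0.le
    calc μ * |A - y / μ * B| + y * |B - c| ≤ μ * (10 * 1) + y * (2 / μ ^ 2) := add_le_add h6 h7
      _ = 2 * y / μ ^ 2 + 10 * μ := by ring
  · set A := ∑ n ∈ Icc 1 N, (μ * Real.log (n / y)) * tri (μ * Real.log (n / y))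
    set B := ∫ v in (-1 : ℝ)..1, (v * tri v) * Real.exp (v / μ)
    have h5 : A = (A - y / μ * B) + y / μ * B := by ring
    rw [h5]
    refine (abs_add_le _ _).trans ?_
    rw [abs_mul (y / μ), abs_of_pos (div_pos hy0 hμ0)]
    have h7 := mul_le_mul_of_nonneg_left h2 (div_pos hy0 hμ0).le
    calc |A - y / μ * B| + y / μ * |B| ≤ 10 * 2 + y / μ * (4 / μ) := add_le_add h4 h7
      _ = 4 * y / μ ^ 2 + 20 := by
          field_simp
          ring

theorem p_tO : S_tO := by
  refine ⟨500, ?_⟩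
  intro J j d N lam hJ hj hd hdJ hlam hlamJ hdN
  rw [mem_Ioc] at hj
  have hJ5 : (5 : ℝ) ≤ J := by linarith only [hlam, hlamJ]
  have hJ0 : (0 : ℝ) < J := by linarith only [hJ5]
  have hd0 : (0 : ℝ) < d := by exact_mod_cast hd
  have hd1 : (1 : ℝ) ≤ d := by exact_mod_cast hd
  have hdJ' : (d : ℝ) ≤ J ^ 2 := by exact_mod_cast hdJ
  have hjl : (J : ℝ) ≤ j := by exact_mod_cast hj.1.le
  have hju : (j : ℝ) ≤ 2 * J := by exact_mod_cast hj.2
  have hlam0 : 0 < lam := by linarith only [hlam]
  set X : ℝ := ((j : ℝ) + 1 / 2) ^ 3 with hX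
  have hX1 : (J : ℝ) ^ 3 ≤ X := pow_le_pow_left₀ hJ0.le (by linarith only [hjl]) 3
  have hX2 : X ≤ 16 * (J : ℝ) ^ 3 := by
    calc X ≤ (2.5 * (J : ℝ)) ^ 3 := pow_le_pow_left₀ (by positivity) (by linarith only [hju, hJ5]) 3
      _ = 15.625 * (J : ℝ) ^ 3 := by ring
      _ ≤ 16 * (J : ℝ) ^ 3 := mul_le_mul_of_nonneg_right (by norm_num) (by positivity)
  have hX0 : 0 < X := lt_of_lt_of_le (by positivity) hX1
  set y : ℝ := X / d with hy
  have hy0 : 0 < y := div_pos hX0 hd0
  have hyJ : (J : ℝ) ≤ y := by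
    rw [hy, le_div_iff₀ hd0]
    calc (J : ℝ) * d ≤ J * J ^ 2 := mul_le_mul_of_nonneg_left hdJ' hJ0.le
      _ = (J : ℝ) ^ 3 := by ring
      _ ≤ X := hX1
  have hy16 : y ≤ 16 * ((J : ℝ) ^ 3 / d) := by
    rw [hy, ← mul_div_assoc]
    exact div_le_div_of_nonneg_right hX2 hd0.le
  have hy5 : 5 ≤ y := hJ5.trans hyJ
  have hNN : ∀ μ : ℝ, 10 ≤ μ → y * Real.exp (1 / μ) ≤ N := by
    intro μ hμ
    obtain ⟨-, e2, e3, e4⟩ := tO_expb hμ
    have h1 : Real.exp (1 / μ) ≤ 1.2 := by nlinarith only [e2, e3, e4]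
    have h2 : (27 : ℝ) * J ^ 3 ≤ d * N := by exact_mod_cast hdN
    rw [hy, div_mul_eq_mul_div, div_le_iff₀ hd0]
    calc X * Real.exp (1 / μ) ≤ (16 * (J : ℝ) ^ 3) * 1.2 :=
          mul_le_mul hX2 h1 (Real.exp_pos _).le (by positivity)
      _ ≤ 27 * (J : ℝ) ^ 3 := by
          rw [show (16 * (J : ℝ) ^ 3) * 1.2 = 19.2 * (J : ℝ) ^ 3 by ring]
          exact mul_le_mul_of_nonneg_right (by norm_num) (by positivity)
      _ ≤ d * N := h2
      _ = N * d := mul_comm _ _
  have hlog : ∀ n : ℕ, Real.log (((d * n : ℕ) : ℝ) / X) = Real.log (n / y) := by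
    intro n
    congr 1
    rw [hy]
    push_cast
    field_simp
  have h2J : (10 : ℝ) ≤ 2 * J := by linarith only [hJ5]
  obtain ⟨a1, a2⟩ := tO_one h2J hy5 (by linarith only [hyJ]) (hNN _ h2J)
  obtain ⟨b1, b2⟩ := tO_one hlam hy5 (by linarith only [hyJ, hlamJ]) (hNN _ hlam)
  set WJ := ∑ n ∈ Icc 1 N, tri (2 * J * Real.log (n / y)) with hWJ
  set WL := ∑ n ∈ Icc 1 N, tri (lam * Real.log (n / y)) with hWL
  set PJ := ∑ n ∈ Icc 1 N, (2 * J * Real.log (n / y)) * tri (2 * J * Real.log (n / y)) with hPJ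
  set PL := ∑ n ∈ Icc 1 N, (lam * Real.log (n / y)) * tri (lam * Real.log (n / y)) with hPL
  set c := ∫ v in (-1 : ℝ)..1, tri v
  set Z : ℝ := (J : ℝ) ^ 3 / (d * lam ^ 2) with hZ
  have hZ0 : 0 ≤ Z := by positivity
  have hyl : y / lam ^ 2 ≤ 16 * Z := by
    rw [hZ, div_le_iff₀ (by positivity)]
    calc y ≤ 16 * ((J : ℝ) ^ 3 / d) := hy16
      _ = 16 * ((J : ℝ) ^ 3 / (d * lam ^ 2)) * lam ^ 2 := by
          field_simp
  have hyJ2 : y / (2 * J) ^ 2 ≤ y / lam ^ 2 := by
    apply div_le_div_of_nonneg_left hy0.le (by positivity)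
    exact pow_le_pow_left₀ hlam0.le hlamJ 2
  have t1 : |2 * J * WJ - lam * WL| ≤ 64 * Z + 40 * J := by
    have h1 : 2 * J * WJ - lam * WL = (2 * J * WJ - y * c) - (lam * WL - y * c) := by ring
    rw [h1]
    refine (abs_sub _ _).trans ?_
    rw [mul_div_assoc] at a1 b1
    linarith only [a1, b1, hyl, hyJ2, hlamJ]
  have e1 : ∑ n ∈ Icc 1 N, (2 * J * wJ J j (d * n) - lam * wL lam j (d * n)) =
      2 * J * WJ - lam * WL := by
    rw [sum_sub_distrib, ← mul_sum, ← mul_sum, hWJ, hWL]
    congr 1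
    · congr 1
      apply sum_congr rfl
      intro n _
      unfold wJ
      rw [hlog]
    · congr 1
      apply sum_congr rfl
      intro n _
      unfold wL
      rw [hlog]
  refine ⟨?_, ?_⟩
  · rw [e1]
    refine t1.trans ?_
    linarith only [hZ0, hJ0]
  · have e2 : ∑ n ∈ Icc 1 N, Real.log n * (2 * J * wJ J j (d * n) - lam * wL lam j (d * n)) =
        Real.log y * (2 * J * WJ - lam * WL) + PJ - PL := by
      rw [← e1, mul_sum, hPJ, hPL, ← sum_add_distrib, ← sum_sub_distrib]
      apply sum_congr rfl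
      intro n hn
      rw [mem_Icc] at hn
      have hn0 : (0 : ℝ) < n := by exact_mod_cast hn.1
      unfold wJ wL
      rw [hlog]
      have h1 : Real.log n = Real.log y + Real.log (n / y) := by
        rw [Real.log_div hn0.ne' hy0.ne']
        ring
      rw [h1]
      ring
    rw [e2]
    have hlogJ : 1 ≤ Real.log J := by
      rw [Real.le_log_iff_exp_le hJ0]
      linarith only [Real.exp_one_lt_d9, hJ5]
    have hlogy0 : 0 ≤ Real.log y := Real.log_nonneg (by linarith only [hy5])
    have hlogy : Real.log y ≤ 5 * Real.log J := by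
      have h1 : y ≤ (J : ℝ) ^ 5 := by
        calc y ≤ 16 * ((J : ℝ) ^ 3 / d) := hy16
          _ ≤ 16 * (J : ℝ) ^ 3 := by
              apply mul_le_mul_of_nonneg_left _ (by norm_num)
              exact div_le_self (by positivity) hd1
          _ ≤ (J : ℝ) ^ 2 * (J : ℝ) ^ 3 := by
              apply mul_le_mul_of_nonneg_right _ (by positivity)
              nlinarith only [hJ5]
          _ = (J : ℝ) ^ 5 := by ring
      have h2 := Real.log_le_log hy0 h1
      rw [Real.log_pow] at h2
      exact_mod_cast h2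
    have t2 : |Real.log y * (2 * J * WJ - lam * WL)| ≤ 5 * Real.log J * (64 * Z + 40 * J) := by
      rw [abs_mul, abs_of_nonneg hlogy0]
      exact mul_le_mul hlogy t1 (abs_nonneg _) (by linarith only [hlogJ])
    have t3 : |Real.log y * (2 * J * WJ - lam * WL) + PJ - PL| ≤
        |Real.log y * (2 * J * WJ - lam * WL)| + |PJ| + |PL| :=
      (abs_sub _ _).trans (add_le_add (abs_add_le _ _) le_rfl)
    refine t3.trans ?_
    rw [mul_div_assoc] at a2 b2
    have t4 : 128 * Z + 40 ≤ Real.log J * (128 * Z + 40 * J) := by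
      have h1 : 128 * Z + 40 ≤ 128 * Z + 40 * J := by linarith only [hJ5]
      have h2 : 1 * (128 * Z + 40 * J) ≤ Real.log J * (128 * Z + 40 * J) :=
        mul_le_mul_of_nonneg_right hlogJ (by positivity)
      linarith only [h1, h2]
    have t5 : 0 ≤ Real.log J * Z := mul_nonneg (by linarith only [hlogJ]) hZ0
    have t6 : 0 ≤ Real.log J * J := mul_nonneg (by linarith only [hlogJ]) hJ0.le
    linarith only [t2, t4, t5, t6, a2, b2, hyl, hyJ2]

end Pool.Agent.CH.D
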