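import Pool.Agent.Lib.MP_d610d0_nt.CH.P.Main
import Pool.Agent.Lib.MP_d610d0_nt.CH.M2.Stm
import Pool.Agent.Lib.MP_d610d0_nt.CH.D.p_gs
import Pool.Agent.Lib.MP_d610d0_nt.CH.D.p_pr
import Pool.Agent.Lib.MP_d610d0_nt.CH.D.p_ls
import Pool.Agent.Lib.MP_d610d0_nt.CH.D.p_kf
import Pool.Agent.Lib.MP_d610d0_nt.CH.D.p_kb
import Pool.Agent.Lib.MP_d610d0_nt.CH.D.p_bes
import Pool.Agent.Lib.MP_d610d0_nt.CH.D.p_spc
import Pool.Agent.Lib.MP_d610d0_nt.CH.D.p_sch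
import Pool.Agent.Lib.MP_d610d0_nt.CH.D.p_ms
import Pool.Agent.Lib.MP_d610d0_nt.CH.D.p_cm
import Pool.Agent.Lib.MP_d610d0_nt.CH.D.p_bA
import Pool.Agent.Lib.MP_d610d0_nt.CH.D.p_bB
import Pool.Agent.Lib.MP_d610d0_nt.CH.D.p_bil
import Pool.Agent.Lib.MP_d610d0_nt.CH.D.p_blk
import Pool.Agent.Lib.MP_d610d0_nt.CH.D.p_sml
import Pool.Agent.Lib.MP_d610d0_nt.CH.D.p_cpm
import Pool.Agent.Lib.MP_d610d0_nt.CH.D.p_dya
import Pool.Agent.Lib.MP_d610d0_nt.CH.D.p_vau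
import Pool.Agent.Lib.MP_d610d0_nt.CH.D.p_tI
import Pool.Agent.Lib.MP_d610d0_nt.CH.D.p_tO
import Pool.Agent.Lib.MP_d610d0_nt.CH.D.p_LL
import Pool.Agent.Lib.MP_d610d0_nt.CH.D.p_SL
import Pool.Agent.Lib.MP_d610d0_nt.CH.D.p_CL
import Pool.Agent.Lib.MP_d610d0_nt.CH.D.p_pp
import Pool.Agent.Lib.MP_d610d0_nt.CH.D.p_TT
import Pool.Agent.Lib.MP_d610d0_nt.CH.D.p_pwp
import Pool.Agent.Lib.MP_d610d0_nt.CH.D.p_dec
import Pool.Agent.Lib.MP_d610d0_nt.CH.D.p_rro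
import Pool.Agent.Lib.MP_d610d0_nt.CH.D.p_LR
import Pool.Agent.Lib.MP_d610d0_nt.CH.D.p_SR
import Pool.Agent.Lib.MP_d610d0_nt.CH.D.p_CR
import Pool.Agent.Lib.MP_d610d0_nt.CH.D.p_chr
import Pool.Agent.Lib.MP_d610d0_nt.CH.D.p_grp
import Pool.Agent.Lib.MP_d610d0_nt.CH.D.p_cfs
import Pool.Agent.Lib.MP_d610d0_nt.CH.D.p_red
import Pool.Agent.Lib.MP_d610d0_nt.CH.D.p_evc
import Pool.Agent.Lib.MP_d610d0_nt.CH.D.p_cmi
import Pool.Agent.Lib.MP_d610d0_nt.CH.D.p_m1a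
import Pool.Agent.Lib.MP_d610d0_nt.CH.D.p_m1

set_option autoImplicit false

/-!
Assembly of section D (distribution in residue classes and short windows): the interfaces `I_D1`,
`I_D2`, `I_M1` and the comparison of the windows used in section M2, without hypotheses.
-/

namespace Pool.Agent.CH.D

open Finset Filter

theorem h_ls : R_ls := p_ls (p_pr p_gs)

theorem h_bes : R_bes := p_bes p_kf p_kb

theorem h_sch : R_sch := p_sch p_kf p_kb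

theorem h_ms : R_ms := p_ms p_kf p_kb h_bes p_spc h_sch

theorem h_cm : R_cm := p_cm p_kf p_kb h_bes p_spc h_sch

theorem h_bil : R_bil := p_bil (p_bA h_ls) (p_bB h_ls p_spc)

theorem h_blk : R_blk := p_blk h_bil

theorem h_sml : R_sml := p_sml h_ms

theorem h_cpm : R_cpm := p_cpm h_cm

theorem h_LL : R_LL := p_LL h_blk p_dya p_vau p_tI p_spc

theorem h_SL : R_SL := p_SL h_sml p_dya p_vau p_tI p_spc P.h_PW

theorem h_CL : R_CL := p_CL h_cpm p_dya p_vau p_tO p_spc P.h_PW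

theorem h_pp : R_pp := p_pp p_spc

theorem h_TT : LCb FT ∧ SCb FT ∧ CMb FT := p_TT h_pp h_LL h_SL h_CL

theorem h_pwp : R_pwp := p_pwp P.h_PW

theorem h_LR : LCb FR := p_LR h_blk p_dya p_dec p_spc

theorem h_SR : SCb FR := p_SR h_sml p_dya p_dec p_spc h_pwp

theorem h_CR : CMb FR := p_CR h_cpm p_dya p_dec p_spc h_pwp

theorem h_grp : R_grp := p_grp p_chr

theorem zJ_le {J : ℕ} (hJ : 2 ≤ J) : zJ J ≤ (J : ℝ) ^ 3 := by
  have h2 : (2 : ℝ) ≤ J := by exact_mod_cast hJ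
  unfold zJ
  have h1 : (3 * (J : ℝ)) ^ (3 / 8 : ℝ) ≤ (3 * (J : ℝ)) ^ (1 : ℝ) :=
    Real.rpow_le_rpow_of_exponent_le (by linarith) (by norm_num)
  rw [Real.rpow_one] at h1
  refine h1.trans ?_
  nlinarith [mul_self_nonneg ((J : ℝ) - 2), mul_nonneg (sub_nonneg.2 h2) (sub_nonneg.2 h2)]

theorem rough_FT : ∀ᶠ J : ℕ in atTop, ∀ j ∈ Ioc J (2 * J), ∀ n, 1 ≤ n → FT J n ≠ 0 →
    wJ J j n ≠ 0 → Rough (zJ J) n := by
  filter_upwards [eventually_ge_atTop 2] with J hJ j hj n hn hF hw p hp hpn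
  have hprime : n.Prime := by
    by_contra h
    exact hF (by simp [FT, thP, h])
  have hpe : p = n := (Nat.prime_dvd_prime_iff_eq hp hprime).1 hpn
  have h1 := ((p_spc J (by omega)).2.1 j hj n hn hw).1
  have h2 : J ^ 3 ≤ n := by
    have : J ^ 3 ≤ j ^ 3 := Nat.pow_le_pow_left (mem_Ioc.1 hj).1.le 3
    omega
  rw [hpe]
  refine (zJ_le hJ).trans ?_
  exact_mod_cast h2

theorem rough_FR : ∀ᶠ J : ℕ in atTop, ∀ j ∈ Ioc J (2 * J), ∀ n, 1 ≤ n → FR J n ≠ 0 →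
    wJ J j n ≠ 0 → Rough (zJ J) n :=
  Eventually.of_forall fun J _ _ n hn hF _ => p_rro (zJ J) n hn hF

theorem h_fT : Fin2 FT (-2) :=
  p_red h_grp p_cfs FT h_TT.1 h_TT.2.1 rough_FT (-2) (Or.inr rfl)

theorem h_fR : Fin2 FR 2 :=
  p_red h_grp p_cfs FR h_LR h_SR rough_FR 2 (Or.inl rfl)

theorem h_D1 : I_D1 := fun A => p_evc FT (-2) h_fT A

theorem h_D2 : I_D2 := fun A => p_evc FR 2 h_fR A

theorem h_cmp : M2.I_cmp := p_cmi h_CR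

theorem h_M1 : I_M1 := p_m1 h_pp (p_m1a P.h_PNT) h_TT.2.2

end Pool.Agent.CH.D
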