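import Pool.Agent.Lib.MP_d610d0_nt.CH.Ifc
import Pool.Agent.Lib.MP_d610d0_nt.CH.V.Defs
import Pool.Agent.Lib.MP_89da58_nt.LargeSieve

set_option autoImplicit false

/-!
Section D (distribution in residue classes and in short windows): definitions.
-/

namespace Pool.Agent.CH.D

open Finset Filter
open Pool.Agent.MP89da58 (tri primChars)
open Pool.Agent.CH.V (pz ex)

/-- The centre `(j + 1/2)^3` of the window. -/
noncomputable def xj (j : ℕ) : ℝ := ((j : ℝ) + 1 / 2) ^ 3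

/-- Fejer's kernel, the Fourier transform of the triangle `tri (lam * u)`. -/
noncomputable def kap (lam θ : ℝ) : ℝ := (2 * Real.pi * lam)⁻¹ * (Real.sinc (θ / (2 * lam))) ^ 2

/-- `∑_{n ≤ N} a n n^(iθ)` (note `pz (-θ) n = n^(iθ)`). -/
noncomputable def dp (a : ℕ → ℂ) (N : ℕ) (θ : ℝ) : ℂ := ∑ n ∈ Icc 1 N, a n * pz (-θ) n

/-- The sum over the window `j` twisted by `χ`. -/
noncomputable def Sf (f : ℕ → ℝ) (J j : ℕ) {r : ℕ} (χ : DirichletCharacter ℂ r) : ℂ :=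
  ∑ n ∈ Icc 1 (27 * J ^ 3), (f n : ℂ) * χ (n : ZMod r) * (wJ J j n : ℂ)

/-- Large conductors are under control for the sequence `F`. -/
def LCb (F : ℕ → ℕ → ℝ) : Prop := ∀ A : ℕ, ∃ B : ℕ, ∀ᶠ J : ℕ in atTop, ∀ R : ℕ,
  (Real.log J) ^ B ≤ (R : ℝ) → (R : ℝ) ≤ (J : ℝ) ^ (999 / 1000 : ℝ) →
  ∀ th : (Σ q, DirichletCharacter ℂ q) → ℂ, (∀ p, ‖th p‖ ≤ 1) →
  ∑ j ∈ Ioc J (2 * J), ‖∑ p ∈ primChars R, th p * Sf (F J) J j p.2‖ ^ 2
    ≤ (R : ℝ) ^ 2 * (J : ℝ) ^ 5 / (Real.log J) ^ A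

/-- Small conductors are under control for the sequence `F`. -/
def SCb (F : ℕ → ℕ → ℝ) : Prop := ∀ A B : ℕ, ∀ᶠ J : ℕ in atTop, ∀ (r : ℕ)
  (χ : DirichletCharacter ℂ r), 2 ≤ r → (r : ℝ) ≤ (Real.log J) ^ B → χ.IsPrimitive →
  ∑ j ∈ Ioc J (2 * J), ‖Sf (F J) J j χ‖ ^ 2 ≤ (J : ℝ) ^ 5 / (Real.log J) ^ A

/-- The short windows can be compared with the long windows for the sequence `F`. -/
def CMb (F : ℕ → ℕ → ℝ) : Prop := ∀ A : ℕ, ∃ E0 : ℕ, ∀ E : ℕ, E0 ≤ E → ∀ᶠ J : ℕ in atTop,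
  ∑ j ∈ Ioc J (2 * J), (2 * (J : ℝ) * ∑ n ∈ Icc 1 (27 * J ^ 3), F J n * wJ J j n
    - (Real.log J) ^ E * ∑ n ∈ Icc 1 (27 * J ^ 3), F J n * wL ((Real.log J) ^ E) j n) ^ 2
    ≤ (J : ℝ) ^ 7 / (Real.log J) ^ A

/-- The von Mangoldt function. -/
noncomputable def FL : ℕ → ℕ → ℝ := fun _ n => ArithmeticFunction.vonMangoldt n

/-- `log p` on the primes. -/
noncomputable def FT : ℕ → ℕ → ℝ := fun _ n => thP n

/-- The almost primes. -/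
noncomputable def FR : ℕ → ℕ → ℝ := fun J n => RR (zJ J) n

/-- The indicator function of the primes in `[zJ J, (27 J^3)^(1/2)]`. -/
noncomputable def sA (J n : ℕ) : ℝ := open Classical in
  if n.Prime ∧ zJ J ≤ (n : ℝ) ∧ n ^ 2 ≤ 27 * J ^ 3 then 1 else 0

end Pool.Agent.CH.D
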