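import Pool.Agent.Lib.MP_d610d0_nt.CH.D.Stm

set_option autoImplicit false

/-!
Piece m1a.
-/

namespace Pool.Agent.CH.D

open Finset Filter
open ArithmeticFunction (vonMangoldt)
open Pool.Agent.MP89da58 (tri primChars)
open Pool.Agent.BVall (boxL)
open Pool.Agent.CH.V (pz ex)
open Pool.Agent.CH.P (R_PW R_PNT)

/-- the triangle as an average of indicator functions of intervals -/
private theorem m1a_tri (u : ℝ) :
    tri u = ∫ s in Set.Icc (0 : ℝ) 1, (Set.Ici |u|).indicator (fun _ => (1 : ℝ)) s := by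
  have h : Set.Icc (0 : ℝ) 1 ∩ Set.Ici |u| = Set.Icc |u| 1 := by
    ext s
    simp only [Set.mem_inter_iff, Set.mem_Icc, Set.mem_Ici]
    constructor
    · rintro ⟨⟨-, h1⟩, h2⟩
      exact ⟨h2, h1⟩
    · rintro ⟨h1, h2⟩
      exact ⟨⟨(abs_nonneg u).trans h1, h2⟩, h1⟩
  rw [MeasureTheory.setIntegral_indicator measurableSet_Ici, h, MeasureTheory.setIntegral_const,
    Real.volume_real_Icc]
  unfold tri
  rw [max_comm, smul_eq_mul, mul_one]

private theorem m1a_int (u : ℝ) : MeasureTheory.IntegrableOn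
    ((Set.Ici |u|).indicator (fun _ => (1 : ℝ))) (Set.Icc (0 : ℝ) 1) := by
  apply MeasureTheory.Integrable.indicator _ measurableSet_Ici
  exact MeasureTheory.integrableOn_const (by simp) (by simp)

/-- the hyperbolic sine -/
private theorem m1a_sinh (y : ℝ) (h0 : 0 ≤ y) (h1 : y ≤ 1) :
    |Real.exp y - Real.exp (-y) - 2 * y| ≤ y ^ 3 := by
  have h2 := Real.exp_bound (x := y) (by rw [abs_of_nonneg h0]; exact h1) (n := 3) (by norm_num)
  have h3 := Real.exp_bound (x := -y) (by rw [abs_neg, abs_of_nonneg h0]; exact h1) (n := 3)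
    (by norm_num)
  rw [abs_neg] at h3
  rw [abs_of_nonneg h0] at h2 h3
  simp only [Finset.sum_range_succ, Finset.sum_range_zero, Nat.factorial, Nat.succ_eq_add_one,
    pow_zero, pow_one, Nat.cast_one, Nat.cast_ofNat, zero_add] at h2 h3
  norm_num at h2 h3
  rw [abs_le] at h2 h3 ⊢
  have h4 : 0 ≤ y ^ 3 := by positivity
  constructor <;> linarith [h2.1, h2.2, h3.1, h3.2]

/-- for one value of `s` -/
private theorem m1a_one (x lam K s : ℝ) (N J : ℕ) (hlam : 10 ≤ lam) (hJ : 3 ≤ J)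
    (hx1 : (J : ℝ) ^ 3 ≤ x) (hx2 : x ≤ (125 / 8) * (J : ℝ) ^ 3) (hN : N = 27 * J ^ 3)
    (hK : ∀ M : ℕ, J ≤ M → M ≤ N → |∑ n ∈ Icc 1 M, vonMangoldt n - M| ≤ K)
    (hs0 : 0 ≤ s) (hs1 : s ≤ 1) :
    |∑ n ∈ Icc 1 N, vonMangoldt n *
      (Set.Ici |lam * Real.log (n / x)|).indicator (fun _ => (1 : ℝ)) s - 2 * x * s / lam| ≤
      2 * K + 2 + x / lam ^ 3 := by
  have hJr : (3 : ℝ) ≤ J := by exact_mod_cast hJ
  have hJ3 : (0 : ℝ) < (J : ℝ) ^ 3 := by positivity
  have hx0 : 0 < x := lt_of_lt_of_le hJ3 hx1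
  have hl0 : 0 < lam := by linarith
  set y : ℝ := s / lam with hy
  have hy0 : 0 ≤ y := div_nonneg hs0 hl0.le
  have hy1 : y ≤ 1 / 10 := by
    rw [hy, div_le_div_iff₀ hl0 (by norm_num)]
    linarith
  have he1 : Real.exp y ≤ 1.2 := by
    have h := Real.exp_bound' hy0 (by linarith : y ≤ 1) (n := 2) (by norm_num)
    simp only [Finset.sum_range_succ, Finset.sum_range_zero, Nat.factorial, Nat.succ_eq_add_one,
      pow_zero, pow_one, Nat.cast_one, Nat.cast_ofNat, zero_add] at h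
    norm_num at h
    nlinarith
  have he2 : 0.9 ≤ Real.exp (-y) := by
    have := Real.add_one_le_exp (-y)
    linarith
  set a : ℕ := ⌈x * Real.exp (-y)⌉₊ with ha
  set b : ℕ := ⌊x * Real.exp y⌋₊ with hb
  have hxa : x * 0.9 ≤ x * Real.exp (-y) := mul_le_mul_of_nonneg_left he2 hx0.le
  have hxb : x * Real.exp y ≤ x * 1.2 := mul_le_mul_of_nonneg_left he1 hx0.le
  have hJ2 : (J : ℝ) + 1 ≤ 0.9 * (J : ℝ) ^ 3 := by nlinarith [sq_nonneg ((J : ℝ) - 1)]
  have haJ : J + 1 ≤ a := by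
    have : ((J + 1 : ℕ) : ℝ) ≤ x * Real.exp (-y) := by
      push_cast
      linarith
    exact Nat.cast_le.1 (this.trans (Nat.le_ceil _))
  have hmono : x * Real.exp (-y) ≤ x * Real.exp y :=
    mul_le_mul_of_nonneg_left (Real.exp_le_exp.2 (by linarith)) hx0.le
  have hbN : b ≤ N := by
    have h1 : (b : ℝ) ≤ x * Real.exp y := Nat.floor_le (by positivity)
    have h2 : x * 1.2 ≤ ((27 * J ^ 3 : ℕ) : ℝ) := by
      push_cast
      linarith
    rw [hN]
    exact_mod_cast (h1.trans (hxb.trans h2))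
  have hb1 : (b : ℝ) ≤ x * Real.exp y := Nat.floor_le (by positivity)
  have hb2 : x * Real.exp y < b + 1 := Nat.lt_floor_add_one _
  have ha1 : x * Real.exp (-y) ≤ a := Nat.le_ceil _
  have ha2 : (a : ℝ) < x * Real.exp (-y) + 1 := Nat.ceil_lt_add_one (by positivity)
  have hab : a ≤ b + 1 := by
    have : (a : ℝ) < b + 2 := by linarith
    have h : a < b + 2 := by exact_mod_cast this
    omega
  -- the condition
  have hcond : ∀ n ∈ Icc 1 N, (s ∈ Set.Ici |lam * Real.log (n / x)|) ↔ (a ≤ n ∧ n ≤ b) := by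
    intro n hn
    have hn1 : 1 ≤ n := (Finset.mem_Icc.1 hn).1
    have hnr : (0 : ℝ) < n := by exact_mod_cast hn1
    have hnx : 0 < (n : ℝ) / x := by positivity
    rw [Set.mem_Ici, abs_mul, abs_of_pos hl0, mul_comm, ← le_div_iff₀ hl0, ← hy, abs_le,
      Real.le_log_iff_exp_le hnx, Real.log_le_iff_le_exp hnx, le_div_iff₀ hx0, div_le_iff₀ hx0,
      ha, hb, Nat.ceil_le, Nat.le_floor_iff (by positivity), mul_comm (Real.exp (-y)) x,
      mul_comm (Real.exp y) x]
  have hF : ∑ n ∈ Icc 1 N, vonMangoldt n *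
      (Set.Ici |lam * Real.log (n / x)|).indicator (fun _ => (1 : ℝ)) s =
      ∑ n ∈ Icc 1 b, vonMangoldt n - ∑ n ∈ Icc 1 (a - 1), vonMangoldt n := by
    have h1 : ∑ n ∈ Icc 1 N, vonMangoldt n *
        (Set.Ici |lam * Real.log (n / x)|).indicator (fun _ => (1 : ℝ)) s =
        ∑ n ∈ (Icc 1 N).filter (fun n => a ≤ n ∧ n ≤ b), vonMangoldt n := by
      rw [Finset.sum_filter]
      apply Finset.sum_congr rfl
      intro n hn
      by_cases h : a ≤ n ∧ n ≤ b
      · rw [if_pos h, Set.indicator_of_mem ((hcond n hn).2 h), mul_one]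
      · rw [if_neg h, Set.indicator_of_notMem (fun h' => h ((hcond n hn).1 h')), mul_zero]
    have h2 : (Icc 1 N).filter (fun n => a ≤ n ∧ n ≤ b) = Ioc (a - 1) b := by
      ext n
      rw [Finset.mem_filter, Finset.mem_Icc, Finset.mem_Ioc]
      omega
    have h3 : Icc 1 b = Ioc 0 b := by
      ext n
      rw [Finset.mem_Icc, Finset.mem_Ioc]
      omega
    have h4 : Icc 1 (a - 1) = Ioc 0 (a - 1) := by
      ext n
      rw [Finset.mem_Icc, Finset.mem_Ioc]
      omega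
    rw [h1, h2, h3, h4, eq_sub_iff_add_eq, add_comm,
      Finset.sum_Ioc_consecutive (fun n => vonMangoldt n) (Nat.zero_le _) (by omega)]
  have hKb := hK b (by omega) hbN
  have hKa := hK (a - 1) (by omega) (by omega)
  have hacast : ((a - 1 : ℕ) : ℝ) = a - 1 := by
    rw [Nat.cast_sub (by omega)]
    simp
  rw [hacast] at hKa
  have hsinh := m1a_sinh y hy0 (by linarith)
  have hy3 : x * y ^ 3 ≤ x / lam ^ 3 := by
    rw [div_eq_mul_one_div x]
    apply mul_le_mul_of_nonneg_left _ hx0.le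
    rw [hy, div_pow]
    apply div_le_div_of_nonneg_right _ (by positivity)
    exact pow_le_one₀ hs0 hs1
  have hmain : 2 * x * s / lam = 2 * x * y := by
    rw [hy]
    ring
  have hS : |x * Real.exp y - x * Real.exp (-y) - 2 * x * y| ≤ x / lam ^ 3 := by
    have h : x * Real.exp y - x * Real.exp (-y) - 2 * x * y =
        x * (Real.exp y - Real.exp (-y) - 2 * y) := by ring
    rw [h, abs_mul, abs_of_pos hx0]
    exact (mul_le_mul_of_nonneg_left hsinh hx0.le).trans hy3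
  rw [hF, hmain]
  rw [abs_le] at hKa hKb hS ⊢
  constructor <;> linarith [hKa.1, hKa.2, hKb.1, hKb.2, hS.1, hS.2]

/-- the sum over a long window -/
private theorem m1a_sum (x lam K : ℝ) (N J : ℕ) (hlam : 10 ≤ lam) (hJ : 3 ≤ J)
    (hx1 : (J : ℝ) ^ 3 ≤ x) (hx2 : x ≤ (125 / 8) * (J : ℝ) ^ 3) (hN : N = 27 * J ^ 3)
    (hK : ∀ M : ℕ, J ≤ M → M ≤ N → |∑ n ∈ Icc 1 M, vonMangoldt n - M| ≤ K) :
    |∑ n ∈ Icc 1 N, vonMangoldt n * tri (lam * Real.log (n / x)) - x / lam| ≤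
      2 * K + 2 + x / lam ^ 3 := by
  have h1 : ∑ n ∈ Icc 1 N, vonMangoldt n * tri (lam * Real.log (n / x)) =
      ∫ s in Set.Icc (0 : ℝ) 1, ∑ n ∈ Icc 1 N, vonMangoldt n *
        (Set.Ici |lam * Real.log (n / x)|).indicator (fun _ => (1 : ℝ)) s := by
    rw [MeasureTheory.integral_finsetSum]
    · apply Finset.sum_congr rfl
      intro n _
      rw [m1a_tri, MeasureTheory.integral_const_mul]
    · intro n _
      exact (m1a_int _).const_mul _
  have h2 : x / lam = ∫ s in Set.Icc (0 : ℝ) 1, 2 * x * s / lam := by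
    rw [MeasureTheory.integral_Icc_eq_integral_Ioc, ← intervalIntegral.integral_of_le zero_le_one]
    have : ∀ s : ℝ, 2 * x * s / lam = (2 * x / lam) * s := fun s => by ring
    simp only [this]
    rw [intervalIntegral.integral_const_mul, integral_id]
    ring
  have hint1 : MeasureTheory.IntegrableOn (fun s => ∑ n ∈ Icc 1 N, vonMangoldt n *
        (Set.Ici |lam * Real.log (n / x)|).indicator (fun _ => (1 : ℝ)) s)
        (Set.Icc (0 : ℝ) 1) := by
    apply MeasureTheory.integrable_finsetSum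
    intro n _
    exact (m1a_int _).const_mul _
  have hint2 : MeasureTheory.IntegrableOn (fun s : ℝ => 2 * x * s / lam) (Set.Icc (0 : ℝ) 1) := by
    apply ContinuousOn.integrableOn_Icc
    fun_prop
  rw [h1, h2, ← MeasureTheory.integral_sub hint1 hint2]
  have h3 := MeasureTheory.norm_setIntegral_le_of_norm_le_const (μ := MeasureTheory.volume)
    (s := Set.Icc (0 : ℝ) 1)
    (f := fun s => ∑ n ∈ Icc 1 N, vonMangoldt n *
        (Set.Ici |lam * Real.log (n / x)|).indicator (fun _ => (1 : ℝ)) s - 2 * x * s / lam)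
    (C := 2 * K + 2 + x / lam ^ 3) (by simp) (fun s hs => by
      rw [Real.norm_eq_abs]
      exact m1a_one x lam K s N J hlam hJ hx1 hx2 hN hK hs.1 hs.2)
  rw [Real.norm_eq_abs, Real.volume_real_Icc] at h3
  simpa using h3

private theorem m1a_ev (E : ℕ) (C : ℝ) : ∀ᶠ J : ℕ in atTop, 3 ≤ J ∧ 10 ≤ Real.log J ∧
    54 * |C| + 2 ≤ Real.log J ∧ 2 * (Real.log J) ^ (E + 2) ≤ (J : ℝ) ^ 3 := by
  have h1 : ∀ᶠ x : ℝ in atTop, (Real.log x) ^ (E + 2) ≤ 0.5 * x := by
    have h := (Real.isLittleO_pow_log_id_atTop (n := E + 2)).def (c := 0.5) (by norm_num)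
    filter_upwards [h, eventually_ge_atTop 1] with x hx hx1
    have h2 : ‖(Real.log x) ^ (E + 2)‖ = (Real.log x) ^ (E + 2) :=
      Real.norm_of_nonneg (pow_nonneg (Real.log_nonneg hx1) _)
    rw [h2] at hx
    simpa [abs_of_nonneg (by linarith : (0 : ℝ) ≤ x)] using hx
  have h2 : ∀ᶠ x : ℝ in atTop, 10 ≤ Real.log x := Real.tendsto_log_atTop.eventually_ge_atTop _
  have h3 : ∀ᶠ x : ℝ in atTop, 54 * |C| + 2 ≤ Real.log x :=
    Real.tendsto_log_atTop.eventually_ge_atTop _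
  have k1 := (tendsto_natCast_atTop_atTop (R := ℝ)).eventually h1
  have k2 := (tendsto_natCast_atTop_atTop (R := ℝ)).eventually h2
  have k3 := (tendsto_natCast_atTop_atTop (R := ℝ)).eventually h3
  filter_upwards [k1, k2, k3, eventually_ge_atTop 3] with J hJ1 hJ2 hJ3 hJ4
  have hJr : (3 : ℝ) ≤ J := by exact_mod_cast hJ4
  refine ⟨hJ4, hJ2, hJ3, ?_⟩
  calc 2 * (Real.log J) ^ (E + 2) ≤ 2 * (0.5 * J) := by linarith
    _ = (J : ℝ) := by ring
    _ ≤ (J : ℝ) ^ 3 := by nlinarith [sq_nonneg ((J : ℝ) - 1)]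

theorem p_m1a : S_m1a := by
  intro hPNT E hE
  obtain ⟨C, hC⟩ := hPNT (E + 2)
  filter_upwards [m1a_ev E C] with J hJ
  obtain ⟨hJ3, hL10, hLC, hLE⟩ := hJ
  intro j hj
  have hJr : (3 : ℝ) ≤ J := by exact_mod_cast hJ3
  set L : ℝ := Real.log J with hL
  have hL0 : 0 < L := by linarith
  set lam : ℝ := L ^ E with hlamdef
  have hlam : L ≤ lam := by
    rw [hlamdef]
    exact le_self_pow₀ (by linarith) (by omega)
  have hlam0 : 0 < lam := by linarith
  have hj1 : (J : ℝ) ≤ j := by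
    have := (Finset.mem_Ioc.1 hj).1
    exact_mod_cast this.le
  have hj2 : (j : ℝ) ≤ 2 * J := by
    have := (Finset.mem_Ioc.1 hj).2
    exact_mod_cast this
  have hx1 : (J : ℝ) ^ 3 ≤ xj j := by
    unfold xj
    apply pow_le_pow_left₀ (by linarith)
    linarith
  have hx2 : xj j ≤ (125 / 8) * (J : ℝ) ^ 3 := by
    unfold xj
    have : ((j : ℝ) + 1 / 2) ^ 3 ≤ (5 / 2 * J) ^ 3 := by
      apply pow_le_pow_left₀ (by positivity)
      linarith
    calc _ ≤ (5 / 2 * (J : ℝ)) ^ 3 := this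
      _ = (125 / 8) * (J : ℝ) ^ 3 := by ring
  have hx0 : 0 < xj j := lt_of_lt_of_le (by positivity) hx1
  set K : ℝ := |C| * (27 * (J : ℝ) ^ 3) / L ^ (E + 2) with hK
  have hKb : ∀ M : ℕ, J ≤ M → M ≤ 27 * J ^ 3 → |∑ n ∈ Icc 1 M, vonMangoldt n - M| ≤ K := by
    intro M hM1 hM2
    have hMr : (J : ℝ) ≤ M := by exact_mod_cast hM1
    have hMr2 : (M : ℝ) ≤ 27 * (J : ℝ) ^ 3 := by exact_mod_cast hM2
    have hLM : L ≤ Real.log M := Real.log_le_log (by linarith) hMr
    refine (hC M (by omega)).trans ?_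
    rw [hK]
    have h1 : C * M ≤ |C| * (27 * (J : ℝ) ^ 3) :=
      mul_le_mul (le_abs_self C) hMr2 (by linarith) (abs_nonneg C)
    have h2 : L ^ (E + 2) ≤ (Real.log M) ^ (E + 2) := pow_le_pow_left₀ hL0.le hLM _
    calc C * M / (Real.log M) ^ (E + 2) ≤ |C| * (27 * (J : ℝ) ^ 3) / (Real.log M) ^ (E + 2) :=
          div_le_div_of_nonneg_right h1 (by positivity)
      _ ≤ |C| * (27 * (J : ℝ) ^ 3) / L ^ (E + 2) :=
          div_le_div_of_nonneg_left (by positivity) (by positivity) h2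
  have hmain := m1a_sum (xj j) lam K (27 * J ^ 3) J (by linarith) hJ3 hx1 hx2 rfl hKb
  have hsum : ∑ n ∈ Icc 1 (27 * J ^ 3), vonMangoldt n * wL lam j n =
      ∑ n ∈ Icc 1 (27 * J ^ 3), vonMangoldt n * tri (lam * Real.log (n / xj j)) := rfl
  rw [hsum]
  have h1 : lam * ∑ n ∈ Icc 1 (27 * J ^ 3), vonMangoldt n * tri (lam * Real.log (n / xj j)) - xj j
      = lam * (∑ n ∈ Icc 1 (27 * J ^ 3), vonMangoldt n * tri (lam * Real.log (n / xj j))
        - xj j / lam) := by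
    field_simp
  rw [h1, abs_mul, abs_of_pos hlam0]
  refine (mul_le_mul_of_nonneg_left hmain hlam0.le).trans ?_
  have e1 : lam * (2 * K) = 54 * |C| * (J : ℝ) ^ 3 / L ^ 2 := by
    rw [hK, hlamdef, pow_add]
    field_simp
    ring
  have e2 : lam * 2 ≤ (J : ℝ) ^ 3 / L ^ 2 := by
    rw [le_div_iff₀ (by positivity), hlamdef]
    calc L ^ E * 2 * L ^ 2 = 2 * L ^ (E + 2) := by
          rw [pow_add]
          ring
      _ ≤ _ := hLE
  have e3 : lam * (xj j / lam ^ 3) ≤ xj j / L ^ 2 := by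
    have : lam * (xj j / lam ^ 3) = xj j / lam ^ 2 := by
      field_simp
    rw [this]
    apply div_le_div_of_nonneg_left hx0.le (by positivity)
    exact pow_le_pow_left₀ hL0.le hlam 2
  have e4 : 54 * |C| * (J : ℝ) ^ 3 / L ^ 2 ≤ 54 * |C| * xj j / L ^ 2 := by
    apply div_le_div_of_nonneg_right _ (by positivity)
    exact mul_le_mul_of_nonneg_left hx1 (by positivity)
  have e5 : (J : ℝ) ^ 3 / L ^ 2 ≤ xj j / L ^ 2 := div_le_div_of_nonneg_right hx1 (by positivity)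
  have e6 : (54 * |C| + 2) * xj j / L ^ 2 ≤ xj j / L := by
    rw [div_le_div_iff₀ (by positivity) hL0]
    calc (54 * |C| + 2) * xj j * L ≤ L * xj j * L := by
          apply mul_le_mul_of_nonneg_right _ hL0.le
          exact mul_le_mul_of_nonneg_right hLC hx0.le
      _ = xj j * L ^ 2 := by ring
  have e7 : (54 * |C| + 2) * xj j / L ^ 2 =
      54 * |C| * xj j / L ^ 2 + xj j / L ^ 2 + xj j / L ^ 2 := by ring
  rw [mul_add, mul_add]
  linarith

end Pool.Agent.CH.D
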