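import Pool.Agent.Lib.MP_d610d0_nt.CH.D.Stm

set_option autoImplicit false

/-!
Piece rro.
-/

namespace Pool.Agent.CH.D

open Finset Filter
open ArithmeticFunction (vonMangoldt)
open Pool.Agent.MP89da58 (tri primChars)
open Pool.Agent.BVall (boxL)
open Pool.Agent.CH.V (pz ex)
open Pool.Agent.CH.P (R_PW R_PNT)

theorem p_rro : S_rro := by
  intro z n hn hne p hp hpn
  have h1 : ∃ k ∈ Icc 4 7, Rk z k n ≠ 0 := by
    by_contra hcon
    push Not at hcon
    exact hne (Finset.sum_eq_zero hcon)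
  obtain ⟨k, -, hk⟩ := h1
  have h2 : ((Fintype.piFinset (fun _ : Fin k => (range (n + 1)).filter
      (fun p : ℕ => p.Prime ∧ z ≤ p))).filter (fun q => ∏ i, q i = n)).Nonempty := by
    by_contra hcon
    rw [Finset.not_nonempty_iff_eq_empty] at hcon
    apply hk
    unfold Rk
    rw [hcon]
    simp
  obtain ⟨q, hq⟩ := h2
  rw [Finset.mem_filter, Fintype.mem_piFinset] at hq
  obtain ⟨hq1, hq2⟩ := hq
  rw [← hq2] at hpn
  obtain ⟨i, -, hi⟩ := (Prime.dvd_finsetProd_iff hp.prime _).1 hpn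
  have h3 := hq1 i
  rw [Finset.mem_filter] at h3
  have h4 : p = q i := (Nat.prime_dvd_prime_iff_eq hp h3.2.1).1 hi
  rw [h4]
  exact h3.2.2

end Pool.Agent.CH.D
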