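import Pool.Agent.Lib.MP_d610d0_nt.CH.D.Stm

set_option autoImplicit false

/-!
Piece vau.
-/

namespace Pool.Agent.CH.D

open Finset Filter
open ArithmeticFunction (vonMangoldt)
open Pool.Agent.MP89da58 (tri primChars)
open Pool.Agent.BVall (boxL)
open Pool.Agent.CH.V (pz ex)
open Pool.Agent.CH.P (R_PW R_PNT)

open Pool.Agent.MP89da58 (trunc trunc_apply sum_dA card_divisors_eq_sum)

private theorem vau_sub (f g : ArithmeticFunction ℝ) (n : ℕ) : (f - g) n = f n - g n := by
  rw [sub_eq_add_neg, ArithmeticFunction.add_apply, ArithmeticFunction.neg_apply, sub_eq_add_neg]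

private theorem vau_moeb (n : ℕ) :
    |((ArithmeticFunction.moebius : ArithmeticFunction ℝ) n : ℝ)| ≤ 1 := by
  rw [ArithmeticFunction.intCoe_apply]
  have := ArithmeticFunction.abs_moebius_le_one (n := n)
  exact_mod_cast this

private theorem vau_id (U V : ℕ) : (vonMangoldt : ArithmeticFunction ℝ) =
    trunc U vonMangoldt + trunc V (ArithmeticFunction.moebius : ArithmeticFunction ℝ) *
        ArithmeticFunction.log
      - (trunc V (ArithmeticFunction.moebius : ArithmeticFunction ℝ) * trunc U vonMangoldt) *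
          (ArithmeticFunction.zeta : ArithmeticFunction ℝ)
      + (vonMangoldt - trunc U vonMangoldt) *
        (((ArithmeticFunction.moebius : ArithmeticFunction ℝ) -
          trunc V (ArithmeticFunction.moebius : ArithmeticFunction ℝ)) *
          (ArithmeticFunction.zeta : ArithmeticFunction ℝ)) := by
  have h1 : (ArithmeticFunction.moebius : ArithmeticFunction ℝ) *
      (ArithmeticFunction.zeta : ArithmeticFunction ℝ) = 1 :=
    ArithmeticFunction.coe_moebius_mul_coe_zeta
  rw [← ArithmeticFunction.vonMangoldt_mul_zeta]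
  set M := trunc V (ArithmeticFunction.moebius : ArithmeticFunction ℝ)
  set L1 := trunc U vonMangoldt
  linear_combination (-(vonMangoldt - L1)) * h1

private theorem vau_conv (w : ℕ → ℂ) (X : ℕ) (hw : ∀ n, X < n → w n = 0)
    (f g : ArithmeticFunction ℝ) :
    ∑ n ∈ Icc 1 X, (((f * g) n : ℝ) : ℂ) * w n =
      ∑ d ∈ Icc 1 X, ∑ m ∈ Icc 1 X, (f d : ℂ) * (g m : ℂ) * w (d * m) := by
  have h1 : ∀ n ∈ Icc 1 X, (((f * g) n : ℝ) : ℂ) * w n =
      ∑ x ∈ n.divisorsAntidiagonal, (f x.1 : ℂ) * (g x.2 : ℂ) * w (x.1 * x.2) := by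
    intro n _
    rw [ArithmeticFunction.mul_apply]
    push_cast
    rw [sum_mul]
    apply sum_congr rfl
    intro x hx
    rw [Nat.mem_divisorsAntidiagonal] at hx
    rw [hx.1]
  rw [sum_congr rfl h1, sum_dA (fun a b : ℕ => (f a : ℂ) * (g b : ℂ) * w (a * b))]
  apply sum_congr rfl
  intro d hd
  apply sum_congr rfl
  intro m hm
  split_ifs with h
  · rfl
  · rw [hw _ (not_le.1 h), mul_zero]

theorem p_vau : S_vau := by
  intro U V X
  set M : ArithmeticFunction ℝ := trunc V (ArithmeticFunction.moebius : ArithmeticFunction ℝ)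
    with hM
  set L1 : ArithmeticFunction ℝ := trunc U vonMangoldt with hL1
  have hMle : ∀ d, |M d| ≤ 1 := by
    intro d
    rw [hM, trunc_apply]
    split_ifs
    · exact vau_moeb d
    · simp
  have hM0 : ∀ d, V < d → M d = 0 := by
    intro d hd
    rw [hM, trunc_apply, if_neg (by omega)]
  have hL0 : ∀ d, 0 ≤ L1 d ∧ L1 d ≤ vonMangoldt d := by
    intro d
    rw [hL1, trunc_apply]
    split_ifs
    · exact ⟨ArithmeticFunction.vonMangoldt_nonneg, le_rfl⟩
    · exact ⟨le_rfl, ArithmeticFunction.vonMangoldt_nonneg⟩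
  have hL1' : ∀ d, U < d → L1 d = 0 := by
    intro d hd
    rw [hL1, trunc_apply, if_neg (by omega)]
  have hsubM : ∀ d, ((ArithmeticFunction.moebius : ArithmeticFunction ℝ) - M) d =
      if d ≤ V then 0 else (ArithmeticFunction.moebius : ArithmeticFunction ℝ) d := by
    intro d
    rw [vau_sub, hM, trunc_apply]
    split_ifs <;> simp
  set b : ArithmeticFunction ℝ := ((ArithmeticFunction.moebius : ArithmeticFunction ℝ) - M) *
    (ArithmeticFunction.zeta : ArithmeticFunction ℝ) with hb
  set a : ArithmeticFunction ℝ := vonMangoldt - L1 with ha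
  have haeq : ∀ d, a d = if U < d then vonMangoldt d else 0 := by
    intro d
    rw [ha, vau_sub, hL1, trunc_apply]
    by_cases h : d ≤ U
    · rw [if_pos h, if_neg (not_lt.2 h), sub_self]
    · rw [if_neg h, if_pos (not_le.1 h), sub_zero]
  refine ⟨fun n => M n, fun n => (M * L1) n, fun n => b n, hMle, hM0, ?_, ?_, ?_, ?_, ?_⟩
  · intro d _
    show |(M * L1) d| ≤ Real.log d
    rw [ArithmeticFunction.mul_apply]
    refine (abs_sum_le_sum_abs _ _).trans ?_
    calc ∑ x ∈ d.divisorsAntidiagonal, |M x.1 * L1 x.2|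
        ≤ ∑ x ∈ d.divisorsAntidiagonal, vonMangoldt x.2 := by
          apply sum_le_sum
          intro x _
          rw [abs_mul, abs_of_nonneg (hL0 x.2).1]
          calc |M x.1| * L1 x.2 ≤ 1 * L1 x.2 :=
                mul_le_mul_of_nonneg_right (hMle _) (hL0 _).1
            _ ≤ vonMangoldt x.2 := by rw [one_mul]; exact (hL0 _).2
      _ = ∑ i ∈ d.divisors, vonMangoldt i := by
          rw [← Nat.map_div_left_divisors, sum_map]
          rfl
      _ = Real.log d := ArithmeticFunction.vonMangoldt_sum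
  · intro d hd
    show (M * L1) d = 0
    rw [ArithmeticFunction.mul_apply]
    apply sum_eq_zero
    intro x hx
    rw [Nat.mem_divisorsAntidiagonal] at hx
    by_cases h1 : V < x.1
    · rw [hM0 _ h1, zero_mul]
    · by_cases h2 : U < x.2
      · rw [hL1' _ h2, mul_zero]
      · exfalso
        have h3 : x.1 * x.2 ≤ V * U := Nat.mul_le_mul (by omega) (by omega)
        rw [hx.1, mul_comm V U] at h3
        omega
  · intro d
    show |b d| ≤ d.divisors.card
    rw [hb, ArithmeticFunction.mul_apply, card_divisors_eq_sum]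
    refine (abs_sum_le_sum_abs _ _).trans (sum_le_sum fun x hx => ?_)
    rw [abs_mul, hsubM]
    have h1 : |(ArithmeticFunction.zeta : ArithmeticFunction ℝ) x.2| ≤ 1 := by
      rw [ArithmeticFunction.natCoe_apply, ArithmeticFunction.zeta_apply]
      split_ifs <;> simp
    have h2 : |(if x.1 ≤ V then (0 : ℝ) else
        (ArithmeticFunction.moebius : ArithmeticFunction ℝ) x.1)| ≤ 1 := by
      split_ifs
      · simp
      · exact vau_moeb x.1
    exact mul_le_one₀ h2 (abs_nonneg _) h1
  · intro d hd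
    show b d = 0
    rw [hb, ArithmeticFunction.mul_apply]
    apply sum_eq_zero
    intro x hx
    rw [Nat.mem_divisorsAntidiagonal] at hx
    have h1 : x.1 ≤ d := Nat.le_of_dvd (Nat.pos_of_ne_zero hx.2) (Dvd.intro _ hx.1)
    rw [hsubM, if_pos (by omega), zero_mul]
  · intro w hwU hwX
    have hvau : (vonMangoldt : ArithmeticFunction ℝ) =
      L1 + M * ArithmeticFunction.log - (M * L1) *
        (ArithmeticFunction.zeta : ArithmeticFunction ℝ) + a * b := vau_id U V
    have e1 : ∑ m ∈ Icc 1 X, ∑ n ∈ Icc 1 X, (M m : ℂ) * (Real.log n : ℂ) * w (m * n) =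
        ∑ n ∈ Icc 1 X, (((M * ArithmeticFunction.log) n : ℝ) : ℂ) * w n := by
      rw [vau_conv w X hwX]
      apply sum_congr rfl
      intro m _
      apply sum_congr rfl
      intro n _
      rw [ArithmeticFunction.log_apply]
    have e2 : ∑ m ∈ Icc 1 X, ∑ n ∈ Icc 1 X, ((M * L1) m : ℂ) * w (m * n) =
        ∑ n ∈ Icc 1 X, ((((M * L1) *
          (ArithmeticFunction.zeta : ArithmeticFunction ℝ)) n : ℝ) : ℂ) * w n := by
      rw [vau_conv w X hwX]
      apply sum_congr rfl
      intro m _
      apply sum_congr rfl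
      intro n hn
      rw [mem_Icc] at hn
      rw [ArithmeticFunction.natCoe_apply, ArithmeticFunction.zeta_apply, if_neg (by omega)]
      simp
    have e3 : ∑ m ∈ Icc 1 X, ∑ n ∈ Icc 1 X,
        ((if U < m then vonMangoldt m else 0 : ℝ) : ℂ) * (b n : ℂ) * w (m * n) =
        ∑ n ∈ Icc 1 X, (((a * b) n : ℝ) : ℂ) * w n := by
      rw [vau_conv w X hwX]
      apply sum_congr rfl
      intro m _
      apply sum_congr rfl
      intro n _
      rw [haeq]
    show _ = ∑ m ∈ Icc 1 X, ∑ n ∈ Icc 1 X, (M m : ℂ) * (Real.log n : ℂ) * w (m * n)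
      - ∑ m ∈ Icc 1 X, ∑ n ∈ Icc 1 X, ((M * L1) m : ℂ) * w (m * n)
      + ∑ m ∈ Icc 1 X, ∑ n ∈ Icc 1 X,
        ((if U < m then vonMangoldt m else 0 : ℝ) : ℂ) * (b n : ℂ) * w (m * n)
    rw [e1, e2, e3, ← sum_sub_distrib, ← sum_add_distrib]
    apply sum_congr rfl
    intro n _
    have h1 : vonMangoldt n = L1 n + (M * ArithmeticFunction.log) n - ((M * L1) *
        (ArithmeticFunction.zeta : ArithmeticFunction ℝ)) n + (a * b) n := by
      conv_lhs => rw [hvau]
      rw [ArithmeticFunction.add_apply, vau_sub, ArithmeticFunction.add_apply]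
    have h2 : (L1 n : ℂ) * w n = 0 := by
      by_cases h : n ≤ U
      · rw [hwU n h, mul_zero]
      · rw [hL1' n (by omega)]
        simp
    rw [h1]
    push_cast
    linear_combination h2

end Pool.Agent.CH.D
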